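import Mathlib

/-! Translates of a monic centred polynomial with a large critical point: first estimates. -/

set_option autoImplicit false

open Polynomial Filter Topology

namespace Pool.Agent.J4.H85.AD

/-- The orbit of `z` under `f` escapes. -/
def Esc (f : ℂ[X]) (z : ℂ) : Prop :=
  Tendsto (fun k : ℕ => ‖(fun w : ℂ => f.eval w)^[k] z‖) atTop atTop

/-- All critical points escape. -/
def AllEsc (f : ℂ[X]) : Prop := ∀ c : ℂ, (derivative f).eval c = 0 → Esc f c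

theorem esc_of {f : ℂ[X]} {R : ℝ} (hR : 0 ≤ R) (h : ∀ z : ℂ, R < ‖z‖ → 2 * ‖z‖ ≤ ‖f.eval z‖)
    {z : ℂ} {k : ℕ} (hk : R < ‖(fun w : ℂ => f.eval w)^[k] z‖) : Esc f z := by
  set g : ℂ → ℂ := fun w : ℂ => f.eval w with hg
  set y := g^[k] z with hy
  have key : ∀ j : ℕ, R < ‖g^[j] y‖ ∧ 2 ^ j * ‖y‖ ≤ ‖g^[j] y‖ := by
    intro j
    induction j with
    | zero => simpa using hk
    | succ j ih =>
      have h1 : 2 * ‖g^[j] y‖ ≤ ‖g^[j+1] y‖ := by
        rw [Function.iterate_succ_apply']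
        exact h _ ih.1
      constructor
      · linarith [ih.1]
      · rw [pow_succ]
        linarith [ih.2]
  have hypos : 0 < ‖y‖ := lt_of_le_of_lt hR hk
  have h2 : Tendsto (fun j : ℕ => ‖g^[j] y‖) atTop atTop := by
    refine tendsto_atTop_mono (fun j => (key j).2) ?_
    exact (tendsto_pow_atTop_atTop_of_one_lt (by norm_num : (1 : ℝ) < 2)).atTop_mul_const hypos
  unfold Esc
  rw [← tendsto_add_atTop_iff_nat k]
  refine h2.congr fun j => ?_
  rw [Function.iterate_add_apply]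

/-- Coefficient bounds from the critical points. -/
theorem coeff_bound {T : ℂ[X]} {d : ℕ} (hd : T.natDegree = d) (hd1 : 1 ≤ d) (hm : T.Monic) {ρ : ℝ}
    (hρ0 : 0 ≤ ρ)
    (hρ : ∀ c : ℂ, (derivative T).eval c = 0 → ‖c‖ ≤ ρ) {j : ℕ} (hj : 1 ≤ j) (hjd : j ≤ d) :
    ‖T.coeff j‖ ≤ d * 2 ^ d * ρ ^ (d - j) := by
  have hd0 : (d : ℂ) ≠ 0 := by exact_mod_cast (by omega : d ≠ 0)
  have hdr : (0 : ℝ) < d := by exact_mod_cast (by omega : 0 < d)
  have hdT : (derivative T).natDegree = d - 1 := by rw [natDegree_derivative, hd]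
  have hlc : (derivative T).coeff (d - 1) = d := by
    rw [coeff_derivative]
    have : d - 1 + 1 = d := by omega
    rw [this]
    have h1 : T.coeff d = 1 := by rw [← hd]; exact hm
    rw [h1, one_mul]
    have : ((d - 1 : ℕ) : ℂ) + 1 = d := by
      rw [← Nat.cast_add_one]; congr 1
    exact this
  set p : ℂ[X] := C ((d : ℂ)⁻¹) * derivative T with hp
  have hpd : p.natDegree = d - 1 := by
    rw [hp, natDegree_C_mul (inv_ne_zero hd0), hdT]
  have hpm : p.Monic := by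
    rw [Monic, leadingCoeff, hpd, hp, coeff_C_mul, hlc, inv_mul_cancel₀ hd0]
  have hmap : p.map (RingHom.id ℂ) = p := Polynomial.map_id
  have h := coeff_le_of_roots_le (p := p) (f := RingHom.id ℂ) (B := ρ) (j - 1) hpm
    (IsAlgClosed.splits _) (by
      intro z hz
      rw [hmap] at hz
      apply hρ
      have := (mem_roots'.1 hz).2
      rw [IsRoot.def, hp, eval_mul, eval_C, mul_eq_zero] at this
      rcases this with h | h
      · exact absurd h (inv_ne_zero hd0)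
      · exact h)
  rw [hmap, hpd, hp, coeff_C_mul, coeff_derivative] at h
  have e1 : j - 1 + 1 = j := by omega
  rw [e1] at h
  have e2 : ((j - 1 : ℕ) : ℂ) + 1 = j := by
    rw [← Nat.cast_add_one, e1]
  rw [e2] at h
  have e3 : d - 1 - (j - 1) = d - j := by omega
  rw [e3, norm_mul, norm_mul, norm_inv, Complex.norm_natCast, Complex.norm_natCast] at h
  have hch : ((d - 1).choose (j - 1) : ℝ) ≤ 2 ^ d := by
    have h1 : (d - 1).choose (j - 1) ≤ 2 ^ (d - 1) := Nat.choose_le_two_pow _ _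
    have h2 : (2 : ℕ) ^ (d - 1) ≤ 2 ^ d := Nat.pow_le_pow_right (by norm_num) (by omega)
    exact_mod_cast h1.trans h2
  have hj1 : (1 : ℝ) ≤ j := by exact_mod_cast hj
  have h3 : ‖T.coeff j‖ ≤ ‖T.coeff j‖ * j := le_mul_of_one_le_right (norm_nonneg _) hj1
  have h4 : ‖T.coeff j‖ * j ≤ d * (ρ ^ (d - j) * ((d - 1).choose (j - 1) : ℝ)) := by
    have := mul_le_mul_of_nonneg_left h hdr.le
    rwa [← mul_assoc, mul_inv_cancel₀ hdr.ne', one_mul] at this
  have h5 : ρ ^ (d - j) * ((d - 1).choose (j - 1) : ℝ) ≤ ρ ^ (d - j) * 2 ^ d :=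
    mul_le_mul_of_nonneg_left hch (by positivity)
  have h6 := mul_le_mul_of_nonneg_left h5 hdr.le
  nlinarith [h3, h4, h6]

/-- A monic polynomial with small lower coefficients is large far out. -/
theorem lower {Q : ℂ[X]} {d : ℕ} (hd : Q.natDegree = d) (hd1 : 1 ≤ d) (hm : Q.Monic) {A ρ : ℝ}
    (hA : 1 ≤ A) (hρ : 1 ≤ ρ) (hc : ∀ j < d, ‖Q.coeff j‖ ≤ A * ρ ^ (d - j)) {z : ℂ}
    (hz : 2 * d * A * ρ ≤ ‖z‖) : ‖z‖ ^ d / 2 ≤ ‖Q.eval z‖ := by
  have hdr : (1 : ℝ) ≤ d := by exact_mod_cast hd1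
  have hAρ : 1 ≤ A * ρ := one_le_mul_of_one_le_of_one_le hA hρ
  have hz0 : 0 < ‖z‖ := by
    have : 0 < 2 * d * A * ρ := by positivity
    linarith
  have hzρ : ρ ≤ ‖z‖ := by
    refine le_trans ?_ hz
    have h1 : 1 ≤ 2 * (d : ℝ) * A := by nlinarith
    nlinarith
  have hev : Q.eval z = z ^ d + ∑ j ∈ Finset.range d, Q.coeff j * z ^ j := by
    rw [eval_eq_sum_range, hd, Finset.sum_range_succ]
    have h1 : Q.coeff d = 1 := by rw [← hd]; exact hm
    rw [h1, one_mul, add_comm]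
  have hterm : ∀ j ∈ Finset.range d, ‖Q.coeff j * z ^ j‖ ≤ A * ρ * ‖z‖ ^ (d - 1) := by
    intro j hj
    have hj' := Finset.mem_range.1 hj
    rw [norm_mul, norm_pow]
    have h1 : ρ ^ (d - j) ≤ ρ * ‖z‖ ^ (d - j - 1) := by
      have e : d - j = (d - j - 1) + 1 := by omega
      calc ρ ^ (d - j) = ρ * ρ ^ (d - j - 1) := by rw [e, pow_succ]; simp [mul_comm]
        _ ≤ ρ * ‖z‖ ^ (d - j - 1) := by
          gcongr
    have h2 : ‖z‖ ^ (d - j - 1) * ‖z‖ ^ j = ‖z‖ ^ (d - 1) := by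
      rw [← pow_add]
      congr 1
      omega
    calc ‖Q.coeff j‖ * ‖z‖ ^ j ≤ (A * ρ ^ (d - j)) * ‖z‖ ^ j := by
          gcongr
          exact hc j hj'
      _ ≤ (A * (ρ * ‖z‖ ^ (d - j - 1))) * ‖z‖ ^ j := by gcongr
      _ = A * ρ * (‖z‖ ^ (d - j - 1) * ‖z‖ ^ j) := by ring
      _ = A * ρ * ‖z‖ ^ (d - 1) := by rw [h2]
  have hsum : ‖∑ j ∈ Finset.range d, Q.coeff j * z ^ j‖ ≤ d * (A * ρ * ‖z‖ ^ (d - 1)) := by
    refine (norm_sum_le _ _).trans ?_
    refine (Finset.sum_le_sum hterm).trans ?_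
    simp
  have h3 : d * (A * ρ * ‖z‖ ^ (d - 1)) ≤ ‖z‖ ^ d / 2 := by
    have e : ‖z‖ ^ d = ‖z‖ * ‖z‖ ^ (d - 1) := by
      conv_lhs => rw [show d = (d - 1) + 1 by omega, pow_succ]
      ring
    rw [e]
    have hp : 0 ≤ ‖z‖ ^ (d - 1) := by positivity
    nlinarith
  rw [hev]
  have h4 : ‖z ^ d‖ - ‖∑ j ∈ Finset.range d, Q.coeff j * z ^ j‖ ≤
      ‖z ^ d + ∑ j ∈ Finset.range d, Q.coeff j * z ^ j‖ := by
    have := norm_sub_norm_le (z ^ d) (-∑ j ∈ Finset.range d, Q.coeff j * z ^ j)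
    rwa [norm_neg, sub_neg_eq_add] at this
  rw [norm_pow] at h4
  linarith

end Pool.Agent.J4.H85.AD
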