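import Mathlib
import Pool.Agent.J4.H85.AD1

/-! Roots, far roots and the pigeonhole estimates. -/

set_option autoImplicit false

open Polynomial Filter Topology

namespace Pool.Agent.J4.H85.AD

theorem exists_roots {p : ℂ[X]} {d : ℕ} (hm : p.Monic) (hd : p.natDegree = d) :
    ∃ ζ : Fin d → ℂ, p = ∏ i, (X - C (ζ i)) := by
  have hs := IsAlgClosed.splits p
  have hc : Multiset.card p.roots = d := by
    rw [← hd]; exact hs.natDegree_eq_card_roots.symm
  have hp : p = (p.roots.map fun a => X - C a).prod := by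
    have := hs.eq_prod_roots
    rw [hm.leadingCoeff, C_1, one_mul] at this
    exact this
  obtain ⟨l, hl⟩ := Quot.exists_rep p.roots
  have hl' : (l : Multiset ℂ) = p.roots := hl
  rw [← hl'] at hp hc
  rw [Multiset.coe_card] at hc
  subst hc
  refine ⟨fun i => l[i.1], ?_⟩
  rw [hp, Multiset.map_coe, Multiset.prod_coe]
  exact (Fin.prod_univ_fun_getElem l (fun a => X - C a)).symm

theorem natDegree_pr {d : ℕ} (ζ : Fin d → ℂ) : (∏ i, (X - C (ζ i)) : ℂ[X]).natDegree = d := by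
  rw [natDegree_prod_of_monic _ _ fun i _ => monic_X_sub_C _]
  simp

theorem eval_pr {d : ℕ} (ζ : Fin d → ℂ) (z : ℂ) :
    ‖(∏ i, (X - C (ζ i)) : ℂ[X]).eval z‖ = ∏ i, ‖z - ζ i‖ := by
  rw [eval_prod, norm_prod]
  simp

/-- The centroid of the roots is `0`; if the roots are close to a point then all roots and all
critical points are close to `0`. -/
theorem close {d : ℕ} (hd : 1 ≤ d) (ζ : Fin d → ℂ)
    (h0 : (∏ i, (X - C (ζ i)) : ℂ[X]).coeff (d - 1) = 0) {w : ℂ} {r : ℝ}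
    (hr : ∀ i, ‖w - ζ i‖ < r) :
    ∀ c : ℂ, (derivative (∏ i, (X - C (ζ i)) : ℂ[X])).eval c = 0 → ‖c‖ < 2 * r := by
  have hsum : ∑ i, ζ i = 0 := by
    have h1 := prod_X_sub_C_coeff_card_pred (Finset.univ : Finset (Fin d)) ζ (by simpa using by omega)
    rw [Finset.card_univ, Fintype.card_fin, h0] at h1
    exact neg_eq_zero.1 h1.symm
  have hdr : (0 : ℝ) < d := by exact_mod_cast (by omega : 0 < d)
  have hw : ‖w‖ < r := by
    have h1 : ∑ i, (w - ζ i) = d * w := by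
      rw [Finset.sum_sub_distrib, hsum]
      simp
    have h2 : ‖∑ i, (w - ζ i)‖ < d * r := by
      refine (norm_sum_le _ _).trans_lt ?_
      have : ∑ i : Fin d, ‖w - ζ i‖ < ∑ _i : Fin d, r := by
        apply Finset.sum_lt_sum_of_nonempty
        · exact ⟨⟨0, by omega⟩, Finset.mem_univ _⟩
        · intro i _
          exact hr i
      simpa using this
    rw [h1, norm_mul, Complex.norm_natCast] at h2
    exact lt_of_mul_lt_mul_left h2 hdr.le
  have hz : ∀ i, ‖ζ i‖ < 2 * r := by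
    intro i
    have h1 : ‖ζ i‖ ≤ ‖w‖ + ‖w - ζ i‖ := by
      have := norm_sub_le w (w - ζ i)
      rwa [sub_sub_cancel] at this
    linarith [hr i]
  intro c hc
  set p : ℂ[X] := ∏ i, (X - C (ζ i)) with hp
  have hpd : p.natDegree = d := natDegree_pr ζ
  by_cases hd0 : derivative p = 0
  · exfalso
    have := Polynomial.derivative_eq_zero.1 hd0
    omega
  have hmem : c ∈ p.derivative.rootSet ℂ := by
    rw [mem_rootSet]
    exact ⟨hd0, by rw [coe_aeval_eq_eval]; exact hc⟩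
  have hdeg : 0 < p.degree := natDegree_pos_iff_degree_pos.1 (by omega)
  have h1 := rootSet_derivative_subset_convexHull_rootSet hdeg hmem
  have h2 : convexHull ℝ (p.rootSet ℂ) ⊆ Metric.ball (0 : ℂ) (2 * r) := by
    apply convexHull_min _ (convex_ball _ _)
    intro x hx
    rw [mem_rootSet, coe_aeval_eq_eval] at hx
    have hx2 := hx.2
    rw [hp, eval_prod] at hx2
    obtain ⟨i, -, hi⟩ := Finset.prod_eq_zero_iff.1 hx2
    rw [eval_sub, eval_X, eval_C, sub_eq_zero] at hi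
    rw [hi, mem_ball_zero_iff]
    exact hz i
  have := h2 h1
  rwa [mem_ball_zero_iff] at this

/-- The smallest factor of a product. -/
theorem min_factor {d : ℕ} (hd : 1 ≤ d) (x : Fin d → ℝ) (hx : ∀ i, 0 ≤ x i) :
    ∃ i, (∀ l, x i ≤ x l) ∧ ∀ j, ∀ a : ℝ, 0 ≤ a → a ≤ x j → a * x i ^ (d - 1) ≤ ∏ l, x l := by
  obtain ⟨i, -, hi⟩ := Finset.exists_min_image (Finset.univ : Finset (Fin d)) x
    ⟨⟨0, by omega⟩, Finset.mem_univ _⟩
  refine ⟨i, fun l => hi l (Finset.mem_univ _), fun j a ha0 ha => ?_⟩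
  rw [← Finset.mul_prod_erase Finset.univ x (Finset.mem_univ j)]
  have h1 : x i ^ (d - 1) ≤ ∏ l ∈ Finset.univ.erase j, x l := by
    have hcard : (Finset.univ.erase j : Finset (Fin d)).card = d - 1 := by
      rw [Finset.card_erase_of_mem (Finset.mem_univ _)]
      simp
    rw [← hcard, ← Finset.prod_const]
    exact Finset.prod_le_prod (fun _ _ => hx i) fun l _ => hi l (Finset.mem_univ _)
  exact mul_le_mul ha h1 (pow_nonneg (hx i) _) (hx j)

/-- The constant of the escape estimate. -/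
noncomputable def K (d : ℕ) : ℝ := 2 * d * (d * (d * 2 ^ d))

theorem K_ge {d : ℕ} (hd : 2 ≤ d) : 8 ≤ K d := by
  have h1 : (2 : ℝ) ≤ d := by exact_mod_cast hd
  have h2 : (1 : ℝ) ≤ 2 ^ d := one_le_pow₀ (by norm_num)
  unfold K
  have h3 : (2 : ℝ) ≤ d * 2 ^ d := by nlinarith
  have h4 : (2 : ℝ) ≤ d * (d * 2 ^ d) := by nlinarith
  nlinarith

section fixed

variable {T : ℂ[X]} {d : ℕ} {ρ : ℝ}

/-- The map relative to a critical value. -/
noncomputable def Q (T : ℂ[X]) (c : ℂ) : ℂ[X] := T - C (T.eval c)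

theorem eval_Q (T : ℂ[X]) (c z : ℂ) : (Q T c).eval z = T.eval z - T.eval c := by
  simp [Q]

theorem natDegree_Q (hd : T.natDegree = d) (c : ℂ) : (Q T c).natDegree = d := by
  rw [Q, natDegree_sub_C, hd]

theorem monic_Q (hd : T.natDegree = d) (hd1 : 1 ≤ d) (hm : T.Monic) (c : ℂ) : (Q T c).Monic := by
  unfold Q
  apply hm.sub_of_left
  rw [degree_eq_natDegree hm.ne_zero, hd]
  refine lt_of_le_of_lt degree_C_le ?_
  exact_mod_cast (by omega : 0 < d)

theorem derivative_Q (T : ℂ[X]) (c : ℂ) : derivative (Q T c) = derivative T := by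
  simp [Q]

theorem coeff_Q (T : ℂ[X]) (c : ℂ) {j : ℕ} (hj : 1 ≤ j) : (Q T c).coeff j = T.coeff j := by
  rw [Q, coeff_sub, coeff_C_of_ne_zero (by omega), sub_zero]

theorem coeff_bound_Q (hd : T.natDegree = d) (hd1 : 1 ≤ d) (hm : T.Monic) (hρ1 : 1 ≤ ρ)
    (hρ : ∀ c : ℂ, (derivative T).eval c = 0 → ‖c‖ ≤ ρ) {c : ℂ} (hc : (derivative T).eval c = 0)
    (j : ℕ) (hj : j < d) : ‖(Q T c).coeff j‖ ≤ (d * (d * 2 ^ d)) * ρ ^ (d - j) := by
  have hdr : (1 : ℝ) ≤ d := by exact_mod_cast hd1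
  rcases Nat.eq_zero_or_pos j with rfl | hj1
  · have h0 : (Q T c).eval c = 0 := by rw [eval_Q, sub_self]
    rw [eval_eq_sum_range, natDegree_Q hd, Finset.sum_range_succ'] at h0
    simp only [pow_zero, mul_one] at h0
    have h1 : (Q T c).coeff 0 = -∑ k ∈ Finset.range d, (Q T c).coeff (k + 1) * c ^ (k + 1) :=
      eq_neg_of_add_eq_zero_right h0
    rw [h1, norm_neg]
    refine (norm_sum_le _ _).trans ?_
    have h2 : ∀ k ∈ Finset.range d, ‖(Q T c).coeff (k + 1) * c ^ (k + 1)‖ ≤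
        d * 2 ^ d * ρ ^ d := by
      intro k hk
      have hk' := Finset.mem_range.1 hk
      rw [coeff_Q T c (by omega), norm_mul, norm_pow]
      have h3 := coeff_bound hd hd1 hm (by linarith : 0 ≤ ρ) hρ (j := k + 1) (by omega) (by omega)
      have h4 : ‖c‖ ^ (k + 1) ≤ ρ ^ (k + 1) := pow_le_pow_left₀ (norm_nonneg _) (hρ c hc) _
      calc ‖T.coeff (k + 1)‖ * ‖c‖ ^ (k + 1)
          ≤ (d * 2 ^ d * ρ ^ (d - (k + 1))) * ρ ^ (k + 1) :=
            mul_le_mul h3 h4 (by positivity) (by positivity)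
        _ = d * 2 ^ d * (ρ ^ (d - (k + 1)) * ρ ^ (k + 1)) := by ring
        _ = d * 2 ^ d * ρ ^ d := by
          rw [← pow_add]
          congr 2
          omega
    refine (Finset.sum_le_sum h2).trans ?_
    rw [Finset.sum_const, Finset.card_range, nsmul_eq_mul]
    apply le_of_eq
    rw [Nat.sub_zero]
    ring
  · rw [coeff_Q T c hj1]
    refine (coeff_bound hd hd1 hm (by linarith : 0 ≤ ρ) hρ hj1 (by omega)).trans ?_
    have h1 : (0 : ℝ) ≤ d * 2 ^ d * ρ ^ (d - j) := by positivity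
    nlinarith

theorem lower_Q (hd : T.natDegree = d) (hd2 : 2 ≤ d) (hm : T.Monic) (hρ1 : 1 ≤ ρ)
    (hρ : ∀ c : ℂ, (derivative T).eval c = 0 → ‖c‖ ≤ ρ) {c : ℂ} (hc : (derivative T).eval c = 0)
    {z : ℂ} (hz : K d * ρ ≤ ‖z‖) : 4 * ‖z‖ ≤ ‖(Q T c).eval z‖ := by
  have hdr : (1 : ℝ) ≤ d := by exact_mod_cast (by omega : 1 ≤ d)
  have h2 : (1 : ℝ) ≤ 2 ^ d := one_le_pow₀ (by norm_num)
  have hA : (1 : ℝ) ≤ d * (d * 2 ^ d) := by nlinarith [mul_le_mul hdr h2 (by norm_num) (by linarith)]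
  have h := lower (natDegree_Q hd c) (by omega) (monic_Q hd (by omega) hm c) hA hρ1
    (coeff_bound_Q hd (by omega) hm hρ1 hρ hc) (z := z) (by unfold K at hz; linarith)
  have h8 : 8 ≤ ‖z‖ := by
    have := K_ge hd2
    nlinarith
  have h3 : 8 * ‖z‖ ≤ ‖z‖ ^ d := by
    have e : ‖z‖ ^ d = ‖z‖ ^ (d - 1) * ‖z‖ := by
      conv_lhs => rw [show d = (d - 1) + 1 by omega, pow_succ]
    rw [e]
    have h5 : ‖z‖ ^ 1 ≤ ‖z‖ ^ (d - 1) := pow_le_pow_right₀ (by linarith) (by omega)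
    rw [pow_one] at h5
    nlinarith [norm_nonneg z]
  linarith

/-- The orbit of a critical point which does not escape stays in the disc of radius `K d * ρ`. -/
theorem bounded_orbit (hd : T.natDegree = d) (hd2 : 2 ≤ d) (hm : T.Monic) (hρ1 : 1 ≤ ρ)
    (hρ : ∀ c : ℂ, (derivative T).eval c = 0 → ‖c‖ ≤ ρ) {c : ℂ} (hc : (derivative T).eval c = 0)
    {t : ℂ} (hesc : ¬ Esc (T + C t) c) (k : ℕ) :
    ‖(fun w : ℂ => (T + C t).eval w)^[k] c‖ ≤ K d * ρ := by
  set f := T + C t with hf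
  set w := f.eval c with hw
  have hfz : ∀ z : ℂ, f.eval z = w + (Q T c).eval z := by
    intro z
    rw [hw, eval_Q, hf]
    simp only [eval_add, eval_C]
    ring
  have hK := K_ge hd2
  have hKρ : 0 < K d * ρ := by positivity
  set R := max (K d * ρ) ‖w‖ with hR
  have hgrow : ∀ z : ℂ, R ≤ ‖z‖ → 3 * ‖z‖ ≤ ‖f.eval z‖ := by
    intro z hz
    have h1 := lower_Q hd hd2 hm hρ1 hρ hc ((le_max_left _ _).trans hz)
    have h2 : ‖w‖ ≤ ‖z‖ := (le_max_right _ _).trans hz
    rw [hfz]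
    have h3 : ‖(Q T c).eval z‖ - ‖w‖ ≤ ‖w + (Q T c).eval z‖ := by
      have := norm_sub_norm_le ((Q T c).eval z) (-w)
      rw [norm_neg, sub_neg_eq_add, add_comm ((Q T c).eval z)] at this
      exact this
    linarith
  have hall : ∀ k, ‖(fun w : ℂ => f.eval w)^[k] c‖ ≤ R := by
    intro k
    by_contra hk
    push Not at hk
    apply hesc
    refine esc_of (R := R) (le_max_of_le_left hKρ.le) ?_ hk
    intro z hz
    have := hgrow z hz.le
    linarith [norm_nonneg z]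
  have hwK : ‖w‖ ≤ K d * ρ := by
    by_contra hcon
    push Not at hcon
    have hRw : R = ‖w‖ := max_eq_right hcon.le
    have h1 := hgrow w hRw.le
    have h2 := hall 2
    simp only [Function.iterate_succ_apply, Function.iterate_zero, id] at h2
    rw [← hw, hRw] at h2
    have : 0 < ‖w‖ := hKρ.trans hcon
    linarith
  have hRK : R = K d * ρ := max_eq_left hwK
  rw [← hRK]
  exact hall k

end fixed

end Pool.Agent.J4.H85.AD
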