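import Mathlib
import Pool.Agent.J4.H85.AD2

/-! The set of the translates with a critical point which does not escape is covered by few small
discs. -/

set_option autoImplicit false

open Polynomial Filter Topology

namespace Pool.Agent.J4.H85.AD

section fixed

variable {T : ℂ[X]} {d : ℕ} {ρ : ℝ}

/-- The second polynomial. -/
noncomputable def H (T : ℂ[X]) (c ζ : ℂ) : ℂ[X] := Q T c + (X - C ζ)

theorem eval_H (T : ℂ[X]) (c ζ z : ℂ) : (H T c ζ).eval z = z + (Q T c).eval z - ζ := by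
  simp [H]
  ring

theorem degree_lin_lt (hd : T.natDegree = d) (hd2 : 2 ≤ d) (hm : T.Monic) (c ζ : ℂ) :
    (X - C ζ : ℂ[X]).degree < (Q T c).degree := by
  rw [degree_X_sub_C, degree_eq_natDegree (monic_Q hd (by omega) hm c).ne_zero, natDegree_Q hd]
  exact_mod_cast (by omega : 1 < d)

theorem monic_H (hd : T.natDegree = d) (hd2 : 2 ≤ d) (hm : T.Monic) (c ζ : ℂ) :
    (H T c ζ).Monic :=
  (monic_Q hd (by omega) hm c).add_of_left (degree_lin_lt hd hd2 hm c ζ)

theorem natDegree_H (hd : T.natDegree = d) (hd2 : 2 ≤ d) (hm : T.Monic) (c ζ : ℂ) :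
    (H T c ζ).natDegree = d := by
  have h := degree_add_eq_left_of_degree_lt (degree_lin_lt hd hd2 hm c ζ)
  have h2 : (H T c ζ).natDegree = (Q T c).natDegree := natDegree_eq_of_degree_eq h
  rw [h2, natDegree_Q hd]

theorem coeff_H (hd3 : 3 ≤ d) (h0 : T.coeff (d - 1) = 0) (c ζ : ℂ) :
    (H T c ζ).coeff (d - 1) = 0 := by
  unfold H
  rw [coeff_add, coeff_Q T c (by omega), h0, zero_add, coeff_sub, coeff_C_of_ne_zero (by omega),
    coeff_X_of_ne_one (by omega), sub_zero]

theorem derivative_H (T : ℂ[X]) (c ζ : ℂ) : derivative (H T c ζ) = derivative T + 1 := by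
  simp [H, derivative_Q]

/-- The roots of `T' + 1` cannot all be small, if `T'` has a large root. -/
theorem not_small (hd : T.natDegree = d) (hd2 : 2 ≤ d) (hm : T.Monic) (hρ2 : 2 ≤ ρ) {c : ℂ}
    (hc : (derivative T).eval c = 0) (hcρ : ρ ≤ ‖c‖)
    (h : ∀ z : ℂ, (derivative T + 1).eval z = 0 → ‖z‖ < ρ / 2) : False := by
  have hd0 : (d : ℂ) ≠ 0 := by exact_mod_cast (by omega : d ≠ 0)
  have hdT : (derivative T).natDegree = d - 1 := by rw [natDegree_derivative, hd]
  have hT0 : derivative T ≠ 0 := by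
    intro h0
    rw [h0, natDegree_zero] at hdT
    omega
  have hlc : (derivative T).leadingCoeff = d := by
    rw [leadingCoeff, hdT, coeff_derivative]
    have : d - 1 + 1 = d := by omega
    rw [this]
    have h1 : T.coeff d = 1 := by rw [← hd]; exact hm
    rw [h1, one_mul]
    have : ((d - 1 : ℕ) : ℂ) + 1 = d := by
      rw [← Nat.cast_add_one]; congr 1
    exact this
  have hlt : (1 : ℂ[X]).degree < (derivative T).degree := by
    rw [degree_one, degree_eq_natDegree hT0, hdT]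
    exact_mod_cast (by omega : 0 < d - 1)
  set g := derivative T + 1 with hg
  have hgd : g.natDegree = d - 1 := by
    rw [hg, natDegree_eq_of_degree_eq (degree_add_eq_left_of_degree_lt hlt), hdT]
  have hglc : g.leadingCoeff = d := by
    rw [hg, leadingCoeff_add_of_degree_lt' hlt, hlc]
  set p : ℂ[X] := C ((d : ℂ)⁻¹) * g with hp
  have hpm : p.Monic := by
    rw [Monic, hp, leadingCoeff_mul, leadingCoeff_C, hglc, inv_mul_cancel₀ hd0]
  have hpd : p.natDegree = d - 1 := by rw [hp, natDegree_C_mul (inv_ne_zero hd0), hgd]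
  obtain ⟨ζ, hζ⟩ := exists_roots hpm hpd
  have hroot : ∀ i, ‖ζ i‖ < ρ / 2 := by
    intro i
    apply h
    have h1 : p.eval (ζ i) = 0 := by
      rw [hζ, eval_prod]
      exact Finset.prod_eq_zero (Finset.mem_univ i) (by simp)
    rw [hp, eval_mul, eval_C, mul_eq_zero] at h1
    rcases h1 with h1 | h1
    · exact absurd h1 (inv_ne_zero hd0)
    · exact h1
  have h1 : ‖p.eval c‖ = ∏ i, ‖c - ζ i‖ := by
    rw [hζ]; exact eval_pr ζ c
  have h2 : (1 : ℝ) ≤ ∏ i, ‖c - ζ i‖ := by
    have h3 : ∏ _i : Fin (d - 1), (1 : ℝ) ≤ ∏ i, ‖c - ζ i‖ := by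
      apply Finset.prod_le_prod (fun _ _ => zero_le_one)
      intro i _
      have := norm_sub_norm_le c (ζ i)
      have := hroot i
      linarith
    simpa using h3
  have h3 : p.eval c = (d : ℂ)⁻¹ := by
    rw [hp, eval_mul, eval_C, hg, eval_add, hc, eval_one, zero_add, mul_one]
  rw [← h1, h3, norm_inv, Complex.norm_natCast] at h2
  have h4 : (2 : ℝ) ≤ d := by exact_mod_cast hd2
  have h5 : (d : ℝ)⁻¹ ≤ 2⁻¹ := inv_anti₀ (by norm_num) h4
  norm_num at h5
  linarith

/-- Main estimate: if the critical point `c` does not escape under `T + t`, then the critical value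
is close to a root of one of the polynomials `H T c ζ`, `ζ` a root of `Q T c`. -/
theorem near_root (hd : T.natDegree = d) (hd3 : 3 ≤ d) (hm : T.Monic) (h0 : T.coeff (d - 1) = 0)
    (hρ2 : 2 ≤ ρ) (hρ : ∀ c : ℂ, (derivative T).eval c = 0 → ‖c‖ ≤ ρ) {c' : ℂ}
    (hc' : (derivative T).eval c' = 0) (hcρ : ρ ≤ ‖c'‖) {c : ℂ} (hc : (derivative T).eval c = 0)
    {ζ : Fin d → ℂ} (hζ : Q T c = ∏ i, (X - C (ζ i)))
    {η : Fin d → Fin d → ℂ} (hη : ∀ k, H T c (ζ k) = ∏ i, (X - C (η k i)))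
    {t : ℂ} (hesc : ¬ Esc (T + C t) c) :
    ∃ k i, ρ * ‖(T.eval c + t) - η k i‖ ^ (d - 1) ≤ 32 * K d := by
  have hρ0 : 0 < ρ := by linarith
  have hK := K_ge (d := d) (by omega)
  have hb := bounded_orbit hd (by omega) hm (by linarith) hρ hc hesc
  set f := T + C t with hf
  set w := f.eval c with hw
  have hfz : ∀ z : ℂ, f.eval z = w + (Q T c).eval z := by
    intro z
    rw [hw, eval_Q, hf]
    simp only [eval_add, eval_C]
    ring
  have hwb : ‖w‖ ≤ K d * ρ := by
    have := hb 1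
    simpa [Function.iterate_succ_apply] using this
  have hz2 : ‖f.eval (f.eval w)‖ ≤ K d * ρ := by
    have := hb 3
    simpa [Function.iterate_succ_apply] using this
  set y := f.eval w with hy
  -- `y` is near a root of `Q`
  have hQy : ‖(Q T c).eval y‖ ≤ 2 * (K d * ρ) := by
    have h1 : (Q T c).eval y = f.eval y - w := by rw [hfz y]; ring
    rw [h1]
    exact (norm_sub_le _ _).trans (by linarith)
  rw [hζ, eval_pr] at hQy
  obtain ⟨k, hk1, hk2⟩ := min_factor (d := d) (by omega) (fun i => ‖y - ζ i‖)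
    fun i => norm_nonneg _
  have hfar : ∃ l, ρ / 2 ≤ ‖ζ k - ζ l‖ := by
    by_contra hcon
    push Not at hcon
    have hcoef : (∏ i, (X - C (ζ i)) : ℂ[X]).coeff (d - 1) = 0 := by
      rw [← hζ, coeff_Q T c (by omega), h0]
    have := close (by omega) ζ hcoef hcon c' (by rw [← hζ, derivative_Q]; exact hc')
    linarith
  obtain ⟨l, hl⟩ := hfar
  have hl4 : ρ / 4 ≤ ‖y - ζ l‖ := by
    have h1 := hk1 l
    have h2 : ‖ζ k - ζ l‖ ≤ ‖y - ζ l‖ + ‖y - ζ k‖ := by
      have := norm_sub_le (y - ζ l) (y - ζ k)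
      rwa [sub_sub_sub_cancel_left] at this
    linarith
  have hyk : ‖y - ζ k‖ ^ (d - 1) ≤ 8 * K d := by
    have h1 := hk2 l (ρ / 4) (by linarith) hl4
    have h2 : ρ / 4 * ‖y - ζ k‖ ^ (d - 1) ≤ ρ / 4 * (8 * K d) := by linarith
    exact le_of_mul_le_mul_left h2 (by linarith)
  have hyk1 : ‖y - ζ k‖ ≤ 8 * K d := by
    by_cases h1 : ‖y - ζ k‖ ≤ 1
    · linarith
    · push Not at h1
      refine le_trans ?_ hyk
      calc ‖y - ζ k‖ = ‖y - ζ k‖ ^ 1 := (pow_one _).symm
        _ ≤ ‖y - ζ k‖ ^ (d - 1) := pow_le_pow_right₀ h1.le (by omega)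
  -- `w` is near a root of `H`
  have hHw : ‖(H T c (ζ k)).eval w‖ ≤ 8 * K d := by
    rw [eval_H, ← hfz]
    exact hyk1
  rw [hη k, eval_pr] at hHw
  obtain ⟨i, hi1, hi2⟩ := min_factor (d := d) (by omega) (fun i => ‖w - η k i‖)
    fun i => norm_nonneg _
  have hfar2 : ∃ j, ρ / 4 ≤ ‖w - η k j‖ := by
    by_contra hcon
    push Not at hcon
    have hcoef : (∏ i, (X - C (η k i)) : ℂ[X]).coeff (d - 1) = 0 := by
      rw [← hη k]; exact coeff_H hd3 h0 c (ζ k)
    have h1 := close (by omega) (η k) hcoef hcon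
    rw [← hη k, derivative_H] at h1
    apply not_small hd (by omega) hm hρ2 hc' hcρ
    intro z hz
    have := h1 z hz
    linarith
  obtain ⟨j, hj⟩ := hfar2
  refine ⟨k, i, ?_⟩
  have h1 := hi2 j (ρ / 4) (by linarith) hj
  have hwe : T.eval c + t = w := by rw [hw, hf]; simp
  rw [hwe]
  linarith

end fixed

/-- For `d ≥ 3` and a large critical point: covering by at most `d ^ 3` small discs. -/
theorem cover_large {T : ℂ[X]} {d : ℕ} {ρ : ℝ} (hd : T.natDegree = d) (hd3 : 3 ≤ d) (hm : T.Monic)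
    (h0 : T.coeff (d - 1) = 0) (hρ2 : 2 ≤ ρ)
    (hρ : ∀ c : ℂ, (derivative T).eval c = 0 → ‖c‖ ≤ ρ) {c' : ℂ}
    (hc' : (derivative T).eval c' = 0) (hcρ : ρ ≤ ‖c'‖) :
    ∃ s : Finset ℂ, s.card ≤ d ^ 3 ∧ ∀ t : ℂ, ¬ AllEsc (T + C t) →
      ∃ x ∈ s, ρ * ‖t - x‖ ^ (d - 1) ≤ 32 * K d := by
  classical
  have hT0 : derivative T ≠ 0 := by
    intro h0
    have h1 := natDegree_derivative T
    rw [h0, natDegree_zero, hd] at h1
    omega
  have hz : ∀ c : ℂ, ∃ ζ : Fin d → ℂ, Q T c = ∏ i, (X - C (ζ i)) := fun c =>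
    exists_roots (monic_Q hd (by omega) hm c) (natDegree_Q hd c)
  choose ζ hζ using hz
  have he : ∀ c : ℂ, ∀ k, ∃ η : Fin d → ℂ, H T c (ζ c k) = ∏ i, (X - C (η i)) := fun c k =>
    exists_roots (monic_H hd (by omega) hm c (ζ c k)) (natDegree_H hd (by omega) hm c (ζ c k))
  choose η hη using he
  set s : Finset ℂ := ((derivative T).roots.toFinset ×ˢ (Finset.univ : Finset (Fin d × Fin d))).image
    fun p => η p.1 p.2.1 p.2.2 - T.eval p.1 with hs
  refine ⟨s, ?_, fun t ht => ?_⟩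
  · refine Finset.card_image_le.trans ?_
    rw [Finset.card_product, Finset.card_univ, Fintype.card_prod, Fintype.card_fin]
    have h1 : (derivative T).roots.toFinset.card ≤ d := by
      refine (Multiset.toFinset_card_le _).trans ((card_roots' _).trans ?_)
      rw [natDegree_derivative, hd]
      omega
    calc _ ≤ d * (d * d) := Nat.mul_le_mul_right _ h1
      _ = d ^ 3 := by ring
  · unfold AllEsc at ht
    push Not at ht
    obtain ⟨c, hc, hesc⟩ := ht
    have hc2 : (derivative T).eval c = 0 := by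
      simpa using hc
    obtain ⟨k, i, h⟩ := near_root hd hd3 hm h0 hρ2 hρ hc' hcρ hc2 (hζ c) (hη c) hesc
    refine ⟨η c k i - T.eval c, ?_, ?_⟩
    · rw [hs, Finset.mem_image]
      refine ⟨(c, k, i), ?_, rfl⟩
      rw [Finset.mem_product]
      exact ⟨Multiset.mem_toFinset.2 ((mem_roots hT0).2 hc2), Finset.mem_univ _⟩
    · have e : t - (η c k i - T.eval c) = T.eval c + t - η c k i := by ring
      rw [e]
      exact h

/-- For bounded critical points: covering by discs of bounded radius. -/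
theorem cover_small {T : ℂ[X]} {d : ℕ} {ρ : ℝ} (hd : T.natDegree = d) (hd2 : 2 ≤ d) (hm : T.Monic)
    (hρ1 : 1 ≤ ρ) (hρ : ∀ c : ℂ, (derivative T).eval c = 0 → ‖c‖ ≤ ρ) :
    ∃ s : Finset ℂ, s.card ≤ d ^ 3 ∧ ∀ t : ℂ, ¬ AllEsc (T + C t) →
      ∃ x ∈ s, ‖t - x‖ ≤ K d * ρ := by
  classical
  have hT0 : derivative T ≠ 0 := by
    intro h0
    have h1 := natDegree_derivative T
    rw [h0, natDegree_zero, hd] at h1
    omega
  refine ⟨(derivative T).roots.toFinset.image fun c => - T.eval c, ?_, fun t ht => ?_⟩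
  · refine Finset.card_image_le.trans ((Multiset.toFinset_card_le _).trans ((card_roots' _).trans ?_))
    rw [natDegree_derivative, hd]
    calc d - 1 ≤ d := Nat.sub_le _ _
      _ ≤ d ^ 3 := Nat.le_self_pow (by norm_num) d
  · unfold AllEsc at ht
    push Not at ht
    obtain ⟨c, hc, hesc⟩ := ht
    have hc2 : (derivative T).eval c = 0 := by
      simpa using hc
    refine ⟨- T.eval c, ?_, ?_⟩
    · rw [Finset.mem_image]
      exact ⟨c, Multiset.mem_toFinset.2 ((mem_roots hT0).2 hc2), rfl⟩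
    · have h1 := bounded_orbit hd hd2 hm hρ1 hρ hc2 hesc 1
      rw [sub_neg_eq_add]
      simpa [add_comm] using h1

end Pool.Agent.J4.H85.AD
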