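import Mathlib
import Pool.Agent.J4.H85.AD3

/-! Covering for all sizes of the critical points, a good translate, and polynomials with a large
constant term. -/

set_option autoImplicit false

open Polynomial Filter Topology

namespace Pool.Agent.J4.H85.AD

/-- The constant of the covering. -/
noncomputable def Cst (d : ℕ) : ℝ := 48 * K d + 3 * (2 * K d) ^ (d - 1)

theorem derivative_ne_zero' {T : ℂ[X]} {d : ℕ} (hd : T.natDegree = d) (hd2 : 2 ≤ d) :
    derivative T ≠ 0 := by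
  intro h0
  have h1 := natDegree_derivative T
  rw [h0, natDegree_zero, hd] at h1
  omega

/-- A critical point of largest modulus. -/
theorem exists_max_crit {T : ℂ[X]} {d : ℕ} (hd : T.natDegree = d) (hd2 : 2 ≤ d) :
    ∃ c' : ℂ, (derivative T).eval c' = 0 ∧
      ∀ c : ℂ, (derivative T).eval c = 0 → ‖c‖ ≤ ‖c'‖ := by
  classical
  have hT0 := derivative_ne_zero' hd hd2
  have hne : (derivative T).roots.toFinset.Nonempty := by
    have hdeg : (derivative T).degree ≠ 0 := by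
      rw [degree_eq_natDegree hT0, natDegree_derivative, hd]
      exact_mod_cast (by omega : d - 1 ≠ 0)
    obtain ⟨x, hx⟩ := IsAlgClosed.exists_root _ hdeg
    exact ⟨x, Multiset.mem_toFinset.2 ((mem_roots hT0).2 hx)⟩
  obtain ⟨c', hc', h⟩ := Finset.exists_max_image _ (fun c : ℂ => ‖c‖) hne
  refine ⟨c', (mem_roots hT0).1 (Multiset.mem_toFinset.1 hc'), fun c hc => h c ?_⟩
  exact Multiset.mem_toFinset.2 ((mem_roots hT0).2 hc)

theorem cover {T : ℂ[X]} {d : ℕ} {ρ : ℝ} (hd : T.natDegree = d) (hd2 : 2 ≤ d) (hm : T.Monic)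
    (h0 : T.coeff (d - 1) = 0) (hρ0 : 0 ≤ ρ)
    (hc : ∃ c : ℂ, (derivative T).eval c = 0 ∧ ρ ≤ ‖c‖) :
    ∃ s : Finset ℂ, s.card ≤ d ^ 3 ∧ ∀ t : ℂ, ¬ AllEsc (T + C t) →
      ∃ x ∈ s, (1 + ρ) * ‖t - x‖ ^ (d - 1) ≤ Cst d := by
  obtain ⟨c', hc', hmax⟩ := exists_max_crit hd hd2
  obtain ⟨c, hc, hcρ⟩ := hc
  have hρc : ρ ≤ ‖c'‖ := hcρ.trans (hmax c hc)
  have hK := K_ge hd2
  by_cases hbig : 2 ≤ ‖c'‖
  · have hd3 : 3 ≤ d := by
      by_contra hcon
      have hd2' : d = 2 := by omega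
      subst hd2'
      have h1 : (derivative T).eval c' = 2 * c' := by
        have hT : T = X ^ 2 + C (T.coeff 0) := by
          have h3 := T.as_sum_range' 3 (by omega)
          rw [Finset.sum_range_succ, Finset.sum_range_succ, Finset.sum_range_succ,
            Finset.sum_range_zero] at h3
          have h4 : T.coeff 2 = 1 := by rw [← hd]; exact hm
          have h5 : T.coeff 1 = 0 := h0
          rw [h4, h5] at h3
          rw [h3]
          simp [← C_mul_X_pow_eq_monomial, add_comm]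
        rw [hT]
        simp
        left
        norm_num
      rw [h1] at hc'
      have : c' = 0 := by
        rcases mul_eq_zero.1 hc' with h | h
        · norm_num at h
        · exact h
      rw [this, norm_zero] at hbig
      norm_num at hbig
    obtain ⟨s, hs, h⟩ := cover_large hd hd3 hm h0 hbig hmax hc' le_rfl
    refine ⟨s, hs, fun t ht => ?_⟩
    obtain ⟨x, hx, hxt⟩ := h t ht
    refine ⟨x, hx, ?_⟩
    have h1 : (1 + ρ) * ‖t - x‖ ^ (d - 1) ≤ 3 / 2 * ‖c'‖ * ‖t - x‖ ^ (d - 1) := by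
      apply mul_le_mul_of_nonneg_right _ (by positivity)
      linarith
    unfold Cst
    have h2 : 0 ≤ 3 * (2 * K d) ^ (d - 1) := by positivity
    linarith
  · push Not at hbig
    obtain ⟨s, hs, h⟩ := cover_small (ρ := 2) hd hd2 hm (by norm_num)
      fun c hc => (hmax c hc).trans hbig.le
    refine ⟨s, hs, fun t ht => ?_⟩
    obtain ⟨x, hx, hxt⟩ := h t ht
    refine ⟨x, hx, ?_⟩
    have h1 : ‖t - x‖ ^ (d - 1) ≤ (2 * K d) ^ (d - 1) := by
      apply pow_le_pow_left₀ (norm_nonneg _)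
      linarith
    unfold Cst
    have h3 : (1 + ρ) * ‖t - x‖ ^ (d - 1) ≤ 3 * (2 * K d) ^ (d - 1) :=
      mul_le_mul (by linarith) h1 (by positivity) (by norm_num)
    linarith

/-- The constant for good translates. -/
noncomputable def Cst' (d : ℕ) : ℝ := Cst d * (3 * (d ^ 3 + 1)) ^ (d - 1)

theorem Cst'_pos {d : ℕ} (hd2 : 2 ≤ d) : 0 < Cst' d := by
  have hK := K_ge hd2
  unfold Cst' Cst
  have : 0 < K d := by linarith
  positivity

theorem good_translate {T : ℂ[X]} {d : ℕ} {ρ : ℝ} (hd : T.natDegree = d) (hd2 : 2 ≤ d)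
    (hm : T.Monic) (h0 : T.coeff (d - 1) = 0) (hρ0 : 0 ≤ ρ)
    (hc : ∃ c : ℂ, (derivative T).eval c = 0 ∧ ρ ≤ ‖c‖) {δ : ℝ} (hδ : 0 < δ)
    (h : Cst' d < (1 + ρ) * δ ^ (d - 1)) : ∃ t : ℂ, ‖t‖ < δ ∧ AllEsc (T + C t) := by
  obtain ⟨s, hs, hcov⟩ := cover hd hd2 hm h0 hρ0 hc
  by_contra hcon
  push Not at hcon
  set D : ℝ := 3 * ((d : ℝ) ^ 3 + 1) with hD
  have hD0 : 0 < D := by positivity
  set r : ℝ := δ / D with hr
  have hr0 : 0 < r := div_pos hδ hD0
  have hrD : r * D = δ := div_mul_cancel₀ _ hD0.ne'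
  have hr1 : Cst d < (1 + ρ) * r ^ (d - 1) := by
    have h1 : Cst' d = Cst d * D ^ (d - 1) := rfl
    have h2 : δ ^ (d - 1) = r ^ (d - 1) * D ^ (d - 1) := by rw [← hrD, mul_pow]
    rw [h1, h2, ← mul_assoc] at h
    exact lt_of_mul_lt_mul_right h (by positivity)
  have hbad : ∀ m : Fin (d ^ 3 + 1), ∃ x ∈ s, ‖(((3 * r * (m : ℕ) : ℝ)) : ℂ) - x‖ < r := by
    intro m
    have hnorm : ‖(((3 * r * (m : ℕ) : ℝ)) : ℂ)‖ < δ := by
      rw [Complex.norm_real, Real.norm_of_nonneg (by positivity)]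
      have hm' : ((m : ℕ) : ℝ) < (d : ℝ) ^ 3 + 1 := by exact_mod_cast m.2
      calc 3 * r * (m : ℕ) < 3 * r * ((d : ℝ) ^ 3 + 1) := by
            apply mul_lt_mul_of_pos_left hm' (by positivity)
        _ = r * D := by rw [hD]; ring
        _ = δ := hrD
    obtain ⟨x, hx, hxt⟩ := hcov _ (hcon _ hnorm)
    refine ⟨x, hx, ?_⟩
    have h1 := hxt.trans_lt hr1
    have h2 := lt_of_mul_lt_mul_left h1 (by linarith)
    exact lt_of_pow_lt_pow_left₀ _ hr0.le h2
  choose x hx hxr using hbad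
  obtain ⟨m, -, m', -, hne, heq⟩ := Finset.exists_ne_map_eq_of_card_lt_of_maps_to
    (s := (Finset.univ : Finset (Fin (d ^ 3 + 1)))) (t := s) (by simpa using by omega)
    (f := x) (fun m _ => hx m)
  have h1 := hxr m
  have h2 := hxr m'
  rw [← heq] at h2
  have h3 : ‖((3 * r * (m : ℕ) : ℝ) : ℂ) - ((3 * r * (m' : ℕ) : ℝ) : ℂ)‖ < 2 * r := by
    have := norm_sub_le ((((3 * r * (m : ℕ) : ℝ)) : ℂ) - x m) ((((3 * r * (m' : ℕ) : ℝ)) : ℂ) - x m)
    rw [sub_sub_sub_cancel_right] at this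
    linarith
  rw [← Complex.ofReal_sub, Complex.norm_real, ← mul_sub, norm_mul,
    Real.norm_of_nonneg (by positivity : 0 ≤ 3 * r)] at h3
  have h4 : (1 : ℝ) ≤ ‖((m : ℕ) : ℝ) - ((m' : ℕ) : ℝ)‖ := by
    have hne' : (m : ℕ) ≠ (m' : ℕ) := fun h => hne (Fin.ext h)
    have h5 : (1 : ℤ) ≤ |((m : ℕ) : ℤ) - ((m' : ℕ) : ℤ)| := by
      apply Int.one_le_abs
      omega
    rw [Real.norm_eq_abs]
    exact_mod_cast h5
  nlinarith

/-- The bound for the constant term. -/
noncomputable def Bc (d : ℕ) (M : ℝ) : ℝ := K d * (2 * d * M) + d * (M * (2 * d * M) ^ d)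

/-- Polynomials with bounded higher coefficients and a large constant term. -/
theorem esc_of_large_const' {d : ℕ} (hd2 : 2 ≤ d) {M : ℝ} (hM : 1 ≤ M) : ∀ N : ℂ[X],
    N.Monic → N.natDegree = d → (∀ j, 1 ≤ j → ‖N.coeff j‖ ≤ M) → Bc d M < ‖N.coeff 0‖ →
      AllEsc N := by
  unfold Bc
  set ρ : ℝ := 2 * d * M with hρ
  have hdr : (2 : ℝ) ≤ d := by exact_mod_cast hd2
  have hρ1 : 1 ≤ ρ := by rw [hρ]; nlinarith
  intro N hm hd hcoef hB
  have hd0 : (d : ℂ) ≠ 0 := by exact_mod_cast (by omega : d ≠ 0)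
  have hcrit : ∀ c : ℂ, (derivative N).eval c = 0 → ‖c‖ ≤ ρ := by
    intro c hc
    by_contra hcon
    push Not at hcon
    have hlc : (derivative N).coeff (d - 1) = d := by
      rw [coeff_derivative]
      have : d - 1 + 1 = d := by omega
      rw [this]
      have h1 : N.coeff d = 1 := by rw [← hd]; exact hm
      rw [h1, one_mul]
      have : ((d - 1 : ℕ) : ℂ) + 1 = d := by
        rw [← Nat.cast_add_one]; congr 1
      exact this
    set p : ℂ[X] := C ((d : ℂ)⁻¹) * derivative N with hp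
    have hpd : p.natDegree = d - 1 := by
      rw [hp, natDegree_C_mul (inv_ne_zero hd0), natDegree_derivative, hd]
    have hpm : p.Monic := by
      rw [Monic, leadingCoeff, hpd, hp, coeff_C_mul, hlc, inv_mul_cancel₀ hd0]
    have h1 := lower (A := M) (ρ := 1) hpd (by omega) hpm hM le_rfl (by
      intro j hj
      rw [one_pow, mul_one, hp, coeff_C_mul, coeff_derivative, norm_mul, norm_mul, norm_inv,
        Complex.norm_natCast]
      have h2 : ‖((j : ℂ) + 1)‖ ≤ d := by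
        rw [← Nat.cast_add_one, Complex.norm_natCast]
        exact_mod_cast (by omega : j + 1 ≤ d)
      have h3 := hcoef (j + 1) (by omega)
      have h4 : (0 : ℝ) < d := by linarith
      calc (d : ℝ)⁻¹ * (‖N.coeff (j + 1)‖ * ‖((j : ℂ) + 1)‖) ≤ (d : ℝ)⁻¹ * (M * d) := by gcongr
        _ = M := by field_simp) (z := c) (by
      have h5 : ((d - 1 : ℕ) : ℝ) ≤ d := by exact_mod_cast Nat.sub_le _ _
      have : 2 * ((d - 1 : ℕ) : ℝ) * M * 1 ≤ ρ := by
        rw [hρ, mul_one]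
        gcongr
      linarith)
    have h2 : p.eval c = 0 := by rw [hp, eval_mul, hc, mul_zero]
    rw [h2, norm_zero] at h1
    have h3 : 0 < ‖c‖ ^ (d - 1) := by
      have : 0 < ‖c‖ := by linarith
      positivity
    linarith
  intro c hc
  by_contra hesc
  have h1 := bounded_orbit hd hd2 hm hρ1 hcrit hc (t := 0) (by simpa using hesc) 1
  simp only [Function.iterate_succ_apply, Function.iterate_zero, id, C_0, add_zero] at h1
  rw [eval_eq_sum_range, hd, Finset.sum_range_succ'] at h1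
  simp only [pow_zero, mul_one] at h1
  have h2 : ‖∑ k ∈ Finset.range d, N.coeff (k + 1) * c ^ (k + 1)‖ ≤ d * (M * ρ ^ d) := by
    refine (norm_sum_le _ _).trans ?_
    have h3 : ∀ k ∈ Finset.range d, ‖N.coeff (k + 1) * c ^ (k + 1)‖ ≤ M * ρ ^ d := by
      intro k hk
      have hk' := Finset.mem_range.1 hk
      rw [norm_mul, norm_pow]
      have h4 : ‖c‖ ^ (k + 1) ≤ ρ ^ d :=
        (pow_le_pow_left₀ (norm_nonneg _) (hcrit c hc) _).trans
          (pow_le_pow_right₀ hρ1 (by omega))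
      exact mul_le_mul (hcoef _ (by omega)) h4 (by positivity) (by linarith)
    refine (Finset.sum_le_sum h3).trans ?_
    simp
  have h3 : ‖N.coeff 0‖ ≤ ‖∑ k ∈ Finset.range d, N.coeff (k + 1) * c ^ (k + 1) + N.coeff 0‖ +
      ‖∑ k ∈ Finset.range d, N.coeff (k + 1) * c ^ (k + 1)‖ := by
    have := norm_sub_le (∑ k ∈ Finset.range d, N.coeff (k + 1) * c ^ (k + 1) + N.coeff 0)
      (∑ k ∈ Finset.range d, N.coeff (k + 1) * c ^ (k + 1))
    rwa [add_sub_cancel_left] at this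
  linarith

theorem esc_of_large_const {d : ℕ} (hd2 : 2 ≤ d) {M : ℝ} (hM : 1 ≤ M) : ∃ B : ℝ, ∀ N : ℂ[X],
    N.Monic → N.natDegree = d → (∀ j, 1 ≤ j → ‖N.coeff j‖ ≤ M) → B < ‖N.coeff 0‖ → AllEsc N :=
  ⟨Bc d M, esc_of_large_const' hd2 hM⟩

theorem Bc_nonneg {d : ℕ} (hd2 : 2 ≤ d) {M : ℝ} (hM : 0 ≤ M) : 0 ≤ Bc d M := by
  have hK := K_ge hd2
  unfold Bc
  have : 0 < K d := by linarith
  positivity

theorem Cst_pos {d : ℕ} (hd2 : 2 ≤ d) : 0 < Cst d := by
  have hK := K_ge hd2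
  unfold Cst
  have : 0 < K d := by linarith
  positivity

end Pool.Agent.J4.H85.AD
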