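import Mathlib
import Pool.Agent.J4.H85.AD4

/-! Affine conjugacy and the main case analysis. -/

set_option autoImplicit false

open Polynomial Filter Topology

namespace Pool.Agent.J4.H85.AD

/-- Affine conjugacy preserves the escape of all critical points. -/
theorem conj_allEsc {N S : ℂ[X]} {l z₀ : ℂ} (hl : l ≠ 0)
    (h : S.comp (C l * X + C z₀) = C l * N + C z₀) (hN : AllEsc N) : AllEsc S := by
  have hev : ∀ w : ℂ, S.eval (l * w + z₀) = l * N.eval w + z₀ := by
    intro w
    have := congrArg (fun p : ℂ[X] => p.eval w) h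
    simpa using this
  have hder : ∀ w : ℂ, (derivative S).eval (l * w + z₀) = (derivative N).eval w := by
    intro w
    have := congrArg (fun p : ℂ[X] => (derivative p).eval w) h
    simp only [derivative_comp, derivative_add, derivative_mul, derivative_C, zero_mul,
      derivative_X, mul_one, zero_add, add_zero, eval_mul, eval_C, eval_comp, eval_add,
      eval_X] at this
    exact mul_left_cancel₀ hl this
  intro c hc
  set w := (c - z₀) / l with hw
  have hcw : l * w + z₀ = c := by rw [hw]; field_simp; ring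
  have h1 : (derivative N).eval w = 0 := by rw [← hder, hcw, hc]
  have h2 := hN w h1
  have hit : ∀ k : ℕ, (fun u : ℂ => S.eval u)^[k] c = l * (fun u : ℂ => N.eval u)^[k] w + z₀ := by
    intro k
    induction k with
    | zero => simp [hcw]
    | succ k ih =>
      rw [Function.iterate_succ_apply', ih, Function.iterate_succ_apply']
      exact hev _
  unfold Esc at h2 ⊢
  have hl0 : 0 < ‖l‖ := norm_pos_iff.2 hl
  have h3 : Tendsto (fun k : ℕ => ‖l‖ * ‖(fun u : ℂ => N.eval u)^[k] w‖ - ‖z₀‖) atTop atTop :=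
    tendsto_atTop_add_const_right _ _ (h2.const_mul_atTop hl0)
  refine tendsto_atTop_mono (fun k => ?_) h3
  rw [hit, ← norm_mul]
  have := norm_sub_norm_le (l * (fun u : ℂ => N.eval u)^[k] w) (-z₀)
  rwa [norm_neg, sub_neg_eq_add] at this

/-- Coefficient bound for a translated polynomial. -/
theorem taylor_bound {P : ℂ[X]} {d : ℕ} (hd : P.natDegree ≤ d) {M B : ℝ} (hM : 0 ≤ M) (hB : 1 ≤ B)
    (hP : ∀ j, ‖P.coeff j‖ ≤ M) {r : ℂ} (hr : ‖r‖ ≤ B) (j : ℕ) :
    ‖(taylor r P).coeff j‖ ≤ (d + 1) * (2 ^ d * M * B ^ d) := by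
  rw [taylor_coeff, eval_eq_sum_range' (n := d + 1)]
  · refine (norm_sum_le _ _).trans ?_
    have h1 : ∀ i ∈ Finset.range (d + 1), ‖(hasseDeriv j P).coeff i * r ^ i‖ ≤ 2 ^ d * M * B ^ d := by
      intro i hi
      have hi' := Finset.mem_range.1 hi
      rw [hasseDeriv_coeff, norm_mul, norm_mul, norm_pow, Complex.norm_natCast]
      by_cases hij : i + j ≤ d
      · have h2 : ((i + j).choose j : ℝ) ≤ 2 ^ d := by
          have h3 : (i + j).choose j ≤ 2 ^ (i + j) := Nat.choose_le_two_pow _ _
          have h4 : (2 : ℕ) ^ (i + j) ≤ 2 ^ d := Nat.pow_le_pow_right (by norm_num) hij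
          exact_mod_cast h3.trans h4
        have h5 : ‖r‖ ^ i ≤ B ^ d :=
          (pow_le_pow_left₀ (norm_nonneg _) hr _).trans (pow_le_pow_right₀ hB (by omega))
        exact mul_le_mul (mul_le_mul h2 (hP _) (norm_nonneg _) (by positivity)) h5
          (by positivity) (by positivity)
      · rw [coeff_eq_zero_of_natDegree_lt (by omega), norm_zero, mul_zero, zero_mul]
        positivity
    refine (Finset.sum_le_sum h1).trans ?_
    simp
  · have h1 : (hasseDeriv j P).natDegree ≤ P.natDegree - j := natDegree_hasseDeriv_le P j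
    omega

/-- The normal form: for a polynomial `T` of degree `d` there is a monic centred polynomial
`N` which is affinely conjugate to it. -/
theorem normal_form {T : ℂ[X]} {d : ℕ} (hd : T.natDegree = d) (hd2 : 2 ≤ d) :
    ∃ (N : ℂ[X]) (l z₀ : ℂ), l ≠ 0 ∧ l ^ (d - 1) * T.leadingCoeff = 1 ∧
      T.comp (C l * X + C z₀) = C l * N + C z₀ ∧ N.Monic ∧ N.natDegree = d ∧
      N.coeff (d - 1) = 0 ∧ z₀ = -T.coeff (d - 1) / (d * T.leadingCoeff) := by
  have hT0 : T ≠ 0 := by
    rintro rfl
    simp at hd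
    omega
  set a := T.leadingCoeff with ha
  have ha0 : a ≠ 0 := leadingCoeff_ne_zero.2 hT0
  have hdc : (d : ℂ) ≠ 0 := by exact_mod_cast (by omega : d ≠ 0)
  obtain ⟨l, hl⟩ := IsAlgClosed.exists_pow_nat_eq a⁻¹ (n := d - 1) (by omega)
  have hl0 : l ≠ 0 := by
    rintro rfl
    rw [zero_pow (by omega)] at hl
    exact (inv_ne_zero ha0) hl.symm
  have hla : l ^ (d - 1) * a = 1 := by rw [hl, inv_mul_cancel₀ ha0]
  set z₀ : ℂ := -T.coeff (d - 1) / (d * a) with hz₀
  set G := T.comp (C l * X + C z₀) with hG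
  have hq : (C l * X + C z₀ : ℂ[X]).natDegree = 1 := natDegree_linear hl0
  have hqlc : (C l * X + C z₀ : ℂ[X]).leadingCoeff = l := leadingCoeff_linear hl0
  have hGd : G.natDegree = d := by rw [hG, natDegree_comp, hd, hq, mul_one]
  have hGlc : G.leadingCoeff = a * l ^ d := by
    rw [hG, leadingCoeff_comp (by rw [hq]; norm_num), hqlc, hd]
  have hGco : G.coeff (d - 1) = 0 := by
    have e : G = (taylor z₀ T).comp (C l * X) := by
      rw [hG, taylor_apply, comp_assoc]
      simp
    rw [e, comp_C_mul_X_coeff, taylor_coeff]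
    have h1 : (hasseDeriv (d - 1) T).eval z₀ = 0 := by
      rw [eval_eq_sum_range' (n := 2)]
      · rw [Finset.sum_range_succ, Finset.sum_range_succ, Finset.sum_range_zero,
          hasseDeriv_coeff, hasseDeriv_coeff]
        have e1 : 0 + (d - 1) = d - 1 := by omega
        have e2 : 1 + (d - 1) = d := by omega
        rw [e1, e2, Nat.choose_self]
        have e3 : d.choose (d - 1) = d := by
          have := Nat.choose_symm (n := d) (k := 1) (by omega)
          rw [this, Nat.choose_one_right]
        have e4 : T.coeff d = a := by rw [ha, leadingCoeff, hd]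
        rw [e3, e4, hz₀]
        field_simp
        push_cast
        ring
      · have h1 : (hasseDeriv (d - 1) T).natDegree ≤ T.natDegree - (d - 1) :=
          natDegree_hasseDeriv_le T (d - 1)
        omega
    rw [h1, zero_mul]
  refine ⟨C l⁻¹ * (G - C z₀), l, z₀, hl0, hla, ?_, ?_, ?_, ?_, rfl⟩
  · rw [← mul_assoc, ← C_mul, mul_inv_cancel₀ hl0, C_1, one_mul, sub_add_cancel]
  · rw [Monic, leadingCoeff_mul, leadingCoeff_C, leadingCoeff_sub_of_degree_lt, hGlc]
    · have : l ^ d = l ^ (d - 1) * l := by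
        conv_lhs => rw [show d = (d - 1) + 1 by omega, pow_succ]
      rw [this]
      calc l⁻¹ * (a * (l ^ (d - 1) * l)) = (l ^ (d - 1) * a) * (l⁻¹ * l) := by ring
        _ = 1 := by rw [hla, inv_mul_cancel₀ hl0, one_mul]
    · refine lt_of_le_of_lt degree_C_le ?_
      exact natDegree_pos_iff_degree_pos.1 (by omega)
  · rw [natDegree_C_mul (inv_ne_zero hl0), natDegree_sub_C, hGd]
  · rw [coeff_C_mul, coeff_sub, hGco, coeff_C_of_ne_zero (by omega), sub_zero, mul_zero]

end Pool.Agent.J4.H85.AD
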