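import Mathlib
import Pool.Agent.J4.H85.AD5

/-! The main case analysis. -/

set_option autoImplicit false

open Polynomial Filter Topology

namespace Pool.Agent.J4.H85.AD

theorem pow_bound {x Θ : ℝ} {n : ℕ} (hn : 1 ≤ n) (h : x ^ n ≤ Θ) :
    x ≤ max 1 Θ := by
  by_cases h1 : x ≤ 1
  · exact h1.trans (le_max_left _ _)
  · push Not at h1
    refine le_trans ?_ (h.trans (le_max_right _ _))
    calc x = x ^ 1 := (pow_one x).symm
      _ ≤ x ^ n := pow_le_pow_right₀ h1.le hn

theorem comp_add_C_mul_X (N T : ℂ[X]) (l z₀ s h : ℂ) (hl : l ≠ 0)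
    (hT : T.comp (C l * X + C z₀) = C l * N + C z₀) :
    (T + C s + C h * X).comp (C l * X + C z₀) =
      C l * (N + C (s / l + h * z₀ / l) + C h * X) + C z₀ := by
  rw [add_comp, add_comp, mul_comp, C_comp, C_comp, X_comp, hT]
  have e : C s = C l * C (s / l) := by rw [← C_mul]; congr 1; field_simp
  have e2 : C h * C z₀ = C l * C (h * z₀ / l) := by rw [← C_mul, ← C_mul]; congr 1; field_simp
  rw [e, C_add]
  linear_combination e2

theorem main_aux {d : ℕ} (hd2 : 2 ≤ d) {α ε : ℝ} (hα : 0 < α) (hε : 0 < ε) :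
    ∃ B : ℝ, ∀ T : ℂ[X], T.natDegree = d → α ≤ ‖T.leadingCoeff‖ →
      (¬ ∃ S : ℂ[X], S.natDegree = d ∧ (∀ j, ‖S.coeff j - T.coeff j‖ < ε) ∧ AllEsc S) →
      ∀ j, ‖T.coeff j‖ ≤ B := by
  -- constants
  obtain ⟨Θ, hΘ⟩ : ∃ Θ : ℝ, Θ = Cst' d / ε ^ (d - 1) := ⟨_, rfl⟩
  have hΘ0 : 0 < Θ := by rw [hΘ]; exact div_pos (Cst'_pos hd2) (by positivity)
  obtain ⟨ρ₁, hρ₁⟩ : ∃ ρ₁ : ℝ, ρ₁ = max 1 (Θ / α) := ⟨_, rfl⟩
  have hρ₁1 : 1 ≤ ρ₁ := by rw [hρ₁]; exact le_max_left _ _
  obtain ⟨M₁, hM₁⟩ : ∃ M₁ : ℝ, M₁ = d * 2 ^ d * ρ₁ ^ d := ⟨_, rfl⟩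
  have hdr : (2 : ℝ) ≤ d := by exact_mod_cast hd2
  have hM₁1 : 1 ≤ M₁ := by
    have h1 : (1 : ℝ) ≤ 2 ^ d := one_le_pow₀ (by norm_num)
    have h2 : (1 : ℝ) ≤ ρ₁ ^ d := one_le_pow₀ hρ₁1
    rw [hM₁]
    exact one_le_mul_of_one_le_of_one_le
      (one_le_mul_of_one_le_of_one_le (by linarith) h1) h2
  obtain ⟨B₁, hB₁⟩ := esc_of_large_const hd2 hM₁1
  obtain ⟨B₂, hB₂⟩ := esc_of_large_const hd2 (M := M₁ + ε) (by linarith)
  obtain ⟨m, hm⟩ : ∃ m : ℝ, m = max 1 (1 / α) := ⟨_, rfl⟩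
  have hm1 : 1 ≤ m := by rw [hm]; exact le_max_left _ _
  obtain ⟨Z, hZ⟩ : ∃ Z : ℝ, Z = max 1 ((2 / ε) * (m * (|B₂| + |B₁|))) := ⟨_, rfl⟩
  have hZ1 : 1 ≤ Z := by rw [hZ]; exact le_max_left _ _
  obtain ⟨ν, hν⟩ : ∃ ν : ℝ, ν = max 1 Θ := ⟨_, rfl⟩
  have hν1 : 1 ≤ ν := by rw [hν]; exact le_max_left _ _
  obtain ⟨M₄, hM₄⟩ : ∃ M₄ : ℝ, M₄ = (m * (M₁ + |B₁|) + Z) * ν ^ d := ⟨_, rfl⟩
  have hM₄0 : 0 ≤ M₄ := by rw [hM₄]; positivity
  refine ⟨(d + 1) * (2 ^ d * M₄ * Z ^ d), fun T hd hα' hno => ?_⟩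
  obtain ⟨N, l, z₀, hl0, hla, hconj, hNm, hNd, hN0, -⟩ := normal_form hd hd2
  have hl : 0 < ‖l‖ := norm_pos_iff.2 hl0
  have hla' : ‖l‖ ^ (d - 1) * ‖T.leadingCoeff‖ = 1 := by
    rw [← norm_pow, ← norm_mul, hla, norm_one]
  have ha0 : 0 < ‖T.leadingCoeff‖ := hα.trans_le hα'
  obtain ⟨c', hc', hmax⟩ := exists_max_crit hNd hd2
  -- case A : translation
  have hA : (1 + ‖c'‖) * ‖T.leadingCoeff‖ ≤ Θ := by
    by_contra hcon
    push Not at hcon
    apply hno
    have hδ : 0 < ε / ‖l‖ := div_pos hε hl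
    have h1 : Cst' d < (1 + ‖c'‖) * (ε / ‖l‖) ^ (d - 1) := by
      have e1 : (ε / ‖l‖) ^ (d - 1) = ε ^ (d - 1) * ‖T.leadingCoeff‖ := by
        rw [div_pow, div_eq_iff (by positivity), mul_assoc, mul_comm ‖T.leadingCoeff‖, hla', mul_one]
      rw [e1]
      rw [hΘ, div_lt_iff₀ (by positivity)] at hcon
      linarith
    obtain ⟨t, ht, htesc⟩ := good_translate hNd hd2 hNm hN0 (norm_nonneg c') ⟨c', hc', le_rfl⟩ hδ h1
    refine ⟨T + C (l * t), ?_, ?_, ?_⟩
    · rw [natDegree_add_C, hd]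
    · intro j
      rw [coeff_add, add_sub_cancel_left, coeff_C]
      split_ifs
      · rw [norm_mul]
        rw [lt_div_iff₀ hl] at ht
        linarith
      · simpa using hε
    · have h2 := comp_add_C_mul_X N T l z₀ (l * t) 0 hl0 hconj
      rw [mul_div_cancel_left₀ _ hl0] at h2
      simp only [C_0, zero_mul, zero_div, add_zero] at h2
      exact conj_allEsc hl0 h2 htesc
  have haΘ : ‖T.leadingCoeff‖ ≤ Θ := by nlinarith [norm_nonneg c']
  have hcρ : ‖c'‖ ≤ ρ₁ := by
    have h1 : (1 + ‖c'‖) * α ≤ Θ := by nlinarith [norm_nonneg c']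
    have h2 : 1 + ‖c'‖ ≤ Θ / α := by rwa [le_div_iff₀ hα]
    have h3 : Θ / α ≤ ρ₁ := by rw [hρ₁]; exact le_max_right _ _
    linarith
  have hcrit : ∀ c : ℂ, (derivative N).eval c = 0 → ‖c‖ ≤ ρ₁ := fun c hc => (hmax c hc).trans hcρ
  have hcoef : ∀ j, 1 ≤ j → ‖N.coeff j‖ ≤ M₁ := by
    intro j hj
    by_cases hjd : j ≤ d
    · refine (coeff_bound hNd (by omega) hNm (by linarith) hcrit hj hjd).trans ?_
      rw [hM₁]
      have : ρ₁ ^ (d - j) ≤ ρ₁ ^ d := pow_le_pow_right₀ hρ₁1 (Nat.sub_le _ _)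
      gcongr
    · rw [coeff_eq_zero_of_natDegree_lt (by omega), norm_zero]
      linarith
  -- case B : large constant term
  have hB : ‖N.coeff 0‖ ≤ |B₁| := by
    by_contra hcon
    push Not at hcon
    apply hno
    refine ⟨T, hd, fun j => by simpa using hε, ?_⟩
    have h1 := hB₁ N hNm hNd hcoef ((le_abs_self _).trans_lt hcon)
    exact conj_allEsc hl0 hconj h1
  -- bounds for `l`
  have hlm : ‖l‖ ≤ m := by
    rw [hm]
    apply pow_bound (n := d - 1) (by omega)
    rw [le_div_iff₀ hα, ← hla']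
    gcongr
  -- case C : far centre
  have hC : ‖z₀‖ ≤ Z := by
    by_contra hcon
    push Not at hcon
    apply hno
    set h : ℂ := ((ε / 2 : ℝ) : ℂ) with hh
    have hhn : ‖h‖ = ε / 2 := by
      rw [hh, Complex.norm_real, Real.norm_of_nonneg (by linarith)]
    have h2 := comp_add_C_mul_X N T l z₀ 0 h hl0 hconj
    simp only [C_0, add_zero, zero_div, zero_add] at h2
    have hlt : (C h * X : ℂ[X]).degree < (N + C (h * z₀ / l)).degree := by
      refine lt_of_le_of_lt (degree_C_mul_X_le h) ?_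
      rw [degree_eq_natDegree, natDegree_add_C, hNd]
      · exact_mod_cast (by omega : 1 < d)
      · intro h0
        have h1 := natDegree_add_C (p := N) (a := h * z₀ / l)
        rw [h0, natDegree_zero, hNd] at h1
        omega
    have hNm1 : (N + C (h * z₀ / l)).Monic := by
      apply hNm.add_of_left
      refine lt_of_le_of_lt degree_C_le ?_
      exact natDegree_pos_iff_degree_pos.1 (by omega)
    have hNm2 : (N + C (h * z₀ / l) + C h * X).Monic := hNm1.add_of_left hlt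
    have hNd2 : (N + C (h * z₀ / l) + C h * X).natDegree = d := by
      rw [natDegree_eq_of_degree_eq (degree_add_eq_left_of_degree_lt hlt), natDegree_add_C, hNd]
    have h3 : AllEsc (N + C (h * z₀ / l) + C h * X) := by
      apply hB₂ _ hNm2 hNd2
      · intro j hj
        rw [coeff_add, coeff_add, coeff_C_of_ne_zero (by omega), add_zero, coeff_C_mul, coeff_X]
        refine (norm_add_le _ _).trans ?_
        have h4 : ‖h * (if 1 = j then 1 else 0)‖ ≤ ε := by
          rw [norm_mul, hhn]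
          split_ifs
          · rw [norm_one]; linarith
          · rw [norm_zero]; linarith
        linarith [hcoef j hj]
      · rw [coeff_add, coeff_add, coeff_C_zero, mul_coeff_zero, coeff_X_zero, mul_zero, add_zero]
        have h5 : |B₂| + |B₁| < ‖h * z₀ / l‖ := by
          rw [norm_div, norm_mul, hhn, lt_div_iff₀ hl]
          have h6 : (2 / ε) * (m * (|B₂| + |B₁|)) < ‖z₀‖ := by
            refine lt_of_le_of_lt ?_ hcon
            rw [hZ]; exact le_max_right _ _
          have h7 : m * (|B₂| + |B₁|) < ε / 2 * ‖z₀‖ := by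
            have := mul_lt_mul_of_pos_left h6 (by linarith : 0 < ε / 2)
            rw [← mul_assoc] at this
            have e : ε / 2 * (2 / ε) = 1 := by field_simp
            rwa [e, one_mul] at this
          have h8 : (|B₂| + |B₁|) * ‖l‖ ≤ m * (|B₂| + |B₁|) := by
            rw [mul_comm]
            gcongr
          linarith
        have h9 : ‖h * z₀ / l‖ ≤ ‖N.coeff 0 + h * z₀ / l‖ + ‖N.coeff 0‖ := by
          have := norm_sub_le (N.coeff 0 + h * z₀ / l) (N.coeff 0)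
          rwa [add_sub_cancel_left] at this
        linarith [le_abs_self B₂]
    refine ⟨T + C h * X, ?_, ?_, conj_allEsc hl0 h2 h3⟩
    · have hT0 : T ≠ 0 := by
        rintro rfl
        simp at ha0
      have hlt2 : (C h * X : ℂ[X]).degree < T.degree := by
        refine lt_of_le_of_lt (degree_C_mul_X_le h) ?_
        rw [degree_eq_natDegree hT0, hd]
        exact_mod_cast (by omega : 1 < d)
      rw [natDegree_eq_of_degree_eq (degree_add_eq_left_of_degree_lt hlt2), hd]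
    · intro j
      rw [coeff_add, add_sub_cancel_left, coeff_C_mul, coeff_X, norm_mul, hhn]
      split_ifs
      · rw [norm_one]; linarith
      · rw [norm_zero]; linarith
  -- case D : everything is bounded
  have hνl : (‖l‖)⁻¹ ≤ ν := by
    rw [hν]
    apply pow_bound (n := d - 1) (by omega)
    refine le_trans (le_of_eq ?_) haΘ
    rw [inv_pow]
    exact inv_eq_of_mul_eq_one_right hla'
  have htay : ∀ j, ‖(taylor z₀ T).coeff j‖ ≤ M₄ := by
    intro j
    have e : T.comp (C l * X + C z₀) = (taylor z₀ T).comp (C l * X) := by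
      rw [taylor_apply, comp_assoc]
      simp
    by_cases hjd : j ≤ d
    · have h1 : (taylor z₀ T).coeff j * l ^ j = l * N.coeff j + (C z₀ : ℂ[X]).coeff j := by
        rw [← comp_C_mul_X_coeff, ← e, hconj, coeff_add, coeff_C_mul]
      have h2 : ‖(taylor z₀ T).coeff j‖ * ‖l‖ ^ j ≤ m * (M₁ + |B₁|) + Z := by
        rw [← norm_pow, ← norm_mul, h1]
        refine (norm_add_le _ _).trans ?_
        rw [norm_mul]
        have h3 : ‖N.coeff j‖ ≤ M₁ + |B₁| := by
          rcases Nat.eq_zero_or_pos j with rfl | hj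
          · linarith
          · linarith [hcoef j hj, abs_nonneg B₁]
        have h4 : ‖(C z₀ : ℂ[X]).coeff j‖ ≤ Z := by
          rw [coeff_C]
          split_ifs
          · exact hC
          · rw [norm_zero]; linarith
        have h5 : ‖l‖ * ‖N.coeff j‖ ≤ m * (M₁ + |B₁|) :=
          mul_le_mul hlm h3 (norm_nonneg _) (by linarith)
        linarith
      have h6 : ‖(taylor z₀ T).coeff j‖ = ‖(taylor z₀ T).coeff j‖ * ‖l‖ ^ j * (‖l‖⁻¹) ^ j := by
        rw [mul_assoc, ← mul_pow, mul_inv_cancel₀ hl.ne', one_pow, mul_one]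
      rw [h6, hM₄]
      have h7 : (‖l‖⁻¹) ^ j ≤ ν ^ d :=
        (pow_le_pow_left₀ (by positivity) hνl _).trans (pow_le_pow_right₀ hν1 hjd)
      exact mul_le_mul h2 h7 (by positivity) (by positivity)
    · rw [coeff_eq_zero_of_natDegree_lt (by rw [natDegree_taylor]; omega), norm_zero]
      exact hM₄0
  intro j
  have h1 : T = taylor (-z₀) (taylor z₀ T) := by
    rw [taylor_taylor]
    simp
  rw [h1]
  exact taylor_bound (by rw [natDegree_taylor, hd]) hM₄0 hZ1 htay (by rw [norm_neg]; exact hC) j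

/-- The set of the polynomials of degree `d` which are not `ε`-close to a polynomial of degree `d`
with escaping critical points is bounded. -/
theorem main {d : ℕ} (hd2 : 2 ≤ d) {ε : ℝ} (hε : 0 < ε) :
    ∃ B : ℝ, ∀ T : ℂ[X], T.natDegree = d →
      (¬ ∃ S : ℂ[X], S.natDegree = d ∧ (∀ j, ‖S.coeff j - T.coeff j‖ < ε) ∧ AllEsc S) →
      ∀ j, ‖T.coeff j‖ ≤ B := by
  obtain ⟨B, hB⟩ := main_aux hd2 (α := ε / 8) (ε := ε / 2) (by linarith) (by linarith)
  refine ⟨B + ε, fun T hd hno j => ?_⟩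
  by_cases ha : ε / 8 ≤ ‖T.leadingCoeff‖
  · have h1 := hB T hd ha (by
      rintro ⟨S, h1, h2, h3⟩
      exact hno ⟨S, h1, fun j => (h2 j).trans (by linarith), h3⟩) j
    linarith
  · push Not at ha
    set h : ℂ := ((ε / 4 : ℝ) : ℂ) with hh
    have hhn : ‖h‖ = ε / 4 := by
      rw [hh, Complex.norm_real, Real.norm_of_nonneg (by linarith)]
    set T₁ := T + C h * X ^ d with hT₁
    have hco : ∀ j, ‖T₁.coeff j - T.coeff j‖ ≤ ε / 4 := by
      intro j
      rw [hT₁, coeff_add, add_sub_cancel_left, coeff_C_mul, coeff_X_pow, norm_mul, hhn]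
      split_ifs
      · rw [norm_one]; linarith
      · rw [norm_zero]; linarith
    have hTd : T.coeff d = T.leadingCoeff := by rw [leadingCoeff, hd]
    have hcd : ε / 8 ≤ ‖T₁.coeff d‖ := by
      rw [hT₁, coeff_add, coeff_C_mul, coeff_X_pow, if_pos rfl, mul_one, hTd]
      have := norm_sub_norm_le h (-T.leadingCoeff)
      rw [norm_neg, sub_neg_eq_add, add_comm h] at this
      linarith
    have hne : T₁.coeff d ≠ 0 := by
      intro h0
      rw [h0, norm_zero] at hcd
      linarith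
    have hT₁d : T₁.natDegree = d := by
      apply le_antisymm
      · rw [hT₁]
        refine (natDegree_add_le _ _).trans ?_
        rw [hd]
        exact max_le le_rfl (natDegree_C_mul_X_pow_le _ _)
      · exact le_natDegree_of_ne_zero hne
    have h1 := hB T₁ hT₁d (by rw [leadingCoeff, hT₁d]; exact hcd) (by
      rintro ⟨S, h1, h2, h3⟩
      refine hno ⟨S, h1, fun j => ?_, h3⟩
      have h4 : S.coeff j - T.coeff j = (S.coeff j - T₁.coeff j) + (T₁.coeff j - T.coeff j) := by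
        ring
      rw [h4]
      refine (norm_add_le _ _).trans_lt ?_
      linarith [h2 j, hco j]) j
    have h2 : ‖T.coeff j‖ ≤ ‖T₁.coeff j‖ + ‖T₁.coeff j - T.coeff j‖ := by
      have := norm_sub_le (T₁.coeff j) (T₁.coeff j - T.coeff j)
      rwa [sub_sub_cancel] at this
    linarith [hco j]

end Pool.Agent.J4.H85.AD
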