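import Mathlib
import Pool.Agent.J4.H85.AD5

/-! Slices of measurable sets of coefficient vectors, and measurability. -/

set_option autoImplicit false

open Polynomial Filter Topology MeasureTheory

namespace Pool.Agent.J4.H85.AD

/-- The area of a disc of radius `r`. -/
noncomputable def disc (r : ℝ) : ENNReal := ENNReal.ofReal r ^ 2 * NNReal.pi

theorem vol_cball (c : ℂ) (r : ℝ) : volume (Metric.closedBall c r) = disc r :=
  Complex.volume_closedBall c r

theorem vol_ball (c : ℂ) (r : ℝ) : volume (Metric.ball c r) = disc r :=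
  Complex.volume_ball c r

theorem disc_pos {r : ℝ} (hr : 0 < r) : 0 < disc r := by
  unfold disc
  have h1 : ENNReal.ofReal r ≠ 0 := (ENNReal.ofReal_pos.2 hr).ne'
  have h2 : (NNReal.pi : ENNReal) ≠ 0 := by
    simp [NNReal.pi_ne_zero]
  exact pos_iff_ne_zero.2 (mul_ne_zero (pow_ne_zero _ h1) h2)

theorem disc_ne_top (r : ℝ) : disc r ≠ ⊤ := by
  unfold disc
  exact ENNReal.mul_ne_top (ENNReal.pow_ne_top ENNReal.ofReal_ne_top) ENNReal.coe_ne_top

theorem vol_pi_ball {n : ℕ} (T : Fin n → ℂ) {ε : ℝ} (hε : 0 < ε) :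
    volume (Metric.ball T ε) = disc ε ^ n := by
  rw [volume_pi_ball T hε]
  simp only [vol_ball, Finset.prod_const, Finset.card_univ, Fintype.card_fin]

/-- Fubini: a bound for all slices in one direction. -/
theorem slice_bound {n : ℕ} (i : Fin (n + 1)) {S : Set (Fin (n + 1) → ℂ)} (hS : MeasurableSet S)
    {T : Fin (n + 1) → ℂ} {ε : ℝ} (hε : 0 < ε) (hST : S ⊆ Metric.ball T ε) {η : ENNReal}
    (h : ∀ a ∈ S, volume {x : ℂ | Function.update a i x ∈ S} ≤ η) :
    volume S ≤ η * disc ε ^ n := by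
  set e := MeasurableEquiv.piFinSuccAbove (fun _ : Fin (n + 1) => ℂ) i with he
  have hmp : MeasurePreserving e.symm := (volume_preserving_piFinSuccAbove (fun _ => ℂ) i).symm e
  have h1 : volume S = volume (e.symm ⁻¹' S) := (hmp.measure_preimage hS.nullMeasurableSet).symm
  rw [h1, Measure.volume_eq_prod, Measure.prod_apply_symm (e.symm.measurable hS)]
  have hsl : ∀ y : Fin n → ℂ, volume ((fun x : ℂ => (x, y)) ⁻¹' (e.symm ⁻¹' S)) ≤
      (Metric.ball (fun j : Fin n => T (i.succAbove j)) ε).indicator (fun _ => η) y := by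
    intro y
    by_cases hne : ((fun x : ℂ => (x, y)) ⁻¹' (e.symm ⁻¹' S)).Nonempty
    · obtain ⟨x₀, hx₀⟩ := hne
      have hx₁ : i.insertNth x₀ y ∈ S := hx₀
      have hy : y ∈ Metric.ball (fun j : Fin n => T (i.succAbove j)) ε := by
        have h2 := hST hx₁
        rw [Metric.mem_ball, dist_pi_lt_iff hε] at h2 ⊢
        intro j
        have := h2 (i.succAbove j)
        simpa using this
      rw [Set.indicator_of_mem hy]
      have hset : (fun x : ℂ => (x, y)) ⁻¹' (e.symm ⁻¹' S) =
          {x : ℂ | Function.update (i.insertNth x₀ y : Fin (n + 1) → ℂ) i x ∈ S} := by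
        ext x
        rw [Set.mem_preimage, Set.mem_preimage, Set.mem_ofPred_eq, Fin.update_insertNth]
        rfl
      rw [hset]
      exact h _ hx₁
    · rw [Set.not_nonempty_iff_eq_empty] at hne
      rw [hne, measure_empty]
      exact zero_le
  refine (lintegral_mono hsl).trans ?_
  rw [lintegral_indicator_const Metric.isOpen_ball.measurableSet, vol_pi_ball _ hε]

/-- The measure of a finite union of discs. -/
theorem vol_union (s : Finset ℂ) (f : ℂ → ℂ) (r : ℝ) {A : Set ℂ}
    (hA : ∀ x ∈ A, ∃ y ∈ s, ‖x - f y‖ ≤ r) : volume A ≤ s.card * disc r := by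
  have h1 : A ⊆ ⋃ y ∈ s, Metric.closedBall (f y) r := by
    intro x hx
    obtain ⟨y, hy, hxy⟩ := hA x hx
    rw [Set.mem_iUnion₂]
    exact ⟨y, hy, by rw [Metric.mem_closedBall, dist_eq_norm]; exact hxy⟩
  refine (measure_mono h1).trans ((measure_biUnion_finset_le s _).trans ?_)
  simp only [vol_cball, Finset.sum_const, nsmul_eq_mul]
  exact le_rfl

/-- The polynomial with the coefficients `a`. -/
noncomputable def poly {d : ℕ} (a : Fin (d + 1) → ℂ) : ℂ[X] := ∑ i : Fin (d + 1), C (a i) * X ^ (i : ℕ)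

theorem coeff_poly {d : ℕ} (a : Fin (d + 1) → ℂ) (j : ℕ) :
    (poly a).coeff j = if h : j < d + 1 then a ⟨j, h⟩ else 0 := by
  unfold poly
  rw [finsetSum_coeff]
  simp only [coeff_C_mul, coeff_X_pow, mul_ite, mul_one, mul_zero]
  split_ifs with h
  · rw [Finset.sum_eq_single (⟨j, h⟩ : Fin (d + 1))]
    · simp
    · intro b _ hb
      rw [if_neg]
      intro h2
      exact hb (Fin.ext h2.symm)
    · intro h2
      exact absurd (Finset.mem_univ _) h2
  · apply Finset.sum_eq_zero
    intro b _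
    rw [if_neg]
    have := b.2
    omega

theorem coeff_poly_fin {d : ℕ} (a : Fin (d + 1) → ℂ) (j : Fin (d + 1)) :
    (poly a).coeff (j : ℕ) = a j := by
  rw [coeff_poly, dif_pos j.2]

theorem natDegree_poly_le {d : ℕ} (a : Fin (d + 1) → ℂ) : (poly a).natDegree ≤ d := by
  rw [natDegree_le_iff_coeff_eq_zero]
  intro j hj
  rw [coeff_poly, dif_neg (by omega)]

theorem natDegree_poly {d : ℕ} {a : Fin (d + 1) → ℂ} (h : a (Fin.last d) ≠ 0) :
    (poly a).natDegree = d := by
  apply le_antisymm (natDegree_poly_le a)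
  apply le_natDegree_of_ne_zero
  have := coeff_poly_fin a (Fin.last d)
  rw [Fin.val_last] at this
  rw [this]
  exact h

theorem leadingCoeff_poly {d : ℕ} {a : Fin (d + 1) → ℂ} (h : a (Fin.last d) ≠ 0) :
    (poly a).leadingCoeff = a (Fin.last d) := by
  rw [leadingCoeff, natDegree_poly h]
  have := coeff_poly_fin a (Fin.last d)
  rwa [Fin.val_last] at this

theorem eval_poly {d : ℕ} (a : Fin (d + 1) → ℂ) (z : ℂ) :
    (poly a).eval z = ∑ i : Fin (d + 1), a i * z ^ (i : ℕ) := by
  unfold poly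
  rw [eval_finsetSum]
  simp

theorem eval_derivative_poly {d : ℕ} (a : Fin (d + 1) → ℂ) (z : ℂ) :
    (derivative (poly a)).eval z = ∑ i : Fin (d + 1), a i * ((i : ℕ) * z ^ ((i : ℕ) - 1)) := by
  unfold poly
  rw [derivative_sum, eval_finsetSum]
  refine Finset.sum_congr rfl fun i _ => ?_
  rw [derivative_C_mul_X_pow, eval_mul, eval_C, eval_pow, eval_X, mul_assoc]

/-- The coefficient vectors of the polynomials of degree `d` with escaping critical points. -/
def Good {d : ℕ} (a : Fin (d + 1) → ℂ) : Prop := a (Fin.last d) ≠ 0 ∧ AllEsc (poly a)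

/-- Compactness: the coefficient vectors with a bounded critical orbit, with bounds. -/
def Fr (d : ℕ) (R : ℝ) : Set (Fin (d + 1) → ℂ) :=
  {a | ∃ c : ℂ, ‖c‖ ≤ R ∧ (derivative (poly a)).eval c = 0 ∧
    ∀ n : ℕ, ‖(fun w : ℂ => (poly a).eval w)^[n] c‖ ≤ R}

/-- The iterates as functions of the coefficients and the point. -/
noncomputable def it {d : ℕ} (n : ℕ) (p : (Fin (d + 1) → ℂ) × ℂ) : ℂ :=
  (fun w : ℂ => (poly p.1).eval w)^[n] p.2

theorem continuous_it {d : ℕ} (n : ℕ) : Continuous (it (d := d) n) := by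
  induction n with
  | zero => exact continuous_snd
  | succ n ih =>
    have : it (d := d) (n + 1) = fun p => ∑ i : Fin (d + 1), p.1 i * (it n p) ^ (i : ℕ) := by
      funext p
      unfold it
      rw [Function.iterate_succ_apply']
      exact eval_poly _ _
    rw [this]
    fun_prop

theorem isClosed_Fr (d : ℕ) (R : ℝ) : IsClosed (Fr d R) := by
  have hK : CompactSpace (Metric.closedBall (0 : ℂ) R) :=
    isCompact_iff_compactSpace.1 (isCompact_closedBall 0 R)
  set W : Set ((Fin (d + 1) → ℂ) × Metric.closedBall (0 : ℂ) R) :=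
    {p | (∑ i : Fin (d + 1), p.1 i * ((i : ℕ) * (p.2 : ℂ) ^ ((i : ℕ) - 1))) = 0} ∩
      ⋂ n : ℕ, {p | ‖it n (p.1, (p.2 : ℂ))‖ ≤ R} with hW
  have h1 : IsClosed W := by
    apply IsClosed.inter
    · exact isClosed_eq (by fun_prop) continuous_const
    · apply isClosed_iInter
      intro n
      have h2 := (continuous_it (d := d) n).norm
      have h3 : Continuous fun p : (Fin (d + 1) → ℂ) × Metric.closedBall (0 : ℂ) R =>
          (p.1, (p.2 : ℂ)) := by fun_prop
      exact isClosed_le (h2.comp h3) continuous_const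
  have h2 := (isClosedMap_fst_of_compactSpace (X := Fin (d + 1) → ℂ)
    (Y := Metric.closedBall (0 : ℂ) R)) _ h1
  convert h2 using 1
  ext a
  constructor
  · rintro ⟨c, hc, h3, h4⟩
    refine ⟨(a, ⟨c, by rw [mem_closedBall_zero_iff]; exact hc⟩), ⟨?_, ?_⟩, rfl⟩
    · rw [eval_derivative_poly] at h3
      exact h3
    · exact Set.mem_iInter.2 fun n => h4 n
  · rintro ⟨⟨a', c⟩, ⟨h3, h4⟩, rfl⟩
    refine ⟨c, by have := c.2; rwa [mem_closedBall_zero_iff] at this, ?_, ?_⟩
    · rw [eval_derivative_poly]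
      exact h3
    · exact fun n => Set.mem_iInter.1 h4 n

/-- A polynomial of degree at least two has an escape radius. -/
theorem escape_radius {f : ℂ[X]} (hf : 2 ≤ f.natDegree) :
    ∃ R : ℝ, 0 ≤ R ∧ ∀ z : ℂ, R < ‖z‖ → 2 * ‖z‖ ≤ ‖f.eval z‖ := by
  have h1 : f = f.divX * X + C (f.coeff 0) := (divX_mul_X_add f).symm
  have h2 : 0 < f.divX.degree := by
    apply natDegree_pos_iff_degree_pos.1
    rw [natDegree_divX_eq_natDegree_tsub_one]
    omega
  have h3 : Tendsto (fun z : ℂ => ‖f.divX.eval z‖) (cocompact ℂ) atTop :=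
    tendsto_norm_atTop f.divX h2 (tendsto_norm_cocompact_atTop)
  have h4 : ∀ᶠ z in cocompact ℂ, 3 ≤ ‖f.divX.eval z‖ := h3.eventually_ge_atTop 3
  rw [Metric.cobounded_eq_cocompact.symm, ← comap_norm_atTop] at h4
  rw [Filter.eventually_comap] at h4
  obtain ⟨R, hR⟩ := Filter.eventually_atTop.1 h4
  refine ⟨max R ‖f.coeff 0‖, le_max_of_le_right (norm_nonneg _), fun z hz => ?_⟩
  have h5 : 3 ≤ ‖f.divX.eval z‖ := hR ‖z‖ ((le_max_left _ _).trans hz.le) z rfl
  have h6 : ‖f.coeff 0‖ ≤ ‖z‖ := (le_max_right _ _).trans hz.le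
  have h7 : f.eval z = f.divX.eval z * z + f.coeff 0 := by
    conv_lhs => rw [h1]
    simp
  rw [h7]
  have h8 : ‖f.divX.eval z * z‖ - ‖f.coeff 0‖ ≤ ‖f.divX.eval z * z + f.coeff 0‖ := by
    have := norm_sub_norm_le (f.divX.eval z * z) (-f.coeff 0)
    rwa [norm_neg, sub_neg_eq_add] at this
  rw [norm_mul] at h8
  nlinarith [norm_nonneg z]

theorem bad_eq {d : ℕ} (hd2 : 2 ≤ d) : {a : Fin (d + 1) → ℂ | ¬ Good a} =
    {a | a (Fin.last d) = 0} ∪ ⋃ n : ℕ, Fr d n := by
  ext a
  simp only [Set.mem_ofPred_eq, Set.mem_union, Set.mem_iUnion]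
  by_cases ha : a (Fin.last d) = 0
  · simp [Good, ha]
  · simp only [Good, ne_eq, ha, not_false_eq_true, true_and, false_or]
    constructor
    · intro h
      unfold AllEsc at h
      push Not at h
      obtain ⟨c, hc, hesc⟩ := h
      have hc' : (derivative (poly a)).eval c = 0 := by simpa using hc
      obtain ⟨R, hR0, hR⟩ := escape_radius (f := poly a) (by rw [natDegree_poly ha]; exact hd2)
      obtain ⟨n, hn⟩ := exists_nat_ge R
      have hb : ∀ k : ℕ, ‖(fun w : ℂ => (poly a).eval w)^[k] c‖ ≤ n := by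
        intro k
        by_contra hk
        push Not at hk
        exact hesc (esc_of hR0 hR (lt_of_le_of_lt hn hk))
      exact ⟨n, c, by simpa using hb 0, hc', hb⟩
    · rintro ⟨n, c, -, hc, hb⟩ hall
      have h1 := hall c hc
      unfold Esc at h1
      obtain ⟨k, hk⟩ := (h1.eventually_gt_atTop (n : ℝ)).exists
      exact absurd (hb k) (not_le.2 hk)

theorem measurable_bad {d : ℕ} (hd2 : 2 ≤ d) :
    MeasurableSet {a : Fin (d + 1) → ℂ | ¬ Good a} := by
  rw [bad_eq hd2]
  apply MeasurableSet.union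
  · exact measurableSet_eq_fun (measurable_pi_apply _) measurable_const
  · exact MeasurableSet.iUnion fun n => (isClosed_Fr d n).measurableSet

end Pool.Agent.J4.H85.AD
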