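import Mathlib
import Pool.Agent.J4.H85.AD6
import Pool.Agent.J4.H85.AD7

/-! The proportion of the polynomials near a far away polynomial which have a critical point that
does not escape. -/

set_option autoImplicit false

open Polynomial Filter Topology MeasureTheory

namespace Pool.Agent.J4.H85.AD

/-- The constants of the dichotomy. -/
noncomputable def cρ (α Θ : ℝ) : ℝ := max 1 (Θ / α)
noncomputable def cM (d : ℕ) (α Θ : ℝ) : ℝ := d * 2 ^ d * cρ α Θ ^ d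
noncomputable def cB (d : ℕ) (α Θ : ℝ) : ℝ := Bc d (cM d α Θ)
noncomputable def cm (α : ℝ) : ℝ := max 1 (1 / α)
noncomputable def cν (Θ : ℝ) : ℝ := max 1 Θ
noncomputable def cF (d : ℕ) (α Θ Z : ℝ) : ℝ := (d + 1) *
  (2 ^ d * ((cm α * (cM d α Θ + cB d α Θ) + Z) * cν Θ ^ d) * Z ^ d)

/-- The dichotomy for a far away polynomial with a critical point which does not escape. -/
theorem dichotomy {d : ℕ} (hd2 : 2 ≤ d) {α Θ : ℝ} (hα : 0 < α) (hΘ0 : 0 < Θ) {Z : ℝ} (hZ1 : 1 ≤ Z)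
    {T : ℂ[X]} (hd : T.natDegree = d)
    (hα' : α ≤ ‖T.leadingCoeff‖) (hbad : ¬ AllEsc T) (hj : ∃ j, cF d α Θ Z < ‖T.coeff j‖)
    {N : ℂ[X]} {l z₀ : ℂ} (hl0 : l ≠ 0) (hla : l ^ (d - 1) * T.leadingCoeff = 1)
    (hconj : T.comp (C l * X + C z₀) = C l * N + C z₀) (hNm : N.Monic) (hNd : N.natDegree = d)
    {c' : ℂ} (hmax : ∀ c : ℂ, (derivative N).eval c = 0 → ‖c‖ ≤ ‖c'‖) :
      Θ ≤ (1 + ‖c'‖) * ‖T.leadingCoeff‖ ∨
        (Z < ‖z₀‖ ∧ ‖T.eval z₀ - z₀‖ ≤ cm α * cB d α Θ) := by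
  -- constants
  obtain ⟨ρ₁, hρ₁⟩ : ∃ ρ₁ : ℝ, ρ₁ = cρ α Θ := ⟨_, rfl⟩
  have hρ₁1 : 1 ≤ ρ₁ := by rw [hρ₁]; exact le_max_left _ _
  obtain ⟨M₁, hM₁⟩ : ∃ M₁ : ℝ, M₁ = cM d α Θ := ⟨_, rfl⟩
  have hdr : (2 : ℝ) ≤ d := by exact_mod_cast hd2
  have hM₁1 : 1 ≤ M₁ := by
    have h1 : (1 : ℝ) ≤ 2 ^ d := one_le_pow₀ (by norm_num)
    have h2 : (1 : ℝ) ≤ ρ₁ ^ d := one_le_pow₀ hρ₁1
    rw [hM₁, cM, ← hρ₁]
    exact one_le_mul_of_one_le_of_one_le
      (one_le_mul_of_one_le_of_one_le (by linarith) h1) h2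
  obtain ⟨B₁, hB₁⟩ : ∃ B₁ : ℝ, B₁ = cB d α Θ := ⟨_, rfl⟩
  have hB₁0 : 0 ≤ B₁ := by rw [hB₁, cB, ← hM₁]; exact Bc_nonneg hd2 (by linarith)
  obtain ⟨m, hm⟩ : ∃ m : ℝ, m = cm α := ⟨_, rfl⟩
  have hm1 : 1 ≤ m := by rw [hm]; exact le_max_left _ _
  obtain ⟨ν, hν⟩ : ∃ ν : ℝ, ν = cν Θ := ⟨_, rfl⟩
  have hν1 : 1 ≤ ν := by rw [hν]; exact le_max_left _ _
  rw [← hm, ← hB₁]
  have hcF : cF d α Θ Z = (d + 1) * (2 ^ d * ((m * (M₁ + B₁) + Z) * ν ^ d) * Z ^ d) := by
    rw [hm, hM₁, hB₁, hν]; rfl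
  rw [hcF] at hj
  obtain ⟨M₄, hM₄⟩ : ∃ M₄ : ℝ, M₄ = (m * (M₁ + B₁) + Z) * ν ^ d := ⟨_, rfl⟩
  rw [← hM₄] at hj
  have hM₄0 : 0 ≤ M₄ := by rw [hM₄]; positivity
  by_contra hno
  rw [not_or] at hno
  obtain ⟨hA, hno⟩ := hno
  have hl : 0 < ‖l‖ := norm_pos_iff.2 hl0
  have hla' : ‖l‖ ^ (d - 1) * ‖T.leadingCoeff‖ = 1 := by
    rw [← norm_pow, ← norm_mul, hla, norm_one]
  have ha0 : 0 < ‖T.leadingCoeff‖ := hα.trans_le hα'
  push Not at hA
  have haΘ : ‖T.leadingCoeff‖ ≤ Θ := by nlinarith [norm_nonneg c']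
  have hcρ : ‖c'‖ ≤ ρ₁ := by
    have h1 : (1 + ‖c'‖) * α ≤ Θ := by nlinarith [norm_nonneg c']
    have h2 : 1 + ‖c'‖ ≤ Θ / α := by rwa [le_div_iff₀ hα]
    have h3 : Θ / α ≤ ρ₁ := by rw [hρ₁]; exact le_max_right _ _
    linarith
  have hcrit : ∀ c : ℂ, (derivative N).eval c = 0 → ‖c‖ ≤ ρ₁ := fun c hc => (hmax c hc).trans hcρ
  have hcoef : ∀ j, 1 ≤ j → ‖N.coeff j‖ ≤ M₁ := by
    intro j hj
    by_cases hjd : j ≤ d
    · refine (coeff_bound hNd (by omega) hNm (by linarith) hcrit hj hjd).trans ?_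
      rw [hM₁, cM, ← hρ₁]
      have : ρ₁ ^ (d - j) ≤ ρ₁ ^ d := pow_le_pow_right₀ hρ₁1 (Nat.sub_le _ _)
      gcongr
    · rw [coeff_eq_zero_of_natDegree_lt (by omega), norm_zero]
      linarith
  have hB : ‖N.coeff 0‖ ≤ B₁ := by
    by_contra hcon
    push Not at hcon
    apply hbad
    have h1 := esc_of_large_const' hd2 hM₁1 N hNm hNd hcoef (by
      rw [hB₁, cB, ← hM₁] at hcon
      exact hcon)
    exact conj_allEsc hl0 hconj h1
  have hlm : ‖l‖ ≤ m := by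
    rw [hm, cm]
    apply pow_bound (n := d - 1) (by omega)
    rw [le_div_iff₀ hα, ← hla']
    gcongr
  have hval : ‖T.eval z₀ - z₀‖ ≤ m * B₁ := by
    have h1 := congrArg (fun p : ℂ[X] => p.eval 0) hconj
    simp only [eval_comp, eval_add, eval_mul, eval_C, eval_X, mul_zero, zero_add] at h1
    rw [h1, add_sub_cancel_right, norm_mul, ← coeff_zero_eq_eval_zero]
    exact mul_le_mul hlm hB (norm_nonneg _) (by linarith)
  have hC : ‖z₀‖ ≤ Z := by
    by_contra hcon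
    push Not at hcon
    exact hno ⟨hcon, hval⟩
  -- everything is bounded
  have hνl : (‖l‖)⁻¹ ≤ ν := by
    rw [hν, cν]
    apply pow_bound (n := d - 1) (by omega)
    refine le_trans (le_of_eq ?_) haΘ
    rw [inv_pow]
    exact inv_eq_of_mul_eq_one_right hla'
  have htay : ∀ j, ‖(taylor z₀ T).coeff j‖ ≤ M₄ := by
    intro j
    have e : T.comp (C l * X + C z₀) = (taylor z₀ T).comp (C l * X) := by
      rw [taylor_apply, comp_assoc]
      simp
    by_cases hjd : j ≤ d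
    · have h1 : (taylor z₀ T).coeff j * l ^ j = l * N.coeff j + (C z₀ : ℂ[X]).coeff j := by
        rw [← comp_C_mul_X_coeff, ← e, hconj, coeff_add, coeff_C_mul]
      have h2 : ‖(taylor z₀ T).coeff j‖ * ‖l‖ ^ j ≤ m * (M₁ + B₁) + Z := by
        rw [← norm_pow, ← norm_mul, h1]
        refine (norm_add_le _ _).trans ?_
        rw [norm_mul]
        have h3 : ‖N.coeff j‖ ≤ M₁ + B₁ := by
          rcases Nat.eq_zero_or_pos j with rfl | hj
          · linarith
          · linarith [hcoef j hj]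
        have h4 : ‖(C z₀ : ℂ[X]).coeff j‖ ≤ Z := by
          rw [coeff_C]
          split_ifs
          · exact hC
          · rw [norm_zero]; linarith
        have h5 : ‖l‖ * ‖N.coeff j‖ ≤ m * (M₁ + B₁) :=
          mul_le_mul hlm h3 (norm_nonneg _) (by linarith)
        linarith
      have h6 : ‖(taylor z₀ T).coeff j‖ = ‖(taylor z₀ T).coeff j‖ * ‖l‖ ^ j * (‖l‖⁻¹) ^ j := by
        rw [mul_assoc, ← mul_pow, mul_inv_cancel₀ hl.ne', one_pow, mul_one]
      rw [h6, hM₄]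
      have h7 : (‖l‖⁻¹) ^ j ≤ ν ^ d :=
        (pow_le_pow_left₀ (by positivity) hνl _).trans (pow_le_pow_right₀ hν1 hjd)
      exact mul_le_mul h2 h7 (by positivity) (by positivity)
    · rw [coeff_eq_zero_of_natDegree_lt (by rw [natDegree_taylor]; omega), norm_zero]
      exact hM₄0
  obtain ⟨j, hj⟩ := hj
  have h1 : T = taylor (-z₀) (taylor z₀ T) := by
    rw [taylor_taylor]
    simp
  rw [h1] at hj
  exact absurd (taylor_bound (by rw [natDegree_taylor, hd]) hM₄0 hZ1 htay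
    (by rw [norm_neg]; exact hC) j) (not_le.2 hj)

/-- The centre as a function of the coefficients. -/
noncomputable def zc {d : ℕ} (a : Fin (d + 1) → ℂ) : ℂ :=
  -(poly a).coeff (d - 1) / (d * a (Fin.last d))

/-- The exceptional set of the second alternative. -/
def Dset (d : ℕ) (α Z B₀ : ℝ) : Set (Fin (d + 1) → ℂ) :=
  {a | α ≤ ‖a (Fin.last d)‖} ∩ ({a | Z < ‖zc a‖} ∩ {a | ‖(poly a).eval (zc a) - zc a‖ ≤ B₀})

theorem measurable_zc {d : ℕ} : Measurable (zc (d := d)) := by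
  have h : zc (d := d) = fun a : Fin (d + 1) → ℂ =>
      (-a ⟨d - 1, by omega⟩ / (d * a (Fin.last d)) : ℂ) := by
    funext a
    unfold zc
    rw [coeff_poly, dif_pos (by omega : d - 1 < d + 1)]
  rw [h]
  fun_prop

theorem measurable_Dset (d : ℕ) (α Z B₀ : ℝ) : MeasurableSet (Dset d α Z B₀) := by
  unfold Dset
  have h1 := measurable_zc (d := d)
  have h2 : Measurable fun a : Fin (d + 1) → ℂ => (poly a).eval (zc a) - zc a := by
    simp only [eval_poly]
    fun_prop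
  refine (measurableSet_le measurable_const (by fun_prop)).inter
    ((measurableSet_lt measurable_const h1.norm).inter
      (measurableSet_le h2.norm measurable_const))

theorem poly_update_zero {d : ℕ} (a : Fin (d + 1) → ℂ) (x : ℂ) :
    poly (Function.update a 0 x) = poly a + C (x - a 0) := by
  ext j
  rw [coeff_add, coeff_poly, coeff_poly, coeff_C]
  by_cases hj : j < d + 1
  · rw [dif_pos hj, dif_pos hj]
    by_cases hj0 : j = 0
    · subst hj0
      rw [if_pos rfl]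
      have : (⟨0, hj⟩ : Fin (d + 1)) = 0 := rfl
      rw [this, Function.update_self]
      ring
    · rw [if_neg hj0, Function.update_of_ne, add_zero]
      intro h
      exact hj0 (by simpa using congrArg Fin.val h)
  · rw [dif_neg hj, dif_neg hj, if_neg (by omega), add_zero]

/-- Slices of the first part. -/
theorem slice_one {d : ℕ} (hd2 : 2 ≤ d) {r : ℝ} (hr : 0 < r) {a : Fin (d + 1) → ℂ}
    (ha : a (Fin.last d) ≠ 0) {N : ℂ[X]} {l z₀ c' : ℂ} (hl0 : l ≠ 0)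
    (hla : l ^ (d - 1) * a (Fin.last d) = 1)
    (hconj : (poly a).comp (C l * X + C z₀) = C l * N + C z₀) (hNm : N.Monic)
    (hNd : N.natDegree = d) (hN0 : N.coeff (d - 1) = 0) (hc' : (derivative N).eval c' = 0)
    (hΘ : Cst d / r ^ (d - 1) ≤ (1 + ‖c'‖) * ‖a (Fin.last d)‖) :
    volume {x : ℂ | ¬ Good (Function.update a 0 x)} ≤ (d ^ 3 : ℕ) * disc r := by
  obtain ⟨s, hs, hcov⟩ := cover hNd hd2 hNm hN0 (norm_nonneg c') ⟨c', hc', le_rfl⟩
  refine (vol_union s (fun y => a 0 + l * y) r ?_).trans ?_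
  · intro x hx
    have hlast : (Function.update a 0 x) (Fin.last d) = a (Fin.last d) := by
      apply Function.update_of_ne
      intro h
      have := congrArg Fin.val h
      simp at this
      omega
    have hx1 : ¬ AllEsc (poly a + C (x - a 0)) := by
      intro h
      apply hx
      refine ⟨by rw [hlast]; exact ha, ?_⟩
      rw [poly_update_zero]
      exact h
    have hx2 : ¬ AllEsc (N + C ((x - a 0) / l)) := by
      intro h
      apply hx1
      have h2 := comp_add_C_mul_X N (poly a) l z₀ (x - a 0) 0 hl0 hconj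
      simp only [C_0, zero_mul, zero_div, add_zero] at h2
      exact conj_allEsc hl0 h2 h
    obtain ⟨y, hy, hxy⟩ := hcov _ hx2
    refine ⟨y, hy, ?_⟩
    have hl : 0 < ‖l‖ := norm_pos_iff.2 hl0
    have hla' : ‖l‖ ^ (d - 1) * ‖a (Fin.last d)‖ = 1 := by
      rw [← norm_pow, ← norm_mul, hla, norm_one]
    have e1 : x - (a 0 + l * y) = l * ((x - a 0) / l - y) := by
      field_simp
      ring
    rw [e1]
    set u := ‖(x - a 0) / l - y‖ with hu
    rw [norm_mul, ← hu]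
    have h3 : Cst d / r ^ (d - 1) * (‖l‖ * u) ^ (d - 1) ≤ Cst d := by
      calc Cst d / r ^ (d - 1) * (‖l‖ * u) ^ (d - 1)
          ≤ ((1 + ‖c'‖) * ‖a (Fin.last d)‖) * (‖l‖ * u) ^ (d - 1) := by
            apply mul_le_mul_of_nonneg_right hΘ (by positivity)
        _ = (‖l‖ ^ (d - 1) * ‖a (Fin.last d)‖) * ((1 + ‖c'‖) * u ^ (d - 1)) := by
            rw [mul_pow]; ring
        _ ≤ Cst d := by rw [hla', one_mul]; exact hxy
    have hCst : 0 < Cst d := by
      have hK := K_ge hd2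
      unfold Cst
      have : 0 < K d := by linarith
      positivity
    have h4 : (‖l‖ * u) ^ (d - 1) ≤ r ^ (d - 1) := by
      have hrp : 0 < r ^ (d - 1) := by positivity
      rw [div_mul_eq_mul_div, div_le_iff₀ hrp] at h3
      exact le_of_mul_le_mul_left h3 hCst
    exact le_of_pow_le_pow_left₀ (by omega) hr.le h4
  · gcongr

end Pool.Agent.J4.H85.AD
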