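import Mathlib
import Pool.Agent.J4.H85.AD8

/-! End of the measure estimate. -/

set_option autoImplicit false

open Polynomial Filter Topology MeasureTheory

namespace Pool.Agent.J4.H85.AD

theorem disc_mono {r r' : ℝ} (h : r ≤ r') : disc r ≤ disc r' := by
  unfold disc
  gcongr

/-- Slices of the second part, `d ≥ 3`. -/
theorem slice_two {d : ℕ} (hd3 : 3 ≤ d) {α Z B₀ r : ℝ} (hZ : 0 < Z) (hB₀ : 0 ≤ B₀)
    (hr : B₀ / Z ≤ r) (a : Fin (d + 1) → ℂ) :
    volume {x : ℂ | Function.update a ⟨1, by omega⟩ x ∈ Dset d α Z B₀} ≤ disc r := by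
  have hone : ∀ x : ℂ, ∀ j : ℕ, ∀ hj : j < d + 1, j ≠ 1 →
      Function.update a ⟨1, by omega⟩ x ⟨j, hj⟩ = a ⟨j, hj⟩ := by
    intro x j hj hj1
    apply Function.update_of_ne
    intro h
    exact hj1 (by simpa using congrArg Fin.val h)
  have hzc : ∀ x : ℂ, zc (Function.update a ⟨1, by omega⟩ x) = zc a := by
    intro x
    unfold zc
    rw [coeff_poly, coeff_poly, dif_pos (by omega), dif_pos (by omega),
      hone x (d - 1) (by omega) (by omega)]
    have : Function.update a ⟨1, by omega⟩ x (Fin.last d) = a (Fin.last d) :=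
      hone x d (by omega) (by omega)
    rw [this]
  have hpoly : ∀ x : ℂ, poly (Function.update a ⟨1, by omega⟩ x) =
      poly a + C (x - a ⟨1, by omega⟩) * X := by
    intro x
    ext j
    rw [coeff_add, coeff_poly, coeff_poly, coeff_C_mul, coeff_X]
    by_cases hj : j < d + 1
    · rw [dif_pos hj, dif_pos hj]
      by_cases hj1 : j = 1
      · subst hj1
        rw [if_pos rfl, Function.update_self, mul_one]
        ring
      · rw [if_neg (fun h => hj1 h.symm), hone x j hj hj1, mul_zero, add_zero]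
    · rw [dif_neg hj, dif_neg hj, if_neg (by omega), mul_zero, add_zero]
  set z := zc a with hz
  set E := (poly a).eval z with hE
  have hsub : {x : ℂ | Function.update a ⟨1, by omega⟩ x ∈ Dset d α Z B₀} ⊆
      Metric.closedBall (a ⟨1, by omega⟩ + 1 - E / z) r := by
    rintro x ⟨-, hx1, hx2⟩
    rw [Set.mem_ofPred_eq, hzc] at hx1
    rw [Set.mem_ofPred_eq, hzc, hpoly, eval_add, eval_mul, eval_C, eval_X, ← hE] at hx2
    have hz0 : 0 < ‖z‖ := hZ.trans hx1
    have hz0' : z ≠ 0 := norm_pos_iff.1 hz0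
    rw [Metric.mem_closedBall, dist_eq_norm]
    have e1 : E + (x - a ⟨1, by omega⟩) * z - z = (x - (a ⟨1, by omega⟩ + 1 - E / z)) * z := by
      field_simp
      ring
    rw [e1, norm_mul] at hx2
    have h3 : ‖x - (a ⟨1, by omega⟩ + 1 - E / z)‖ ≤ B₀ / ‖z‖ := by
      rwa [le_div_iff₀ hz0]
    refine h3.trans (le_trans ?_ hr)
    gcongr
  exact (measure_mono hsub).trans (vol_cball _ _).le

/-- Slices of the second part, `d = 2`. -/
theorem slice_two' {α Z B₀ r : ℝ} (hα : 0 < α) (hZ : 0 < Z) (hαZ : 1 ≤ α * Z)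
    (hr : 4 * B₀ / Z ≤ r) (a : Fin (2 + 1) → ℂ) :
    volume {x : ℂ | Function.update a 1 x ∈ Dset 2 α Z B₀} ≤ 2 * disc r := by
  have hlast : ∀ x : ℂ, Function.update a 1 x (Fin.last 2) = a 2 := by
    intro x
    apply Function.update_of_ne
    decide
  have hzc : ∀ x : ℂ, zc (Function.update a 1 x) = -x / (2 * a 2) := by
    intro x
    unfold zc
    rw [coeff_poly, dif_pos (by omega), hlast]
    have : (⟨2 - 1, by omega⟩ : Fin (2 + 1)) = 1 := rfl
    rw [this, Function.update_self]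
    norm_num
  have hev : ∀ x z : ℂ, (poly (Function.update a 1 x)).eval z = a 0 + x * z + a 2 * z ^ 2 := by
    intro x z
    rw [eval_poly, Fin.sum_univ_three]
    have h0 : Function.update a 1 x 0 = a 0 := Function.update_of_ne (by decide) _ _
    have h2 : Function.update a 1 x 2 = a 2 := Function.update_of_ne (by decide) _ _
    rw [h0, h2, Function.update_self]
    simp
  obtain ⟨s, hs⟩ := IsAlgClosed.exists_pow_nat_eq (1 + 4 * a 0 * a 2) (n := 2) (by norm_num)
  have hsub : {x : ℂ | Function.update a 1 x ∈ Dset 2 α Z B₀} ⊆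
      Metric.closedBall (1 + s) r ∪ Metric.closedBall (1 - s) r := by
    rintro x ⟨hx0, hx1, hx2⟩
    rw [Set.mem_ofPred_eq, hlast] at hx0
    rw [Set.mem_ofPred_eq, hzc] at hx1
    rw [Set.mem_ofPred_eq, hzc, hev] at hx2
    have ha0 : 0 < ‖a 2‖ := hα.trans_le hx0
    have ha0' : a 2 ≠ 0 := norm_pos_iff.1 ha0
    have e1 : a 0 + x * (-x / (2 * a 2)) + a 2 * (-x / (2 * a 2)) ^ 2 - -x / (2 * a 2) =
        -((x - (1 + s)) * (x - (1 - s))) / (4 * a 2) := by
      have e2 : (x - (1 + s)) * (x - (1 - s)) = x ^ 2 - 2 * x - 4 * a 0 * a 2 := by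
        linear_combination -hs
      rw [e2]
      field_simp
      ring
    rw [e1, norm_div, norm_neg, norm_mul, norm_mul] at hx2
    have h4 : ‖(4 : ℂ)‖ = 4 := by simp
    have h2 : ‖(2 : ℂ)‖ = 2 := by simp
    rw [h4, div_le_iff₀ (by positivity)] at hx2
    rw [norm_div, norm_neg, norm_mul, h2, lt_div_iff₀ (by positivity)] at hx1
    have h5 : 1 ≤ ‖a 2‖ * Z := hαZ.trans (by gcongr)
    have h6 : 2 * ‖x‖ - 2 ≤ ‖x - (1 + s)‖ + ‖x - (1 - s)‖ := by
      have h7 : ‖(x - (1 + s)) + (x - (1 - s))‖ ≤ ‖x - (1 + s)‖ + ‖x - (1 - s)‖ := norm_add_le _ _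
      have h8 : (x - (1 + s)) + (x - (1 - s)) = 2 * x - 2 := by ring
      rw [h8] at h7
      have h9 := norm_sub_norm_le (2 * x) 2
      rw [norm_mul, h2] at h9
      linarith
    have hmain : ∀ u v : ℝ, 0 ≤ u → 0 ≤ v → u * v ≤ B₀ * (4 * ‖a 2‖) → ‖a 2‖ * Z ≤ v → u ≤ r := by
      intro u v hu hv huv hv2
      refine le_trans ?_ hr
      rw [le_div_iff₀ hZ]
      have h10 : u * (‖a 2‖ * Z) ≤ B₀ * (4 * ‖a 2‖) :=
        (mul_le_mul_of_nonneg_left hv2 hu).trans huv
      have h11 : (u * Z) * ‖a 2‖ ≤ (4 * B₀) * ‖a 2‖ := by linarith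
      exact le_of_mul_le_mul_right h11 ha0
    have h12 : 2 * (‖a 2‖ * Z) ≤ ‖x - (1 + s)‖ + ‖x - (1 - s)‖ := by nlinarith
    rcases le_total (‖x - (1 + s)‖) (‖x - (1 - s)‖) with h13 | h13
    · left
      rw [Metric.mem_closedBall, dist_eq_norm]
      exact hmain _ _ (norm_nonneg _) (norm_nonneg _) hx2 (by linarith)
    · right
      rw [Metric.mem_closedBall, dist_eq_norm]
      exact hmain _ _ (norm_nonneg _) (norm_nonneg _) (by rw [mul_comm]; exact hx2) (by linarith)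
  refine (measure_mono hsub).trans ((measure_union_le _ _).trans ?_)
  rw [vol_cball, vol_cball, two_mul]

/-- Slices of the second part. -/
theorem slice_D {d : ℕ} (hd2 : 2 ≤ d) {α Z B₀ r : ℝ} (hα : 0 < α) (hZ : 0 < Z) (hαZ : 1 ≤ α * Z)
    (hB₀ : 0 ≤ B₀) (hr : 4 * B₀ / Z ≤ r) (a : Fin (d + 1) → ℂ) :
    volume {x : ℂ | Function.update a ⟨1, by omega⟩ x ∈ Dset d α Z B₀} ≤ 2 * disc r := by
  by_cases h3 : 3 ≤ d
  · refine (slice_two h3 hZ hB₀ (le_trans ?_ hr) a).trans ?_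
    · gcongr
      linarith
    · rw [two_mul]
      exact le_self_add
  · have h2 : d = 2 := by omega
    subst h2
    exact slice_two' hα hZ hαZ hr a

/-- The threshold as a function of `r`. -/
noncomputable def cΘ (d : ℕ) (r : ℝ) : ℝ := Cst d / r ^ (d - 1)
noncomputable def cZ (d : ℕ) (r : ℝ) : ℝ :=
  max 1 (max (4 * (cm r * cB d r (cΘ d r)) / r) (1 / r))
noncomputable def cG (d : ℕ) (r : ℝ) : ℝ := cF d r (cΘ d r) (cZ d r)

/-- The measure estimate. -/
theorem measure_main {d : ℕ} (hd2 : 2 ≤ d) {ε r : ℝ} (hε : 0 < ε) (hr : 0 < r)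
    {T : Fin (d + 1) → ℂ} (hT : max (cG d r) 0 + ε < ‖T‖) :
      volume (Metric.ball T ε ∩ {a | ¬ Good a}) ≤ ((d ^ 3 : ℕ) + 3) * disc r * disc ε ^ d := by
  have hCst := Cst_pos hd2
  have hΘ0 : 0 < cΘ d r := by unfold cΘ; positivity
  have hdich := fun Z hZ1 T hd hα' hbad hj N l z₀ hl0 hla hconj hNm hNd c' hmax =>
    @dichotomy d hd2 r (cΘ d r) hr hΘ0 Z hZ1 T hd hα' hbad hj N l z₀ hl0 hla hconj hNm hNd c' hmax
  obtain ⟨B₀, hB₀e⟩ : ∃ B₀ : ℝ, B₀ = cm r * cB d r (cΘ d r) := ⟨_, rfl⟩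
  have hB₀ : 0 ≤ B₀ := by
    rw [hB₀e]
    apply mul_nonneg
    · exact zero_le_one.trans (le_max_left _ _)
    · unfold cB
      apply Bc_nonneg hd2
      unfold cM cρ
      positivity
  obtain ⟨Z, hZ⟩ : ∃ Z : ℝ, Z = cZ d r := ⟨_, rfl⟩
  obtain ⟨B', hB'⟩ : ∃ B' : ℝ, B' = cG d r := ⟨_, rfl⟩
  have hB'' : B' = cF d r (cΘ d r) Z := by rw [hB', hZ]; rfl
  rw [← hB'] at hT
  rw [← hB₀e] at hdich
  have hZ' : Z = max 1 (max (4 * B₀ / r) (1 / r)) := by rw [hZ, cZ, hB₀e]
  have hZ1 : 1 ≤ Z := by rw [hZ']; exact le_max_left _ _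
  have hZ2 : 4 * B₀ / Z ≤ r := by
    have h1 : 4 * B₀ / r ≤ Z := by rw [hZ']; exact (le_max_left _ _).trans (le_max_right _ _)
    rw [div_le_iff₀ hr] at h1
    rw [div_le_iff₀ (by linarith)]
    linarith
  have hZ3 : 1 ≤ r * Z := by
    have h1 : 1 / r ≤ Z := by rw [hZ']; exact (le_max_right _ _).trans (le_max_right _ _)
    rw [div_le_iff₀ hr] at h1
    linarith
  have hball : MeasurableSet (Metric.ball T ε) := Metric.isOpen_ball.measurableSet
  have hlastm : MeasurableSet {a : Fin (d + 1) → ℂ | ‖a (Fin.last d)‖ < r} :=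
    measurableSet_lt (by fun_prop) measurable_const
  set S₃ := Metric.ball T ε ∩ {a : Fin (d + 1) → ℂ | ‖a (Fin.last d)‖ < r} with hS₃
  set S₂ := Metric.ball T ε ∩ Dset d r Z B₀ with hS₂
  set S₁ := (Metric.ball T ε ∩ {a : Fin (d + 1) → ℂ | ¬ Good a}) ∩
    ({a : Fin (d + 1) → ℂ | ‖a (Fin.last d)‖ < r}ᶜ ∩ (Dset d r Z B₀)ᶜ) with hS₁
  have hcov : Metric.ball T ε ∩ {a | ¬ Good a} ⊆ S₁ ∪ (S₂ ∪ S₃) := by
    rintro a ⟨ha1, ha2⟩
    by_cases h3 : a ∈ {a : Fin (d + 1) → ℂ | ‖a (Fin.last d)‖ < r}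
    · exact Or.inr (Or.inr ⟨ha1, h3⟩)
    · by_cases h4 : a ∈ Dset d r Z B₀
      · exact Or.inr (Or.inl ⟨ha1, h4⟩)
      · exact Or.inl ⟨⟨ha1, ha2⟩, h3, h4⟩
  have hv3 : volume S₃ ≤ disc r * disc ε ^ d := by
    apply slice_bound (Fin.last d) (hball.inter hlastm) hε Set.inter_subset_left
    intro a _
    refine (measure_mono ?_).trans (vol_ball 0 r).le
    rintro x ⟨-, hx⟩
    rw [Set.mem_ofPred_eq, Function.update_self] at hx
    rwa [mem_ball_zero_iff]
  have hv2 : volume S₂ ≤ (2 * disc r) * disc ε ^ d := by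
    apply slice_bound ⟨1, by omega⟩ (hball.inter (measurable_Dset d r Z B₀)) hε
      Set.inter_subset_left
    intro a _
    refine (measure_mono ?_).trans (slice_D hd2 hr (by linarith) hZ3 hB₀ hZ2 a)
    rintro x ⟨-, hx⟩
    exact hx
  have hv1 : volume S₁ ≤ ((d ^ 3 : ℕ) * disc r) * disc ε ^ d := by
    apply slice_bound 0 _ hε (fun a ha => ha.1.1)
    · rintro a ⟨⟨ha1, ha2⟩, ha3, ha4⟩
      have ha3' : r ≤ ‖a (Fin.last d)‖ := not_lt.1 ha3
      have ha0 : a (Fin.last d) ≠ 0 := by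
        intro h0
        rw [h0, norm_zero] at ha3'
        linarith
      have hTd := natDegree_poly ha0
      have hlc := leadingCoeff_poly ha0
      obtain ⟨N, l, z₀, hl0, hla, hconj, hNm, hNd, hN0, hz₀⟩ := normal_form hTd hd2
      obtain ⟨c', hc', hmax⟩ := exists_max_crit hNd hd2
      have hesc : ¬ AllEsc (poly a) := fun h => ha2 ⟨ha0, h⟩
      have hbig : ∃ j, B' < ‖(poly a).coeff j‖ := by
        by_contra hcon
        push Not at hcon
        have h1 : ‖a‖ ≤ max B' 0 := by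
          rw [pi_norm_le_iff_of_nonneg (le_max_right _ _)]
          intro j
          have := hcon (j : ℕ)
          rw [coeff_poly_fin] at this
          exact this.trans (le_max_left _ _)
        have h2 : ‖T - a‖ < ε := by
          rw [← dist_eq_norm]
          have := Metric.mem_ball.1 ha1
          rwa [dist_comm] at this
        have h3 : ‖T‖ ≤ ‖a‖ + ‖T - a‖ := by
          have := norm_add_le a (T - a)
          rwa [add_sub_cancel] at this
        linarith
      rw [hB''] at hbig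
      have hdich' := hdich Z hZ1 (poly a) hTd (by rw [hlc]; exact ha3') hesc hbig N l z₀ hl0 hla
        hconj hNm hNd c' hmax
      have hzz : z₀ = zc a := by
        rw [hz₀, hlc]
        rfl
      rcases hdich' with h1 | ⟨h1, h2⟩
      · rw [hlc] at h1 hla
        refine (measure_mono ?_).trans (slice_one hd2 hr ha0 hl0 hla hconj hNm hNd hN0 hc' h1)
        rintro x ⟨⟨-, hx⟩, -⟩
        exact hx
      · exfalso
        apply ha4
        rw [hzz] at h1 h2
        exact ⟨ha3', h1, h2⟩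
    · exact (hball.inter (measurable_bad hd2)).inter
        (hlastm.compl.inter (measurable_Dset d r Z B₀).compl)
  refine (measure_mono hcov).trans ((measure_union_le _ _).trans ?_)
  refine (add_le_add hv1 ((measure_union_le _ _).trans (add_le_add hv2 hv3))).trans ?_
  apply le_of_eq
  ring

end Pool.Agent.J4.H85.AD
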