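import Mathlib
import Pool.Agent.J4.H85.AD9

/-! Polynomial bounds for the constants and the rate. -/

set_option autoImplicit false

open Polynomial Filter Topology MeasureTheory

namespace Pool.Agent.J4.H85.AD

/-- Nonnegative functions of polynomial growth on `[1, ∞)`. -/
def PB (f : ℝ → ℝ) : Prop :=
  ∃ (c : ℝ) (k : ℕ), 0 ≤ c ∧ ∀ Y : ℝ, 1 ≤ Y → 0 ≤ f Y ∧ f Y ≤ c * Y ^ k

theorem PB.const {c : ℝ} (hc : 0 ≤ c) : PB fun _ => c :=
  ⟨c, 0, hc, fun Y _ => ⟨hc, by simp⟩⟩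

theorem PB.id : PB fun Y => Y := ⟨1, 1, zero_le_one, fun Y hY => ⟨by linarith, by simp⟩⟩

theorem PB.add {f g : ℝ → ℝ} (hf : PB f) (hg : PB g) : PB fun Y => f Y + g Y := by
  obtain ⟨c, k, hc, h⟩ := hf
  obtain ⟨c', k', hc', h'⟩ := hg
  refine ⟨c + c', max k k', by linarith, fun Y hY => ?_⟩
  obtain ⟨h1, h2⟩ := h Y hY
  obtain ⟨h3, h4⟩ := h' Y hY
  have h5 : Y ^ k ≤ Y ^ max k k' := pow_le_pow_right₀ hY (le_max_left _ _)
  have h6 : Y ^ k' ≤ Y ^ max k k' := pow_le_pow_right₀ hY (le_max_right _ _)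
  exact ⟨by linarith, by nlinarith⟩

theorem PB.mul {f g : ℝ → ℝ} (hf : PB f) (hg : PB g) : PB fun Y => f Y * g Y := by
  obtain ⟨c, k, hc, h⟩ := hf
  obtain ⟨c', k', hc', h'⟩ := hg
  refine ⟨c * c', k + k', by positivity, fun Y hY => ?_⟩
  obtain ⟨h1, h2⟩ := h Y hY
  obtain ⟨h3, h4⟩ := h' Y hY
  refine ⟨by positivity, ?_⟩
  calc f Y * g Y ≤ (c * Y ^ k) * (c' * Y ^ k') := mul_le_mul h2 h4 h3 (by positivity)
    _ = c * c' * Y ^ (k + k') := by rw [pow_add]; ring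

theorem PB.max {f g : ℝ → ℝ} (hf : PB f) (hg : PB g) : PB fun Y => max (f Y) (g Y) := by
  obtain ⟨c, k, hc, h⟩ := hf.add hg
  obtain ⟨_, _, _, hf'⟩ := hf
  obtain ⟨_, _, _, hg'⟩ := hg
  refine ⟨c, k, hc, fun Y hY => ⟨le_max_of_le_left (hf' Y hY).1, ?_⟩⟩
  refine le_trans ?_ (h Y hY).2
  apply max_le
  · linarith [(hg' Y hY).1]
  · linarith [(hf' Y hY).1]

theorem PB.pow {f : ℝ → ℝ} (hf : PB f) (n : ℕ) : PB fun Y => f Y ^ n := by
  induction n with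
  | zero => simpa using PB.const zero_le_one
  | succ n ih =>
    simp only [pow_succ]
    exact ih.mul hf

theorem PB.congr {f g : ℝ → ℝ} (hf : PB f) (h : ∀ Y, g Y = f Y) : PB g := by
  have : g = f := funext h
  rw [this]; exact hf

variable {d : ℕ}

theorem pb_Θ (hd2 : 2 ≤ d) : PB fun Y => cΘ d Y⁻¹ :=
  ((PB.const (Cst_pos hd2).le).mul (PB.id.pow (d - 1))).congr fun Y => by
    rw [cΘ, inv_pow, div_inv_eq_mul]

theorem pb_ρ (hd2 : 2 ≤ d) : PB fun Y => cρ Y⁻¹ (cΘ d Y⁻¹) :=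
  ((PB.const zero_le_one).max ((pb_Θ hd2).mul PB.id)).congr fun Y => by
    rw [cρ, div_inv_eq_mul]

theorem pb_M (hd2 : 2 ≤ d) : PB fun Y => cM d Y⁻¹ (cΘ d Y⁻¹) :=
  ((PB.const (c := (d : ℝ) * 2 ^ d) (by positivity)).mul ((pb_ρ hd2).pow d)).congr fun Y => rfl

theorem pb_B (hd2 : 2 ≤ d) : PB fun Y => cB d Y⁻¹ (cΘ d Y⁻¹) := by
  have hK : 0 ≤ K d := by linarith [K_ge hd2]
  have h1 := (PB.const (c := 2 * (d : ℝ)) (by positivity)).mul (pb_M hd2)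
  exact (((PB.const hK).mul h1).add ((PB.const (c := (d : ℝ)) (by positivity)).mul
    ((pb_M hd2).mul (h1.pow d)))).congr fun Y => rfl

theorem pb_m : PB fun Y => cm Y⁻¹ :=
  ((PB.const zero_le_one).max PB.id).congr fun Y => by
    rw [cm, one_div, inv_inv]

theorem pb_ν (hd2 : 2 ≤ d) : PB fun Y => cν (cΘ d Y⁻¹) :=
  ((PB.const zero_le_one).max (pb_Θ hd2)).congr fun _ => rfl

theorem pb_Z (hd2 : 2 ≤ d) : PB fun Y => cZ d Y⁻¹ :=
  ((PB.const zero_le_one).max ((((PB.const (c := (4 : ℝ)) (by norm_num)).mul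
    (pb_m.mul (pb_B hd2))).mul PB.id).max PB.id)).congr fun Y => by
      rw [cZ, div_inv_eq_mul, one_div, inv_inv]

theorem pb_G (hd2 : 2 ≤ d) : PB fun Y => cG d Y⁻¹ :=
  ((PB.const (c := (d : ℝ) + 1) (by positivity)).mul
    (((PB.const (c := (2 : ℝ) ^ d) (by positivity)).mul
      (((pb_m.mul ((pb_M hd2).add (pb_B hd2))).add (pb_Z hd2)).mul ((pb_ν hd2).pow d))).mul
        ((pb_Z hd2).pow d))).congr fun Y => rfl

theorem disc_ratio {r ε : ℝ} (hr : 0 ≤ r) (hε : 0 < ε) :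
    disc r = ENNReal.ofReal (r ^ 2 / ε ^ 2) * disc ε := by
  unfold disc
  rw [← mul_assoc, ← ENNReal.ofReal_pow hr, ← ENNReal.ofReal_pow hε.le,
    ← ENNReal.ofReal_mul (by positivity), div_mul_cancel₀ _ (by positivity)]

/-- The rate. -/
theorem rate (hd2 : 2 ≤ d) : ∃ A κ : ℝ, 0 < A ∧ 0 < κ ∧ ∀ T : Fin (d + 1) → ℂ, 1 ≤ ‖T‖ →
    ∀ ε : ℝ, 0 < ε → ε ≤ 1 →
      volume (Metric.ball T ε ∩ {a | ¬ Good a}) ≤
        ENNReal.ofReal (A * ‖T‖ ^ (-κ) / ε ^ 2) * volume (Metric.ball T ε) := by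
  obtain ⟨c, k, hc, h⟩ := pb_G hd2
  set k' : ℕ := k + 1 with hk'
  have hk0 : (0 : ℝ) < k' := by positivity
  set c' : ℝ := 2 * (c + 2) with hc'
  have hc'4 : 4 ≤ c' := by rw [hc']; linarith
  have hc'0 : 0 < c' := by linarith
  set κ : ℝ := 2 / k' with hκ
  have hκ0 : 0 < κ := by positivity
  set D : ℝ := (d : ℝ) ^ 3 + 3 with hD
  have hD0 : 1 ≤ D := by
    have : (0 : ℝ) ≤ (d : ℝ) ^ 3 := by positivity
    linarith
  refine ⟨D * c' ^ κ, κ, by positivity, hκ0, fun T hT ε hε hε1 => ?_⟩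
  have hT0 : 0 < ‖T‖ := by linarith
  by_cases hL : ‖T‖ < c'
  · refine (measure_mono Set.inter_subset_left).trans ?_
    have h1 : (1 : ENNReal) ≤ ENNReal.ofReal (D * c' ^ κ * ‖T‖ ^ (-κ) / ε ^ 2) := by
      rw [← ENNReal.ofReal_one]
      apply ENNReal.ofReal_le_ofReal
      rw [le_div_iff₀ (by positivity), one_mul]
      have h2 : ε ^ 2 ≤ 1 := pow_le_one₀ hε.le hε1
      have h3 : ‖T‖ ^ κ ≤ c' ^ κ := Real.rpow_le_rpow hT0.le hL.le hκ0.le
      have h4 : 1 ≤ c' ^ κ * ‖T‖ ^ (-κ) := by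
        rw [Real.rpow_neg hT0.le, ← div_eq_mul_inv, le_div_iff₀ (by positivity), one_mul]
        exact h3
      rw [mul_assoc]
      nlinarith
    calc volume (Metric.ball T ε) = 1 * volume (Metric.ball T ε) := (one_mul _).symm
      _ ≤ _ := by gcongr
  · push Not at hL
    set Y : ℝ := (‖T‖ / c') ^ ((k' : ℝ)⁻¹) with hY
    have hTc : 1 ≤ ‖T‖ / c' := by rwa [le_div_iff₀ hc'0, one_mul]
    have hY1 : 1 ≤ Y := Real.one_le_rpow hTc (by positivity)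
    have hYk : Y ^ k' = ‖T‖ / c' := by
      rw [hY]
      exact Real.rpow_inv_natCast_pow (by positivity) (by omega)
    obtain ⟨hG0, hG1⟩ := h Y hY1
    have hr : 0 < Y⁻¹ := by positivity
    have hbig : max (cG d Y⁻¹) 0 + ε < ‖T‖ := by
      rw [max_eq_left hG0]
      have h1 : c * Y ^ k ≤ c * Y ^ k' := by
        apply mul_le_mul_of_nonneg_left _ hc
        exact pow_le_pow_right₀ hY1 (by omega)
      rw [hYk] at h1
      have h2 : c * (‖T‖ / c') ≤ ‖T‖ / 2 := by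
        rw [mul_div_assoc', div_le_div_iff₀ hc'0 (by norm_num), hc']
        nlinarith
      linarith
    have hm := measure_main hd2 hε hr hbig
    refine hm.trans (le_of_eq ?_)
    rw [disc_ratio hr.le hε, vol_pi_ball T hε, pow_succ (disc ε)]
    have e1 : ((d ^ 3 : ℕ) + 3 : ENNReal) = ENNReal.ofReal D := by
      rw [hD, ENNReal.ofReal_add (by positivity) (by norm_num), ENNReal.ofReal_pow (by positivity)]
      simp
    have e2 : (Y⁻¹) ^ 2 = c' ^ κ * ‖T‖ ^ (-κ) := by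
      rw [hY, ← Real.rpow_neg_one, ← Real.rpow_mul (by positivity), ← Real.rpow_natCast,
        ← Real.rpow_mul (by positivity)]
      have e3 : (k' : ℝ)⁻¹ * -1 * ((2 : ℕ) : ℝ) = -κ := by
        rw [hκ]; push_cast; ring
      rw [e3, Real.div_rpow hT0.le hc'0.le, Real.rpow_neg hc'0.le, div_inv_eq_mul]
      ring
    rw [e1, e2, ← mul_assoc, ← ENNReal.ofReal_mul (by linarith)]
    have e4 : D * (c' ^ κ * ‖T‖ ^ (-κ) / ε ^ 2) = D * c' ^ κ * ‖T‖ ^ (-κ) / ε ^ 2 := by ring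
    rw [e4]
    ring

/-- Existence of a nearby polynomial with escaping critical points. -/
theorem exists_near {A κ : ℝ} (h : ∀ T : Fin (d + 1) → ℂ, 1 ≤ ‖T‖ →
    ∀ ε : ℝ, 0 < ε → ε ≤ 1 →
      volume (Metric.ball T ε ∩ {a | ¬ Good a}) ≤
        ENNReal.ofReal (A * ‖T‖ ^ (-κ) / ε ^ 2) * volume (Metric.ball T ε))
    {T : Fin (d + 1) → ℂ} (hT : 1 ≤ ‖T‖) {ε : ℝ} (hε : 0 < ε) (hε1 : ε ≤ 1)
    (hlt : A * ‖T‖ ^ (-κ) < ε ^ 2) : ∃ S ∈ Metric.ball T ε, Good S := by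
  by_contra hcon
  push Not at hcon
  have h1 : Metric.ball T ε ∩ {a | ¬ Good a} = Metric.ball T ε := by
    rw [Set.inter_eq_left]
    intro a ha
    exact hcon a ha
  have h2 := h T hT ε hε hε1
  rw [h1] at h2
  have hv0 : volume (Metric.ball T ε) ≠ 0 := by
    rw [vol_pi_ball T hε]
    exact pow_ne_zero _ (disc_pos hε).ne'
  have hvt : volume (Metric.ball T ε) ≠ ⊤ := by
    rw [vol_pi_ball T hε]
    exact ENNReal.pow_ne_top (disc_ne_top ε)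
  have h3 : ENNReal.ofReal (A * ‖T‖ ^ (-κ) / ε ^ 2) < 1 := by
    rw [← ENNReal.ofReal_one]
    apply (ENNReal.ofReal_lt_ofReal_iff one_pos).2
    rwa [div_lt_one (by positivity)]
  have h4 : ENNReal.ofReal (A * ‖T‖ ^ (-κ) / ε ^ 2) * volume (Metric.ball T ε) <
      1 * volume (Metric.ball T ε) := by
    exact ENNReal.mul_lt_mul_left hv0 hvt h3
  rw [one_mul] at h4
  exact absurd h2 (not_le.2 h4)

end Pool.Agent.J4.H85.AD
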