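import Pool.Agent.J4.H85.TA3
set_option autoImplicit false

/-! The square function version of the tensor product estimate over rectangles. -/

namespace Pool.Agent.J4.H85.TS

open MeasureTheory Complex Set Filter Topology
open scoped ENNReal NNReal RealInnerProductSpace ComplexConjugate
open Pool.Agent.R412.RT (E ee ee_norm ee_add ee_conj ee_meas ee_cont planch)

/-- the `L^q` norm of the square function over `S` -/
noncomputable def sqn (q : ℝ) (S : Set ℝ) (g : ℕ → ℝ → ℂ) : ℝ≥0∞ :=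
  (∫⁻ s in S, (∑' i, ‖g i s‖ₑ ^ 2) ^ (q / 2)) ^ (1 / q)

theorem pull_tensor (A : Set ℝ) (a L : ℝ) (g h : ℕ → ℝ → ℂ) (f : E 2 → ℂ)
    (hf : ∀ x, f x = ∑' i, g i (x 0) * h i (x 1)) :
    pull A a L f = fun s y => ∑' i, A.indicator (g i) s *
      (Ioc (0 : ℝ) 1).indicator (fun y => h i (a + L * y)) y := by
  ext s y
  unfold pull
  by_cases hs : s ∈ A
  · by_cases hy : y ∈ Ioc (0 : ℝ) 1
    · rw [indicator_of_mem (by exact ⟨hs, hy⟩), hf]
      simp only [indicator_of_mem hs, indicator_of_mem hy]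
      rfl
    · rw [indicator_of_notMem (by rintro ⟨_, h2⟩; exact hy h2)]
      simp only [indicator_of_notMem hy]
      simp
  · rw [indicator_of_notMem (by rintro ⟨h2, _⟩; exact hs h2)]
    simp only [indicator_of_notMem hs]
    simp

theorem sqn_A (q : ℝ) (hq : 0 < q) (A : Set ℝ) (hA : MeasurableSet A) (g : ℕ → ℝ → ℂ) :
    ∫⁻ x, sqf (fun i => A.indicator (g i)) x ^ (q / 2) = sqn q A g ^ q := by
  unfold sqn
  rw [← ENNReal.rpow_mul, one_div_mul_cancel hq.ne', ENNReal.rpow_one, ← lintegral_indicator hA]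
  refine lintegral_congr fun s => ?_
  unfold sqf
  by_cases hs : s ∈ A
  · simp only [indicator_of_mem hs]
  · simp only [indicator_of_notMem hs]
    simp [hq]

theorem sqn_J (q : ℝ) (hq : 0 < q) (a L : ℝ) (hL : 0 < L) (h : ℕ → ℝ → ℂ)
    (hh : ∀ i, Measurable (h i)) :
    ∫⁻ x, sqf (fun i => (Ioc (0 : ℝ) 1).indicator (fun y => h i (a + L * y))) x ^ (q / 2) =
      (ENNReal.ofReal L⁻¹ ^ (1 / q) * sqn q (Ioc a (a + L)) h) ^ q := by
  unfold sqn
  rw [ENNReal.mul_rpow_of_nonneg _ _ hq.le, ← ENNReal.rpow_mul, ← ENNReal.rpow_mul,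
    one_div_mul_cancel hq.ne', ENNReal.rpow_one, ENNReal.rpow_one]
  have hm : Measurable fun s => (∑' i, ‖h i s‖ₑ ^ 2) ^ (q / 2) := (sqf_meas h hh).pow_const _
  rw [← scale_Ioc a L hL _ hm, ← lintegral_indicator measurableSet_Ioc]
  refine lintegral_congr fun s => ?_
  unfold sqf
  by_cases hs : s ∈ Ioc (0 : ℝ) 1
  · simp only [indicator_of_mem hs]
  · simp only [indicator_of_notMem hs]
    simp [hq]

/-- the sum of products -/
noncomputable def tens (g h : ℕ → ℝ → ℂ) (x : E 2) : ℂ := ∑' i, g i (x 0) * h i (x 1)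

theorem tens_meas (g h : ℕ → ℝ → ℂ) (hg : ∀ i, Measurable (g i)) (hh : ∀ i, Measurable (h i)) :
    Measurable (tens g h) := by
  unfold tens
  refine Measurable.tsum fun i => ?_
  exact ((hg i).comp (by fun_prop)).mul ((hh i).comp (by fun_prop))

/-- `L¹` bound -/
theorem tens_one (A : Set ℝ) (hA : MeasurableSet A) (a L : ℝ) (g h : ℕ → ℝ → ℂ)
    (hg : ∀ i, Measurable (g i)) (hh : ∀ i, Measurable (h i)) :
    ∫⁻ x in rect A a L, ‖tens g h x‖ₑ ≤ (∫⁻ s in A, (∑' i, ‖g i s‖ₑ ^ 2) ^ (1 / 2 : ℝ)) *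
      ∫⁻ u in Ioc a (a + L), (∑' i, ‖h i u‖ₑ ^ 2) ^ (1 / 2 : ℝ) := by
  rw [lint_rect A hA a L _ (tens_meas g h hg hh).enorm]
  have hmg : Measurable fun s => (∑' i, ‖g i s‖ₑ ^ 2) ^ (1 / 2 : ℝ) := (sqf_meas g hg).pow_const _
  have hmh : Measurable fun s => (∑' i, ‖h i s‖ₑ ^ 2) ^ (1 / 2 : ℝ) := (sqf_meas h hh).pow_const _
  rw [← lintegral_mul_const _ hmg]
  refine lintegral_mono fun s => ?_
  rw [← lintegral_const_mul _ hmh]
  refine lintegral_mono fun u => ?_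
  have e1 : tens g h !₂[s, u] = ∑' i, g i s * h i u := rfl
  rw [e1]
  by_cases hsum : Summable fun i => g i s * h i u
  · have hp : ∀ n : ℕ, ‖∑ i ∈ Finset.range n, g i s * h i u‖ₑ ≤
        (∑' i, ‖g i s‖ₑ ^ 2) ^ (1 / 2 : ℝ) * (∑' i, ‖h i u‖ₑ ^ 2) ^ (1 / 2 : ℝ) := by
      intro n
      have h1 := cs_enorm (Finset.range n) (fun i => g i s) (fun i => h i u) 1 zero_le_one
      rw [ENNReal.rpow_one] at h1
      refine h1.trans ?_
      gcongr
      · exact ENNReal.sum_le_tsum _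
      · exact ENNReal.sum_le_tsum _
    exact le_of_tendsto hsum.hasSum.tendsto_sum_nat.enorm (Eventually.of_forall hp)
  · rw [tsum_eq_zero_of_not_summable hsum, enorm_zero]
    exact zero_le

/-- Hölder for the norms of square functions -/
theorem sqn_mono (r q : ℝ) (hr : 0 < r) (hrq : r ≤ q) (S : Set ℝ) (g : ℕ → ℝ → ℂ)
    (hg : ∀ i, Measurable (g i)) :
    sqn r S g ≤ volume S ^ (1 / r - 1 / q) * sqn q S g := by
  have hq : 0 < q := by linarith
  unfold sqn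
  have hm : Measurable fun s => (∑' i, ‖g i s‖ₑ ^ 2) := sqf_meas g hg
  have h := ENNReal.lintegral_mul_norm_pow_le (μ := (volume : Measure ℝ).restrict S)
    (f := fun s => (∑' i, ‖g i s‖ₑ ^ 2) ^ (q / 2)) (g := fun _ => 1) (hm.pow_const _).aemeasurable
    aemeasurable_const (p := r / q) (q := 1 - r / q) (by positivity)
    (by rw [sub_nonneg, div_le_one hq]; exact hrq) (by ring)
  have h1 : ∀ s, ((∑' i, ‖g i s‖ₑ ^ 2) ^ (q / 2)) ^ (r / q) * (1 : ℝ≥0∞) ^ (1 - r / q) =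
      (∑' i, ‖g i s‖ₑ ^ 2) ^ (r / 2) := by
    intro s
    rw [ENNReal.one_rpow, mul_one, ← ENNReal.rpow_mul]
    congr 1
    field_simp
  simp_rw [h1] at h
  rw [lintegral_const, Measure.restrict_apply_univ, one_mul] at h
  have hrq1 : 0 ≤ 1 - r / q := by rw [sub_nonneg, div_le_one hq]; exact hrq
  calc _ ≤ ((∫⁻ s in S, (∑' i, ‖g i s‖ₑ ^ 2) ^ (q / 2)) ^ (r / q) *
        volume S ^ (1 - r / q)) ^ (1 / r) := by gcongr
    _ = _ := by
        rw [ENNReal.mul_rpow_of_nonneg _ _ (by positivity), ← ENNReal.rpow_mul, ← ENNReal.rpow_mul,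
          mul_comm]
        congr 2
        · field_simp
        · field_simp

/-- the tensor estimate, `3 < q < 4` -/
theorem tensor1 (q L : ℝ) (hq3 : 3 < q) (hq4 : q < 4) (hL : 0 < L) :
    ∃ (C : ℝ≥0∞), C ≠ ∞ ∧ ∀ (A : Set ℝ), MeasurableSet A → A ⊆ Icc (-1) 1 → ∀ (a : ℝ)
      (g h : ℕ → ℝ → ℂ), (∀ i, Measurable (g i)) → (∀ i, Measurable (h i)) →
      sqn q A g ≠ ∞ → sqn q (Ioc a (a + L)) h ≠ ∞ → IntegrableOn (tens g h) (rect A a L) →
      eLpNorm (ext (rect A a L) (tens g h)) (ENNReal.ofReal q) volume ≤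
        C * (sqn q A g * sqn q (Ioc a (a + L)) h) := by
  have hq0 : 0 < q := by linarith
  obtain ⟨C, hC, hc⟩ := c2 q (L ^ 2) hq3 hq4 (by positivity)
  set D : ℝ≥0∞ := ENNReal.ofReal L * (ENNReal.ofReal (|cc|⁻¹ * |cc|⁻¹ * |L * cc|⁻¹) ^ (1 / q) * C) *
    ENNReal.ofReal L⁻¹ ^ (1 / q) with hD
  have hDt : D ≠ ∞ := by
    rw [hD]
    refine ENNReal.mul_ne_top (ENNReal.mul_ne_top ENNReal.ofReal_ne_top
      (ENNReal.mul_ne_top ?_ hC)) ?_
    · exact (ENNReal.rpow_lt_top_of_nonneg (by positivity) ENNReal.ofReal_ne_top).ne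
    · exact (ENNReal.rpow_lt_top_of_nonneg (by positivity) ENNReal.ofReal_ne_top).ne
  refine ⟨D, hDt, ?_⟩
  intro A hA hA1 a g h hg hh hgt hht hint
  rw [ext_norm A hA a L hL _ (tens_meas g h hg hh) hint q hq0,
    pull_tensor A a L g h (tens g h) (fun x => rfl)]
  set G := sqn q A g with hG
  set H := ENNReal.ofReal L⁻¹ ^ (1 / q) * sqn q (Ioc a (a + L)) h with hH
  have hHt : H ≠ ∞ := ENNReal.mul_ne_top
    (ENNReal.rpow_lt_top_of_nonneg (by positivity) ENNReal.ofReal_ne_top).ne hht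
  have key : ∀ Y Z : ℝ, 0 < Y → 0 < Z → G ≤ ENNReal.ofReal Y → H ≤ ENNReal.ofReal Z →
      eLpNorm (UG (L ^ 2) (fun s y => ∑' i, A.indicator (g i) s *
        (Ioc (0 : ℝ) 1).indicator (fun y => h i (a + L * y)) y)) (ENNReal.ofReal q) volume ≤
      C * (ENNReal.ofReal Y * ENNReal.ofReal Z) := by
    intro Y Z hY hZ hGY hHZ
    refine hc (fun i => A.indicator (g i)) (fun i =>
      (Ioc (0 : ℝ) 1).indicator (fun y => h i (a + L * y))) ?_ ?_ ?_ ?_ Y Z hY hZ ?_ ?_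
    · intro i
      exact (hg i).indicator hA
    · intro i
      exact ((hh i).comp (by fun_prop)).indicator measurableSet_Ioc
    · intro i x hx
      rw [indicator_of_notMem fun h => hx (hA1 h)]
    · intro i x hx
      rw [indicator_of_notMem]
      intro h2
      exact hx ⟨by linarith [h2.1], h2.2⟩
    · rw [sqn_A q hq0 A hA g]
      gcongr
    · rw [sqn_J q hq0 a L hL h hh]
      gcongr
  have key2 : eLpNorm (UG (L ^ 2) (fun s y => ∑' i, A.indicator (g i) s *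
        (Ioc (0 : ℝ) 1).indicator (fun y => h i (a + L * y)) y)) (ENNReal.ofReal q) volume ≤
      C * (G * H) := by
    have ht1 : ∀ G : ℝ≥0∞, G ≠ ∞ → Tendsto (fun n : ℕ =>
        ENNReal.ofReal (G.toReal + 1 / ((n : ℝ) + 1))) atTop (𝓝 G) := by
      intro G hGt
      have h1 : Tendsto (fun n : ℕ => G.toReal + 1 / ((n : ℝ) + 1)) atTop (𝓝 (G.toReal + 0)) :=
        tendsto_const_nhds.add (tendsto_one_div_add_atTop_nhds_zero_nat (𝕜 := ℝ))
      have h2 := (ENNReal.continuous_ofReal.tendsto _).comp h1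
      rw [add_zero, ENNReal.ofReal_toReal hGt] at h2
      exact h2
    have ht2 := ENNReal.Tendsto.const_mul (a := C) (ENNReal.Tendsto.mul (ht1 G hgt) (Or.inr hHt)
      (ht1 H hHt) (Or.inr hgt)) (Or.inr hC)
    refine ge_of_tendsto' ht2 fun n => ?_
    have hn : (0 : ℝ) < 1 / ((n : ℝ) + 1) := by positivity
    refine key _ _ (by positivity) (by positivity) ?_ ?_
    · exact (ENNReal.le_ofReal_iff_toReal_le hgt (by positivity)).2 (by linarith)
    · exact (ENNReal.le_ofReal_iff_toReal_le hHt (by positivity)).2 (by linarith)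
  calc _ ≤ ENNReal.ofReal L * (ENNReal.ofReal (|cc|⁻¹ * |cc|⁻¹ * |L * cc|⁻¹) ^ (1 / q) *
        (C * (G * H))) := by gcongr
    _ = _ := by rw [hD, hH]; ring

/-- the tensor estimate, `q > 3` -/
theorem tensor2 (q L : ℝ) (hq3 : 3 < q) (hL : 0 < L) :
    ∃ (C : ℝ≥0), ∀ (A : Set ℝ), MeasurableSet A → A ⊆ Icc (-1) 1 → ∀ (a : ℝ)
      (g h : ℕ → ℝ → ℂ), (∀ i, Measurable (g i)) → (∀ i, Measurable (h i)) →
      sqn q A g ≠ ∞ → sqn q (Ioc a (a + L)) h ≠ ∞ →
      ∀ f : E 2 → ℂ, f =ᵐ[volume.restrict (rect A a L)] tens g h →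
      eLpNorm (ext (rect A a L) f) (ENNReal.ofReal q) volume ≤
        C * (sqn q A g * sqn q (Ioc a (a + L)) h) := by
  have hq0 : 0 < q := by linarith
  obtain ⟨r, hr3, hr4, hrq⟩ : ∃ r, 3 < r ∧ r < 4 ∧ r ≤ q := by
    by_cases h : q < 4
    · exact ⟨q, hq3, h, le_rfl⟩
    · push Not at h
      exact ⟨7 / 2, by norm_num, by norm_num, by linarith⟩
  have hr0 : 0 < r := by linarith
  obtain ⟨C, hC, hc⟩ := tensor1 r L hr3 hr4 hL
  -- constants
  set W : ℝ≥0∞ := 2 * ENNReal.ofReal L with hW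
  have hWt : W ≠ ∞ := ENNReal.mul_ne_top (by simp) ENNReal.ofReal_ne_top
  have hrq' : 0 ≤ 1 / r - 1 / q := by
    rw [sub_nonneg]
    exact one_div_le_one_div_of_le hr0 hrq
  have h1q' : 0 ≤ 1 / 1 - 1 / q := by
    rw [sub_nonneg, div_le_div_iff₀ hq0 one_pos]
    linarith
  set D1 : ℝ≥0∞ := C * W ^ (1 / r - 1 / q) with hD1
  have hD1t : D1 ≠ ∞ := ENNReal.mul_ne_top hC (ENNReal.rpow_lt_top_of_nonneg hrq' hWt).ne
  set D2 : ℝ≥0∞ := W ^ (1 / 1 - 1 / q) with hD2
  have hD2t : D2 ≠ ∞ := (ENNReal.rpow_lt_top_of_nonneg h1q' hWt).ne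
  set D : ℝ≥0∞ := D2 ^ (1 - r / q) * D1 ^ (r / q) with hD
  have hrq1 : r / q ≤ 1 := (div_le_one hq0).2 hrq
  have hDt : D ≠ ∞ := ENNReal.mul_ne_top
    (ENNReal.rpow_lt_top_of_nonneg (by linarith) hD2t).ne
    (ENNReal.rpow_lt_top_of_nonneg (by positivity) hD1t).ne
  refine ⟨D.toNNReal, ?_⟩
  intro A hA hA1 a g h hg hh hgt hht f hf
  rw [ENNReal.coe_toNNReal hDt, ext_congr _ _ _ hf]
  set G := sqn q A g with hG
  set H := sqn q (Ioc a (a + L)) h with hH
  have hAv : volume A ≤ 2 := by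
    refine (measure_mono hA1).trans_eq ?_
    rw [Real.volume_Icc]
    norm_num
  have hJv : volume (Ioc a (a + L)) = ENNReal.ofReal L := by
    rw [Real.volume_Ioc, add_sub_cancel_left]
  have hmono : ∀ p : ℝ, 0 < p → p ≤ q → sqn p A g * sqn p (Ioc a (a + L)) h ≤
      W ^ (1 / p - 1 / q) * (G * H) := by
    intro p hp hpq
    have h0 : 0 ≤ 1 / p - 1 / q := by
      rw [sub_nonneg]
      exact one_div_le_one_div_of_le hp hpq
    calc sqn p A g * sqn p (Ioc a (a + L)) h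
        ≤ (volume A ^ (1 / p - 1 / q) * G) *
          (volume (Ioc a (a + L)) ^ (1 / p - 1 / q) * H) := by
          gcongr
          · exact sqn_mono p q hp hpq A g hg
          · exact sqn_mono p q hp hpq _ h hh
      _ ≤ (2 ^ (1 / p - 1 / q) * G) * (ENNReal.ofReal L ^ (1 / p - 1 / q) * H) := by
          rw [hJv]
          gcongr
      _ = _ := by
          rw [hW, ENNReal.mul_rpow_of_nonneg _ _ h0]
          ring
  have hGH : G * H ≠ ∞ := ENNReal.mul_ne_top hgt hht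
  have hN1 : ∫⁻ x in rect A a L, ‖tens g h x‖ₑ ≤ D2 * (G * H) := by
    refine (tens_one A hA a L g h hg hh).trans ?_
    have h1 := hmono 1 one_pos (by linarith)
    unfold sqn at h1
    simp only [div_one, ENNReal.rpow_one] at h1
    rw [hD2, div_one]
    exact h1
  have hint : IntegrableOn (tens g h) (rect A a L) :=
    ⟨(tens_meas g h hg hh).aestronglyMeasurable,
      lt_of_le_of_lt hN1 (ENNReal.mul_lt_top (lt_top_iff_ne_top.2 hD2t)
        (lt_top_iff_ne_top.2 hGH))⟩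
  have hgr : sqn r A g ≠ ∞ := by
    refine ne_top_of_le_ne_top ?_ (sqn_mono r q hr0 hrq A g hg)
    exact ENNReal.mul_ne_top (ENNReal.rpow_lt_top_of_nonneg hrq'
      (ne_top_of_le_ne_top (by simp) hAv)).ne hgt
  have hhr : sqn r (Ioc a (a + L)) h ≠ ∞ := by
    refine ne_top_of_le_ne_top ?_ (sqn_mono r q hr0 hrq _ h hh)
    exact ENNReal.mul_ne_top (ENNReal.rpow_lt_top_of_nonneg hrq'
      (by rw [hJv]; exact ENNReal.ofReal_ne_top)).ne hht
  have hr1 : eLpNorm (ext (rect A a L) (tens g h)) (ENNReal.ofReal r) volume ≤ D1 * (G * H) := by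
    refine (hc A hA hA1 a g h hg hh hgr hhr hint).trans ?_
    rw [hD1]
    have e0 := hmono r hr0 hrq
    calc C * (sqn r A g * sqn r (Ioc a (a + L)) h)
        ≤ C * (W ^ (1 / r - 1 / q) * (G * H)) := mul_le_mul_right e0 C
      _ = C * W ^ (1 / r - 1 / q) * (G * H) := by ring
  -- interpolation with the sup norm
  have hinter : ∫⁻ ξ, ‖ext (rect A a L) (tens g h) ξ‖ₑ ^ q ≤
      (D2 * (G * H)) ^ (q - r) * ∫⁻ ξ, ‖ext (rect A a L) (tens g h) ξ‖ₑ ^ r := by
    have hfin : (D2 * (G * H)) ^ (q - r) ≠ ∞ := (ENNReal.rpow_lt_top_of_nonneg (by linarith)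
      (ENNReal.mul_ne_top hD2t hGH)).ne
    rw [← lintegral_const_mul' _ _ hfin]
    refine lintegral_mono fun ξ => ?_
    have e1 : ‖ext (rect A a L) (tens g h) ξ‖ₑ ^ q =
        ‖ext (rect A a L) (tens g h) ξ‖ₑ ^ (q - r) * ‖ext (rect A a L) (tens g h) ξ‖ₑ ^ r := by
      rw [← ENNReal.rpow_add_of_nonneg _ _ (by linarith) hr0.le]
      congr 1
      ring
    rw [e1]
    gcongr
    exact (ext_sup _ _ _).trans hN1
  rw [eLpNorm_eq_lintegral_rpow_enorm_toReal (by simp [hr0]) ENNReal.ofReal_ne_top,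
    ENNReal.toReal_ofReal hr0.le] at hr1
  rw [eLpNorm_eq_lintegral_rpow_enorm_toReal (by simp [hq0]) ENNReal.ofReal_ne_top,
    ENNReal.toReal_ofReal hq0.le]
  have hI : ∫⁻ ξ, ‖ext (rect A a L) (tens g h) ξ‖ₑ ^ r ≤ (D1 * (G * H)) ^ r := by
    have h1 := ENNReal.rpow_le_rpow hr1 hr0.le
    rwa [← ENNReal.rpow_mul, one_div_mul_cancel hr0.ne', ENNReal.rpow_one] at h1
  generalize G * H = N at hinter hI ⊢
  calc (∫⁻ ξ, ‖ext (rect A a L) (tens g h) ξ‖ₑ ^ q) ^ (1 / q)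
      ≤ ((D2 * N) ^ (q - r) * (D1 * N) ^ r) ^ (1 / q) := by
        gcongr
        refine hinter.trans ?_
        gcongr
    _ = (D2 ^ (1 - r / q) * D1 ^ (r / q)) * (N ^ (1 - r / q) * N ^ (r / q)) := by
        rw [ENNReal.mul_rpow_of_nonneg _ _ (by positivity), ← ENNReal.rpow_mul,
          ← ENNReal.rpow_mul]
        have e1 : (q - r) * (1 / q) = 1 - r / q := by field_simp
        have e2 : r * (1 / q) = r / q := by ring
        rw [e1, e2, ENNReal.mul_rpow_of_nonneg _ _ (by linarith),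
          ENNReal.mul_rpow_of_nonneg _ _ (by positivity)]
        ring
    _ = D * N := by
        rw [← ENNReal.rpow_add_of_nonneg _ _ (by linarith) (by positivity), sub_add_cancel,
          ENNReal.rpow_one]

end Pool.Agent.J4.H85.TS
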