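import Pool.Agent.J4.H85.TS17
import Pool.Agent.H510R2.Div
set_option autoImplicit false

/-! Values of integer polynomials of degree at least `2` have few representations of
differences. -/

namespace Pool.Agent.J4.H85.TS

open Set Filter Topology Polynomial

/-- few representations of each nonzero difference -/
def FD (Λ : Set ℤ) (κ M : ℝ) : Prop :=
  ∀ m : ℤ, m ≠ 0 → {l : ℤ | l ∈ Λ ∧ l + m ∈ Λ}.Finite ∧
    ({l : ℤ | l ∈ Λ ∧ l + m ∈ Λ}.ncard : ℝ) ≤ M * |(m : ℝ)| ^ κ

theorem FD.rbs {Λ : Set ℤ} {κ M : ℝ} (h : FD Λ κ M) : RBS Λ κ M := by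
  intro F hF m hm
  obtain ⟨h1, h2⟩ := h m hm
  refine le_trans ?_ h2
  have h3 : (↑(F.filter fun l => l + m ∈ F) : Set ℤ) ⊆ {l : ℤ | l ∈ Λ ∧ l + m ∈ Λ} := by
    intro l hl
    rw [Finset.mem_coe, Finset.mem_filter] at hl
    exact ⟨hF _ hl.1, hF _ hl.2⟩
  have h4 := Set.ncard_le_ncard h3 h1
  rw [Set.ncard_coe_finset] at h4
  exact_mod_cast h4

/-- `P (X + d) - P` is not constant -/
theorem shift_ne (P : ℤ[X]) (hP : 2 ≤ P.natDegree) (d m : ℤ) (hd : d ≠ 0) :
    P.comp (X + C d) - P - C m ≠ 0 := by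
  intro h
  have h1 : ∀ x : ℤ, P.eval (x + d) = P.eval x + m := by
    intro x
    have h2 := congrArg (Polynomial.eval x) h
    simp only [eval_sub, eval_comp, eval_add, eval_X, eval_C, eval_zero] at h2
    linarith
  have h3 : ∀ n : ℕ, P.eval (n * d) = P.eval 0 + n * m := by
    intro n
    induction n with
    | zero => simp
    | succ n ih =>
      have h4 := h1 (n * d)
      rw [ih] at h4
      have h5 : ((n + 1 : ℕ) : ℤ) * d = n * d + d := by push_cast; ring
      rw [h5, h4]
      push_cast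
      ring
  have h6 : P.comp (C d * X) = C (P.eval 0) + C m * X := by
    refine Polynomial.eq_of_infinite_eval_eq _ _ ?_
    refine Set.infinite_of_injective_forall_mem (f := fun n : ℕ => (n : ℤ))
      Nat.cast_injective ?_
    intro n
    simp only [mem_setOf_eq, eval_comp, eval_mul, eval_C, eval_X, eval_add]
    rw [mul_comm d, h3]
    ring
  have h7 : (P.comp (C d * X)).natDegree = P.natDegree := by
    rw [natDegree_comp, natDegree_C_mul_X _ hd, mul_one]
  have h8 : (C (P.eval 0) + C m * X : ℤ[X]).natDegree ≤ 1 := by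
    refine (natDegree_add_le _ _).trans (max_le (by simp) ?_)
    exact (natDegree_C_mul_le _ _).trans natDegree_X_le
  rw [← h6, h7] at h8
  omega

/-- the number of representations of `m` as a difference of two values -/
theorem poly_count (P : ℤ[X]) (hP : 2 ≤ P.natDegree) (m : ℤ) (hm : m ≠ 0) :
    {l : ℤ | l ∈ range (fun n : ℤ => P.eval n) ∧ l + m ∈ range (fun n : ℤ => P.eval n)}.Finite ∧
    {l : ℤ | l ∈ range (fun n : ℤ => P.eval n) ∧ l + m ∈ range (fun n : ℤ => P.eval n)}.ncard ≤
      2 * P.natDegree * m.natAbs.divisors.card := by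
  classical
  have hm0 : m.natAbs ≠ 0 := by omega
  -- the differences
  set D : Finset ℤ := (m.natAbs.divisors.image fun d : ℕ => (d : ℤ)) ∪
    (m.natAbs.divisors.image fun d : ℕ => -(d : ℤ)) with hD
  have hDc : D.card ≤ 2 * m.natAbs.divisors.card := by
    refine (Finset.card_union_le _ _).trans ?_
    have h1 := Finset.card_image_le (s := m.natAbs.divisors) (f := fun d : ℕ => (d : ℤ))
    have h2 := Finset.card_image_le (s := m.natAbs.divisors) (f := fun d : ℕ => -(d : ℤ))
    omega
  have hD0 : ∀ d ∈ D, d ≠ 0 := by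
    intro d hd
    rw [hD, Finset.mem_union, Finset.mem_image, Finset.mem_image] at hd
    rcases hd with ⟨e, he, rfl⟩ | ⟨e, he, rfl⟩
    · have := Nat.pos_of_mem_divisors he
      omega
    · have := Nat.pos_of_mem_divisors he
      omega
  have hDm : ∀ d : ℤ, d ∣ m → d ∈ D := by
    intro d hd
    have h1 : d.natAbs ∈ m.natAbs.divisors := by
      rw [Nat.mem_divisors]
      exact ⟨Int.natAbs_dvd_natAbs.2 hd, hm0⟩
    rw [hD, Finset.mem_union, Finset.mem_image, Finset.mem_image]
    rcases Int.natAbs_eq d with h | h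
    · exact Or.inl ⟨_, h1, h.symm⟩
    · exact Or.inr ⟨_, h1, h.symm⟩
  set R : Finset ℤ := D.biUnion fun d => ((P.comp (X + C d) - P - C m).roots.toFinset).image
    fun n => P.eval n with hR
  have hRc : R.card ≤ 2 * P.natDegree * m.natAbs.divisors.card := by
    calc R.card ≤ ∑ d ∈ D, (((P.comp (X + C d) - P - C m).roots.toFinset).image
          fun n => P.eval n).card := Finset.card_biUnion_le
      _ ≤ ∑ d ∈ D, P.natDegree := by
          refine Finset.sum_le_sum fun d hd => ?_
          refine Finset.card_image_le.trans ?_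
          refine (Multiset.toFinset_card_le _).trans ?_
          refine (Polynomial.card_roots' _).trans ?_
          refine (natDegree_sub_le _ _).trans (max_le ?_ (by simp))
          refine (natDegree_sub_le _ _).trans (max_le ?_ le_rfl)
          rw [natDegree_comp, natDegree_X_add_C, mul_one]
      _ = D.card * P.natDegree := by rw [Finset.sum_const, smul_eq_mul]
      _ ≤ (2 * m.natAbs.divisors.card) * P.natDegree := Nat.mul_le_mul_right _ hDc
      _ = _ := by ring
  have hsub : {l : ℤ | l ∈ range (fun n : ℤ => P.eval n) ∧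
      l + m ∈ range (fun n : ℤ => P.eval n)} ⊆ (R : Set ℤ) := by
    rintro l ⟨⟨x, hx⟩, ⟨y, hy⟩⟩
    simp only at hx hy
    have h1 : y - x ∣ m := by
      have h2 := Polynomial.sub_dvd_eval_sub y x P
      rw [hx, hy] at h2
      simpa using h2
    have h3 := hDm _ h1
    rw [Finset.mem_coe, hR, Finset.mem_biUnion]
    refine ⟨y - x, h3, ?_⟩
    rw [Finset.mem_image]
    refine ⟨x, ?_, hx⟩
    rw [Multiset.mem_toFinset, Polynomial.mem_roots (shift_ne P hP _ m (hD0 _ h3)),
      Polynomial.IsRoot.def]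
    simp only [eval_sub, eval_comp, eval_add, eval_X, eval_C]
    rw [show x + (y - x) = y by ring, hx, hy]
    ring
  refine ⟨R.finite_toSet.subset hsub, ?_⟩
  have h4 := Set.ncard_le_ncard hsub R.finite_toSet
  rw [Set.ncard_coe_finset] at h4
  exact h4.trans hRc

theorem poly_FD (P : ℤ[X]) (hP : 2 ≤ P.natDegree) (κ : ℝ) (hκ : 0 < κ) :
    ∃ M : ℝ, 0 < M ∧ FD (range fun n : ℤ => P.eval n) κ M := by
  obtain ⟨K, hK, hK1⟩ := Pool.Agent.H510R2.divisor_bound κ hκ
  have hn : (0 : ℝ) < P.natDegree := by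
    have : 0 < P.natDegree := by omega
    exact_mod_cast this
  refine ⟨2 * P.natDegree * K, by positivity, ?_⟩
  intro m hm
  obtain ⟨h1, h2⟩ := poly_count P hP m hm
  refine ⟨h1, ?_⟩
  have h3 := hK1 m.natAbs (by omega)
  have h4 : ((m.natAbs : ℕ) : ℝ) = |(m : ℝ)| := by
    rw [Nat.cast_natAbs, Int.cast_abs]
  rw [h4] at h3
  calc _ ≤ ((2 * P.natDegree * m.natAbs.divisors.card : ℕ) : ℝ) := by exact_mod_cast h2
    _ = 2 * P.natDegree * (m.natAbs.divisors.card : ℝ) := by push_cast; ring
    _ ≤ 2 * P.natDegree * (K * |(m : ℝ)| ^ κ) := by gcongr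
    _ = _ := by ring

end Pool.Agent.J4.H85.TS
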