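import Mathlib

/-! The leading coefficient of a polynomial which is bounded on a spread set of points. -/

set_option autoImplicit false

open Filter Topology Set Metric Polynomial MeasureTheory

namespace Pool.Agent.J4.H85.CB

open Polynomial.Chebyshev (node)

/-- The Chebyshev nodes. -/
theorem sum_nodes (n : ℕ) :
    ∑ i ∈ Finset.range (n + 1), |(∏ j ∈ (Finset.range (n + 1)).erase i, (node n i - node n j))|⁻¹ =
      2 ^ (n - 1) := by
  have h1 : (Chebyshev.T ℝ n).degree < ((Finset.range (n + 1)).card : ℕ) := by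
    rw [Finset.card_range, Chebyshev.degree_T]
    norm_cast
    simp
  have h2 := Lagrange.coeff_eq_sum (Chebyshev.strictAntiOn_node n).injOn h1
  rw [Finset.card_range, Nat.add_sub_cancel] at h2
  have h3 : (Chebyshev.T ℝ n).coeff n = 2 ^ (n - 1) := by
    trans (Chebyshev.T ℝ n).leadingCoeff
    · simp [leadingCoeff]
    · simp
  rw [← h3, h2]
  apply Finset.sum_congr rfl
  intro i hi
  have hi' : i ≤ n := Nat.lt_succ_iff.1 (Finset.mem_range.1 hi)
  rw [Chebyshev.eval_T_real_node (Finset.mem_Iic.2 hi')]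
  have h4 := Chebyshev.zero_lt_prod_node_sub_node hi'
  set p := ∏ j ∈ (Finset.range (n + 1)).erase i, (node n i - node n j) with hp
  rcases neg_one_pow_eq_or ℝ i with h | h
  · rw [h, one_mul] at h4
    rw [h, abs_of_pos h4, one_div]
  · rw [h, neg_one_mul, neg_pos] at h4
    rw [h, abs_of_neg h4, neg_div, one_div, inv_neg]

/-- Polynomials which are bounded on a set at least as spread as the Chebyshev nodes of an interval
of length `m`. -/
theorem coeff_le {n : ℕ} {Q : ℂ[X]} (hQ : Q.natDegree ≤ n) {m R : ℝ} (hm : 0 < m) {x : ℕ → ℂ}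
    (hx : ∀ i ≤ n, ∀ j ≤ n, m / 2 * |node n i - node n j| ≤ ‖x i - x j‖)
    (hR : ∀ i ≤ n, ‖Q.eval (x i)‖ ≤ R) : ‖Q.coeff n‖ ≤ R * ((2 / m) ^ n * 2 ^ (n - 1)) := by
  have hinj : Set.InjOn x (Finset.range (n + 1)) := by
    intro i hi j hj hij
    have hi' : i ≤ n := Nat.lt_succ_iff.1 (Finset.mem_range.1 (Finset.mem_coe.1 hi))
    have hj' : j ≤ n := Nat.lt_succ_iff.1 (Finset.mem_range.1 (Finset.mem_coe.1 hj))
    have h1 := hx i hi' j hj'
    rw [hij, sub_self, norm_zero] at h1
    have h2 : |node n i - node n j| ≤ 0 := by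
      by_contra h
      push Not at h
      have : 0 < m / 2 * |node n i - node n j| := by positivity
      linarith
    have h3 := abs_nonpos_iff.1 h2
    exact (Chebyshev.strictAntiOn_node n).injOn hi hj (sub_eq_zero.1 h3)
  have h1 : Q.degree < ((Finset.range (n + 1)).card : ℕ) := by
    rw [Finset.card_range]
    exact lt_of_le_of_lt degree_le_natDegree (by exact_mod_cast Nat.lt_succ_of_le hQ)
  have h2 := Lagrange.coeff_eq_sum hinj h1
  rw [Finset.card_range, Nat.add_sub_cancel] at h2
  rw [h2]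
  refine (norm_sum_le _ _).trans ?_
  have hR0 : 0 ≤ R := (norm_nonneg _).trans (hR 0 (Nat.zero_le _))
  have h3 : ∀ i ∈ Finset.range (n + 1),
      ‖Q.eval (x i) / ∏ j ∈ (Finset.range (n + 1)).erase i, (x i - x j)‖ ≤
      R * ((2 / m) ^ n *
        |(∏ j ∈ (Finset.range (n + 1)).erase i, (node n i - node n j))|⁻¹) := by
    intro i hi
    have hi' : i ≤ n := Nat.lt_succ_iff.1 (Finset.mem_range.1 hi)
    have hcard : ((Finset.range (n + 1)).erase i).card = n := by
      rw [Finset.card_erase_of_mem hi, Finset.card_range, Nat.add_sub_cancel]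
    have h4 : (m / 2) ^ n * |(∏ j ∈ (Finset.range (n + 1)).erase i, (node n i - node n j))| ≤
        ‖∏ j ∈ (Finset.range (n + 1)).erase i, (x i - x j)‖ := by
      rw [norm_prod, Finset.abs_prod]
      conv_lhs => rw [← hcard, ← Finset.prod_const, hcard]
      rw [← Finset.prod_mul_distrib]
      apply Finset.prod_le_prod
      · intro j _
        positivity
      · intro j hj
        exact hx i hi' j (Nat.lt_succ_iff.1 (Finset.mem_range.1 (Finset.mem_of_mem_erase hj)))
    have h5 : 0 < |(∏ j ∈ (Finset.range (n + 1)).erase i, (node n i - node n j))| := by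
      rw [abs_pos]
      intro h0
      have := Chebyshev.zero_lt_prod_node_sub_node hi'
      rw [h0, mul_zero] at this
      exact lt_irrefl _ this
    rw [norm_div, div_eq_mul_inv]
    apply mul_le_mul (hR i hi') _ (by positivity) hR0
    have e : (2 / m) ^ n * |(∏ j ∈ (Finset.range (n + 1)).erase i, (node n i - node n j))|⁻¹ =
        ((m / 2) ^ n * |(∏ j ∈ (Finset.range (n + 1)).erase i, (node n i - node n j))|)⁻¹ := by
      rw [mul_inv, ← inv_pow, inv_div]
    rw [e]
    exact inv_anti₀ (by positivity) h4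
  refine (Finset.sum_le_sum h3).trans ?_
  rw [← Finset.mul_sum, ← Finset.mul_sum, sum_nodes]

/-- Rearrangement of a compact set of real numbers. -/
theorem rearrange {F : Set ℝ} (hF : IsCompact F) {m : ℝ} (hm : ENNReal.ofReal m ≤ volume F)
    (hm0 : 0 < m) :
    ∃ g : ℝ → ℝ, (∀ s ∈ Icc 0 m, g s ∈ F) ∧
      ∀ s ∈ Icc 0 m, ∀ s' ∈ Icc 0 m, |s - s'| ≤ |g s - g s'| := by
  have hFt : volume F ≠ ⊤ := hF.measure_lt_top.ne
  have hne : F.Nonempty := by
    by_contra h
    rw [not_nonempty_iff_eq_empty] at h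
    rw [h, measure_empty, nonpos_iff_eq_zero, ENNReal.ofReal_eq_zero] at hm
    linarith
  -- the distribution function
  set φ : ℝ → ℝ := fun y => (volume (F ∩ Iic y)).toReal with hφ
  have hfin : ∀ S : Set ℝ, volume (F ∩ S) ≠ ⊤ := fun S =>
    ne_top_of_le_ne_top hFt (measure_mono inter_subset_left)
  have hlip : ∀ y y' : ℝ, y ≤ y' → φ y' - φ y ≤ y' - y ∧ φ y ≤ φ y' := by
    intro y y' hyy
    have h1 : volume (F ∩ Iic y') ≤ volume (F ∩ Iic y) + ENNReal.ofReal (y' - y) := by
      rw [← Real.volume_Ioc]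
      refine le_trans (measure_mono ?_) (measure_union_le _ _)
      rintro x ⟨hx, hx'⟩
      by_cases hxy : x ≤ y
      · exact Or.inl ⟨hx, hxy⟩
      · exact Or.inr ⟨not_le.1 hxy, hx'⟩
    constructor
    · have h2 := ENNReal.toReal_mono (by
        exact ENNReal.add_ne_top.2 ⟨hfin _, ENNReal.ofReal_ne_top⟩) h1
      rw [ENNReal.toReal_add (hfin _) ENNReal.ofReal_ne_top,
        ENNReal.toReal_ofReal (by linarith)] at h2
      show (volume (F ∩ Iic y')).toReal - (volume (F ∩ Iic y)).toReal ≤ y' - y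
      linarith
    · apply ENNReal.toReal_mono (hfin _)
      apply measure_mono
      exact inter_subset_inter_right _ (Iic_subset_Iic.2 hyy)
  have hcont : Continuous φ := by
    have : LipschitzWith 1 φ := by
      apply LipschitzWith.of_dist_le_mul
      intro y y'
      rw [NNReal.coe_one, one_mul, Real.dist_eq, Real.dist_eq]
      rcases le_total y y' with h | h
      · obtain ⟨h1, h2⟩ := hlip y y' h
        rw [abs_sub_comm, abs_of_nonneg (by linarith), abs_sub_comm, abs_of_nonneg (by linarith)]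
        exact h1
      · obtain ⟨h1, h2⟩ := hlip y' y h
        rw [abs_of_nonneg (by linarith), abs_of_nonneg (by linarith)]
        exact h1
    exact this.continuous
  obtain ⟨lo, hlo⟩ := hF.bddBelow
  obtain ⟨hi, hhi⟩ := hF.bddAbove
  have hφlo : φ lo = 0 := by
    have h1 : volume (F ∩ Iic lo) ≤ volume ({lo} : Set ℝ) := by
      apply measure_mono
      rintro x ⟨hx, hx'⟩
      exact le_antisymm hx' (hlo hx)
    rw [Real.volume_singleton, nonpos_iff_eq_zero] at h1
    show (volume (F ∩ Iic lo)).toReal = 0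
    rw [h1]
    rfl
  have hφhi : m ≤ φ hi := by
    have h1 : F ∩ Iic hi = F := inter_eq_left.2 fun x hx => hhi hx
    show m ≤ (volume (F ∩ Iic hi)).toReal
    rw [h1, ← ENNReal.ofReal_le_iff_le_toReal hFt]
    exact hm
  have hlohi : lo ≤ hi := by
    obtain ⟨x, hx⟩ := hne
    exact (hlo hx).trans (hhi hx)
  -- preimages in `F`
  have hex : ∀ s ∈ Icc 0 m, ∃ y ∈ F, φ y = s := by
    rintro s ⟨hs0, hsm⟩
    obtain ⟨y, hy, hys⟩ := intermediate_value_Icc hlohi hcont.continuousOn
      (show s ∈ Icc (φ lo) (φ hi) from ⟨by rw [hφlo]; exact hs0, hsm.trans hφhi⟩)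
    by_cases hemp : (F ∩ Iic y).Nonempty
    · have hcomp : IsCompact (F ∩ Iic y) := hF.inter_right isClosed_Iic
      have hsup := hcomp.sSup_mem hemp
      set y' := sSup (F ∩ Iic y) with hy'
      refine ⟨y', hsup.1, ?_⟩
      have h1 : F ∩ Iic y' = F ∩ Iic y := by
        ext x
        constructor
        · rintro ⟨hx, hx'⟩
          exact ⟨hx, mem_Iic.2 ((mem_Iic.1 hx').trans (mem_Iic.1 hsup.2))⟩
        · rintro ⟨hx, hx'⟩
          exact ⟨hx, le_csSup hcomp.bddAbove ⟨hx, hx'⟩⟩
      show (volume (F ∩ Iic y')).toReal = s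
      rw [h1]
      exact hys
    · rw [not_nonempty_iff_eq_empty] at hemp
      have hs : s = 0 := by
        rw [← hys]
        show (volume (F ∩ Iic y)).toReal = 0
        rw [hemp, measure_empty]
        rfl
      have hinf := hF.sInf_mem hne
      refine ⟨sInf F, hinf, ?_⟩
      have h1 : volume (F ∩ Iic (sInf F)) ≤ volume ({sInf F} : Set ℝ) := by
        apply measure_mono
        rintro x ⟨hx, hx'⟩
        exact le_antisymm hx' (csInf_le hF.bddBelow hx)
      rw [Real.volume_singleton, nonpos_iff_eq_zero] at h1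
      show (volume (F ∩ Iic (sInf F))).toReal = s
      rw [h1, hs]
      rfl
  choose! g hg1 hg2 using hex
  refine ⟨g, hg1, fun s hs s' hs' => ?_⟩
  have h1 := hg2 s hs
  have h2 := hg2 s' hs'
  rcases le_total (g s) (g s') with h | h
  · obtain ⟨h3, h4⟩ := hlip _ _ h
    rw [h1, h2] at h3 h4
    rw [abs_sub_comm, abs_of_nonneg (by linarith), abs_sub_comm, abs_of_nonneg (by linarith)]
    exact h3
  · obtain ⟨h3, h4⟩ := hlip _ _ h
    rw [h1, h2] at h3 h4
    rw [abs_of_nonneg (by linarith), abs_of_nonneg (by linarith)]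
    exact h3

end Pool.Agent.J4.H85.CB
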