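import Mathlib

/-! A trapped orbit is attracted by an attracting periodic point. -/

set_option autoImplicit false

open Filter Topology Set Metric

namespace Pool.Agent.J4.H85.NC

/-- The orbit of `z` is attracted by an attracting periodic point. -/
def Att (F : ℂ → ℂ) (z : ℂ) : Prop :=
  ∃ n : ℕ, 0 < n ∧ ∃ x : ℂ, F^[n] x = x ∧ ‖deriv (F^[n]) x‖ < 1 ∧
    Tendsto (fun k : ℕ => F^[n * k] z) atTop (𝓝 x)

theorem diff_iterate {F : ℂ → ℂ} (hF : Differentiable ℂ F) (n : ℕ) : Differentiable ℂ (F^[n]) :=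
  hF.iterate n

theorem Att.of_image {F : ℂ → ℂ} (hF : Differentiable ℂ F) {z : ℂ} (h : Att F (F z)) :
    Att F z := by
  obtain ⟨n, hn, x, hx, hd, ht⟩ := h
  obtain ⟨p, rfl⟩ : ∃ p, n = p + 1 := ⟨n - 1, by omega⟩
  refine ⟨p + 1, hn, F^[p] x, ?_, ?_, ?_⟩
  · rw [← Function.iterate_add_apply, Nat.add_comm, Function.iterate_add_apply, hx]
  · have h1 : F (F^[p] x) = x := by rw [← Function.iterate_succ_apply' F p x]; exact hx
    have h2 : deriv (F^[p + 1]) (F^[p] x) = deriv (F^[p]) x * deriv F (F^[p] x) := by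
      rw [Function.iterate_succ, deriv_comp _ ((diff_iterate hF p) _) (hF _), h1]
    have h3 : deriv (F^[p + 1]) x = deriv F (F^[p] x) * deriv (F^[p]) x := by
      rw [Function.iterate_succ', deriv_comp _ (hF _) ((diff_iterate hF p) _)]
    rw [h2, mul_comm, ← h3]
    exact hd
  · rw [← tendsto_add_atTop_iff_nat 1]
    have h1 : Tendsto (fun k : ℕ => F^[p] (F^[(p + 1) * k] (F z))) atTop (𝓝 (F^[p] x)) :=
      ((diff_iterate hF p).continuous.tendsto _).comp ht
    refine h1.congr fun k => ?_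
    rw [← Function.iterate_add_apply, ← Function.iterate_succ_apply]
    have e : (p + (p + 1) * k).succ = (p + 1) * (k + 1) := by
      rw [Nat.succ_eq_add_one]; ring
    rw [e]

theorem Att.of_iterate {F : ℂ → ℂ} (hF : Differentiable ℂ F) {z : ℂ} {j : ℕ}
    (h : Att F (F^[j] z)) : Att F z := by
  induction j generalizing z with
  | zero => exact h
  | succ j ih =>
    rw [Function.iterate_succ_apply] at h
    exact Att.of_image hF (ih h)

section trap

variable {F : ℂ → ℂ} {K : Set ℂ} {R η : ℝ}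

/-- The expanded maps. -/
noncomputable def Phi (F : ℂ → ℂ) (κ : ℝ) (z : ℂ) : ℕ → ℂ → ℂ
  | 0, u => u
  | i + 1, u => F^[i + 1] z + κ * (F (Phi F κ z i u) - F^[i + 1] z)

theorem phi_self (κ : ℝ) (z : ℂ) (i : ℕ) : Phi F κ z i z = F^[i] z := by
  induction i with
  | zero => rfl
  | succ i ih => rw [Phi, ih, ← Function.iterate_succ_apply' F i z, sub_self, mul_zero, add_zero]

theorem phi_diff (hF : Differentiable ℂ F) (κ : ℝ) (z : ℂ) (i : ℕ) :
    Differentiable ℂ (Phi F κ z i) := by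
  induction i with
  | zero => exact differentiable_id
  | succ i ih =>
    have : Phi F κ z (i + 1) = fun u => F^[i + 1] z + κ * (F (Phi F κ z i u) - F^[i + 1] z) := rfl
    rw [this]
    exact ((hF.comp ih).sub_const _).const_mul _ |>.const_add _

theorem phi_deriv (hF : Differentiable ℂ F) (κ : ℝ) (z : ℂ) (i : ℕ) :
    deriv (Phi F κ z i) z = κ ^ i * deriv (F^[i]) z := by
  induction i with
  | zero =>
    have : Phi F κ z 0 = id := rfl
    rw [this]
    simp
  | succ i ih =>
    have e : Phi F κ z (i + 1) = fun u => F^[i + 1] z + κ * (F (Phi F κ z i u) - F^[i + 1] z) := rfl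
    have h1 : HasDerivAt (Phi F κ z i) (κ ^ i * deriv (F^[i]) z) z := by
      rw [← ih]; exact ((phi_diff hF κ z i) z).hasDerivAt
    have h2 : HasDerivAt F (deriv F (F^[i] z)) (Phi F κ z i z) := by
      rw [phi_self]; exact (hF _).hasDerivAt
    have h3 : HasDerivAt (Phi F κ z (i + 1))
        (κ * (deriv F (F^[i] z) * (κ ^ i * deriv (F^[i]) z))) z := by
      rw [e]
      exact (((h2.comp z h1).sub_const _).const_mul (κ : ℂ)).const_add _
    have h4 : deriv (F^[i + 1]) z = deriv F (F^[i] z) * deriv (F^[i]) z := by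
      rw [Function.iterate_succ', deriv_comp _ (hF _) ((diff_iterate hF i) _)]
    rw [h3.deriv, h4, pow_succ]
    ring

theorem iterate_mem (hη : 0 < η) (h : ∀ z ∈ K, ball (F z) η ⊆ K) {z : ℂ} (hz : z ∈ K) (i : ℕ) :
    F^[i] z ∈ K := by
  induction i with
  | zero => exact hz
  | succ i ih =>
    rw [Function.iterate_succ_apply']
    exact h _ ih (mem_ball_self hη)

theorem phi_mem (hR : 0 < R) (hK : K ⊆ closedBall 0 R) (hη : 0 < η)
    (h : ∀ z ∈ K, ball (F z) η ⊆ K) {z : ℂ} (hz : z ∈ K) {u : ℂ} (hu : u ∈ K) (i : ℕ) :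
    Phi F (1 + η / (4 * R)) z i u ∈ K := by
  induction i with
  | zero => exact hu
  | succ i ih =>
    apply h _ ih
    have h1 : F (Phi F (1 + η / (4 * R)) z i u) ∈ K := h _ ih (mem_ball_self hη)
    have h2 : F^[i + 1] z ∈ K := iterate_mem hη h hz (i + 1)
    have h3 := mem_closedBall_zero_iff.1 (hK h1)
    have h4 := mem_closedBall_zero_iff.1 (hK h2)
    rw [mem_ball, dist_eq_norm]
    have e : Phi F (1 + η / (4 * R)) z (i + 1) u - F (Phi F (1 + η / (4 * R)) z i u) =
        ((η / (4 * R) : ℝ) : ℂ) * (F (Phi F (1 + η / (4 * R)) z i u) - F^[i + 1] z) := by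
      rw [Phi]
      push_cast
      ring
    rw [e, norm_mul, Complex.norm_real, Real.norm_of_nonneg (by positivity)]
    have h5 : ‖F (Phi F (1 + η / (4 * R)) z i u) - F^[i + 1] z‖ ≤ 2 * R :=
      (norm_sub_le _ _).trans (by linarith)
    calc η / (4 * R) * ‖F (Phi F (1 + η / (4 * R)) z i u) - F^[i + 1] z‖
        ≤ η / (4 * R) * (2 * R) := by gcongr
      _ = η / 2 := by field_simp; norm_num
      _ < η := by linarith

theorem deriv_bound (hF : Differentiable ℂ F) (hR : 0 < R) (hK : K ⊆ closedBall 0 R) (hη : 0 < η)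
    (h : ∀ z ∈ K, ball (F z) η ⊆ K) {z : ℂ} {δ : ℝ} (hδ : 0 < δ) (hz : ball z δ ⊆ K) (q : ℕ) :
    ‖deriv (F^[q]) z‖ ≤ R / (δ / 2) / (1 + η / (4 * R)) ^ q := by
  have hκ : 0 < 1 + η / (4 * R) := by positivity
  have h1 := Complex.norm_deriv_le_of_forall_mem_sphere_norm_le (c := z) (R := δ / 2) (C := R)
    (f := Phi F (1 + η / (4 * R)) z q) (by linarith)
    (phi_diff hF _ _ _).diffContOnCl (by
      intro u hu
      have hu' : u ∈ K := by
        apply hz
        rw [mem_ball]
        rw [mem_sphere] at hu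
        rw [hu]
        linarith
      exact mem_closedBall_zero_iff.1 (hK (phi_mem hR hK hη h (hz (mem_ball_self hδ)) hu' q)))
  rw [phi_deriv hF, norm_mul, norm_pow, Complex.norm_real, Real.norm_of_nonneg hκ.le] at h1
  rw [le_div_iff₀ (by positivity), mul_comm]
  exact h1

/-- The trap lemma. -/
theorem trap (hF : Differentiable ℂ F) (hR : 0 < R) (hK : K ⊆ closedBall 0 R) (hη : 0 < η)
    (h : ∀ z ∈ K, ball (F z) η ⊆ K) {z₀ : ℂ} (hz₀ : z₀ ∈ K) : Att F z₀ := by
  have hκ : 1 < 1 + η / (4 * R) := by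
    have : 0 < η / (4 * R) := by positivity
    linarith
  -- the number of steps
  obtain ⟨q, hq⟩ : ∃ q : ℕ, R / (η / 2 / 2) * 4 ≤ (1 + η / (4 * R)) ^ q := by
    obtain ⟨q, hq⟩ := pow_unbounded_of_one_lt (R / (η / 2 / 2) * 4) hκ
    exact ⟨q, hq.le⟩
  have hsmall : ∀ j : ℕ, 1 ≤ j → ∀ z ∈ ball (F^[j] z₀) (η / 2), ∀ n : ℕ, q ≤ n →
      ‖deriv (F^[n]) z‖ ≤ 1 / 4 := by
    intro j hj z hz n hn
    have hb : ball z (η / 2) ⊆ K := by
      obtain ⟨p, rfl⟩ : ∃ p, j = p + 1 := ⟨j - 1, by omega⟩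
      refine Subset.trans ?_ (h _ (iterate_mem hη h hz₀ p))
      rw [← Function.iterate_succ_apply' F p z₀]
      apply ball_subset_ball'
      rw [mem_ball] at hz
      linarith
    refine (deriv_bound hF hR hK hη h (by linarith) hb n).trans ?_
    have h1 : (1 + η / (4 * R)) ^ q ≤ (1 + η / (4 * R)) ^ n := pow_le_pow_right₀ hκ.le hn
    rw [div_le_iff₀ (by positivity)]
    linarith
  -- a close return
  obtain ⟨a, -, φ, hφ, hlim⟩ := (isCompact_closedBall (0 : ℂ) R).tendsto_subseq
    (x := fun i : ℕ => F^[1 + i * (q + 1)] z₀) fun i => hK (iterate_mem hη h hz₀ _)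
  have hcau := hlim.cauchySeq
  rw [Metric.cauchySeq_iff'] at hcau
  obtain ⟨i, hi⟩ := hcau (η / 8) (by linarith)
  have hret := hi (i + 1) (by omega)
  simp only [Function.comp_apply] at hret
  have hφi : φ i < φ (i + 1) := hφ (Nat.lt_succ_self i)
  set j := 1 + φ i * (q + 1) with hj
  set n := (φ (i + 1) - φ i) * (q + 1) with hn
  have hjn : 1 + φ (i + 1) * (q + 1) = n + j := by
    rw [hj, hn, Nat.sub_mul]
    have : φ i * (q + 1) ≤ φ (i + 1) * (q + 1) := Nat.mul_le_mul_right _ hφi.le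
    omega
  have hnq : q + 1 ≤ n := by
    rw [hn]
    exact Nat.le_mul_of_pos_left _ (by omega)
  rw [hjn, Function.iterate_add_apply] at hret
  set w := F^[j] z₀ with hw
  set G := F^[n] with hG
  rw [dist_eq_norm] at hret
  have hGd : Differentiable ℂ G := diff_iterate hF n
  have hder : ∀ z ∈ closedBall w (η / 4), ‖deriv G z‖ ≤ 1 / 4 := by
    intro z hz
    apply hsmall j (by omega) z _ n (by omega)
    rw [mem_closedBall] at hz
    rw [mem_ball]
    linarith
  have hlip : ∀ x ∈ closedBall w (η / 4), ∀ y ∈ closedBall w (η / 4),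
      ‖G y - G x‖ ≤ 1 / 4 * ‖y - x‖ := by
    intro x hx y hy
    exact (convex_closedBall w (η / 4)).norm_image_sub_le_of_norm_deriv_le
      (fun z _ => hGd z) hder hx hy
  have hwmem : w ∈ closedBall w (η / 4) := mem_closedBall_self (by linarith)
  have hmaps : MapsTo G (closedBall w (η / 4)) (closedBall w (η / 4)) := by
    intro x hx
    have h1 := hlip w hwmem x hx
    rw [mem_closedBall, dist_eq_norm] at hx ⊢
    have h2 : ‖G x - w‖ ≤ ‖G x - G w‖ + ‖G w - w‖ := by
      have := norm_add_le (G x - G w) (G w - w)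
      rwa [sub_add_sub_cancel] at this
    linarith
  have hcon : ContractingWith (1 / 4) (hmaps.restrict G _ _) := by
    refine ⟨?_, ?_⟩
    · rw [← NNReal.coe_lt_coe]
      push_cast
      norm_num
    · apply LipschitzWith.of_dist_le_mul
      rintro ⟨x, hx⟩ ⟨y, hy⟩
      rw [Subtype.dist_eq, Subtype.dist_eq, MapsTo.val_restrict_apply, MapsTo.val_restrict_apply,
        dist_eq_norm, dist_eq_norm]
      have := hlip y hy x hx
      simpa using this
  obtain ⟨x, hx, hfx, hxt, -⟩ := hcon.exists_fixedPoint' (isClosed_closedBall.isComplete) hmaps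
    hwmem (edist_ne_top _ _)
  have hatt : Att F w := by
    refine ⟨n, by omega, x, hfx, lt_of_le_of_lt (hder x hx) (by norm_num), ?_⟩
    refine hxt.congr fun k => ?_
    have e : F^[n * k] = (F^[n])^[k] := Function.iterate_mul F n k
    rw [e, ← hG]
  exact Att.of_iterate hF hatt

end trap

end Pool.Agent.J4.H85.NC
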