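import Mathlib
import Pool.Agent.J4.H85.NC1
import Pool.Agent.J4.H85.AD7

/-! Noisy orbits of a polynomial, the bounded set and the absorbing set. -/

set_option autoImplicit false

open Filter Topology Set Metric Polynomial

namespace Pool.Agent.J4.H85.NC

/-- The orbit with noise. -/
noncomputable def orb (P : ℂ[X]) (τ : ℕ → ℂ) : ℕ → ℂ → ℂ
  | 0, z => z
  | n + 1, z => P.eval (orb P τ n z) + τ n

theorem orb_add (P : ℂ[X]) (τ : ℕ → ℂ) (a b : ℕ) (z : ℂ) :
    orb P τ (a + b) z = orb P (fun i => τ (a + i)) b (orb P τ a z) := by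
  induction b with
  | zero => rfl
  | succ b ih =>
    rw [← Nat.add_assoc, orb, ih]
    rfl

theorem orb_congr (P : ℂ[X]) {τ τ' : ℕ → ℂ} {n : ℕ} (h : ∀ i < n, τ i = τ' i) (z : ℂ) :
    orb P τ n z = orb P τ' n z := by
  induction n with
  | zero => rfl
  | succ n ih => rw [orb, orb, ih fun i hi => h i (by omega), h n (by omega)]

theorem orb_one (P : ℂ[X]) (τ : ℕ → ℂ) (z : ℂ) : orb P τ 1 z = P.eval z + τ 0 := rfl

/-- The points all of whose noisy orbits stay bounded. -/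
def Bd (P : ℂ[X]) (ε R : ℝ) : Set ℂ :=
  {z | ∀ τ : ℕ → ℂ, (∀ i, ‖τ i‖ < ε) → ∀ n, ‖orb P τ n z‖ ≤ R}

/-- The absorbing set. -/
def St (P : ℂ[X]) (ε R : ℝ) : Set ℂ := {z | R < ‖z‖} ∪ interior (Bd P ε R)

variable {P : ℂ[X]} {ε R : ℝ}

theorem isOpen_St : IsOpen (St P ε R) :=
  (isOpen_lt continuous_const continuous_norm).union isOpen_interior

theorem Bd_step {z : ℂ} (hz : z ∈ Bd P ε R) {s : ℂ} (hs : ‖s‖ < ε) : P.eval z + s ∈ Bd P ε R := by
  intro τ hτ n
  have h1 := hz (fun i => if i = 0 then s else τ (i - 1)) (by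
    intro i
    split_ifs
    · exact hs
    · exact hτ _) (1 + n)
  rw [orb_add, orb_one] at h1
  have h2 : orb P (fun i => (fun i => if i = 0 then s else τ (i - 1)) (1 + i)) n (P.eval z + s) =
      orb P τ n (P.eval z + s) := by
    apply orb_congr
    intro i _
    simp
  simpa [h2] using h1

theorem Bd_ball {z : ℂ} (hz : z ∈ Bd P ε R) : ball (P.eval z) ε ⊆ Bd P ε R := by
  intro w hw
  rw [mem_ball, dist_eq_norm] at hw
  have := Bd_step hz hw
  rwa [add_sub_cancel] at this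

theorem Bd_orb {z : ℂ} (hz : z ∈ Bd P ε R) {τ : ℕ → ℂ} (hτ : ∀ i, ‖τ i‖ < ε) (n : ℕ) :
    orb P τ n z ∈ Bd P ε R := by
  induction n with
  | zero => exact hz
  | succ n ih => exact Bd_step ih (hτ n)

theorem Bd_sub (hε : 0 < ε) : Bd P ε R ⊆ closedBall 0 R := by
  intro z hz
  rw [mem_closedBall_zero_iff]
  exact hz (fun _ => 0) (fun _ => by simpa using hε) 0

/-- The escape condition. -/
def EscR (P : ℂ[X]) (ε R : ℝ) : Prop :=
  ∀ z : ℂ, R < ‖z‖ → ∀ s : ℂ, ‖s‖ < ε → 2 * ‖z‖ ≤ ‖P.eval z + s‖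

theorem exists_EscR (hP : 2 ≤ P.natDegree) (ε : ℝ) : ∃ R : ℝ, 1 ≤ R ∧ EscR P ε R := by
  have h1 : P = P.divX * X + C (P.coeff 0) := (divX_mul_X_add P).symm
  have h2 : 0 < P.divX.degree := by
    apply natDegree_pos_iff_degree_pos.1
    rw [natDegree_divX_eq_natDegree_tsub_one]
    omega
  have h3 : Tendsto (fun z : ℂ => ‖P.divX.eval z‖) (cocompact ℂ) atTop :=
    tendsto_norm_atTop P.divX h2 (tendsto_norm_cocompact_atTop)
  have h4 : ∀ᶠ z in cocompact ℂ, 4 ≤ ‖P.divX.eval z‖ := h3.eventually_ge_atTop 4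
  rw [Metric.cobounded_eq_cocompact.symm, ← comap_norm_atTop] at h4
  rw [Filter.eventually_comap] at h4
  obtain ⟨R, hR⟩ := Filter.eventually_atTop.1 h4
  refine ⟨max 1 (max R (max ‖P.coeff 0‖ ε)), le_max_left _ _, fun z hz s hs => ?_⟩
  have hz' := (le_max_right _ _).trans hz.le
  have h5 : 4 ≤ ‖P.divX.eval z‖ := hR ‖z‖ ((le_max_left _ _).trans hz') z rfl
  have h6 : ‖P.coeff 0‖ ≤ ‖z‖ := (le_max_left _ _).trans ((le_max_right _ _).trans hz')
  have h6' : ε ≤ ‖z‖ := (le_max_right _ _).trans ((le_max_right _ _).trans hz')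
  have h7 : P.eval z = P.divX.eval z * z + P.coeff 0 := by
    conv_lhs => rw [h1]
    simp
  rw [h7]
  have h8 : ‖P.divX.eval z * z‖ - ‖P.coeff 0‖ - ‖s‖ ≤ ‖P.divX.eval z * z + P.coeff 0 + s‖ := by
    have e1 := norm_sub_norm_le (P.divX.eval z * z) (-P.coeff 0)
    rw [norm_neg, sub_neg_eq_add] at e1
    have e2 := norm_sub_norm_le (P.divX.eval z * z + P.coeff 0) (-s)
    rw [norm_neg, sub_neg_eq_add] at e2
    linarith
  rw [norm_mul] at h8
  nlinarith [norm_nonneg z]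

theorem St_of_Bd {z : ℂ} (hz : z ∈ Bd P ε R) {s : ℂ} (hs : ‖s‖ < ε) :
    P.eval z + s ∈ St P ε R := by
  right
  rw [mem_interior]
  refine ⟨ball (P.eval z) ε, Bd_ball hz, isOpen_ball, ?_⟩
  rw [mem_ball, dist_eq_norm, add_sub_cancel_left]
  exact hs

theorem St_step (hR0 : 0 ≤ R) (hR : EscR P ε R) {z : ℂ} (hz : z ∈ St P ε R) {s : ℂ}
    (hs : ‖s‖ < ε) : P.eval z + s ∈ St P ε R := by
  rcases hz with hz | hz
  · left
    have h1 := hR z hz s hs
    have h2 : R < ‖z‖ := hz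
    show R < ‖P.eval z + s‖
    linarith
  · exact St_of_Bd (interior_subset hz) hs

theorem St_orb (hR0 : 0 ≤ R) (hR : EscR P ε R) {z : ℂ} (hz : z ∈ St P ε R) {τ : ℕ → ℂ}
    (hτ : ∀ i, ‖τ i‖ < ε) (n : ℕ) : orb P τ n z ∈ St P ε R := by
  induction n with
  | zero => exact hz
  | succ n ih => exact St_step hR0 hR ih (hτ n)

/-- Every point can be moved to the absorbing set by a suitable noise. -/
theorem reach (hε : 0 < ε) (z : ℂ) : ∃ τ : ℕ → ℂ, (∀ i, ‖τ i‖ < ε) ∧ ∃ n, orb P τ n z ∈ St P ε R := by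
  by_cases hz : z ∈ Bd P ε R
  · refine ⟨fun _ => 0, fun _ => by simpa using hε, 1, ?_⟩
    rw [orb_one]
    exact St_of_Bd hz (by simpa using hε)
  · unfold Bd at hz
    simp only [mem_ofPred_eq] at hz
    push Not at hz
    obtain ⟨τ, hτ, n, hn⟩ := hz
    exact ⟨τ, hτ, n, Or.inl hn⟩

/-- The composition of the maps `P + τ i`, `i < n`. -/
noncomputable def comps (P : ℂ[X]) (τ : ℕ → ℂ) : ℕ → ℂ[X]
  | 0 => X
  | n + 1 => (P + C (τ n)).comp (comps P τ n)

theorem eval_comps (P : ℂ[X]) (τ : ℕ → ℂ) (n : ℕ) (z : ℂ) :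
    (comps P τ n).eval z = orb P τ n z := by
  induction n with
  | zero => simp [comps, orb]
  | succ n ih => rw [comps, eval_comp, ih, orb, eval_add, eval_C]

theorem comps_congr (P : ℂ[X]) {τ τ' : ℕ → ℂ} {n : ℕ} (h : ∀ i < n, τ i = τ' i) :
    comps P τ n = comps P τ' n := by
  induction n with
  | zero => rfl
  | succ n ih => rw [comps, comps, ih fun i hi => h i (by omega), h n (by omega)]

theorem comps_add (P : ℂ[X]) (τ : ℕ → ℂ) (a b : ℕ) :
    comps P τ (a + b) = (comps P (fun i => τ (a + i)) b).comp (comps P τ a) := by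
  induction b with
  | zero => simp [comps]
  | succ b ih =>
    rw [← Nat.add_assoc, comps, ih, comps, comp_assoc]

theorem comps_zero_noise (P : ℂ[X]) (n : ℕ) : comps P (fun _ => 0) n = P.comp^[n] X := by
  induction n with
  | zero => rfl
  | succ n ih =>
    rw [comps, ih, Function.iterate_succ_apply']
    simp

theorem crit_comps (P : ℂ[X]) (τ : ℕ → ℂ) (n : ℕ) {z : ℂ}
    (h : (derivative (comps P τ n)).eval z = 0) :
    ∃ k < n, (derivative P).eval (orb P τ k z) = 0 := by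
  induction n with
  | zero => simp [comps] at h
  | succ n ih =>
    rw [comps, derivative_comp, derivative_add, derivative_C, add_zero, eval_mul, eval_comp,
      eval_comps, mul_eq_zero] at h
    rcases h with h | h
    · obtain ⟨k, hk, hk'⟩ := ih h
      exact ⟨k, by omega, hk'⟩
    · exact ⟨n, by omega, h⟩

theorem iterate_periodic {τ : ℕ → ℂ} {M : ℕ} (hper : ∀ i, τ (M + i) = τ i) (j : ℕ) (z : ℂ) :
    (fun w : ℂ => (comps P τ M).eval w)^[j] z = orb P τ (j * M) z := by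
  have hperj : ∀ j i, τ (j * M + i) = τ i := by
    intro j
    induction j with
    | zero => intro i; simp
    | succ j ih =>
      intro i
      have e : (j + 1) * M + i = M + (j * M + i) := by ring
      rw [e, hper, ih]
  induction j with
  | zero => simp [orb]
  | succ j ih =>
    rw [Function.iterate_succ_apply', ih, eval_comps, Nat.add_mul, Nat.one_mul, orb_add]
    apply orb_congr
    intro i _
    exact (hperj j i).symm

theorem norm_orb_ge (hR0 : 0 ≤ R) (hR : EscR P ε R) {τ : ℕ → ℂ} (hτ : ∀ i, ‖τ i‖ < ε) {z : ℂ}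
    (hz : R < ‖z‖) (n : ℕ) : R < ‖orb P τ n z‖ ∧ 2 ^ n * ‖z‖ ≤ ‖orb P τ n z‖ := by
  induction n with
  | zero => simpa [orb] using hz
  | succ n ih =>
    have h1 := hR _ ih.1 (τ n) (hτ n)
    rw [orb]
    refine ⟨by linarith [ih.1], ?_⟩
    rw [pow_succ]
    linarith [ih.2]

/-- The final criterion. -/
theorem criterion (hε : 0 < ε) (hR1 : 1 ≤ R) (hR : EscR P ε R) {τ : ℕ → ℂ} (hτ : ∀ i, ‖τ i‖ < ε)
    {M : ℕ} (hM : 1 ≤ M) (hper : ∀ i, τ (M + i) = τ i)
    (h : ∀ k < M, ∀ c : ℂ, (derivative P).eval c = 0 →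
      orb P (fun i => τ (k + i)) M c ∈ St P ε R)
    {z : ℂ} (hz : (derivative (comps P τ M)).eval z = 0) :
    Pool.Agent.J4.H85.AD.Esc (comps P τ M) z ∨ Att (fun w : ℂ => (comps P τ M).eval w) z := by
  have hR0 : 0 ≤ R := by linarith
  obtain ⟨k, hk, hc⟩ := crit_comps P τ M hz
  have h1 : orb P τ (k + M) z ∈ St P ε R := by
    rw [orb_add]
    exact h k hk _ hc
  have h2 : orb P τ (2 * M) z ∈ St P ε R := by
    have e : 2 * M = (k + M) + (M - k) := by omega
    rw [e, orb_add]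
    exact St_orb hR0 hR h1 (fun i => hτ _) _
  rw [← iterate_periodic hper] at h2
  rcases h2 with h2 | h2
  · left
    refine Pool.Agent.J4.H85.AD.esc_of hR0 ?_ h2
    intro w hw
    rw [eval_comps]
    have h3 := (norm_orb_ge hR0 hR hτ hw M).2
    have h4 : (2 : ℝ) ^ 1 ≤ 2 ^ M := pow_le_pow_right₀ (by norm_num) hM
    rw [pow_one] at h4
    have h5 : 2 * ‖w‖ ≤ 2 ^ M * ‖w‖ := mul_le_mul_of_nonneg_right h4 (norm_nonneg _)
    linarith
  · right
    have hdiff : Differentiable ℂ (fun w : ℂ => (comps P τ M).eval w) :=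
      (comps P τ M).differentiable
    have hη : 0 < ε - ‖τ (M - 1)‖ := by linarith [hτ (M - 1)]
    refine Att.of_iterate hdiff (j := 2) ?_
    refine trap hdiff (by linarith : 0 < R) (Bd_sub hε) hη ?_ (interior_subset h2)
    intro w hw
    have e : M = (M - 1) + 1 := by omega
    have h3 : orb P τ (M - 1) w ∈ Bd P ε R := Bd_orb hw hτ _
    refine Subset.trans ?_ (Bd_ball h3)
    have h4 : (comps P τ M).eval w = P.eval (orb P τ (M - 1) w) + τ (M - 1) := by
      rw [eval_comps]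
      conv_lhs => rw [e]
      rfl
    show ball ((comps P τ M).eval w) _ ⊆ _
    rw [h4]
    apply ball_subset_ball'
    rw [dist_eq_norm, add_sub_cancel_left]
    linarith

end Pool.Agent.J4.H85.NC
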