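import Mathlib
import Pool.Agent.J4.H85.CB1
import Pool.Agent.J4.H85.NC2

/-! The parameters for which a marked point does not escape. -/

set_option autoImplicit false

open Filter Topology Set Metric Polynomial MeasureTheory

namespace Pool.Agent.J4.H85.CB

open Polynomial.Chebyshev (node)

/-- The `n`-th image of `z` under `T + t`, as a polynomial in `t`. -/
noncomputable def Qn (T : ℂ[X]) (z : ℂ) : ℕ → ℂ[X]
  | 0 => C z
  | n + 1 => T.comp (Qn T z n) + X

theorem eval_Qn (T : ℂ[X]) (z : ℂ) (n : ℕ) (t : ℂ) :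
    (Qn T z n).eval t = (fun w : ℂ => (T + C t).eval w)^[n] z := by
  induction n with
  | zero => simp [Qn]
  | succ n ih =>
    rw [Qn, eval_add, eval_comp, eval_X, ih, Function.iterate_succ_apply', eval_add, eval_C]

theorem natDegree_Qn {T : ℂ[X]} (hT : 2 ≤ T.natDegree) (z : ℂ) (n : ℕ) :
    (Qn T z (n + 1)).natDegree = T.natDegree ^ n ∧
    (Qn T z (n + 2)).leadingCoeff =
      T.leadingCoeff * (Qn T z (n + 1)).leadingCoeff ^ T.natDegree := by
  have key : ∀ n, (Qn T z (n + 1)).natDegree = T.natDegree ^ n := by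
    intro n
    induction n with
    | zero =>
      rw [Qn, Qn, comp_C, pow_zero, add_comm, natDegree_X_add_C]
    | succ n ih =>
      rw [Qn, natDegree_add_eq_left_of_natDegree_lt, natDegree_comp, ih, pow_succ']
      rw [natDegree_comp, ih, natDegree_X]
      have h1 : 1 ≤ T.natDegree ^ n := Nat.one_le_pow _ _ (by omega)
      nlinarith
  refine ⟨key n, ?_⟩
  have h0 : (Qn T z (n + 1)).natDegree ≠ 0 := by
    rw [key n]
    exact (Nat.pow_pos (by omega)).ne'
  rw [Qn, leadingCoeff_add_of_degree_lt', leadingCoeff_comp h0]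
  apply degree_lt_degree
  rw [natDegree_comp, key n, natDegree_X]
  have h1 : 1 ≤ T.natDegree ^ n := Nat.one_le_pow _ _ (by omega)
  nlinarith

/-- The natural radius. -/
noncomputable def rr (T : ℂ[X]) : ℝ := ‖T.leadingCoeff‖ ^ (-(1 / ((T.natDegree : ℝ) - 1)))

theorem rr_pos {T : ℂ[X]} (hT : 2 ≤ T.natDegree) : 0 < rr T := by
  unfold rr
  apply Real.rpow_pos_of_pos
  rw [norm_pos_iff, Ne, leadingCoeff_eq_zero]
  rintro rfl
  simp at hT

theorem rr_pow {T : ℂ[X]} (hT : 2 ≤ T.natDegree) :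
    ‖T.leadingCoeff‖ * rr T ^ T.natDegree = rr T := by
  have ha : 0 < ‖T.leadingCoeff‖ := by
    rw [norm_pos_iff, Ne, leadingCoeff_eq_zero]
    rintro rfl
    simp at hT
  have hd : (0 : ℝ) < (T.natDegree : ℝ) - 1 := by
    have : (2 : ℝ) ≤ T.natDegree := by exact_mod_cast hT
    linarith
  unfold rr
  rw [← Real.rpow_natCast, ← Real.rpow_mul ha.le]
  nth_rewrite 1 [← Real.rpow_one ‖T.leadingCoeff‖]
  rw [← Real.rpow_add ha]
  congr 1
  field_simp
  ring

theorem lead_Qn {T : ℂ[X]} (hT : 2 ≤ T.natDegree) (z : ℂ) (n : ℕ) :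
    ‖(Qn T z (n + 1)).leadingCoeff‖ * rr T ^ (T.natDegree ^ n) = rr T := by
  induction n with
  | zero =>
    rw [Qn, Qn, comp_C, add_comm, leadingCoeff_X_add_C, norm_one, one_mul, pow_zero, pow_one]
  | succ n ih =>
    rw [(natDegree_Qn hT z n).2, norm_mul, norm_pow, pow_succ, pow_mul]
    calc ‖T.leadingCoeff‖ * ‖(Qn T z (n + 1)).leadingCoeff‖ ^ T.natDegree *
          (rr T ^ T.natDegree ^ n) ^ T.natDegree
        = ‖T.leadingCoeff‖ * (‖(Qn T z (n + 1)).leadingCoeff‖ *
          rr T ^ T.natDegree ^ n) ^ T.natDegree := by rw [mul_pow]; ring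
      _ = rr T := by rw [ih, rr_pow hT]

/-- A compact set which contains all the parameters for which the marked point does not escape. -/
theorem exists_bound {T : ℂ[X]} (hT : 2 ≤ T.natDegree) (z : ℂ) : ∃ τ R : ℝ, 0 < R ∧ ∀ t : ℂ,
    ¬ AD.Esc (T + C t) z → ‖t‖ ≤ τ ∧ ∀ n, ‖(Qn T z n).eval t‖ ≤ R := by
  -- growth of `T`
  have h3 : ∃ R₁ : ℝ, ∀ w : ℂ, R₁ ≤ ‖w‖ → 4 * ‖w‖ ≤ ‖T.eval w‖ := by
    obtain ⟨R₂, hR₂1, hR₂⟩ := NC.exists_EscR hT 1
    have h2 : 0 < T.divX.degree := by
      apply natDegree_pos_iff_degree_pos.1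
      rw [natDegree_divX_eq_natDegree_tsub_one]
      omega
    have h3 : Tendsto (fun z : ℂ => ‖T.divX.eval z‖) (cocompact ℂ) atTop :=
      tendsto_norm_atTop T.divX h2 (tendsto_norm_cocompact_atTop)
    have h4 : ∀ᶠ z in cocompact ℂ, 5 ≤ ‖T.divX.eval z‖ := h3.eventually_ge_atTop 5
    rw [Metric.cobounded_eq_cocompact.symm, ← comap_norm_atTop] at h4
    rw [Filter.eventually_comap] at h4
    obtain ⟨R, hR⟩ := Filter.eventually_atTop.1 h4
    refine ⟨max R ‖T.coeff 0‖, fun w hw => ?_⟩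
    have h5 : 5 ≤ ‖T.divX.eval w‖ := hR ‖w‖ ((le_max_left _ _).trans hw) w rfl
    have h6 : ‖T.coeff 0‖ ≤ ‖w‖ := (le_max_right _ _).trans hw
    have h7 : T.eval w = T.divX.eval w * w + T.coeff 0 := by
      conv_lhs => rw [← divX_mul_X_add T]
      simp
    have e1 := norm_sub_norm_le (T.divX.eval w * w) (-T.coeff 0)
    rw [norm_neg, sub_neg_eq_add, ← h7, norm_mul] at e1
    nlinarith [norm_nonneg w]
  obtain ⟨R₁, hR₁⟩ := h3
  set τ : ℝ := 2 * (‖T.eval z‖ + max R₁ 0) + 1 with hτ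
  have hτ0 : 0 < τ := by
    have := norm_nonneg (T.eval z)
    have := le_max_right R₁ 0
    linarith
  have hlarge : ∀ t : ℂ, τ < ‖t‖ → AD.Esc (T + C t) z := by
    intro t ht
    refine AD.esc_of (R := ‖t‖ / 2) (by positivity) ?_ (k := 1) ?_
    · intro w hw
      have h1 : R₁ ≤ ‖w‖ := by
        have := le_max_left R₁ 0
        have := norm_nonneg (T.eval z)
        linarith
      have h2 := hR₁ w h1
      rw [eval_add, eval_C]
      have h3 := norm_sub_norm_le (T.eval w) (-t)
      rw [norm_neg, sub_neg_eq_add] at h3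
      linarith
    · rw [Function.iterate_one]
      show ‖t‖ / 2 < ‖(T + C t).eval z‖
      rw [eval_add, eval_C, add_comm]
      have h3 := norm_sub_norm_le t (-T.eval z)
      rw [norm_neg, sub_neg_eq_add] at h3
      have := le_max_right R₁ 0
      linarith
  obtain ⟨R, hR1, hR⟩ := NC.exists_EscR hT (τ + 1)
  refine ⟨τ, R, by linarith, fun t ht => ?_⟩
  have htτ : ‖t‖ ≤ τ := by
    by_contra h
    exact ht (hlarge t (not_le.1 h))
  refine ⟨htτ, fun n => ?_⟩
  by_contra h
  push Not at h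
  rw [eval_Qn] at h
  apply ht
  refine AD.esc_of (R := R) (by linarith) ?_ h
  intro w hw
  rw [eval_add, eval_C]
  exact hR w hw t (by linarith)

/-- The main bound: 1-Lipschitz images of compact sets of parameters with bounded orbits. -/
theorem image_le {T : ℂ[X]} (hT : 2 ≤ T.natDegree) (z : ℂ) {R : ℝ} {E : Set ℂ} (hE : IsCompact E)
    (hR : ∀ t ∈ E, ∀ n, ‖(Qn T z n).eval t‖ ≤ R) {f : ℂ → ℝ}
    (hf : ∀ u ∈ E, ∀ v ∈ E, |f u - f v| ≤ ‖u - v‖) :
    volume (f '' E) ≤ ENNReal.ofReal (4 * rr T) := by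
  have hr := rr_pos hT
  have hfc : ContinuousOn f E := by
    have : LipschitzOnWith 1 f E := by
      apply LipschitzOnWith.of_dist_le_mul
      intro u hu v hv
      rw [NNReal.coe_one, one_mul, Real.dist_eq, dist_eq_norm]
      exact hf u hu v hv
    exact this.continuousOn
  have hF : IsCompact (f '' E) := hE.image_of_continuousOn hfc
  by_contra hcon
  push Not at hcon
  obtain ⟨m, hm⟩ : ∃ m, m = (volume (f '' E)).toReal := ⟨_, rfl⟩
  have hmv : ENNReal.ofReal m = volume (f '' E) := by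
    rw [hm, ENNReal.ofReal_toReal hF.measure_lt_top.ne]
  have hm4 : 4 * rr T < m := by
    rw [← hmv] at hcon
    exact (ENNReal.ofReal_lt_ofReal_iff_of_nonneg (by positivity)).1 hcon
  have hm0 : 0 < m := by linarith
  obtain ⟨g, hg1, hg2⟩ := rearrange hF hmv.le hm0
  -- preimages
  have hex : ∀ s ∈ Icc 0 m, ∃ t ∈ E, f t = g s := fun s hs => hg1 s hs
  choose! h hh1 hh2 using hex
  have hR0 : 0 ≤ R := by
    have h1 := hh1 0 ⟨le_rfl, hm0.le⟩
    exact (norm_nonneg _).trans (hR _ h1 0)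
  have key : ∀ k : ℕ, (m / (4 * rr T)) ^ (T.natDegree ^ k) ≤ R / rr T := by
    intro k
    set N := T.natDegree ^ k with hN
    have hN1 : 1 ≤ N := Nat.one_le_pow _ _ (by omega)
    set x : ℕ → ℂ := fun i => h (m / 2 * (node N i + 1)) with hx
    have hmem : ∀ i, m / 2 * (node N i + 1) ∈ Icc 0 m := by
      intro i
      have h1 := Chebyshev.node_mem_Icc (n := N) (i := i)
      constructor
      · have : 0 ≤ node N i + 1 := by linarith [h1.1]
        positivity
      · have := h1.2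
        nlinarith
    have h1 := coeff_le (Q := Qn T z (k + 1)) (n := N) ((natDegree_Qn hT z k).1.le) hm0
      (x := x) (R := R) ?_ ?_
    · have h2 : (Qn T z (k + 1)).coeff N = (Qn T z (k + 1)).leadingCoeff := by
        rw [leadingCoeff, (natDegree_Qn hT z k).1]
      rw [h2] at h1
      have h3 := lead_Qn hT z k
      have h4 : (2 : ℝ) / m = 2 / m := rfl
      have h5 : (2 / m) ^ N * 2 ^ (N - 1) ≤ (4 / m) ^ N := by
        have h6 : (2 : ℝ) ^ (N - 1) ≤ 2 ^ N := pow_le_pow_right₀ (by norm_num) (by omega)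
        calc (2 / m) ^ N * 2 ^ (N - 1) ≤ (2 / m) ^ N * 2 ^ N := by gcongr
          _ = (4 / m) ^ N := by
            rw [← mul_pow]
            congr 1
            ring
      have h6 : ‖(Qn T z (k + 1)).leadingCoeff‖ ≤ R * (4 / m) ^ N :=
        h1.trans (mul_le_mul_of_nonneg_left h5 hR0)
      rw [le_div_iff₀ hr]
      calc (m / (4 * rr T)) ^ N * rr T
          = (m / (4 * rr T)) ^ N * (‖(Qn T z (k + 1)).leadingCoeff‖ * rr T ^ N) := by rw [h3]
        _ ≤ (m / (4 * rr T)) ^ N * ((R * (4 / m) ^ N) * rr T ^ N) := by gcongr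
        _ = R * ((m / (4 * rr T)) * (4 / m) * rr T) ^ N := by
            rw [mul_pow, mul_pow]
            ring
        _ = R := by
            have : (m / (4 * rr T)) * (4 / m) * rr T = 1 := by field_simp
            rw [this, one_pow, mul_one]
    · intro i _ j _
      have h2 := hg2 _ (hmem i) _ (hmem j)
      have h3 := hf _ (hh1 _ (hmem i)) _ (hh1 _ (hmem j))
      rw [hh2 _ (hmem i), hh2 _ (hmem j)] at h3
      have e : m / 2 * (node N i + 1) - m / 2 * (node N j + 1) =
          m / 2 * (node N i - node N j) := by ring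
      rw [e, abs_mul, abs_of_pos (by positivity)] at h2
      exact h2.trans h3
    · intro i _
      exact hR _ (hh1 _ (hmem i)) _
  have hlim : Tendsto (fun k : ℕ => (m / (4 * rr T)) ^ (T.natDegree ^ k)) atTop atTop := by
    have h1 : 1 < m / (4 * rr T) := by
      rw [one_lt_div (by positivity)]
      exact hm4
    exact (tendsto_pow_atTop_atTop_of_one_lt h1).comp
      (tendsto_pow_atTop_atTop_of_one_lt (by omega : 1 < T.natDegree))
  obtain ⟨k, hk⟩ := (hlim.eventually_gt_atTop (R / rr T)).exists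
  exact absurd (key k) (not_le.2 hk)

end Pool.Agent.J4.H85.CB
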