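import Mathlib
import Pool.Agent.J4.H85.CB2

/-! The area of the set of the parameters for which a marked point does not escape. -/

set_option autoImplicit false

open Filter Topology Set Metric Polynomial MeasureTheory

namespace Pool.Agent.J4.H85.CB

/-- The positive part of the logarithmic kernel. -/
noncomputable def ker (ρ : ℝ) (w t : ℂ) : ℝ := max 0 (Real.log (ρ / ‖t - w‖))

theorem measurable_ker (ρ : ℝ) (w : ℂ) : Measurable (ker ρ w) := by
  unfold ker
  apply measurable_const.max
  apply Real.measurable_log.comp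
  exact measurable_const.div (continuous_norm.measurable.comp (measurable_id.sub_const w))

theorem ker_int {ρ : ℝ} (hρ : 0 < ρ) (w : ℂ) :
    ∫⁻ t, ENNReal.ofReal (ker ρ w t) ≤ ENNReal.ofReal (Real.pi * ρ ^ 2 / 2) := by
  have hnn : 0 ≤ᵐ[volume] ker ρ w := Eventually.of_forall fun t => le_max_left _ _
  rw [lintegral_eq_lintegral_meas_lt volume hnn (measurable_ker ρ w).aemeasurable]
  have h1 : ∀ s ∈ Ioi (0 : ℝ), volume {t : ℂ | s < ker ρ w t} ≤
      ENNReal.ofReal (Real.pi * ρ ^ 2 * Real.exp (-2 * s)) := by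
    intro s hs
    have h2 : {t : ℂ | s < ker ρ w t} ⊆ ball w (ρ * Real.exp (-s)) := by
      intro t ht
      have ht' : s < ker ρ w t := ht
      unfold ker at ht'
      have h3 : s < Real.log (ρ / ‖t - w‖) := by
        rcases lt_max_iff.1 ht' with h | h
        · exact absurd h (not_lt.2 (le_of_lt hs))
        · exact h
      have h4 : t ≠ w := by
        rintro rfl
        rw [sub_self, norm_zero, div_zero, Real.log_zero] at h3
        exact absurd h3 (not_lt.2 (le_of_lt hs))
      have h5 : 0 < ‖t - w‖ := norm_pos_iff.2 (sub_ne_zero.2 h4)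
      have h6 : Real.exp s < ρ / ‖t - w‖ := (Real.lt_log_iff_exp_lt (by positivity)).1 h3
      rw [lt_div_iff₀ h5] at h6
      rw [mem_ball, dist_eq_norm, Real.exp_neg, ← div_eq_mul_inv, lt_div_iff₀ (Real.exp_pos _)]
      linarith
    refine (measure_mono h2).trans ?_
    rw [Complex.volume_ball, ← ENNReal.ofReal_pow (by positivity)]
    have e : ((NNReal.pi : NNReal) : ENNReal) = ENNReal.ofReal Real.pi := by
      rw [← NNReal.coe_real_pi, ENNReal.ofReal_coe_nnreal]
    rw [e, ← ENNReal.ofReal_mul (by positivity)]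
    apply ENNReal.ofReal_le_ofReal
    apply le_of_eq
    rw [mul_pow, ← Real.exp_nat_mul]
    have e2 : ((2 : ℕ) : ℝ) * -s = -2 * s := by push_cast; ring
    rw [e2]
    ring
  refine (setLIntegral_mono' measurableSet_Ioi h1).trans ?_
  have hint : IntegrableOn (fun s : ℝ => Real.pi * ρ ^ 2 * Real.exp (-2 * s)) (Ioi 0) :=
    (integrableOn_exp_mul_Ioi (by norm_num : (-2 : ℝ) < 0) 0).const_mul _
  rw [← ofReal_integral_eq_lintegral_ofReal hint (ae_of_all _ fun s => by positivity)]
  apply ENNReal.ofReal_le_ofReal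
  rw [integral_const_mul, integral_exp_mul_Ioi (by norm_num : (-2 : ℝ) < 0) 0]
  simp
  ring_nf
  exact le_rfl

/-- A logarithmic lower bound of the sum of the kernels. -/
theorem sum_ker {Q : ℂ[X]} (hQ : Q ≠ 0) {ρ R : ℝ} (hρ : 0 < ρ) {t : ℂ}
    (hR : ‖Q.eval t‖ ≤ R) (h0 : Q.eval t ≠ 0) :
    (Q.natDegree : ℝ) * Real.log ρ - Real.log (R / ‖Q.leadingCoeff‖) ≤
      (Q.roots.map fun w => ker ρ w t).sum := by
  have hs : Q.Splits := IsAlgClosed.splits Q
  have hl : 0 < ‖Q.leadingCoeff‖ := norm_pos_iff.2 (leadingCoeff_ne_zero.2 hQ)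
  have hcard : Multiset.card Q.roots = Q.natDegree := hs.natDegree_eq_card_roots.symm
  have h1 := hs.eval_eq_prod_roots t
  have hne : ∀ w ∈ Q.roots, 0 < ‖t - w‖ := by
    intro w hw
    rw [norm_pos_iff, sub_ne_zero]
    rintro rfl
    exact h0 ((mem_roots hQ).1 hw)
  have h2 : ∀ s : Multiset ℂ, (∀ w ∈ s, 0 < ‖t - w‖) →
      (Multiset.card s : ℝ) * Real.log ρ - Real.log ‖(s.map fun w => t - w).prod‖ ≤
      (s.map fun w => ker ρ w t).sum ∧ 0 < ‖(s.map fun w => t - w).prod‖ := by
    intro s
    induction s using Multiset.induction_on with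
    | empty => intro _; simp
    | cons w s ih =>
      intro h
      obtain ⟨ih1, ih2⟩ := ih fun w hw => h w (Multiset.mem_cons_of_mem hw)
      have h3 := h w (Multiset.mem_cons_self w s)
      rw [Multiset.map_cons, Multiset.prod_cons, Multiset.map_cons, Multiset.sum_cons, norm_mul,
        Multiset.card_cons, Real.log_mul h3.ne' ih2.ne']
      refine ⟨?_, mul_pos h3 ih2⟩
      have h4 : Real.log ρ - Real.log ‖t - w‖ ≤ ker ρ w t := by
        unfold ker
        rw [Real.log_div hρ.ne' h3.ne']
        exact le_max_right _ _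
      push_cast
      linarith
  obtain ⟨h3, h4⟩ := h2 Q.roots hne
  rw [hcard] at h3
  refine le_trans ?_ h3
  have h5 : ‖(Q.roots.map fun w => t - w).prod‖ ≤ R / ‖Q.leadingCoeff‖ := by
    rw [le_div_iff₀ hl, mul_comm, ← norm_mul]
    rw [h1] at hR
    exact hR
  have h6 := Real.log_le_log h4 h5
  linarith

/-- The bound of the area. -/
theorem area_le {T : ℂ[X]} (hT : 2 ≤ T.natDegree) (z : ℂ) {R : ℝ} {E : Set ℂ} (hE : IsCompact E)
    (hR0 : 0 < R) (hR : ∀ t ∈ E, ∀ n, ‖(Qn T z n).eval t‖ ≤ R) :
    volume E ≤ ENNReal.ofReal (Real.pi * Real.exp 1 * rr T ^ 2) := by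
  have hr := rr_pos hT
  have hEt : volume E ≠ ⊤ := hE.measure_lt_top.ne
  set ρ : ℝ := rr T * Real.exp (1 / 2) with hρdef
  have hρ : 0 < ρ := by positivity
  have hlogρ : Real.log ρ = Real.log (rr T) + 1 / 2 := by
    rw [hρdef, Real.log_mul hr.ne' (Real.exp_pos _).ne', Real.log_exp]
  -- the inequality for each degree
  have key : ∀ k : ℕ, ((T.natDegree ^ k : ℕ) : ℝ) / 2 * (volume E).toReal -
      Real.log (R / rr T) * (volume E).toReal ≤
      ((T.natDegree ^ k : ℕ) : ℝ) * (Real.pi * ρ ^ 2 / 2) := by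
    intro k
    set Q := Qn T z (k + 1) with hQdef
    obtain ⟨N, hN⟩ : ∃ N, N = T.natDegree ^ k := ⟨_, rfl⟩
    have hN1 : 1 ≤ N := by rw [hN]; exact Nat.one_le_pow _ _ (by omega)
    have hQN : Q.natDegree = N := by rw [hN]; exact (natDegree_Qn hT z k).1
    have hQ0 : Q ≠ 0 := by
      intro h
      rw [h, natDegree_zero] at hQN
      omega
    have hl : 0 < ‖Q.leadingCoeff‖ := norm_pos_iff.2 (leadingCoeff_ne_zero.2 hQ0)
    have hlead := lead_Qn hT z k
    rw [← hQdef, ← hN] at hlead
    have hloglead : Real.log ‖Q.leadingCoeff‖ + N * Real.log (rr T) = Real.log (rr T) := by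
      rw [← Real.log_pow, ← Real.log_mul hl.ne' (by positivity), hlead]
    have hae : ∀ᵐ t ∂(volume.restrict E), ENNReal.ofReal
        ((N : ℝ) * Real.log ρ - Real.log (R / ‖Q.leadingCoeff‖)) ≤
        (Q.roots.map fun w => ENNReal.ofReal (ker ρ w t)).sum := by
      have h1 : ∀ᵐ t : ℂ ∂volume, t ∉ (Q.roots.toFinset : Set ℂ) := by
        rw [ae_iff]
        simp only [not_not]
        exact (Q.roots.toFinset.finite_toSet).measure_zero _
      have h2 : ∀ᵐ t ∂(volume.restrict E), t ∈ E := ae_restrict_mem hE.measurableSet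
      filter_upwards [ae_restrict_of_ae h1, h2] with t ht htE
      have h3 : Q.eval t ≠ 0 := by
        intro h
        apply ht
        rw [Finset.mem_coe, Multiset.mem_toFinset]
        exact (mem_roots hQ0).2 h
      have h4 := sum_ker hQ0 hρ (hR t htE (k + 1)) h3
      rw [hQN] at h4
      refine (ENNReal.ofReal_le_ofReal h4).trans ?_
      have h5 : ∀ s : Multiset ℂ, ENNReal.ofReal ((s.map fun w => ker ρ w t).sum) ≤
          (s.map fun w => ENNReal.ofReal (ker ρ w t)).sum := by
        intro s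
        induction s using Multiset.induction_on with
        | empty => simp
        | cons w s ih =>
          rw [Multiset.map_cons, Multiset.sum_cons, Multiset.map_cons, Multiset.sum_cons]
          exact ENNReal.ofReal_add_le.trans (by gcongr)
      exact h5 _
    have hint : ∀ s : Multiset ℂ, ∫⁻ t in E, (s.map fun w => ENNReal.ofReal (ker ρ w t)).sum ≤
        Multiset.card s * ENNReal.ofReal (Real.pi * ρ ^ 2 / 2) := by
      intro s
      induction s using Multiset.induction_on with
      | empty => simp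
      | cons w s ih =>
        simp only [Multiset.map_cons, Multiset.sum_cons, Multiset.card_cons]
        rw [lintegral_add_left (measurable_ker ρ w).ennreal_ofReal]
        push_cast
        rw [add_mul, one_mul, add_comm]
        gcongr
        exact (setLIntegral_le_lintegral _ _).trans (ker_int hρ w)
    have h1 := lintegral_mono_ae hae
    rw [setLIntegral_const] at h1
    have h2 := h1.trans (hint Q.roots)
    have hcard : Multiset.card Q.roots = N := by
      rw [← hQN]
      exact (IsAlgClosed.splits Q).natDegree_eq_card_roots.symm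
    rw [hcard, ← ENNReal.ofReal_toReal hEt, ← ENNReal.ofReal_mul' ENNReal.toReal_nonneg,
      ← ENNReal.ofReal_natCast, ← ENNReal.ofReal_mul (Nat.cast_nonneg _),
      ENNReal.ofReal_le_ofReal_iff (by positivity)] at h2
    rw [← hN]
    refine le_trans (le_of_eq ?_) h2
    rw [hlogρ, Real.log_div hR0.ne' hl.ne', Real.log_div hR0.ne' hr.ne']
    have e : Real.log ‖Q.leadingCoeff‖ = Real.log (rr T) - N * Real.log (rr T) := by linarith
    rw [e]
    ring
  -- the limit
  rw [← ENNReal.ofReal_toReal hEt]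
  apply ENNReal.ofReal_le_ofReal
  set m := (volume E).toReal with hm
  have hm0 : 0 ≤ m := ENNReal.toReal_nonneg
  have hfin : m / 2 ≤ Real.pi * ρ ^ 2 / 2 := by
    by_contra hcon
    push Not at hcon
    have h1 : Tendsto (fun k : ℕ => (((T.natDegree ^ k : ℕ) : ℝ)) *
        (m / 2 - Real.pi * ρ ^ 2 / 2)) atTop atTop := by
      apply Tendsto.atTop_mul_const (by linarith)
      exact tendsto_natCast_atTop_atTop.comp
        (tendsto_pow_atTop_atTop_of_one_lt (by omega : 1 < T.natDegree))
    obtain ⟨k, hk⟩ := (h1.eventually_gt_atTop (Real.log (R / rr T) * m)).exists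
    have h2 := key k
    nlinarith
  have e : ρ ^ 2 = Real.exp 1 * rr T ^ 2 := by
    rw [hρdef, mul_pow, ← Real.exp_nat_mul]
    have : ((2 : ℕ) : ℝ) * (1 / 2) = 1 := by norm_num
    rw [this]
    ring
  rw [e] at hfin
  linarith

end Pool.Agent.J4.H85.CB
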