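import Mathlib
import Pool.Agent.J4.H85.CB3

/-! The parameters for which some critical point does not escape. -/

set_option autoImplicit false

open Filter Topology Set Metric Polynomial MeasureTheory

namespace Pool.Agent.J4.H85.CB

/-- The translations of `T` with a critical point which does not escape. -/
def Bad (T : ℂ[X]) : Set ℂ := {t | ∃ c, (derivative T).eval c = 0 ∧ ¬ AD.Esc (T + C t) c}

/-- A finite cover by compact sets. -/
theorem cover {T : ℂ[X]} (hT : 2 ≤ T.natDegree) : ∃ (S : Finset ℂ) (E : ℂ → Set ℂ) (R : ℂ → ℝ),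
    S.card + 1 ≤ T.natDegree ∧ (∀ c, IsCompact (E c)) ∧ (∀ c, 0 < R c) ∧
    (∀ c, ∀ t ∈ E c, ∀ n, ‖(Qn T c n).eval t‖ ≤ R c) ∧ Bad T ⊆ ⋃ c ∈ S, E c := by
  have h0 : derivative T ≠ 0 := by
    intro h0
    have := Polynomial.derivative_eq_zero.1 h0
    omega
  have hb := fun z => exists_bound hT z
  choose τ R hR hb using hb
  refine ⟨(derivative T).roots.toFinset,
    fun c => {t | ‖t‖ ≤ τ c ∧ ∀ n, ‖(Qn T c n).eval t‖ ≤ R c}, R, ?_, ?_, hR,
    fun c t ht => ht.2, ?_⟩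
  · have h1 := (Multiset.toFinset_card_le (derivative T).roots).trans (card_roots' _)
    rw [natDegree_derivative] at h1
    omega
  · intro c
    apply (isCompact_closedBall (0 : ℂ) (τ c)).of_isClosed_subset
    · have : {t : ℂ | ‖t‖ ≤ τ c ∧ ∀ n, ‖(Qn T c n).eval t‖ ≤ R c} =
          {t | ‖t‖ ≤ τ c} ∩ ⋂ n, {t | ‖(Qn T c n).eval t‖ ≤ R c} := by
        ext t
        simp
      show IsClosed {t : ℂ | ‖t‖ ≤ τ c ∧ ∀ n, ‖(Qn T c n).eval t‖ ≤ R c}
      rw [this]
      apply (isClosed_le continuous_norm continuous_const).inter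
      exact isClosed_iInter fun n =>
        isClosed_le (continuous_norm.comp (Qn T c n).continuous) continuous_const
    · intro t ht
      rw [mem_closedBall_zero_iff]
      exact ht.1
  · rintro t ⟨c, hc, ht⟩
    rw [mem_iUnion₂]
    exact ⟨c, Multiset.mem_toFinset.2 ((mem_roots h0).2 hc), hb c t ht⟩

/-- One-Lipschitz images. -/
theorem bad_image {T : ℂ[X]} (hT : 2 ≤ T.natDegree) {f : ℂ → ℝ}
    (hf : ∀ u v, |f u - f v| ≤ ‖u - v‖) :
    volume (f '' Bad T) ≤ ENNReal.ofReal (4 * ((T.natDegree : ℝ) - 1) * rr T) := by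
  obtain ⟨S, E, R, hS, hE, hR0, hR, hcov⟩ := cover hT
  have h1 : f '' Bad T ⊆ ⋃ c ∈ S, f '' E c := by
    rintro _ ⟨t, ht, rfl⟩
    have := hcov ht
    rw [mem_iUnion₂] at this ⊢
    obtain ⟨c, hc, htc⟩ := this
    exact ⟨c, hc, t, htc, rfl⟩
  refine (measure_mono h1).trans ((measure_biUnion_finset_le _ _).trans ?_)
  refine (Finset.sum_le_sum fun c _ => image_le hT c (hE c) (hR c) (fun u _ v _ => hf u v)).trans ?_
  rw [Finset.sum_const, nsmul_eq_mul, ← ENNReal.ofReal_natCast,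
    ← ENNReal.ofReal_mul (Nat.cast_nonneg _)]
  apply ENNReal.ofReal_le_ofReal
  have h2 : (S.card : ℝ) ≤ (T.natDegree : ℝ) - 1 := by
    have : ((S.card + 1 : ℕ) : ℝ) ≤ T.natDegree := by exact_mod_cast hS
    push_cast at this
    linarith
  have h3 := rr_pos hT
  nlinarith

/-- The area. -/
theorem bad_area {T : ℂ[X]} (hT : 2 ≤ T.natDegree) :
    volume (Bad T) ≤
      ENNReal.ofReal (Real.pi * Real.exp 1 * ((T.natDegree : ℝ) - 1) * rr T ^ 2) := by
  obtain ⟨S, E, R, hS, hE, hR0, hR, hcov⟩ := cover hT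
  refine (measure_mono hcov).trans ((measure_biUnion_finset_le _ _).trans ?_)
  refine (Finset.sum_le_sum fun c _ => area_le hT c (hE c) (hR0 c) (hR c)).trans ?_
  rw [Finset.sum_const, nsmul_eq_mul, ← ENNReal.ofReal_natCast,
    ← ENNReal.ofReal_mul (Nat.cast_nonneg _)]
  apply ENNReal.ofReal_le_ofReal
  have h2 : (S.card : ℝ) ≤ (T.natDegree : ℝ) - 1 := by
    have : ((S.card + 1 : ℕ) : ℝ) ≤ T.natDegree := by exact_mod_cast hS
    push_cast at this
    linarith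
  have h3 := rr_pos hT
  calc (S.card : ℝ) * (Real.pi * Real.exp 1 * rr T ^ 2)
      ≤ ((T.natDegree : ℝ) - 1) * (Real.pi * Real.exp 1 * rr T ^ 2) := by gcongr
    _ = Real.pi * Real.exp 1 * ((T.natDegree : ℝ) - 1) * rr T ^ 2 := by ring

/-- Connected sets. -/
theorem bad_conn {T : ℂ[X]} (hT : 2 ≤ T.natDegree) {Γ : Set ℂ} (hΓ : IsPreconnected Γ)
    (hB : Γ ⊆ Bad T) {p q : ℂ} (hp : p ∈ Γ) (hq : q ∈ Γ) :
    ‖p - q‖ ≤ 4 * ((T.natDegree : ℝ) - 1) * rr T := by
  set f : ℂ → ℝ := fun t => ‖t - p‖ with hf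
  have h1 : ∀ u v, |f u - f v| ≤ ‖u - v‖ := by
    intro u v
    have := abs_norm_sub_norm_le (u - p) (v - p)
    rwa [sub_sub_sub_cancel_right] at this
  have h2 := bad_image hT h1
  have h3 : IsPreconnected (f '' Γ) :=
    hΓ.image f (continuous_norm.comp (continuous_id.sub continuous_const)).continuousOn
  have h4 : Icc (0 : ℝ) ‖p - q‖ ⊆ f '' Bad T := by
    have h5 : (0 : ℝ) ∈ f '' Γ := ⟨p, hp, by simp [hf]⟩
    have h6 : ‖p - q‖ ∈ f '' Γ := ⟨q, hq, by rw [hf]; exact norm_sub_rev q p⟩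
    exact (h3.Icc_subset h5 h6).trans (image_mono hB)
  have h5 := (measure_mono h4).trans h2
  rw [Real.volume_Icc, sub_zero] at h5
  have hd : (2 : ℝ) ≤ T.natDegree := by exact_mod_cast hT
  have hr := rr_pos hT
  have h6 : 0 ≤ 4 * ((T.natDegree : ℝ) - 1) * rr T :=
    mul_nonneg (by linarith) hr.le
  exact (ENNReal.ofReal_le_ofReal_iff h6).1 h5

/-- Existence in discs. -/
theorem exists_good {T : ℂ[X]} (hT : 2 ≤ T.natDegree) {ρ : ℝ} (hρ0 : 0 < ρ)
    (hρ : Real.sqrt (Real.exp 1 * ((T.natDegree : ℝ) - 1)) * rr T < ρ) (s : ℂ) :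
    ∃ t ∈ ball s ρ, t ∉ Bad T := by
  by_contra hcon
  push Not at hcon
  have h1 : volume (ball s ρ) ≤ _ := (measure_mono hcon).trans (bad_area hT)
  rw [Complex.volume_ball, ← ENNReal.ofReal_pow hρ0.le] at h1
  have e : ((NNReal.pi : NNReal) : ENNReal) = ENNReal.ofReal Real.pi := by
    rw [← NNReal.coe_real_pi, ENNReal.ofReal_coe_nnreal]
  have hd : (2 : ℝ) ≤ T.natDegree := by exact_mod_cast hT
  have hr := rr_pos hT
  have hd1 : (0 : ℝ) ≤ (T.natDegree : ℝ) - 1 := by linarith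
  rw [e, ← ENNReal.ofReal_mul (by positivity), ENNReal.ofReal_le_ofReal_iff (by positivity)] at h1
  have h2 : Real.sqrt (Real.exp 1 * ((T.natDegree : ℝ) - 1)) ^ 2 =
      Real.exp 1 * ((T.natDegree : ℝ) - 1) := Real.sq_sqrt (by positivity)
  have h3 : (Real.sqrt (Real.exp 1 * ((T.natDegree : ℝ) - 1)) * rr T) ^ 2 < ρ ^ 2 :=
    pow_lt_pow_left₀ hρ (by positivity) (by norm_num)
  rw [mul_pow, h2] at h3
  have hpi := Real.pi_pos
  nlinarith

end Pool.Agent.J4.H85.CB
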