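import Mathlib
import Pool.Agent.J4.H85.NC2

/-! The averaging operator and the exponential decay of the probability not to be absorbed. -/

set_option autoImplicit false

open Filter Topology Set Metric Polynomial MeasureTheory

namespace Pool.Agent.J4.H85.NC

/-- The laws of the noise: probability measures on the disc of radius `ε` which charge all small
discs in it. -/
structure Law (ε : ℝ) (ν : Measure ℂ) : Prop where
  prob : IsProbabilityMeasure ν
  supp : ν (ball (0 : ℂ) ε)ᶜ = 0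
  full : ∀ x ∈ ball (0 : ℂ) ε, ∀ r : ℝ, 0 < r → ν (ball x r) ≠ 0

/-- The averaging operator. -/
noncomputable def A (P : ℂ[X]) (ν : Measure ℂ) (f : ℂ → ENNReal) (z : ℂ) : ENNReal :=
  ∫⁻ s, f (P.eval z + s) ∂ν

/-- The indicator functions of the complement of the absorbing set, and of the absorbing set. -/
noncomputable def f₀ (P : ℂ[X]) (ε R : ℝ) : ℂ → ENNReal := (St P ε R)ᶜ.indicator fun _ => 1
noncomputable def h₀ (P : ℂ[X]) (ε R : ℝ) : ℂ → ENNReal := (St P ε R).indicator fun _ => 1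

variable {P : ℂ[X]} {ε R : ℝ} {ν : Measure ℂ}

theorem measurable_f₀ : Measurable (f₀ P ε R) :=
  measurable_const.indicator isOpen_St.measurableSet.compl

theorem measurable_h₀ : Measurable (h₀ P ε R) :=
  measurable_const.indicator isOpen_St.measurableSet

theorem A_mono {f g : ℂ → ENNReal} (h : ∀ z, f z ≤ g z) (z : ℂ) : A P ν f z ≤ A P ν g z :=
  lintegral_mono fun _ => h _

theorem Aq_mono {f g : ℂ → ENNReal} (h : ∀ z, f z ≤ g z) (q : ℕ) (z : ℂ) :
    (A P ν)^[q] f z ≤ (A P ν)^[q] g z := by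
  induction q generalizing z with
  | zero => exact h z
  | succ q ih =>
    rw [Function.iterate_succ_apply', Function.iterate_succ_apply']
    exact A_mono ih z

theorem measurable_A [SFinite ν] {f : ℂ → ENNReal} (hf : Measurable f) : Measurable (A P ν f) := by
  have h1 : Measurable fun p : ℂ × ℂ => f (P.eval p.1 + p.2) := by
    apply hf.comp
    have : Continuous fun p : ℂ × ℂ => P.eval p.1 + p.2 := by fun_prop
    exact this.measurable
  exact h1.lintegral_prod_right'

theorem measurable_Aq [SFinite ν] {f : ℂ → ENNReal} (hf : Measurable f) (q : ℕ) :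
    Measurable ((A P ν)^[q] f) := by
  induction q with
  | zero => exact hf
  | succ q ih =>
    rw [Function.iterate_succ_apply']
    exact measurable_A ih

theorem A_const [IsProbabilityMeasure ν] (b : ENNReal) : A P ν (fun _ => b) = fun _ => b := by
  funext z
  simp [A]

theorem Aq_const [IsProbabilityMeasure ν] (b : ENNReal) (q : ℕ) :
    (A P ν)^[q] (fun _ => b) = fun _ => b := by
  induction q with
  | zero => rfl
  | succ q ih => rw [Function.iterate_succ_apply', ih, A_const]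

theorem Aq_le_const [IsProbabilityMeasure ν] {f : ℂ → ENNReal} {b : ENNReal} (h : ∀ z, f z ≤ b)
    (q : ℕ) (z : ℂ) : (A P ν)^[q] f z ≤ b := by
  have := Aq_mono (P := P) (ν := ν) (g := fun _ => b) h q z
  rwa [Aq_const] at this

theorem Aq_mul [SFinite ν] {f : ℂ → ENNReal} (hf : Measurable f) (b : ENNReal) (q : ℕ) (z : ℂ) :
    (A P ν)^[q] (fun z => b * f z) z = b * (A P ν)^[q] f z := by
  induction q generalizing z with
  | zero => rfl
  | succ q ih =>
    have e : (A P ν)^[q] (fun z => b * f z) = fun z => b * (A P ν)^[q] f z := funext ih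
    rw [Function.iterate_succ_apply', Function.iterate_succ_apply', e]
    unfold A
    have hm : Measurable fun s : ℂ => (A P ν)^[q] f (P.eval z + s) :=
      (measurable_Aq hf q).comp (measurable_const.add measurable_id)
    exact lintegral_const_mul b hm

theorem Aq_add [SFinite ν] {f g : ℂ → ENNReal} (hf : Measurable f) (q : ℕ)
    (z : ℂ) : (A P ν)^[q] (fun z => f z + g z) z = (A P ν)^[q] f z + (A P ν)^[q] g z := by
  induction q generalizing z with
  | zero => rfl
  | succ q ih =>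
    have e : (A P ν)^[q] (fun z => f z + g z) = fun z => (A P ν)^[q] f z + (A P ν)^[q] g z :=
      funext ih
    rw [Function.iterate_succ_apply', Function.iterate_succ_apply', Function.iterate_succ_apply', e]
    unfold A
    have hm : Measurable fun s : ℂ => (A P ν)^[q] f (P.eval z + s) :=
      (measurable_Aq hf q).comp (measurable_const.add measurable_id)
    exact lintegral_add_left hm _

/-- The absorbing set is absorbing. -/
theorem Aq_f₀_St (hν : Law ε ν) (hR0 : 0 ≤ R) (hR : EscR P ε R) (q : ℕ) {z : ℂ}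
    (hz : z ∈ St P ε R) : (A P ν)^[q] (f₀ P ε R) z = 0 := by
  have := hν.prob
  induction q generalizing z with
  | zero => simp [f₀, hz]
  | succ q ih =>
    rw [Function.iterate_succ_apply']
    have h1 : ∀ᵐ s ∂ν, s ∈ ball (0 : ℂ) ε := by
      rw [ae_iff]
      exact hν.supp
    have h2 : ∀ᵐ s ∂ν, (A P ν)^[q] (f₀ P ε R) (P.eval z + s) = 0 := by
      filter_upwards [h1] with s hs
      exact ih (St_step hR0 hR hz (mem_ball_zero_iff.1 hs))
    show ∫⁻ s, (A P ν)^[q] (f₀ P ε R) (P.eval z + s) ∂ν = 0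
    rw [lintegral_congr_ae h2]
    simp

theorem h₀_le_A (hν : Law ε ν) (hR0 : 0 ≤ R) (hR : EscR P ε R) (z : ℂ) :
    h₀ P ε R z ≤ A P ν (h₀ P ε R) z := by
  have := hν.prob
  by_cases hz : z ∈ St P ε R
  · have h1 : ∀ᵐ s ∂ν, s ∈ ball (0 : ℂ) ε := by
      rw [ae_iff]
      exact hν.supp
    have h2 : A P ν (h₀ P ε R) z = 1 := by
      unfold A
      have h3 : ∀ᵐ s ∂ν, h₀ P ε R (P.eval z + s) = 1 := by
        filter_upwards [h1] with s hs
        have := St_step hR0 hR hz (mem_ball_zero_iff.1 hs)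
        simp [h₀, this]
      rw [lintegral_congr_ae h3]
      simp
    rw [h2]
    simp [h₀, hz]
  · simp [h₀, hz]

theorem Aq_h₀_mono (hν : Law ε ν) (hR0 : 0 ≤ R) (hR : EscR P ε R) {m n : ℕ} (hmn : m ≤ n) (z : ℂ) :
    (A P ν)^[m] (h₀ P ε R) z ≤ (A P ν)^[n] (h₀ P ε R) z := by
  induction n, hmn using Nat.le_induction with
  | base => exact le_rfl
  | succ n _ ih =>
    refine ih.trans ?_
    rw [Function.iterate_succ_apply]
    exact Aq_mono (h₀_le_A hν hR0 hR) n z

/-- Local lower bounds. -/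
theorem low (hν : Law ε ν) {τ : ℕ → ℂ} (hτ : ∀ i, ‖τ i‖ < ε) (n : ℕ) {z : ℂ}
    (h : orb P τ n z ∈ St P ε R) :
    ∃ U ∈ 𝓝 z, ∃ c : ENNReal, c ≠ 0 ∧ ∀ z' ∈ U, c ≤ (A P ν)^[n] (h₀ P ε R) z' := by
  induction n generalizing z τ with
  | zero =>
    refine ⟨St P ε R, isOpen_St.mem_nhds h, 1, one_ne_zero, fun z' hz' => ?_⟩
    simp [h₀, hz']
  | succ n ih =>
    have e : n + 1 = 1 + n := Nat.add_comm _ _
    rw [e, orb_add, orb_one] at h
    obtain ⟨U', hU', c', hc', hle⟩ := ih (fun i => hτ _) h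
    obtain ⟨δ, hδ, hball⟩ := Metric.mem_nhds_iff.1 hU'
    have hcont : ContinuousAt (fun z' : ℂ => P.eval z') z := P.continuous.continuousAt
    have hU : {z' : ℂ | dist (P.eval z') (P.eval z) < δ / 2} ∈ 𝓝 z :=
      Metric.tendsto_nhds.1 hcont (δ / 2) (by linarith)
    refine ⟨_, hU, c' * ν (ball (τ 0) (δ / 2)), ?_, fun z' hz' => ?_⟩
    · exact mul_ne_zero hc' (hν.full _ (mem_ball_zero_iff.2 (hτ 0)) _ (by linarith))
    · rw [Function.iterate_succ_apply']
      unfold A
      have h1 : ∫⁻ _s in ball (τ 0) (δ / 2), c' ∂ν ≤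
          ∫⁻ s in ball (τ 0) (δ / 2), (A P ν)^[n] (h₀ P ε R) (P.eval z' + s) ∂ν := by
        apply setLIntegral_mono' measurableSet_ball
        intro s hs
        apply hle
        apply hball
        rw [mem_ball, dist_eq_norm] at hs ⊢
        have h2 : ‖P.eval z' - P.eval z‖ < δ / 2 := by
          rw [← dist_eq_norm]; exact hz'
        have e2 : P.eval z' + s - (P.eval z + τ 0) = (P.eval z' - P.eval z) + (s - τ 0) := by ring
        rw [e2]
        exact (norm_add_le _ _).trans_lt (by linarith)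
      rw [setLIntegral_const] at h1
      exact h1.trans (setLIntegral_le_lintegral _ _)

/-- The uniform lower bound. -/
theorem uniform_low (hε : 0 < ε) (hν : Law ε ν) (hR0 : 0 ≤ R) (hR : EscR P ε R) :
    ∃ (m : ℕ) (c : ENNReal), c ≠ 0 ∧ ∀ z, c ≤ (A P ν)^[m] (h₀ P ε R) z := by
  have hcomp := isCompact_closedBall (0 : ℂ) R
  have key : ∃ (m : ℕ) (c : ENNReal), c ≠ 0 ∧ ∀ z ∈ closedBall (0 : ℂ) R,
      c ≤ (A P ν)^[m] (h₀ P ε R) z := by
    refine hcomp.induction_on (p := fun s => ∃ (m : ℕ) (c : ENNReal), c ≠ 0 ∧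
      ∀ z ∈ s, c ≤ (A P ν)^[m] (h₀ P ε R) z) ?_ ?_ ?_ ?_
    · exact ⟨0, 1, one_ne_zero, fun z hz => absurd hz (notMem_empty z)⟩
    · rintro s t hst ⟨m, c, hc, h⟩
      exact ⟨m, c, hc, fun z hz => h z (hst hz)⟩
    · rintro s t ⟨m, c, hc, h⟩ ⟨m', c', hc', h'⟩
      refine ⟨max m m', min c c', (lt_min (pos_iff_ne_zero.2 hc) (pos_iff_ne_zero.2 hc')).ne', ?_⟩
      rintro z (hz | hz)
      · exact (min_le_left _ _).trans ((h z hz).trans (Aq_h₀_mono hν hR0 hR (le_max_left _ _) z))
      · exact (min_le_right _ _).trans ((h' z hz).trans (Aq_h₀_mono hν hR0 hR (le_max_right _ _) z))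
    · intro z _
      obtain ⟨τ, hτ, n, hn⟩ := reach (P := P) (R := R) hε z
      obtain ⟨U, hU, c, hc, h⟩ := low hν hτ n hn
      exact ⟨U, mem_nhdsWithin_of_mem_nhds hU, n, c, hc, h⟩
  obtain ⟨m, c, hc, h⟩ := key
  refine ⟨m, min c 1, (lt_min (pos_iff_ne_zero.2 hc) one_pos).ne', fun z => ?_⟩
  by_cases hz : z ∈ closedBall (0 : ℂ) R
  · exact (min_le_left _ _).trans (h z hz)
  · have hz' : z ∈ St P ε R := by
      left
      rw [mem_closedBall_zero_iff, not_le] at hz
      exact hz
    refine (min_le_right _ _).trans (le_trans ?_ (Aq_h₀_mono hν hR0 hR (Nat.zero_le m) z))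
    simp [h₀, hz']

theorem Aq_sum (hν : Law ε ν) (q : ℕ) (z : ℂ) :
    (A P ν)^[q] (f₀ P ε R) z + (A P ν)^[q] (h₀ P ε R) z = 1 := by
  have := hν.prob
  rw [← Aq_add measurable_f₀]
  have e : (fun z => f₀ P ε R z + h₀ P ε R z) = fun _ => 1 := by
    funext z
    by_cases hz : z ∈ St P ε R <;> simp [f₀, h₀, hz]
  rw [e, Aq_const]

/-- Exponential decay. -/
theorem decay (hε : 0 < ε) (hν : Law ε ν) (hR0 : 0 ≤ R) (hR : EscR P ε R) :
    ∃ (m : ℕ) (θ : ENNReal), 0 < m ∧ θ < 1 ∧ ∀ q z, (A P ν)^[q] (f₀ P ε R) z ≤ θ ^ (q / m) := by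
  have := hν.prob
  obtain ⟨m₀, c, hc, h⟩ := uniform_low (P := P) hε hν hR0 hR
  obtain ⟨m, hm⟩ : ∃ m, m = m₀ + 1 := ⟨_, rfl⟩
  have hm1 : ∀ z, (A P ν)^[m] (f₀ P ε R) z ≤ 1 - c := by
    intro z
    have h1 := Aq_sum (P := P) (R := R) hν m z
    have h2 : c ≤ (A P ν)^[m] (h₀ P ε R) z :=
      (h z).trans (Aq_h₀_mono hν hR0 hR (by omega) z)
    have hc1 : c ≤ 1 := by
      rw [← h1]
      exact h2.trans (by rw [add_comm]; exact le_self_add)
    apply ENNReal.le_sub_of_add_le_right (ne_top_of_le_ne_top ENNReal.one_ne_top hc1)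
    rw [← h1]
    gcongr
  have hk : ∀ k z, (A P ν)^[m * k] (f₀ P ε R) z ≤ (1 - c) ^ k := by
    intro k
    induction k with
    | zero =>
      intro z
      simp only [Nat.mul_zero, pow_zero, Function.iterate_zero, id]
      unfold f₀
      exact indicator_le (fun _ _ => le_rfl) z
    | succ k ih =>
      intro z
      rw [Nat.mul_succ, Nat.add_comm, Function.iterate_add_apply]
      have h1 : ∀ z, (A P ν)^[m * k] (f₀ P ε R) z ≤ (1 - c) ^ k * f₀ P ε R z := by
        intro z
        by_cases hz : z ∈ St P ε R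
        · rw [Aq_f₀_St hν hR0 hR _ hz]
          exact zero_le
        · have : f₀ P ε R z = 1 := by simp [f₀, hz]
          rw [this, mul_one]
          exact ih z
      refine (Aq_mono h1 m z).trans ?_
      rw [Aq_mul measurable_f₀, pow_succ]
      gcongr
      exact hm1 z
  refine ⟨m, 1 - c, by omega, ENNReal.sub_lt_self ENNReal.one_ne_top one_ne_zero hc, ?_⟩
  intro q z
  have e : q = q % m + m * (q / m) := (Nat.mod_add_div q m).symm
  conv_lhs => rw [e]
  rw [Function.iterate_add_apply]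
  exact Aq_le_const (hk _) _ z

end Pool.Agent.J4.H85.NC
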