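import Mathlib
import Pool.Agent.J4.H85.NC3

/-! The product measure on the finite noise vectors. -/

set_option autoImplicit false

open Filter Topology Set Metric Polynomial MeasureTheory

namespace Pool.Agent.J4.H85.NC

variable {P : ℂ[X]} {ε R : ℝ} {ν : Measure ℂ} {L : ℕ}

theorem lintegral_update [IsProbabilityMeasure ν] (i : Fin L) {F : (Fin L → ℂ) → ENNReal}
    (hF : Measurable F) :
    ∫⁻ t, F t ∂(Measure.pi fun _ : Fin L => ν) =
      ∫⁻ t, ∫⁻ s, F (Function.update t i s) ∂ν ∂(Measure.pi fun _ : Fin L => ν) := by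
  have hG : Measurable fun t : Fin L → ℂ => ∫⁻ s, F (Function.update t i s) ∂ν := by
    have h1 : Measurable fun p : (Fin L → ℂ) × ℂ => F (Function.update p.1 i p.2) :=
      hF.comp (measurable_update' (X := fun _ : Fin L => ℂ))
    exact h1.lintegral_prod_right'
  apply lintegral_eq_of_lmarginal_eq ({i} : Finset (Fin L)) hF hG
  rw [lmarginal_singleton, lmarginal_singleton]
  funext t
  simp

theorem measurable_orb {τ : (Fin L → ℂ) → ℕ → ℂ} (hτ : ∀ i, Measurable fun t => τ t i)
    {w : (Fin L → ℂ) → ℂ} (hw : Measurable w) (q : ℕ) :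
    Measurable fun t => orb P (τ t) q (w t) := by
  induction q with
  | zero => exact hw
  | succ q ih =>
    have : (fun t => orb P (τ t) (q + 1) (w t)) =
        fun t => P.eval (orb P (τ t) q (w t)) + τ t q := rfl
    rw [this]
    exact (P.continuous.measurable.comp ih).add (hτ q)

/-- Fubini along the noise. -/
theorem orb_lintegral [IsProbabilityMeasure ν] (σ : ℕ → Fin L) {f : ℂ → ENNReal} (hf : Measurable f)
    (q : ℕ) (hσ : ∀ i < q, ∀ j < q, σ i = σ j → i = j) {w : (Fin L → ℂ) → ℂ} (hw : Measurable w)
    (hind : ∀ i < q, ∀ t s, w (Function.update t (σ i) s) = w t) :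
    ∫⁻ t, f (orb P (fun i => t (σ i)) q (w t)) ∂(Measure.pi fun _ : Fin L => ν) =
      ∫⁻ t, (A P ν)^[q] f (w t) ∂(Measure.pi fun _ : Fin L => ν) := by
  induction q generalizing f with
  | zero => rfl
  | succ q ih =>
    have hτ : ∀ i, Measurable fun t : Fin L → ℂ => (fun i => t (σ i)) i := fun i =>
      measurable_pi_apply _
    have hy : Measurable fun t : Fin L → ℂ => orb P (fun i => t (σ i)) q (w t) :=
      measurable_orb hτ hw q
    have hyind : ∀ t s, orb P (fun i => (Function.update t (σ q) s) (σ i)) q
        (w (Function.update t (σ q) s)) = orb P (fun i => t (σ i)) q (w t) := by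
      intro t s
      rw [hind q (Nat.lt_succ_self q)]
      apply orb_congr
      intro i hi
      apply Function.update_of_ne
      intro h
      have := hσ i (by omega) q (by omega) h
      omega
    have h1 : ∫⁻ t, f (orb P (fun i => t (σ i)) (q + 1) (w t)) ∂(Measure.pi fun _ : Fin L => ν) =
        ∫⁻ t, A P ν f (orb P (fun i => t (σ i)) q (w t)) ∂(Measure.pi fun _ : Fin L => ν) := by
      have hFm : Measurable fun t : Fin L → ℂ => f (orb P (fun i => t (σ i)) (q + 1) (w t)) :=
        hf.comp (measurable_orb hτ hw (q + 1))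
      rw [lintegral_update (σ q) hFm]
      apply lintegral_congr
      intro t
      unfold A
      apply lintegral_congr
      intro s
      have e : orb P (fun i => (Function.update t (σ q) s) (σ i)) (q + 1)
          (w (Function.update t (σ q) s)) = P.eval (orb P (fun i => t (σ i)) q (w t)) + s := by
        rw [orb, hyind, Function.update_self]
      exact congrArg f e
    rw [h1, ih (measurable_A hf) (fun i hi j hj => hσ i (by omega) j (by omega))
      (fun i hi => hind i (by omega))]
    simp only [Function.iterate_succ_apply]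

/-- The periodic noise: `n` steps without noise, then `L` steps with noise `t`. -/
noncomputable def tau (n : ℕ) (t : Fin L → ℂ) (i : ℕ) : ℂ :=
  if h : n ≤ i % (n + L) ∧ i % (n + L) < n + L then t ⟨i % (n + L) - n, by omega⟩ else 0

theorem tau_per (n : ℕ) (t : Fin L → ℂ) (i : ℕ) : tau n t ((n + L) + i) = tau n t i := by
  unfold tau
  simp only [Nat.add_mod_left]

theorem tau_small {n : ℕ} {t : Fin L → ℂ} (hε : 0 < ε) (ht : ∀ i, ‖t i‖ < ε) (i : ℕ) :
    ‖tau n t i‖ < ε := by
  unfold tau
  split_ifs with h
  · exact ht _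
  · simpa using hε

theorem tau_zero {n : ℕ} (t : Fin L → ℂ) {i : ℕ} (hi : i % (n + L) < n) : tau n t i = 0 := by
  unfold tau
  rw [dif_neg]
  omega

theorem tau_val {n : ℕ} (t : Fin L → ℂ) {i j : ℕ} (hj : j < L) (hi : i % (n + L) = n + j) :
    tau n t i = t ⟨j, hj⟩ := by
  unfold tau
  rw [dif_pos (by omega)]
  congr 1
  apply Fin.ext
  simp only
  omega

theorem measurable_tau (n i : ℕ) : Measurable fun t : Fin L → ℂ => tau n t i := by
  unfold tau
  by_cases h : n ≤ i % (n + L) ∧ i % (n + L) < n + L
  · simp only [dif_pos h]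
    exact measurable_pi_apply _
  · simp only [dif_neg h]
    exact measurable_const

/-- The estimate for a window of the noise. -/
theorem window (hε : 0 < ε) (hν : Law ε ν) (hR0 : 0 ≤ R) (hR : EscR P ε R) {m : ℕ} {θ : ENNReal}
    (hdec : ∀ q z, (A P ν)^[q] (f₀ P ε R) z ≤ θ ^ (q / m)) {n k a q N : ℕ} (hN : a + q ≤ N) (c : ℂ)
    (σ : ℕ → Fin L) (hσ : ∀ i < q, ∀ j < q, σ i = σ j → i = j)
    (hτ : ∀ (t : Fin L → ℂ), ∀ i < q, tau n t (k + (a + i)) = t (σ i))
    (hind : ∀ i < q, ∀ (t : Fin L → ℂ) (s : ℂ), ∀ j < a,
      tau n (Function.update t (σ i) s) (k + j) = tau n t (k + j)) :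
    (Measure.pi fun _ : Fin L => ν) {t | (∀ i, ‖t i‖ < ε) ∧
      orb P (fun i => tau n t (k + i)) N c ∉ St P ε R} ≤ θ ^ (q / m) := by
  have := hν.prob
  set μ := Measure.pi fun _ : Fin L => ν with hμ
  set w : (Fin L → ℂ) → ℂ := fun t => orb P (fun i => tau n t (k + i)) a c with hw
  have hwm : Measurable w := measurable_orb (fun i => measurable_tau n (k + i)) measurable_const a
  have hwind : ∀ i < q, ∀ t s, w (Function.update t (σ i) s) = w t := by
    intro i hi t s
    apply orb_congr
    intro j hj
    exact hind i hi t s j hj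
  have hint := orb_lintegral (P := P) (ν := ν) σ (measurable_f₀ (P := P) (ε := ε) (R := R)) q hσ hwm
    hwind
  have hle : ∫⁻ t, (A P ν)^[q] (f₀ P ε R) (w t) ∂μ ≤ θ ^ (q / m) := by
    refine (lintegral_mono fun t => hdec q (w t)).trans ?_
    simp
  rw [← hint] at hle
  refine le_trans ?_ hle
  have hfun : (fun t : Fin L → ℂ => f₀ P ε R (orb P (fun i => t (σ i)) q (w t))) =
      ((fun t : Fin L → ℂ => orb P (fun i => t (σ i)) q (w t)) ⁻¹' (St P ε R)ᶜ).indicator
        (fun _ => 1) := by
    funext t
    unfold f₀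
    by_cases h : orb P (fun i => t (σ i)) q (w t) ∈ St P ε R
    · rw [indicator_of_notMem (by simpa using h), indicator_of_notMem (by simpa using h)]
    · rw [indicator_of_mem (by simpa using h), indicator_of_mem (by simpa using h)]
  have hmeas : MeasurableSet
      ((fun t : Fin L → ℂ => orb P (fun i => t (σ i)) q (w t)) ⁻¹' (St P ε R)ᶜ) :=
    (measurable_orb (fun i => measurable_pi_apply _) hwm q) isOpen_St.measurableSet.compl
  rw [hfun, lintegral_indicator_const hmeas, one_mul]
  apply measure_mono
  rintro t ⟨ht, hN'⟩ hmem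
  apply hN'
  have h1 : orb P (fun i => tau n t (k + i)) (a + q) c ∈ St P ε R := by
    rw [orb_add]
    have e : orb P (fun i => (fun i => tau n t (k + i)) (a + i)) q
        (orb P (fun i => tau n t (k + i)) a c) = orb P (fun i => t (σ i)) q (w t) := by
      apply orb_congr
      intro i hi
      exact hτ t i hi
    rw [e]
    exact hmem
  have e : N = (a + q) + (N - (a + q)) := by omega
  rw [e, orb_add]
  exact St_orb hR0 hR h1 (fun i => tau_small hε ht _) _

/-- The estimate for one critical point and one starting time. -/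
theorem one_start (hε : 0 < ε) (hν : Law ε ν) (hR0 : 0 ≤ R) (hR : EscR P ε R) {m : ℕ}
    {θ : ENNReal} (hθ : θ ≤ 1)
    (hdec : ∀ q z, (A P ν)^[q] (f₀ P ε R) z ≤ θ ^ (q / m)) (hL : 0 < L) {n k : ℕ} (hk : k < n + L)
    (c : ℂ) :
    (Measure.pi fun _ : Fin L => ν) {t | (∀ i, ‖t i‖ < ε) ∧
      orb P (fun i => tau n t (k + i)) (n + L) c ∉ St P ε R} ≤ θ ^ (L / 2 / m) := by
  have hpow : ∀ q, L / 2 ≤ q → θ ^ (q / m) ≤ θ ^ (L / 2 / m) := by
    intro q hq
    exact pow_le_pow_right_of_le_one' hθ (Nat.div_le_div_right hq)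
  by_cases hkn : k ≤ n
  · -- the whole noise is ahead
    refine (window hε hν hR0 hR hdec (a := n - k) (q := L) (by omega) c
      (fun i => if h : i < L then ⟨i, h⟩ else ⟨0, hL⟩) ?_ ?_ ?_).trans (hpow L (Nat.div_le_self _ _))
    · intro i hi j hj hij
      rw [dif_pos hi, dif_pos hj] at hij
      simpa using hij
    · intro t i hi
      rw [dif_pos hi]
      apply tau_val
      rw [Nat.mod_eq_of_lt (by omega)]
      omega
    · intro i hi t s j hj
      rw [tau_zero _ (by rw [Nat.mod_eq_of_lt (by omega)]; omega),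
        tau_zero _ (by rw [Nat.mod_eq_of_lt (by omega)]; omega)]
  · obtain ⟨j, rfl⟩ : ∃ j, k = n + j := ⟨k - n, by omega⟩
    by_cases hj2 : L / 2 ≤ L - j
    · -- the first part of the noise
      refine (window hε hν hR0 hR hdec (a := 0) (q := L - j) (by omega) c
        (fun i => if h : j + i < L then ⟨j + i, h⟩ else ⟨0, hL⟩) ?_ ?_ ?_).trans (hpow _ hj2)
      · intro i hi i' hi' hij
        rw [dif_pos (by omega), dif_pos (by omega)] at hij
        have := congrArg Fin.val hij
        simp only at this
        omega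
      · intro t i hi
        rw [dif_pos (by omega)]
        apply tau_val
        rw [Nat.mod_eq_of_lt (by omega)]
        omega
      · intro i hi t s j' hj'
        omega
    · -- the second part of the noise
      refine (window hε hν hR0 hR hdec (a := (L - j) + n) (q := j) (by omega) c
        (fun i => if h : i < L then ⟨i, h⟩ else ⟨0, hL⟩) ?_ ?_ ?_).trans (hpow _ (by omega))
      · intro i hi i' hi' hij
        rw [dif_pos (by omega), dif_pos (by omega)] at hij
        have := congrArg Fin.val hij
        simpa using this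
      · intro t i hi
        rw [dif_pos (by omega : i < L)]
        apply tau_val
        have e : n + j + (L - j + n + i) = (n + L) + (n + i) := by omega
        rw [e, Nat.add_mod_left, Nat.mod_eq_of_lt (by omega)]
      · intro i hi t s j' hj'
        rw [dif_pos (by omega : i < L)]
        by_cases hj3 : j' < L - j
        · have hj4 : j + j' < L := by omega
          rw [tau_val _ hj4 (by rw [Nat.mod_eq_of_lt (by omega)]; omega),
            tau_val _ hj4 (by rw [Nat.mod_eq_of_lt (by omega)]; omega)]
          apply Function.update_of_ne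
          intro h
          have := congrArg Fin.val h
          simp only at this
          omega
        · have e : n + j + j' = (n + L) + (j' - (L - j)) := by omega
          rw [tau_zero _ (by rw [e, Nat.add_mod_left, Nat.mod_eq_of_lt (by omega)]; omega),
            tau_zero _ (by rw [e, Nat.add_mod_left, Nat.mod_eq_of_lt (by omega)]; omega)]

end Pool.Agent.J4.H85.NC
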