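import Mathlib
import Pool.Agent.J4.H85.NC4

/-! The union bound and the final estimates. -/

set_option autoImplicit false

open Filter Topology Set Metric Polynomial MeasureTheory

namespace Pool.Agent.J4.H85.NC

/-- Hyperbolicity. -/
def Hyp (T : ℂ[X]) : Prop := ∀ z : ℂ, (derivative T).eval z = 0 →
  Pool.Agent.J4.H85.AD.Esc T z ∨ Att (fun w : ℂ => T.eval w) z

variable {P : ℂ[X]} {ε R : ℝ} {ν : Measure ℂ} {L : ℕ}

theorem ae_small (hν : Law ε ν) : ∀ᵐ t ∂(Measure.pi fun _ : Fin L => ν), ∀ i, ‖t i‖ < ε := by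
  have := hν.prob
  rw [ae_all_iff]
  intro i
  have h1 : ∀ᵐ s ∂ν, s ∈ ball (0 : ℂ) ε := by
    rw [ae_iff]
    exact hν.supp
  have h2 := (Measure.quasiMeasurePreserving_eval (fun _ : Fin L => ν) i).ae h1
  filter_upwards [h2] with t ht
  exact mem_ball_zero_iff.1 ht

theorem bad_le (hP : 2 ≤ P.natDegree) (hε : 0 < ε) (hν : Law ε ν) (hR1 : 1 ≤ R) (hR : EscR P ε R)
    {m : ℕ} {θ : ENNReal} (hθ : θ ≤ 1) (hdec : ∀ q z, (A P ν)^[q] (f₀ P ε R) z ≤ θ ^ (q / m))
    (hL : 0 < L) (n : ℕ) :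
    (Measure.pi fun _ : Fin L => ν) {t | ¬ Hyp (comps P (tau n t) (n + L))} ≤
      ((n + L : ℕ) : ENNReal) * (P.natDegree * θ ^ (L / 2 / m)) := by
  classical
  have := hν.prob
  set μ := Measure.pi fun _ : Fin L => ν with hμ
  have hP0 : derivative P ≠ 0 := by
    intro h0
    have := Polynomial.derivative_eq_zero.1 h0
    omega
  set B : ℕ → ℂ → Set (Fin L → ℂ) := fun k c => {t | (∀ i, ‖t i‖ < ε) ∧
      orb P (fun i => tau n t (k + i)) (n + L) c ∉ St P ε R} with hB
  have hsub : {t : Fin L → ℂ | ¬ Hyp (comps P (tau n t) (n + L))} ⊆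
      {t | ¬ ∀ i, ‖t i‖ < ε} ∪
        ⋃ k ∈ Finset.range (n + L), ⋃ c ∈ (derivative P).roots.toFinset, B k c := by
    intro t ht
    by_cases hs : ∀ i, ‖t i‖ < ε
    · right
      by_contra hcon
      apply ht
      intro z hz
      refine criterion hε hR1 hR (tau_small hε hs) (by omega) (tau_per n t) ?_ hz
      intro k hk c hc
      by_contra hcon2
      apply hcon
      rw [mem_iUnion₂]
      refine ⟨k, Finset.mem_range.2 hk, ?_⟩
      rw [mem_iUnion₂]
      exact ⟨c, Multiset.mem_toFinset.2 ((mem_roots hP0).2 hc), hs, hcon2⟩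
    · exact Or.inl hs
  refine (measure_mono hsub).trans ((measure_union_le _ _).trans ?_)
  have h0 : μ {t | ¬ ∀ i, ‖t i‖ < ε} = 0 := by
    have := ae_small (L := L) hν
    rwa [ae_iff] at this
  rw [h0, zero_add]
  refine (measure_biUnion_finset_le _ _).trans ?_
  have h1 : ∀ k ∈ Finset.range (n + L), μ (⋃ c ∈ (derivative P).roots.toFinset, B k c) ≤
      P.natDegree * θ ^ (L / 2 / m) := by
    intro k hk
    refine (measure_biUnion_finset_le _ _).trans ?_
    refine (Finset.sum_le_sum fun c _ =>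
      one_start hε hν (by linarith) hR hθ hdec hL (Finset.mem_range.1 hk) c).trans ?_
    rw [Finset.sum_const, nsmul_eq_mul]
    gcongr
    refine (Multiset.toFinset_card_le _).trans ((card_roots' _).trans ?_)
    rw [natDegree_derivative]
    omega
  refine (Finset.sum_le_sum h1).trans ?_
  rw [Finset.sum_const, nsmul_eq_mul, Finset.card_range]

theorem pow_rate {θ : ENNReal} (hθ : θ < 1) {m : ℕ} (hm : 0 < m) : ∃ c : ℝ, 0 < c ∧ ∀ L : ℕ,
    θ ^ (L / 2 / m) ≤ ENNReal.ofReal (2 * Real.exp (-(c * L))) := by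
  set x : ℝ := max θ.toReal (1 / 2) with hx
  have hθt : θ ≠ ⊤ := (hθ.trans ENNReal.one_lt_top).ne
  have hx1 : x < 1 := by
    apply max_lt
    · rw [← ENNReal.toReal_one]
      exact (ENNReal.toReal_lt_toReal hθt ENNReal.one_ne_top).2 hθ
    · norm_num
  have hx2 : 1 / 2 ≤ x := le_max_right _ _
  have hx0 : 0 < x := by linarith
  have hθx : θ ≤ ENNReal.ofReal x := by
    rw [← ENNReal.ofReal_toReal hθt]
    exact ENNReal.ofReal_le_ofReal (le_max_left _ _)
  have hlog : Real.log x < 0 := Real.log_neg hx0 hx1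
  have hmr : (0 : ℝ) < 2 * m := by positivity
  refine ⟨-Real.log x / (2 * m), by apply div_pos <;> linarith, fun L => ?_⟩
  have h1 : θ ^ (L / 2 / m) ≤ ENNReal.ofReal (x ^ (L / 2 / m)) := by
    rw [ENNReal.ofReal_pow hx0.le]
    gcongr
  refine h1.trans (ENNReal.ofReal_le_ofReal ?_)
  rw [Nat.div_div_eq_div_mul]
  have h2 : (L : ℝ) / (2 * m) - 1 ≤ ((L / (2 * m) : ℕ) : ℝ) := by
    have h3 := Nat.lt_div_mul_add (a := L) (b := 2 * m) (by omega)
    have h4 : (L : ℝ) < ((L / (2 * m) : ℕ) : ℝ) * (2 * m) + 2 * m := by exact_mod_cast h3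
    rw [sub_le_iff_le_add, div_le_iff₀ hmr]
    linarith
  have h3 : x ^ (L / (2 * m)) ≤ x ^ ((L : ℝ) / (2 * m) - 1) := by
    rw [← Real.rpow_natCast]
    exact Real.rpow_le_rpow_of_exponent_ge hx0 hx1.le h2
  refine h3.trans ?_
  rw [Real.rpow_sub hx0, Real.rpow_one, Real.rpow_def_of_pos hx0]
  have e : -(-Real.log x / (2 * m) * L) = Real.log x * ((L : ℝ) / (2 * m)) := by ring
  rw [e, div_le_iff₀ hx0]
  have h5 := Real.exp_pos (Real.log x * ((L : ℝ) / (2 * m)))
  nlinarith

/-- The main estimate. -/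
theorem main (hP : 2 ≤ P.natDegree) (hε : 0 < ε) (hν : Law ε ν) : ∃ C c : ℝ, 1 ≤ C ∧ 0 < c ∧
    ∀ n L : ℕ, (Measure.pi fun _ : Fin L => ν) {t | ¬ Hyp (comps P (tau n t) (n + L))} ≤
      ENNReal.ofReal (C * (n + L + 1) * Real.exp (-(c * L))) := by
  have := hν.prob
  obtain ⟨R, hR1, hR⟩ := exists_EscR hP ε
  obtain ⟨m, θ, hm, hθ, hdec⟩ := decay (P := P) hε hν (by linarith) hR
  obtain ⟨c, hc, hrate⟩ := pow_rate hθ hm
  refine ⟨2 * P.natDegree + 1, c, ?_, hc, fun n L => ?_⟩
  · have : (0 : ℝ) ≤ P.natDegree := Nat.cast_nonneg _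
    linarith
  have hd0 : (0 : ℝ) ≤ P.natDegree := Nat.cast_nonneg _
  have hn0 : (0 : ℝ) ≤ n := Nat.cast_nonneg _
  have hL0 : (0 : ℝ) ≤ L := Nat.cast_nonneg _
  rcases Nat.eq_zero_or_pos L with rfl | hL
  · have h1 : (Measure.pi fun _ : Fin 0 => ν) {t | ¬ Hyp (comps P (tau n t) (n + 0))} ≤ 1 := prob_le_one
    refine h1.trans ?_
    rw [← ENNReal.ofReal_one]
    apply ENNReal.ofReal_le_ofReal
    simp only [Nat.cast_zero, mul_zero, neg_zero, Real.exp_zero, mul_one, add_zero]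
    nlinarith
  · refine (bad_le hP hε hν hR1 hR hθ.le hdec hL n).trans ?_
    have h1 := hrate L
    calc ((n + L : ℕ) : ENNReal) * (P.natDegree * θ ^ (L / 2 / m))
        ≤ ((n + L : ℕ) : ENNReal) * (P.natDegree * ENNReal.ofReal (2 * Real.exp (-(c * L)))) := by
          gcongr
      _ = ENNReal.ofReal (((n + L : ℕ) : ℝ) * (P.natDegree * (2 * Real.exp (-(c * L))))) := by
          rw [ENNReal.ofReal_mul (p := ((n + L : ℕ) : ℝ)) (Nat.cast_nonneg _),
            ENNReal.ofReal_mul (p := (P.natDegree : ℝ)) (Nat.cast_nonneg _),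
            ENNReal.ofReal_natCast, ENNReal.ofReal_natCast]
      _ ≤ _ := by
          apply ENNReal.ofReal_le_ofReal
          have h2 := Real.exp_pos (-(c * (L : ℝ)))
          push_cast
          have e : ((n : ℝ) + L) * (P.natDegree * (2 * Real.exp (-(c * L)))) =
              (2 * P.natDegree) * (n + L) * Real.exp (-(c * L)) := by ring
          rw [e]
          apply mul_le_mul_of_nonneg_right _ h2.le
          exact mul_le_mul (by linarith) (by linarith) (by linarith) (by linarith)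

/-- The uniform distribution on the disc is an admissible law. -/
theorem law_uniform (hε : 0 < ε) :
    Law ε ((volume (ball (0 : ℂ) ε))⁻¹ • volume.restrict (ball (0 : ℂ) ε)) := by
  have h0 : volume (ball (0 : ℂ) ε) ≠ 0 := (measure_ball_pos volume _ hε).ne'
  have ht : volume (ball (0 : ℂ) ε) ≠ ⊤ := measure_ball_lt_top.ne
  refine ⟨⟨?_⟩, ?_, ?_⟩
  · rw [Measure.smul_apply, smul_eq_mul, Measure.restrict_apply MeasurableSet.univ, univ_inter,
      ENNReal.inv_mul_cancel h0 ht]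
  · simp [Measure.restrict_apply measurableSet_ball.compl]
  · intro x hx r hr
    simp only [Measure.smul_apply, smul_eq_mul, Measure.restrict_apply measurableSet_ball]
    apply mul_ne_zero (ENNReal.inv_ne_zero.2 ht)
    have hopen : IsOpen (ball x r ∩ ball (0 : ℂ) ε) := isOpen_ball.inter isOpen_ball
    exact (hopen.measure_pos volume ⟨x, mem_ball_self hr, hx⟩).ne'

/-- Existence with few noisy factors. -/
theorem few (hP : 2 ≤ P.natDegree) (hε : 0 < ε) : ∃ K : ℝ, 0 < K ∧ ∀ n L : ℕ,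
    K * (1 + Real.log (n + 1)) ≤ L →
      ∃ t : Fin L → ℂ, (∀ i, ‖t i‖ < ε) ∧ Hyp (comps P (tau n t) (n + L)) := by
  have hν := law_uniform hε
  have := hν.prob
  obtain ⟨C, c, hC, hc, h⟩ := main hP hε hν
  -- choose K
  obtain ⟨K, hK⟩ : ∃ K : ℝ, K = max (2 / c) (4 / c * (Real.log (C * (1 + 4 / c)) + 1)) := ⟨_, rfl⟩
  have hK1 : 2 / c ≤ K := by rw [hK]; exact le_max_left _ _
  have hK2 : 4 / c * (Real.log (C * (1 + 4 / c)) + 1) ≤ K := by rw [hK]; exact le_max_right _ _
  have hK0 : 0 < K := lt_of_lt_of_le (by positivity) hK1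
  refine ⟨K, hK0, fun n L hL => ?_⟩
  have hn0 : (0 : ℝ) ≤ n := Nat.cast_nonneg _
  have hlog0 : 0 ≤ Real.log (n + 1) := Real.log_nonneg (by linarith)
  have hLK : K ≤ L := by nlinarith
  have hL0 : (0 : ℝ) ≤ L := Nat.cast_nonneg _
  -- the bound is smaller than one
  have hlt : C * (n + L + 1) * Real.exp (-(c * L)) < 1 := by
    have h1 : (n : ℝ) + 1 ≤ Real.exp (c / 2 * L) := by
      have h2 : Real.log (n + 1) ≤ c / 2 * L := by
        have h3 : K * Real.log (n + 1) ≤ L := by nlinarith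
        have h4 : 2 / c * Real.log (n + 1) ≤ L :=
          (mul_le_mul_of_nonneg_right hK1 hlog0).trans h3
        rw [div_mul_eq_mul_div, div_le_iff₀ hc] at h4
        linarith
      rw [← Real.log_le_iff_le_exp (by linarith)]
      exact h2
    have h2 : (L : ℝ) + 1 ≤ (1 + 4 / c) * Real.exp (c / 4 * L) := by
      have h3 : c / 4 * L + 1 ≤ Real.exp (c / 4 * L) := Real.add_one_le_exp _
      have h4 : 1 ≤ Real.exp (c / 4 * L) := Real.one_le_exp (by positivity)
      have h5 : 4 / c * (c / 4 * L + 1) ≤ 4 / c * Real.exp (c / 4 * L) :=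
        mul_le_mul_of_nonneg_left h3 (by positivity)
      have h6 : 4 / c * (c / 4 * L + 1) = L + 4 / c := by field_simp
      rw [h6] at h5
      have h7 : (0 : ℝ) < 4 / c := by positivity
      linarith
    have h3 : (n : ℝ) + L + 1 ≤ (n + 1) * (L + 1) := by nlinarith
    have h4 : (n : ℝ) + L + 1 ≤ Real.exp (c / 2 * L) * ((1 + 4 / c) * Real.exp (c / 4 * L)) :=
      h3.trans (mul_le_mul h1 h2 (by linarith) (Real.exp_pos _).le)
    have h5 : C * (n + L + 1) * Real.exp (-(c * L)) ≤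
        C * (1 + 4 / c) * Real.exp (-(c / 4 * L)) := by
      calc C * (n + L + 1) * Real.exp (-(c * L))
          ≤ C * (Real.exp (c / 2 * L) * ((1 + 4 / c) * Real.exp (c / 4 * L))) *
              Real.exp (-(c * L)) := by gcongr
        _ = C * (1 + 4 / c) * (Real.exp (c / 2 * L) * Real.exp (c / 4 * L) *
              Real.exp (-(c * L))) := by ring
        _ = C * (1 + 4 / c) * Real.exp (-(c / 4 * L)) := by
            rw [← Real.exp_add, ← Real.exp_add]
            congr 2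
            ring
    refine h5.trans_lt ?_
    have hD : 0 < C * (1 + 4 / c) := by positivity
    have h6 : Real.log (C * (1 + 4 / c)) < c / 4 * L := by
      have h7 : 4 / c * (Real.log (C * (1 + 4 / c)) + 1) ≤ L := hK2.trans hLK
      rw [div_mul_eq_mul_div, div_le_iff₀ hc] at h7
      linarith
    have h8 : C * (1 + 4 / c) < Real.exp (c / 4 * L) := (Real.log_lt_iff_lt_exp hD).1 h6
    rw [Real.exp_neg, ← div_eq_mul_inv, div_lt_one (Real.exp_pos _)]
    exact h8
  by_contra hcon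
  push Not at hcon
  have hae : ∀ᵐ t ∂(Measure.pi fun _ : Fin L =>
      ((volume (ball (0 : ℂ) ε))⁻¹ • volume.restrict (ball (0 : ℂ) ε))),
      t ∈ {t : Fin L → ℂ | ¬ Hyp (comps P (tau n t) (n + L))} := by
    filter_upwards [ae_small (L := L) hν] with t ht
    exact hcon t ht
  have h1 := h n L
  have h0 : (Measure.pi fun _ : Fin L =>
      ((volume (ball (0 : ℂ) ε))⁻¹ • volume.restrict (ball (0 : ℂ) ε))) univ ≤
      (Measure.pi fun _ : Fin L =>
      ((volume (ball (0 : ℂ) ε))⁻¹ • volume.restrict (ball (0 : ℂ) ε)))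
        {t : Fin L → ℂ | ¬ Hyp (comps P (tau n t) (n + L))} := by
    apply measure_mono_ae
    filter_upwards [hae] with t ht _
    exact ht
  rw [measure_univ] at h0
  have h2 : ENNReal.ofReal (C * (n + L + 1) * Real.exp (-(c * L))) < 1 := by
    rw [← ENNReal.ofReal_one]
    exact (ENNReal.ofReal_lt_ofReal_iff one_pos).2 hlt
  exact absurd (h0.trans h1) (not_le.2 h2)

end Pool.Agent.J4.H85.NC
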