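import Pool.Agent.J4.H85.TS17
set_option autoImplicit false

/-! The square function version of the tensor product estimate: bounded finite families. -/

namespace Pool.Agent.J4.H85.TS

open MeasureTheory Complex Set Filter Topology
open scoped ENNReal NNReal RealInnerProductSpace ComplexConjugate
open Pool.Agent.R412.RT (E ee ee_norm ee_add ee_conj ee_meas ee_cont planch)

variable {ι : Type}

theorem Adm.fixq {K : Finset ι} {g : ι → ℝ → ℂ} {A : Set ℝ} (hA : Adm K g A) (q : ℝ) (hq2 : 2 ≤ q)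
    (hq4 : q ≤ 4) (t : ℝ) :
    ∫⁻ α, (∑ k ∈ K, ‖ft (chirp t (g k)) α‖ₑ ^ 2) ^ (q / 2) ≤
      volume A ^ ((4 - q) / 2) * AA K g t ^ ((q - 2) / 2) := by
  have hmf : Measurable fun α => (∑ k ∈ K, ‖ft (chirp t (g k)) α‖ₑ ^ 2) ^ (1 / 2 : ℝ) := by
    refine Measurable.pow_const ?_ _
    refine Finset.measurable_fun_sum _ fun k hk => ?_
    exact (ft_meas _ (chirp_meas t _ (hA.meas k hk))).enorm.pow_const 2
  have h2 := interp volume _ hmf q hq2 hq4
  have e1 : ∀ α, ((∑ k ∈ K, ‖ft (chirp t (g k)) α‖ₑ ^ 2) ^ (1 / 2 : ℝ)) ^ q =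
      (∑ k ∈ K, ‖ft (chirp t (g k)) α‖ₑ ^ 2) ^ (q / 2) := by
    intro α
    rw [← ENNReal.rpow_mul]
    congr 1
    ring
  have e2 : ∀ α, ((∑ k ∈ K, ‖ft (chirp t (g k)) α‖ₑ ^ 2) ^ (1 / 2 : ℝ)) ^ 2 =
      (∑ k ∈ K, ‖ft (chirp t (g k)) α‖ₑ ^ 2) := by
    intro α
    rw [← ENNReal.rpow_natCast, ← ENNReal.rpow_mul]
    norm_num
  have e3 : ∀ α, ((∑ k ∈ K, ‖ft (chirp t (g k)) α‖ₑ ^ 2) ^ (1 / 2 : ℝ)) ^ 4 =
      (∑ k ∈ K, ‖ft (chirp t (g k)) α‖ₑ ^ 2) ^ 2 := by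
    intro α
    rw [← ENNReal.rpow_natCast, ← ENNReal.rpow_mul, ← ENNReal.rpow_natCast]
    norm_num
  simp_rw [e1, e2, e3] at h2
  refine h2.trans ?_
  unfold AA
  gcongr
  exact hA.two t

theorem Adm.AA_meas {K : Finset ι} {g : ι → ℝ → ℂ} {A : Set ℝ} (hA : Adm K g A) :
    Measurable (AA K g) := by
  unfold AA
  refine Measurable.lintegral_prod_right' (f := fun p : ℝ × ℝ =>
    (∑ i ∈ K, ‖ft (chirp p.1 (g i)) p.2‖ₑ ^ 2) ^ 2) ?_
  refine Measurable.pow_const ?_ 2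
  refine Finset.measurable_fun_sum _ fun k hk => ?_
  refine Measurable.pow_const ?_ 2
  exact (ftchirp_meas (g k) (hA.meas k hk)).enorm

/-- the extension of `∑ g_i(x) h_i(u)` -/
noncomputable def VV (K : Finset ι) (l : ℝ) (g h : ι → ℝ → ℂ) (p : ℝ × ℝ × ℝ) : ℂ :=
  ∑ i ∈ K, ft (chirp p.1 (g i)) p.2.1 * ft (chirp (l * p.1) (h i)) p.2.2

theorem VV_meas (K : Finset ι) (l : ℝ) (g h : ι → ℝ → ℂ) (hg : ∀ k ∈ K, Measurable (g k))
    (hh : ∀ k ∈ K, Measurable (h k)) : Measurable (VV K l g h) := by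
  unfold VV
  refine Finset.measurable_fun_sum _ fun k hk => ?_
  refine Measurable.mul ?_ ?_
  · exact Measurable.comp (g := fun p : ℝ × ℝ => ft (chirp p.1 (g k)) p.2)
      (f := fun p : ℝ × ℝ × ℝ => (p.1, p.2.1)) (ftchirp_meas (g k) (hg k hk)) (by fun_prop)
  · exact Measurable.comp (g := fun p : ℝ × ℝ => ft (chirp p.1 (h k)) p.2)
      (f := fun p : ℝ × ℝ × ℝ => (l * p.1, p.2.2)) (ftchirp_meas (h k) (hh k hk)) (by fun_prop)

theorem cs_enorm (K : Finset ι) (x y : ι → ℂ) (q : ℝ) (hq : 0 ≤ q) :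
    ‖∑ i ∈ K, x i * y i‖ₑ ^ q ≤
      (∑ i ∈ K, ‖x i‖ₑ ^ 2) ^ (q / 2) * (∑ i ∈ K, ‖y i‖ₑ ^ 2) ^ (q / 2) := by
  have h1 : ‖∑ i ∈ K, x i * y i‖ₑ ≤
      (∑ i ∈ K, ‖x i‖ₑ ^ 2) ^ (1 / 2 : ℝ) * (∑ i ∈ K, ‖y i‖ₑ ^ 2) ^ (1 / 2 : ℝ) := by
    have h2 := ENNReal.inner_le_Lp_mul_Lq K (fun i => ‖x i‖ₑ) (fun i => ‖y i‖ₑ)
      (Real.HolderConjugate.two_two)
    have h3 : ‖∑ i ∈ K, x i * y i‖ₑ ≤ ∑ i ∈ K, ‖x i‖ₑ * ‖y i‖ₑ := by
      refine (enorm_sum_le _ _).trans_eq ?_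
      refine Finset.sum_congr rfl fun i _ => ?_
      rw [enorm_mul]
    refine h3.trans (h2.trans (le_of_eq ?_))
    congr 2 <;> simp
  calc ‖∑ i ∈ K, x i * y i‖ₑ ^ q ≤ ((∑ i ∈ K, ‖x i‖ₑ ^ 2) ^ (1 / 2 : ℝ) *
        (∑ i ∈ K, ‖y i‖ₑ ^ 2) ^ (1 / 2 : ℝ)) ^ q := by gcongr
    _ = _ := by
        rw [ENNReal.mul_rpow_of_nonneg _ _ hq, ← ENNReal.rpow_mul, ← ENNReal.rpow_mul]
        congr 2 <;> ring

/-- bounded families -/
theorem c0 (q l : ℝ) (hq3 : 3 < q) (hq4 : q < 4) (hl : l ≠ 0) :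
    ∃ (C : ℝ≥0∞), C ≠ ∞ ∧ ∀ {ι : Type} (K : Finset ι) (g h : ι → ℝ → ℂ) (A B : Set ℝ),
      Adm K g A → Adm K h B →
      eLpNorm (VV K l g h) (ENNReal.ofReal q) volume ≤
        C * (volume A ^ ((q - 1) / (2 * q)) * volume B ^ ((q - 1) / (2 * q))) := by
  have hq0 : 0 < q := by linarith
  set s : ℝ := q - 2 with hs
  have hs1 : 1 < s := by rw [hs]; linarith
  have hs0 : 0 < s := by linarith
  obtain ⟨C2, hC2, hm⟩ := main1 s hs1
  set D : ℝ≥0∞ := C2 * ENNReal.ofReal |l|⁻¹ ^ (1 / 2 : ℝ) with hD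
  have hDt : D ≠ ∞ := ENNReal.mul_ne_top hC2
    (ENNReal.rpow_lt_top_of_nonneg (by norm_num) ENNReal.ofReal_ne_top).ne
  refine ⟨D ^ (1 / q), (ENNReal.rpow_lt_top_of_nonneg (by positivity) hDt).ne, ?_⟩
  intro ι K g h A B hA hB
  have hAt : volume A ≠ ∞ := (lt_of_le_of_lt hA.vol (by simp)).ne
  have hBt : volume B ≠ ∞ := (lt_of_le_of_lt hB.vol (by simp)).ne
  have hVm := VV_meas K l g h hA.meas hB.meas
  have key : ∫⁻ p, ‖VV K l g h p‖ₑ ^ q ≤
      D * (volume A ^ ((q - 1) / 2) * volume B ^ ((q - 1) / 2)) := by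
    rw [Measure.volume_eq_prod, lintegral_prod _ (hVm.enorm.pow_const q).aemeasurable]
    have h1 : ∀ t : ℝ, ∫⁻ z : ℝ × ℝ, ‖VV K l g h (t, z)‖ₑ ^ q ≤
        (volume A ^ ((4 - q) / 2) * volume B ^ ((4 - q) / 2)) *
          (AA K g t ^ (s / 2) * AA K h (l * t) ^ (s / 2)) := by
      intro t
      have hVt : Measurable fun z : ℝ × ℝ => ‖VV K l g h (t, z)‖ₑ ^ q :=
        (Measurable.comp (g := VV K l g h) (f := fun z : ℝ × ℝ => (t, z)) hVm
          (by fun_prop)).enorm.pow_const q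
      have hP : Measurable fun α => (∑ k ∈ K, ‖ft (chirp t (g k)) α‖ₑ ^ 2) ^ (q / 2) := by
        refine Measurable.pow_const ?_ _
        refine Finset.measurable_fun_sum _ fun k hk => ?_
        exact (ft_meas _ (chirp_meas t _ (hA.meas k hk))).enorm.pow_const 2
      have hQ : Measurable fun β => (∑ k ∈ K, ‖ft (chirp (l * t) (h k)) β‖ₑ ^ 2) ^ (q / 2) := by
        refine Measurable.pow_const ?_ _
        refine Finset.measurable_fun_sum _ fun k hk => ?_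
        exact (ft_meas _ (chirp_meas (l * t) _ (hB.meas k hk))).enorm.pow_const 2
      rw [Measure.volume_eq_prod, lintegral_prod _ hVt.aemeasurable]
      calc ∫⁻ α, ∫⁻ β, ‖VV K l g h (t, (α, β))‖ₑ ^ q
          ≤ ∫⁻ α, ∫⁻ β, (∑ k ∈ K, ‖ft (chirp t (g k)) α‖ₑ ^ 2) ^ (q / 2) *
            (∑ k ∈ K, ‖ft (chirp (l * t) (h k)) β‖ₑ ^ 2) ^ (q / 2) := by
            refine lintegral_mono fun α => lintegral_mono fun β => ?_
            exact cs_enorm K _ _ q hq0.le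
        _ = (∫⁻ α, (∑ k ∈ K, ‖ft (chirp t (g k)) α‖ₑ ^ 2) ^ (q / 2)) *
            ∫⁻ β, (∑ k ∈ K, ‖ft (chirp (l * t) (h k)) β‖ₑ ^ 2) ^ (q / 2) := by
            rw [← lintegral_mul_const _ hP]
            refine lintegral_congr fun α => ?_
            rw [lintegral_const_mul _ hQ]
        _ ≤ (volume A ^ ((4 - q) / 2) * AA K g t ^ ((q - 2) / 2)) *
            (volume B ^ ((4 - q) / 2) * AA K h (l * t) ^ ((q - 2) / 2)) := by
            gcongr
            · exact hA.fixq q (by linarith) hq4.le t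
            · exact hB.fixq q (by linarith) hq4.le (l * t)
        _ = _ := by rw [hs]; ring
    have hAm := hA.AA_meas
    have hBm := hB.AA_meas
    have hBlm : Measurable fun t => AA K h (l * t) := hBm.comp (measurable_const_mul l)
    have hcs : ∫⁻ t, AA K g t ^ (s / 2) * AA K h (l * t) ^ (s / 2) ≤
        (∫⁻ t, AA K g t ^ s) ^ (1 / 2 : ℝ) * (∫⁻ t, AA K h (l * t) ^ s) ^ (1 / 2 : ℝ) := by
      have h4 := ENNReal.lintegral_mul_norm_pow_le (μ := (volume : Measure ℝ))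
        (f := fun t => AA K g t ^ s) (g := fun t => AA K h (l * t) ^ s)
        (hAm.pow_const s).aemeasurable (hBlm.pow_const s).aemeasurable
        (p := 1 / 2) (q := 1 / 2) (by norm_num) (by norm_num) (by norm_num)
      refine le_trans (le_of_eq ?_) h4
      refine lintegral_congr fun t => ?_
      rw [← ENNReal.rpow_mul, ← ENNReal.rpow_mul]
      congr 2 <;> ring
    have hsc : ∫⁻ t, AA K h (l * t) ^ s = ENNReal.ofReal |l|⁻¹ * ∫⁻ t, AA K h t ^ s :=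
      scale l hl (fun t => AA K h t ^ s) (hBm.pow_const s)
    calc ∫⁻ t : ℝ, ∫⁻ z : ℝ × ℝ, ‖VV K l g h (t, z)‖ₑ ^ q
        ≤ ∫⁻ t : ℝ, (volume A ^ ((4 - q) / 2) * volume B ^ ((4 - q) / 2)) *
          (AA K g t ^ (s / 2) * AA K h (l * t) ^ (s / 2)) := lintegral_mono h1
      _ = (volume A ^ ((4 - q) / 2) * volume B ^ ((4 - q) / 2)) *
          ∫⁻ t : ℝ, (AA K g t ^ (s / 2) * AA K h (l * t) ^ (s / 2)) := by
          rw [lintegral_const_mul' _ _ (ENNReal.mul_ne_top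
            (ENNReal.rpow_lt_top_of_nonneg (by linarith) hAt).ne
            (ENNReal.rpow_lt_top_of_nonneg (by linarith) hBt).ne)]
      _ ≤ (volume A ^ ((4 - q) / 2) * volume B ^ ((4 - q) / 2)) *
          ((C2 * volume A ^ (2 * s - 1)) ^ (1 / 2 : ℝ) *
            (ENNReal.ofReal |l|⁻¹ * (C2 * volume B ^ (2 * s - 1))) ^ (1 / 2 : ℝ)) := by
          gcongr
          refine hcs.trans ?_
          rw [hsc]
          gcongr
          · exact hm K g A hA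
          · exact hm K h B hB
      _ = (C2 ^ (1 / 2 : ℝ) * C2 ^ (1 / 2 : ℝ)) * ENNReal.ofReal |l|⁻¹ ^ (1 / 2 : ℝ) *
          ((volume A ^ ((4 - q) / 2) * volume A ^ ((2 * s - 1) * (1 / 2))) *
          (volume B ^ ((4 - q) / 2) * volume B ^ ((2 * s - 1) * (1 / 2)))) := by
          rw [ENNReal.mul_rpow_of_nonneg _ _ (by norm_num),
            ENNReal.mul_rpow_of_nonneg _ _ (by norm_num),
            ENNReal.mul_rpow_of_nonneg _ _ (by norm_num), ← ENNReal.rpow_mul, ← ENNReal.rpow_mul]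
          ring
      _ = _ := by
          rw [← ENNReal.rpow_add_of_nonneg _ _ (by norm_num) (by norm_num),
            ← ENNReal.rpow_add_of_nonneg _ _ (by linarith) (by nlinarith),
            ← ENNReal.rpow_add_of_nonneg _ _ (by linarith) (by nlinarith),
            add_halves, ENNReal.rpow_one, hD]
          have e1 : (4 - q) / 2 + (2 * s - 1) * (1 / 2) = (q - 1) / 2 := by rw [hs]; ring
          rw [e1]
  rw [eLpNorm_eq_lintegral_rpow_enorm_toReal (by simp [hq0]) ENNReal.ofReal_ne_top,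
    ENNReal.toReal_ofReal hq0.le]
  calc (∫⁻ p, ‖VV K l g h p‖ₑ ^ q) ^ (1 / q)
      ≤ (D * (volume A ^ ((q - 1) / 2) * volume B ^ ((q - 1) / 2))) ^ (1 / q) := by gcongr
    _ = _ := by
        rw [ENNReal.mul_rpow_of_nonneg D _ (by positivity),
          ENNReal.mul_rpow_of_nonneg (volume A ^ ((q - 1) / 2)) _ (by positivity),
          ← ENNReal.rpow_mul (volume A), ← ENNReal.rpow_mul (volume B)]
        have e1 : (q - 1) / 2 * (1 / q) = (q - 1) / (2 * q) := by field_simp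
        rw [e1]

end Pool.Agent.J4.H85.TS
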