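import Pool.Agent.J4.H85.TA1
set_option autoImplicit false

/-! The square function version of the tensor product estimate: finite families. -/

namespace Pool.Agent.J4.H85.TS

open MeasureTheory Complex Set Filter Topology
open scoped ENNReal NNReal RealInnerProductSpace ComplexConjugate
open Pool.Agent.R412.RT (E ee ee_norm ee_add ee_conj ee_meas ee_cont planch)

theorem dyadic_sum (q η : ℝ) (hq : 0 < q) (hη : 0 < η) :
    ∃ C : ℝ≥0∞, C ≠ ∞ ∧ ∀ (N : ℝ → ℝ), Measurable N → ∀ Y : ℝ, 0 < Y →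
      ∫⁻ x, ENNReal.ofReal (N x) ^ (q / 2) ≤ ENNReal.ofReal Y ^ q → ∀ n : ℕ,
      ∑ j ∈ Finset.range n, ENNReal.ofReal (2 ^ j * Y) * volume (SS N Y j) ^ (1 / q + η) ≤
        C * ENNReal.ofReal Y := by
  set r : ℝ≥0∞ := ENNReal.ofReal ((2 : ℝ) ^ (-(q * η))) with hr
  have hr1 : r < 1 := by
    rw [hr, ENNReal.ofReal_lt_one]
    exact Real.rpow_lt_one_of_one_lt_of_neg (by norm_num) (by nlinarith)
  refine ⟨2 ^ (1 / q + η) + 2 * (1 - r)⁻¹, ?_, ?_⟩
  · refine ENNReal.add_ne_top.2 ⟨?_, ENNReal.mul_ne_top (by simp) ?_⟩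
    · exact (ENNReal.rpow_lt_top_of_nonneg (by positivity) (by simp)).ne
    · exact ENNReal.inv_ne_top.2 (tsub_pos_of_lt hr1).ne'
  intro N hNm Y hY hi n
  have hvol0 : volume (SS N Y 0) ≤ 2 := by
    refine (measure_mono (fun x hx => (SS_sub N Y 0 hx).1)).trans_eq (b := volume (Icc (-1 : ℝ) 1)) ?_
    rw [Real.volume_Icc]
    norm_num
  calc ∑ j ∈ Finset.range n, ENNReal.ofReal (2 ^ j * Y) * volume (SS N Y j) ^ (1 / q + η)
      ≤ ∑ j ∈ Finset.range (n + 1),
        ENNReal.ofReal (2 ^ j * Y) * volume (SS N Y j) ^ (1 / q + η) :=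
        Finset.sum_le_sum_of_subset (Finset.range_mono (Nat.le_succ n))
    _ = (∑ j ∈ Finset.range n,
        ENNReal.ofReal (2 ^ (j + 1) * Y) * volume (SS N Y (j + 1)) ^ (1 / q + η)) +
        ENNReal.ofReal (2 ^ 0 * Y) * volume (SS N Y 0) ^ (1 / q + η) :=
        Finset.sum_range_succ' _ _
    _ ≤ (∑ j ∈ Finset.range n, (ENNReal.ofReal Y * 2) * r ^ j) +
        ENNReal.ofReal Y * 2 ^ (1 / q + η) := by
        refine add_le_add (Finset.sum_le_sum fun j _ => ?_) ?_
        · have h3 : volume (SS N Y (j + 1)) ^ (1 / q + η) ≤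
              ENNReal.ofReal ((2 ^ j)⁻¹) * r ^ j := by
            calc volume (SS N Y (j + 1)) ^ (1 / q + η)
                ≤ (ENNReal.ofReal ((2 ^ j)⁻¹) ^ q) ^ (1 / q + η) := by
                  gcongr
                  exact SS_vol N hNm Y hY q hq hi j
              _ = ENNReal.ofReal ((2 ^ j)⁻¹) * r ^ j := by
                  rw [← ENNReal.rpow_mul, hr, ← ENNReal.ofReal_pow (by positivity),
                    ENNReal.ofReal_rpow_of_pos (by positivity),
                    ← ENNReal.ofReal_mul (by positivity)]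
                  congr 1
                  have e1 : q * (1 / q + η) = 1 + q * η := by field_simp
                  rw [e1, Real.rpow_add (by positivity), Real.rpow_one]
                  congr 1
                  rw [← Real.rpow_natCast ((2 : ℝ) ^ (-(q * η))) j, ← Real.rpow_mul (by norm_num),
                    ← Real.rpow_natCast 2 j, ← Real.rpow_neg (by norm_num),
                    ← Real.rpow_mul (by norm_num)]
                  congr 1
                  ring
          calc ENNReal.ofReal (2 ^ (j + 1) * Y) * volume (SS N Y (j + 1)) ^ (1 / q + η)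
              ≤ ENNReal.ofReal (2 ^ (j + 1) * Y) * (ENNReal.ofReal ((2 ^ j)⁻¹) * r ^ j) := by
                gcongr
            _ = (ENNReal.ofReal (2 ^ (j + 1) * Y) * ENNReal.ofReal ((2 ^ j)⁻¹)) * r ^ j := by
                ring
            _ = _ := by
                rw [← ENNReal.ofReal_mul (by positivity)]
                have e2 : 2 ^ (j + 1) * Y * (2 ^ j)⁻¹ = Y * 2 := by
                  rw [pow_succ]
                  field_simp
                rw [e2, ENNReal.ofReal_mul hY.le]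
                have e3 : ENNReal.ofReal 2 = 2 := by norm_num
                rw [e3]
        · rw [pow_zero, one_mul]
          gcongr
    _ = ENNReal.ofReal Y * 2 * (∑ j ∈ Finset.range n, r ^ j) +
        ENNReal.ofReal Y * 2 ^ (1 / q + η) := by
        rw [Finset.mul_sum]
    _ ≤ ENNReal.ofReal Y * 2 * (1 - r)⁻¹ + ENNReal.ofReal Y * 2 ^ (1 / q + η) := by
        gcongr
        rw [← ENNReal.tsum_geometric]
        exact ENNReal.sum_le_tsum _
    _ = _ := by ring

variable {ι : Type}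

/-- the sum of squares -/
noncomputable def NN (K : Finset ι) (g : ι → ℝ → ℂ) (x : ℝ) : ℝ := ∑ k ∈ K, ‖g k x‖ ^ 2

/-- the pieces -/
noncomputable def PP (K : Finset ι) (g : ι → ℝ → ℂ) (Y : ℝ) (j : ℕ) (k : ι) (x : ℝ) : ℂ :=
  (SS (NN K g) Y j).indicator (g k) x

theorem NN_meas (K : Finset ι) (g : ι → ℝ → ℂ) (hgm : ∀ k, Measurable (g k)) :
    Measurable (NN K g) :=
  Finset.measurable_fun_sum _ fun k _ => (hgm k).norm.pow_const 2

theorem PP_adm (K : Finset ι) (g : ι → ℝ → ℂ) (hgm : ∀ k, Measurable (g k)) (Y : ℝ) (hY : 0 < Y)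
    (j : ℕ) : Adm K (fun k s => ((2 ^ j * Y : ℝ) : ℂ)⁻¹ * PP K g Y j k s) (SS (NN K g) Y j) := by
  have hc : 0 < 2 ^ j * Y := by positivity
  have hNm := NN_meas K g hgm
  refine ⟨SS_meas _ hNm Y j, fun x hx => (SS_sub _ Y j hx).1, ?_, ?_, ?_⟩
  · intro k _
    exact ((hgm k).indicator (SS_meas _ hNm Y j)).const_mul _
  · intro k _ s hs
    unfold PP
    rw [indicator_of_notMem hs, mul_zero]
  · intro s
    by_cases hs : s ∈ SS (NN K g) Y j
    · have h1 := (SS_sub _ Y j hs).2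
      simp only [PP, indicator_of_mem hs, norm_mul, norm_inv, Complex.norm_real,
        Real.norm_of_nonneg hc.le, mul_pow]
      rw [← Finset.mul_sum, inv_pow, inv_mul_le_iff₀ (by positivity), mul_one]
      simpa [NN, mul_pow] using h1
    · simp only [PP, indicator_of_notMem hs]
      simp

theorem PP_int (K : Finset ι) (g : ι → ℝ → ℂ) (hgm : ∀ k, Measurable (g k)) (Y : ℝ) (hY : 0 < Y)
    (j : ℕ) (k : ι) (hk : k ∈ K) : Integrable (PP K g Y j k) := by
  have h1 := (PP_adm K g hgm Y hY j).int k hk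
  have hc : ((2 ^ j * Y : ℝ) : ℂ) ≠ 0 := by
    have : 0 < 2 ^ j * Y := by positivity
    exact_mod_cast this.ne'
  have h2 := h1.const_mul ((2 ^ j * Y : ℝ) : ℂ)
  refine h2.congr (Eventually.of_forall fun s => ?_)
  simp only
  rw [← mul_assoc, mul_inv_cancel₀ hc, one_mul]

theorem PP_sum (K : Finset ι) (g : ι → ℝ → ℂ) (hgs : ∀ k x, x ∉ Icc (-1 : ℝ) 1 → g k x = 0)
    (Y : ℝ) (hY : 0 < Y) (n : ℕ) (hn : ∀ x, NN K g x ≤ (2 ^ n * Y) ^ 2) (k : ι) (x : ℝ) :
    g k x = ∑ j ∈ Finset.range (n + 1), PP K g Y j k x := by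
  unfold PP
  rw [← TT_sum _ Y hY]
  by_cases hx : x ∈ Icc (-1 : ℝ) 1
  · rw [indicator_of_mem]
    exact ⟨hx, hn x⟩
  · rw [hgs k x hx]
    symm
    by_cases h1 : x ∈ TT (NN K g) Y n
    · rw [indicator_of_mem h1, hgs k x hx]
    · rw [indicator_of_notMem h1]

theorem chirp_sum {J : Type*} (S : Finset J) (G : J → ℝ → ℂ) (hG : ∀ j ∈ S, Integrable (G j))
    (t α : ℝ) : ft (chirp t (fun s => ∑ j ∈ S, G j s)) α = ∑ j ∈ S, ft (chirp t (G j)) α := by
  rw [← ft_sum S (fun j => chirp t (G j)) (fun j hj => chirp_int _ _ (hG j hj))]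
  congr 1
  ext s
  unfold chirp
  rw [Finset.mul_sum]

theorem chirp_smul (G : ℝ → ℂ) (a : ℂ) (t α : ℝ) :
    ft (chirp t (fun s => a * G s)) α = a * ft (chirp t G) α := by
  unfold ft chirp
  rw [← integral_const_mul]
  congr 1
  ext s
  ring

theorem VV_smul (K : Finset ι) (l : ℝ) (g h : ι → ℝ → ℂ) (a b : ℂ) (p : ℝ × ℝ × ℝ) :
    VV K l (fun k s => a * g k s) (fun k s => b * h k s) p = (a * b) * VV K l g h p := by
  unfold VV
  rw [Finset.mul_sum]
  refine Finset.sum_congr rfl fun k _ => ?_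
  rw [chirp_smul, chirp_smul]
  ring

/-- finite families -/
theorem c1 (q l : ℝ) (hq3 : 3 < q) (hq4 : q < 4) (hl : l ≠ 0) :
    ∃ (C : ℝ≥0∞), C ≠ ∞ ∧ ∀ {ι : Type} (K : Finset ι) (g h : ι → ℝ → ℂ),
      (∀ k, Measurable (g k)) → (∀ k, Measurable (h k)) →
      (∀ k x, x ∉ Icc (-1 : ℝ) 1 → g k x = 0) → (∀ k x, x ∉ Icc (-1 : ℝ) 1 → h k x = 0) →
      ∀ (Y Z : ℝ) (n : ℕ), 0 < Y → 0 < Z →
      (∀ x, NN K g x ≤ (2 ^ n * Y) ^ 2) → (∀ x, NN K h x ≤ (2 ^ n * Z) ^ 2) →
      ∫⁻ x, ENNReal.ofReal (NN K g x) ^ (q / 2) ≤ ENNReal.ofReal Y ^ q →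
      ∫⁻ x, ENNReal.ofReal (NN K h x) ^ (q / 2) ≤ ENNReal.ofReal Z ^ q →
      eLpNorm (VV K l g h) (ENNReal.ofReal q) volume ≤
        C * (ENNReal.ofReal Y * ENNReal.ofReal Z) := by
  have hq0 : 0 < q := by linarith
  obtain ⟨C, hC, hc⟩ := c0 q l hq3 hq4 hl
  set η : ℝ := (q - 3) / (2 * q) with hη
  have hη0 : 0 < η := by rw [hη]; exact div_pos (by linarith) (by linarith)
  have hex : (q - 1) / (2 * q) = 1 / q + η := by
    rw [hη]
    field_simp
    ring
  obtain ⟨D, hD, hd⟩ := dyadic_sum q η hq0 hη0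
  refine ⟨C * (D * D), ENNReal.mul_ne_top hC (ENNReal.mul_ne_top hD hD), ?_⟩
  intro ι K g h hgm hhm hgs hhs Y Z n hY hZ hgn hhn hgi hhi
  have h1q : (1 : ℝ≥0∞) ≤ ENNReal.ofReal q := by
    rw [ENNReal.one_le_ofReal]
    linarith
  have hsum : VV K l g h = ∑ z ∈ Finset.range (n + 1) ×ˢ Finset.range (n + 1),
      VV K l (PP K g Y z.1) (PP K h Z z.2) := by
    ext p
    rw [Finset.sum_apply]
    unfold VV
    rw [Finset.sum_comm]
    refine Finset.sum_congr rfl fun k hk => ?_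
    have e1 : g k = fun s => ∑ j ∈ Finset.range (n + 1), PP K g Y j k s := by
      ext s
      exact PP_sum K g hgs Y hY n hgn k s
    have e2 : h k = fun s => ∑ j ∈ Finset.range (n + 1), PP K h Z j k s := by
      ext s
      exact PP_sum K h hhs Z hZ n hhn k s
    have e3 : ∑ x ∈ Finset.range (n + 1) ×ˢ Finset.range (n + 1),
        ft (chirp p.1 (PP K g Y x.1 k)) p.2.1 * ft (chirp (l * p.1) (PP K h Z x.2 k)) p.2.2 =
        (∑ i ∈ Finset.range (n + 1), ft (chirp p.1 (PP K g Y i k)) p.2.1) *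
        ∑ j ∈ Finset.range (n + 1), ft (chirp (l * p.1) (PP K h Z j k)) p.2.2 := by
      rw [Finset.sum_mul_sum, ← Finset.sum_product']
    rw [e3]
    congr 1
    · conv_lhs => rw [e1]
      exact chirp_sum _ (fun j => PP K g Y j k) (fun j _ => PP_int K g hgm Y hY j k hk) _ _
    · conv_lhs => rw [e2]
      exact chirp_sum _ (fun j => PP K h Z j k) (fun j _ => PP_int K h hhm Z hZ j k hk) _ _
  have hPm : ∀ (g : ι → ℝ → ℂ) (hgm : ∀ k, Measurable (g k)) (Y : ℝ) (j : ℕ) (k : ι),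
      Measurable (PP K g Y j k) := fun g hgm Y j k =>
    (hgm k).indicator (SS_meas _ (NN_meas K g hgm) Y j)
  have hpiece : ∀ i j : ℕ, eLpNorm (VV K l (PP K g Y i) (PP K h Z j)) (ENNReal.ofReal q) volume ≤
      C * ((ENNReal.ofReal (2 ^ i * Y) * volume (SS (NN K g) Y i) ^ (1 / q + η)) *
        (ENNReal.ofReal (2 ^ j * Z) * volume (SS (NN K h) Z j) ^ (1 / q + η))) := by
    intro i j
    have hci : 0 < 2 ^ i * Y := by positivity
    have hcj : 0 < 2 ^ j * Z := by positivity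
    have hcci : ((2 ^ i * Y : ℝ) : ℂ) ≠ 0 := by exact_mod_cast hci.ne'
    have hccj : ((2 ^ j * Z : ℝ) : ℂ) ≠ 0 := by exact_mod_cast hcj.ne'
    have h1 : VV K l (PP K g Y i) (PP K h Z j) =
        (((2 ^ i * Y : ℝ) : ℂ) * ((2 ^ j * Z : ℝ) : ℂ)) •
        VV K l (fun k s => ((2 ^ i * Y : ℝ) : ℂ)⁻¹ * PP K g Y i k s)
          (fun k s => ((2 ^ j * Z : ℝ) : ℂ)⁻¹ * PP K h Z j k s) := by
      ext p
      rw [Pi.smul_apply, smul_eq_mul, VV_smul]
      field_simp
    rw [h1, eLpNorm_const_smul]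
    have h2 : ∀ x : ℝ, 0 < x → ‖(x : ℂ)‖ₑ = ENNReal.ofReal x := by
      intro x hx
      rw [← ofReal_norm, Complex.norm_real, Real.norm_of_nonneg hx.le]
    rw [enorm_mul, h2 _ hci, h2 _ hcj]
    have h3 := hc K _ _ _ _ (PP_adm K g hgm Y hY i) (PP_adm K h hhm Z hZ j)
    rw [hex] at h3
    calc _ ≤ ENNReal.ofReal (2 ^ i * Y) * ENNReal.ofReal (2 ^ j * Z) *
          (C * (volume (SS (NN K g) Y i) ^ (1 / q + η) *
            volume (SS (NN K h) Z j) ^ (1 / q + η))) := by gcongr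
      _ = _ := by ring
  calc eLpNorm (VV K l g h) (ENNReal.ofReal q) volume
      ≤ ∑ z ∈ Finset.range (n + 1) ×ˢ Finset.range (n + 1),
        eLpNorm (VV K l (PP K g Y z.1) (PP K h Z z.2)) (ENNReal.ofReal q) volume := by
        rw [hsum]
        refine eLpNorm_sum_le (fun z _ => ?_) h1q
        exact (VV_meas K l _ _ (fun k _ => hPm g hgm Y z.1 k)
          (fun k _ => hPm h hhm Z z.2 k)).aestronglyMeasurable
    _ ≤ ∑ z ∈ Finset.range (n + 1) ×ˢ Finset.range (n + 1),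
        C * ((ENNReal.ofReal (2 ^ z.1 * Y) * volume (SS (NN K g) Y z.1) ^ (1 / q + η)) *
        (ENNReal.ofReal (2 ^ z.2 * Z) * volume (SS (NN K h) Z z.2) ^ (1 / q + η))) :=
        Finset.sum_le_sum fun z _ => hpiece z.1 z.2
    _ = C * ((∑ i ∈ Finset.range (n + 1),
          ENNReal.ofReal (2 ^ i * Y) * volume (SS (NN K g) Y i) ^ (1 / q + η)) *
        (∑ j ∈ Finset.range (n + 1),
          ENNReal.ofReal (2 ^ j * Z) * volume (SS (NN K h) Z j) ^ (1 / q + η))) := by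
        rw [Finset.sum_mul_sum, ← Finset.sum_product', Finset.mul_sum]
    _ ≤ C * ((D * ENNReal.ofReal Y) * (D * ENNReal.ofReal Z)) := by
        gcongr
        · exact hd _ (NN_meas K g hgm) Y hY hgi _
        · exact hd _ (NN_meas K h hhm) Z hZ hhi _
    _ = _ := by ring

end Pool.Agent.J4.H85.TS
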