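import Pool.Agent.J4.H85.TA2
set_option autoImplicit false

/-! The square function version of the tensor product estimate: infinite families. -/

namespace Pool.Agent.J4.H85.TS

open MeasureTheory Complex Set Filter Topology
open scoped ENNReal NNReal RealInnerProductSpace ComplexConjugate
open Pool.Agent.R412.RT (E ee ee_norm ee_add ee_conj ee_meas ee_cont planch)

/-- the square function (squared) -/
noncomputable def sqf (g : ℕ → ℝ → ℂ) (s : ℝ) : ℝ≥0∞ := ∑' i, ‖g i s‖ₑ ^ 2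

theorem sqf_meas (g : ℕ → ℝ → ℂ) (hg : ∀ k, Measurable (g k)) : Measurable (sqf g) :=
  Measurable.tsum fun i => (hg i).enorm.pow_const 2

/-- integrability of the square function -/
theorem sqf_int (g : ℕ → ℝ → ℂ) (q : ℝ) (hq : 1 ≤ q)
    (hgs : ∀ k x, x ∉ Icc (-1 : ℝ) 1 → g k x = 0) (hgi : ∫⁻ x, sqf g x ^ (q / 2) < ∞) :
    ∫⁻ x, sqf g x ^ (1 / 2 : ℝ) < ∞ := by
  have h3 : ∀ x, sqf g x ^ (1 / 2 : ℝ) ≤
      (Icc (-1 : ℝ) 1).indicator (1 : ℝ → ℝ≥0∞) x + sqf g x ^ (q / 2) := by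
    intro x
    by_cases hx : x ∈ Icc (-1 : ℝ) 1
    · rw [indicator_of_mem hx, Pi.one_apply]
      by_cases h5 : sqf g x ≤ 1
      · calc sqf g x ^ (1 / 2 : ℝ) ≤ 1 := ENNReal.rpow_le_one h5 (by norm_num)
          _ ≤ _ := le_self_add
      · push Not at h5
        calc sqf g x ^ (1 / 2 : ℝ) ≤ sqf g x ^ (q / 2) :=
              ENNReal.rpow_le_rpow_of_exponent_le h5.le (by linarith)
          _ ≤ _ := le_add_self
    · have h6 : sqf g x = 0 := by
        unfold sqf
        simp [hgs _ x hx]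
      rw [h6, ENNReal.zero_rpow_of_pos (by norm_num)]
      exact zero_le
  refine lt_of_le_of_lt (lintegral_mono h3) ?_
  rw [lintegral_add_left (measurable_one.indicator measurableSet_Icc),
    lintegral_indicator_one measurableSet_Icc, Real.volume_Icc]
  exact ENNReal.add_lt_top.2 ⟨ENNReal.ofReal_lt_top, hgi⟩

/-- truncation -/
noncomputable def trc (g : ℕ → ℝ → ℂ) (Y : ℝ) (n i : ℕ) (s : ℝ) : ℂ :=
  {s | sqf g s ≤ ENNReal.ofReal ((2 ^ n * Y) ^ 2)}.indicator (g i) s

theorem trc_meas (g : ℕ → ℝ → ℂ) (hg : ∀ k, Measurable (g k)) (Y : ℝ) (n i : ℕ) :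
    Measurable (trc g Y n i) :=
  (hg i).indicator (measurableSet_le (sqf_meas g hg) measurable_const)

theorem trc_NN (g : ℕ → ℝ → ℂ) (Y : ℝ) (n : ℕ) (K : Finset ℕ) (s : ℝ) :
    ENNReal.ofReal (NN K (trc g Y n) s) ≤ sqf g s := by
  unfold NN
  rw [ENNReal.ofReal_sum_of_nonneg fun i _ => by positivity]
  have h1 : ∀ i, ENNReal.ofReal (‖trc g Y n i s‖ ^ 2) ≤ ‖g i s‖ₑ ^ 2 := by
    intro i
    rw [ENNReal.ofReal_pow (norm_nonneg _), ofReal_norm]
    gcongr
    unfold trc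
    exact enorm_indicator_le_enorm_self _ _
  exact (Finset.sum_le_sum fun i _ => h1 i).trans (ENNReal.sum_le_tsum K)

theorem trc_NN2 (g : ℕ → ℝ → ℂ) (Y : ℝ) (n : ℕ) (K : Finset ℕ) (s : ℝ) :
    NN K (trc g Y n) s ≤ (2 ^ n * Y) ^ 2 := by
  by_cases hs : s ∈ {s | sqf g s ≤ ENNReal.ofReal ((2 ^ n * Y) ^ 2)}
  · have h1 := (trc_NN g Y n K s).trans hs
    exact (ENNReal.ofReal_le_ofReal_iff (by positivity)).1 h1
  · unfold NN trc
    simp only [indicator_of_notMem hs]
    simp only [norm_zero, ne_eq, OfNat.ofNat_ne_zero, not_false_eq_true, zero_pow,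
      Finset.sum_const_zero]
    positivity

theorem trc_int (g : ℕ → ℝ → ℂ) (hg : ∀ k, Measurable (g k)) (Y : ℝ) (hY : 0 < Y)
    (hgs : ∀ k x, x ∉ Icc (-1 : ℝ) 1 → g k x = 0) (n i : ℕ) : Integrable (trc g Y n i) := by
  refine bdd_int _ (trc_meas g hg Y n i) (2 ^ n * Y) ?_ (-1) 1 ?_
  · intro x
    have h1 := trc_NN2 g Y n {i} x
    unfold NN at h1
    rw [Finset.sum_singleton] at h1
    exact (sq_le_sq₀ (norm_nonneg _) (by positivity)).1 h1
  · intro x hx
    unfold trc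
    by_cases hs : x ∈ {s | sqf g s ≤ ENNReal.ofReal ((2 ^ n * Y) ^ 2)}
    · rw [indicator_of_mem hs, hgs i x hx]
    · rw [indicator_of_notMem hs]

/-- the integrand of the extension -/
noncomputable def phs (l : ℝ) (p : ℝ × ℝ × ℝ) (z : ℝ × ℝ) : ℂ :=
  ee (z.1 * p.2.1 + z.1 ^ 2 * p.1 + z.2 * p.2.2 + z.2 ^ 2 * (l * p.1))

theorem UG_prod (l : ℝ) (F : ℝ × ℝ → ℂ) (hF : Integrable F) (p : ℝ × ℝ × ℝ) :
    UG l (fun s y => F (s, y)) p = ∫ z, phs l p z * F z := by
  have hi : Integrable (fun z : ℝ × ℝ => phs l p z * F z) := by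
    refine hF.bdd_mul (c := 1) ?_ ?_
    · unfold phs
      exact (ee_meas.comp (by fun_prop)).aestronglyMeasurable
    · exact Eventually.of_forall fun z => by
        unfold phs
        rw [ee_norm]
  rw [Measure.volume_eq_prod, integral_prod _ hi]
  unfold UG ft
  congr 1
  ext s
  unfold chirp
  simp only
  rw [← integral_const_mul, ← integral_const_mul]
  congr 1
  ext y
  unfold phs
  rw [ee_add, ee_add, ee_add]
  ring

theorem VV_prod (K : Finset ℕ) (l : ℝ) (g h : ℕ → ℝ → ℂ) (hg : ∀ k ∈ K, Integrable (g k))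
    (hh : ∀ k ∈ K, Integrable (h k)) (p : ℝ × ℝ × ℝ) :
    VV K l g h p = ∫ z : ℝ × ℝ, phs l p z * ∑ i ∈ K, g i z.1 * h i z.2 := by
  unfold VV
  have h1 : ∀ z : ℝ × ℝ, phs l p z * ∑ i ∈ K, g i z.1 * h i z.2 =
      ∑ i ∈ K, phs l p z * (g i z.1 * h i z.2) := fun z => Finset.mul_sum _ _ _
  simp_rw [h1]
  rw [integral_finsetSum]
  · refine Finset.sum_congr rfl fun i hi => ?_
    have h2 : ∀ z : ℝ × ℝ, phs l p z * (g i z.1 * h i z.2) =
        (ee (z.1 * p.2.1) * chirp p.1 (g i) z.1) *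
        (ee (z.2 * p.2.2) * chirp (l * p.1) (h i) z.2) := by
      intro z
      unfold phs chirp
      rw [ee_add, ee_add, ee_add]
      ring
    simp_rw [h2]
    rw [Measure.volume_eq_prod, integral_prod_mul (fun s => ee (s * p.2.1) * chirp p.1 (g i) s)
      (fun y => ee (y * p.2.2) * chirp (l * p.1) (h i) y)]
    rfl
  · intro i hi
    have h3 : Integrable (fun z : ℝ × ℝ => g i z.1 * h i z.2) := (hg i hi).mul_prod (hh i hi)
    refine h3.bdd_mul (c := 1) ?_ ?_
    · unfold phs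
      exact (ee_meas.comp (by fun_prop)).aestronglyMeasurable
    · exact Eventually.of_forall fun z => by
        unfold phs
        rw [ee_norm]

theorem part_le (g h : ℕ → ℝ → ℂ) (Y Z : ℝ) (n : ℕ) (z : ℝ × ℝ) :
    ‖∑ i ∈ Finset.range n, trc g Y n i z.1 * trc h Z n i z.2‖ₑ ≤
      sqf g z.1 ^ (1 / 2 : ℝ) * sqf h z.2 ^ (1 / 2 : ℝ) := by
  have h1 := cs_enorm (Finset.range n) (fun i => trc g Y n i z.1) (fun i => trc h Z n i z.2) 1
    zero_le_one
  rw [ENNReal.rpow_one] at h1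
  refine h1.trans ?_
  have h2 : ∀ (g : ℕ → ℝ → ℂ) (Y s : ℝ), ∑ i ∈ Finset.range n, ‖trc g Y n i s‖ₑ ^ 2 ≤ sqf g s := by
    intro g Y s
    refine le_trans (le_of_eq ?_) (trc_NN g Y n (Finset.range n) s)
    unfold NN
    rw [ENNReal.ofReal_sum_of_nonneg fun i _ => by positivity]
    refine Finset.sum_congr rfl fun i _ => ?_
    rw [ENNReal.ofReal_pow (norm_nonneg _), ofReal_norm]
  gcongr
  · exact h2 g Y z.1
  · exact h2 h Z z.2

/-- infinite families -/
theorem c2 (q l : ℝ) (hq3 : 3 < q) (hq4 : q < 4) (hl : l ≠ 0) :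
    ∃ (C : ℝ≥0∞), C ≠ ∞ ∧ ∀ (g h : ℕ → ℝ → ℂ),
      (∀ k, Measurable (g k)) → (∀ k, Measurable (h k)) →
      (∀ k x, x ∉ Icc (-1 : ℝ) 1 → g k x = 0) → (∀ k x, x ∉ Icc (-1 : ℝ) 1 → h k x = 0) →
      ∀ (Y Z : ℝ), 0 < Y → 0 < Z →
      ∫⁻ x, sqf g x ^ (q / 2) ≤ ENNReal.ofReal Y ^ q →
      ∫⁻ x, sqf h x ^ (q / 2) ≤ ENNReal.ofReal Z ^ q →
      eLpNorm (UG l (fun s y => ∑' i, g i s * h i y)) (ENNReal.ofReal q) volume ≤
        C * (ENNReal.ofReal Y * ENNReal.ofReal Z) := by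
  have hq0 : 0 < q := by linarith
  obtain ⟨C, hC, hc⟩ := c1 q l hq3 hq4 hl
  refine ⟨C, hC, ?_⟩
  intro g h hgm hhm hgs hhs Y Z hY hZ hgi hhi
  have hgq : ∫⁻ x, sqf g x ^ (q / 2) < ∞ := lt_of_le_of_lt hgi
    (ENNReal.rpow_lt_top_of_nonneg hq0.le ENNReal.ofReal_ne_top)
  have hhq : ∫⁻ x, sqf h x ^ (q / 2) < ∞ := lt_of_le_of_lt hhi
    (ENNReal.rpow_lt_top_of_nonneg hq0.le ENNReal.ofReal_ne_top)
  have hbound : ∀ n, eLpNorm (VV (Finset.range n) l (trc g Y n) (trc h Z n)) (ENNReal.ofReal q)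
      volume ≤ C * (ENNReal.ofReal Y * ENNReal.ofReal Z) := by
    intro n
    have hz : ∀ (g : ℕ → ℝ → ℂ) (Y : ℝ), (∀ k x, x ∉ Icc (-1 : ℝ) 1 → g k x = 0) →
        ∀ k x, x ∉ Icc (-1 : ℝ) 1 → trc g Y n k x = 0 := by
      intro g Y hgs k x hx
      unfold trc
      by_cases hs : x ∈ {s | sqf g s ≤ ENNReal.ofReal ((2 ^ n * Y) ^ 2)}
      · rw [indicator_of_mem hs, hgs k x hx]
      · rw [indicator_of_notMem hs]
    refine hc (Finset.range n) (trc g Y n) (trc h Z n) (trc_meas g hgm Y n) (trc_meas h hhm Z n)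
      (hz g Y hgs) (hz h Z hhs) Y Z n hY hZ (trc_NN2 g Y n _) (trc_NN2 h Z n _) ?_ ?_
    · refine (lintegral_mono fun x => ?_).trans hgi
      have := trc_NN g Y n (Finset.range n) x
      gcongr
    · refine (lintegral_mono fun x => ?_).trans hhi
      have := trc_NN h Z n (Finset.range n) x
      gcongr
  -- the dominating function
  have hB1 := sqf_int g q (by linarith) hgs hgq
  have hB2 := sqf_int h q (by linarith) hhs hhq
  have hfin : ∀ (g : ℕ → ℝ → ℂ), (∀ k, Measurable (g k)) → ∫⁻ x, sqf g x ^ (q / 2) < ∞ →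
      ∀ᵐ x, sqf g x ≠ ∞ := by
    intro g hgm hgq
    filter_upwards [ae_lt_top ((sqf_meas g hgm).pow_const _) hgq.ne] with x hx h3
    rw [h3, ENNReal.top_rpow_of_pos (by linarith)] at hx
    exact lt_irrefl _ hx
  set B : ℝ × ℝ → ℝ≥0∞ := fun z => sqf g z.1 ^ (1 / 2 : ℝ) * sqf h z.2 ^ (1 / 2 : ℝ) with hB
  have hBm : Measurable B := (((sqf_meas g hgm).pow_const _).comp measurable_fst).mul
    (((sqf_meas h hhm).pow_const _).comp measurable_snd)
  have hBi : ∫⁻ z, B z < ∞ := by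
    rw [Measure.volume_eq_prod, hB]
    rw [lintegral_prod_mul ((sqf_meas g hgm).pow_const _).aemeasurable
      ((sqf_meas h hhm).pow_const _).aemeasurable]
    exact ENNReal.mul_lt_top hB1 hB2
  have hBI : Integrable (fun z => (B z).toReal) := by
    refine integrable_toReal_of_lintegral_ne_top hBm.aemeasurable hBi.ne
  have hBt : ∀ᵐ z, B z ≠ ∞ := by
    filter_upwards [ae_lt_top hBm hBi.ne] with z hz using hz.ne
  have hae : ∀ᵐ z : ℝ × ℝ, sqf g z.1 ≠ ∞ ∧ sqf h z.2 ≠ ∞ := by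
    rw [Measure.volume_eq_prod]
    exact ((Measure.quasiMeasurePreserving_fst).ae (hfin g hgm hgq)).and
      ((Measure.quasiMeasurePreserving_snd).ae (hfin h hhm hhq))
  -- pointwise convergence of the functions
  have hpt : ∀ᵐ z : ℝ × ℝ, Tendsto (fun n : ℕ => ∑ i ∈ Finset.range n,
      trc g Y n i z.1 * trc h Z n i z.2) atTop (𝓝 (∑' i, g i z.1 * h i z.2)) := by
    filter_upwards [hae, hBt] with z hz hBz
    have hev : ∀ (g : ℕ → ℝ → ℂ) (Y : ℝ), 0 < Y → ∀ s, sqf g s ≠ ∞ →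
        ∀ᶠ n : ℕ in atTop, ∀ i, trc g Y n i s = g i s := by
      intro g Y hY s hs
      have h3 : Tendsto (fun n : ℕ => (2 ^ n * Y) ^ 2) atTop atTop := by
        have h4 : Tendsto (fun n : ℕ => (2 : ℝ) ^ n * Y) atTop atTop :=
          (tendsto_pow_atTop_atTop_of_one_lt (by norm_num)).atTop_mul_const hY
        exact (tendsto_pow_atTop (by norm_num)).comp h4
      filter_upwards [h3.eventually_ge_atTop (sqf g s).toReal] with n hn i
      unfold trc
      rw [indicator_of_mem]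
      exact (ENNReal.le_ofReal_iff_toReal_le hs (by positivity)).2 hn
    have hsum : Summable fun i => g i z.1 * h i z.2 := by
      have h1 : ∑' i, ‖g i z.1 * h i z.2‖ₑ ≤ B z := by
        refine ENNReal.tsum_le_of_sum_range_le fun n => ?_
        have h2 := ENNReal.inner_le_Lp_mul_Lq (Finset.range n) (fun i => ‖g i z.1‖ₑ)
          (fun i => ‖h i z.2‖ₑ) (Real.HolderConjugate.two_two)
        calc ∑ i ∈ Finset.range n, ‖g i z.1 * h i z.2‖ₑ
            = ∑ i ∈ Finset.range n, ‖g i z.1‖ₑ * ‖h i z.2‖ₑ := by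
              refine Finset.sum_congr rfl fun i _ => ?_
              rw [enorm_mul]
          _ ≤ _ := h2
          _ ≤ B z := by
              rw [hB]
              simp only [ENNReal.rpow_ofNat]
              gcongr
              · exact ENNReal.sum_le_tsum _
              · exact ENNReal.sum_le_tsum _
      have h2 : ∑' i, ‖g i z.1 * h i z.2‖ₑ ≠ ∞ := (lt_of_le_of_lt h1 (lt_top_iff_ne_top.2 hBz)).ne
      refine Summable.of_norm ?_
      have h3 := ENNReal.summable_toReal h2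
      simpa only [toReal_enorm] using h3
    refine (hsum.hasSum.tendsto_sum_nat).congr' ?_
    filter_upwards [hev g Y hY z.1 hz.1, hev h Z hZ z.2 hz.2] with n h1 h2
    refine Finset.sum_congr rfl fun i _ => ?_
    rw [h1 i, h2 i]
  -- integrability of the limit
  have hFle : ∀ᵐ z : ℝ × ℝ, ‖∑' i, g i z.1 * h i z.2‖ ≤ (B z).toReal := by
    filter_upwards [hpt, hBt] with z hz hBz
    refine le_of_tendsto hz.norm (Eventually.of_forall fun n => ?_)
    have h1 := part_le g h Y Z n z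
    rw [← ofReal_norm] at h1
    exact (ENNReal.ofReal_le_iff_le_toReal hBz).1 h1
  have hFm : Measurable fun z : ℝ × ℝ => ∑' i, g i z.1 * h i z.2 := by
    refine Measurable.tsum fun i => ?_
    exact ((hgm i).comp measurable_fst).mul ((hhm i).comp measurable_snd)
  have hFi : Integrable fun z : ℝ × ℝ => ∑' i, g i z.1 * h i z.2 :=
    hBI.mono' hFm.aestronglyMeasurable hFle
  have hlim : ∀ p, Tendsto (fun n => VV (Finset.range n) l (trc g Y n) (trc h Z n) p) atTop
      (𝓝 (UG l (fun s y => ∑' i, g i s * h i y) p)) := by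
    intro p
    have h1 : ∀ n, VV (Finset.range n) l (trc g Y n) (trc h Z n) p =
        ∫ z : ℝ × ℝ, phs l p z * ∑ i ∈ Finset.range n, trc g Y n i z.1 * trc h Z n i z.2 :=
      fun n => VV_prod _ l _ _ (fun i _ => trc_int g hgm Y hY hgs n i)
        (fun i _ => trc_int h hhm Z hZ hhs n i) p
    simp_rw [h1]
    rw [UG_prod l (fun z : ℝ × ℝ => ∑' i, g i z.1 * h i z.2) hFi p]
    refine tendsto_integral_of_dominated_convergence (fun z => (B z).toReal) ?_ hBI ?_ ?_
    · intro n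
      refine Measurable.aestronglyMeasurable ?_
      refine Measurable.mul ?_ ?_
      · unfold phs
        exact ee_meas.comp (by fun_prop)
      · refine Finset.measurable_fun_sum _ fun i _ => ?_
        exact ((trc_meas g hgm Y n i).comp measurable_fst).mul
          ((trc_meas h hhm Z n i).comp measurable_snd)
    · intro n
      filter_upwards [hBt] with z hBz
      unfold phs
      rw [norm_mul, ee_norm, one_mul]
      have h1 := part_le g h Y Z n z
      rw [← ofReal_norm] at h1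
      exact (ENNReal.ofReal_le_iff_le_toReal hBz).1 h1
    · filter_upwards [hpt] with z hz
      exact hz.const_mul _
  refine (Lp.eLpNorm_lim_le_liminf_eLpNorm (fun n => (VV_meas (Finset.range n) l (trc g Y n)
    (trc h Z n) (fun k _ => trc_meas g hgm Y n k)
    (fun k _ => trc_meas h hhm Z n k)).aestronglyMeasurable) _ (Eventually.of_forall hlim)).trans ?_
  exact Filter.liminf_le_of_frequently_le' (Eventually.of_forall hbound).frequently

end Pool.Agent.J4.H85.TS
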