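import Mathlib
import Pool.Agent.R412.RT.B
set_option autoImplicit false

/-! One dimensional tools: Plancherel inequality, autocorrelations. -/

namespace Pool.Agent.J4.H85.TS

open MeasureTheory Complex Set Filter Topology
open scoped ENNReal NNReal RealInnerProductSpace ComplexConjugate
open Pool.Agent.R412.RT (E ee ee_norm ee_add ee_conj ee_meas ee_cont planch)

/-- one dimensional Plancherel inequality -/
theorem planch1 (H : ℝ → ℂ) (hH : Integrable H) :
    ∫⁻ β : ℝ, ‖∫ u, ee (u * β) * H u‖ₑ ^ 2 ≤ ∫⁻ u, ‖H u‖ₑ ^ 2 := by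
  set T : E 1 ≃ᵐ ℝ := (MeasurableEquiv.toLp 2 (Fin 1 → ℝ)).symm.trans
    (MeasurableEquiv.funUnique (Fin 1) ℝ) with hT
  have hTm : MeasurePreserving T volume volume :=
    (volume_preserving_funUnique (Fin 1) ℝ).comp (PiLp.volume_preserving_ofLp (Fin 1))
  have hTi : ∀ x y : E 1, ⟪x, y⟫ = T x * T y := by
    intro x y
    rw [Pool.Agent.R412.RT.inner_eq, Fin.sum_univ_one]
    rfl
  have hg : Integrable fun x : E 1 => H (T x) :=
    (hTm.integrable_comp_emb T.measurableEmbedding).2 hH
  have hdet : (ContinuousLinearMap.id ℝ (E 1)).det = 1 := by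
    unfold ContinuousLinearMap.det
    simp
  have h := planch (id : E 1 → E 1) measurable_id (fun _ => ContinuousLinearMap.id ℝ (E 1))
    univ MeasurableSet.univ (fun x _ => hasFDerivWithinAt_id x univ) (injOn_id _)
    (fun x _ => by rw [hdet]; exact one_ne_zero) (by simp) (fun x => H (T x)) hg
    (fun x hx => absurd (mem_univ x) hx)
  have h1 : ∀ t : E 1, ∫ x : E 1, ee ⟪id x, t⟫ * H (T x) = ∫ u, ee (u * T t) * H u := by
    intro t
    rw [← hTm.integral_comp T.measurableEmbedding]
    refine integral_congr_ae (Eventually.of_forall fun x => ?_)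
    simp only [id, hTi]
  simp_rw [h1] at h
  have h2 : ∫⁻ t : E 1, ‖∫ u, ee (u * T t) * H u‖ₑ ^ 2 =
      ∫⁻ β : ℝ, ‖∫ u, ee (u * β) * H u‖ₑ ^ 2 :=
    hTm.lintegral_comp_emb T.measurableEmbedding (fun β => ‖∫ u, ee (u * β) * H u‖ₑ ^ 2)
  have h3 : ∫⁻ x : E 1, ‖H (T x)‖ₑ ^ 2 / ENNReal.ofReal |(ContinuousLinearMap.id ℝ (E 1)).det| =
      ∫⁻ u, ‖H u‖ₑ ^ 2 := by
    rw [← hTm.lintegral_comp_emb T.measurableEmbedding (fun u => ‖H u‖ₑ ^ 2)]
    refine lintegral_congr fun x => ?_
    rw [hdet, abs_one, ENNReal.ofReal_one, div_one]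
  rw [h2, h3] at h
  exact h

theorem ee_zero : ee 0 = 1 := by unfold ee; simp

theorem ee_enorm (s : ℝ) : ‖ee s‖ₑ = 1 := by
  rw [← ofReal_norm, ee_norm, ENNReal.ofReal_one]

/-- the Fourier transform `∫ e(uβ) H(u) du` -/
noncomputable def ft (H : ℝ → ℂ) (β : ℝ) : ℂ := ∫ u, ee (u * β) * H u

theorem ft_le (H : ℝ → ℂ) (β : ℝ) : ‖ft H β‖ₑ ≤ ∫⁻ u, ‖H u‖ₑ := by
  refine (enorm_integral_le_lintegral_enorm _).trans_eq ?_
  refine lintegral_congr fun u => ?_
  rw [enorm_mul, ee_enorm, one_mul]

theorem ee_mul_int (H : ℝ → ℂ) (hH : Integrable H) (φ : ℝ → ℝ) (hφ : Measurable φ) :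
    Integrable fun u => ee (φ u) * H u := by
  refine hH.bdd_mul (c := 1) (ee_meas.comp hφ).aestronglyMeasurable ?_
  exact Eventually.of_forall fun u => by
    simp [ee_norm]

/-- the autocorrelation -/
noncomputable def aut (F : ℝ → ℂ) (h : ℝ) : ℂ := ∫ y, F (h + y) * conj (F y)

theorem conj_int (F : ℝ → ℂ) (hF : Integrable F) : Integrable fun y => conj (F y) :=
  (Complex.conjLIE.toContinuousLinearEquiv.integrable_comp_iff).2 hF

theorem aut_pair (F : ℝ → ℂ) (hF : Integrable F) :
    Integrable (fun z : ℝ × ℝ => F (z.1 + z.2) * conj (F z.2)) (volume.prod volume) := by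
  have h1 : Integrable (fun z : ℝ × ℝ => F z.1 * conj (F z.2)) (volume.prod volume) :=
    hF.mul_prod (conj_int F hF)
  exact (measurePreserving_add_prod (volume : Measure ℝ) (volume : Measure ℝ)).integrable_comp_of_integrable h1

theorem aut_int (F : ℝ → ℂ) (hF : Integrable F) : Integrable (aut F) :=
  (aut_pair F hF).integral_prod_left

/-- `|F^|^2` is the Fourier transform of the autocorrelation -/
theorem ft_aut (F : ℝ → ℂ) (hF : Integrable F) (α : ℝ) :
    ft (aut F) α = ft F α * conj (ft F α) := by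
  unfold ft aut
  have hi : Integrable (fun z : ℝ × ℝ => ee (z.1 * α) * (F (z.1 + z.2) * conj (F z.2)))
      (volume.prod volume) := by
    refine (aut_pair F hF).bdd_mul (c := 1) ?_ ?_
    · exact (ee_meas.comp (by fun_prop)).aestronglyMeasurable
    · exact Eventually.of_forall fun u => by simp [ee_norm]
  calc ∫ u, ee (u * α) * ∫ y, F (u + y) * conj (F y)
      = ∫ u, ∫ y, ee (u * α) * (F (u + y) * conj (F y)) := by
        congr 1
        ext u
        rw [integral_const_mul]
    _ = ∫ y, ∫ u, ee (u * α) * (F (u + y) * conj (F y)) := integral_integral_swap hi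
    _ = ∫ y, (∫ u, ee (u * α) * F u) * (conj (ee (y * α)) * conj (F y)) := by
        congr 1
        ext y
        have h1 : ∀ u, ee (u * α) * (F (u + y) * conj (F y)) =
            (ee ((u + y) * α) * F (u + y)) * (conj (ee (y * α)) * conj (F y)) := by
          intro u
          rw [add_mul, ee_add, ee_conj]
          have : ee (y * α) * ee (-(y * α)) = 1 := by
            rw [← ee_add, add_neg_cancel, ee_zero]
          linear_combination (-(ee (u * α) * (F (u + y) * conj (F y)))) * this
        simp_rw [h1]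
        rw [integral_mul_const, integral_add_right_eq_self (fun u => ee (u * α) * F u) y]
    _ = (∫ u, ee (u * α) * F u) * ∫ y, (conj (ee (y * α)) * conj (F y)) := by
        rw [integral_const_mul]
    _ = _ := by
        congr 1
        rw [← integral_conj]
        congr 1
        ext y
        rw [map_mul]

end Pool.Agent.J4.H85.TS
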