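import Pool.Agent.J4.H85.TS9
set_option autoImplicit false

/-! Decomposition into level sets: the extension estimate for finite families of unbounded
coefficient functions. -/

namespace Pool.Agent.J4.H85.TS

open MeasureTheory Complex Set Filter Topology
open scoped ENNReal NNReal RealInnerProductSpace ComplexConjugate
open Pool.Agent.R412.RT (E ee ee_norm ee_add ee_conj ee_meas ee_cont planch)

/-- the (anisotropic) extension of `∑ g_k(x) e(ku)` over `[-1,1] × (0,1]` -/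
noncomputable def U (F : Finset ℤ) (l : ℝ) (g : ℤ → ℝ → ℂ) (p : ℝ × ℝ × ℝ) : ℂ :=
  ft (chirp (l * p.1) (tp F (fun k => ft (chirp p.1 (g k)) p.2.1))) p.2.2

theorem ftchirp_meas (u : ℝ → ℂ) (hu : Measurable u) :
    Measurable fun p : ℝ × ℝ => ft (chirp p.1 u) p.2 := by
  unfold ft chirp
  have h2 : StronglyMeasurable (Function.uncurry fun (p : ℝ × ℝ) (s : ℝ) =>
      ee (s * p.2) * (ee (s ^ 2 * p.1) * u s)) := by
    refine Measurable.stronglyMeasurable ?_
    exact (ee_meas.comp (by fun_prop)).mul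
      ((ee_meas.comp (by fun_prop)).mul (hu.comp measurable_snd))
  exact h2.integral_prod_right.measurable

theorem U_meas (F : Finset ℤ) (l : ℝ) (g : ℤ → ℝ → ℂ) (hg : ∀ k ∈ F, Measurable (g k)) :
    Measurable (U F l g) := by
  unfold U
  have h1 : Measurable fun p : (ℝ × ℝ × ℝ) × ℝ =>
      tp F (fun k => ft (chirp p.1.1 (g k)) p.1.2.1) p.2 := by
    have e1 : (fun p : (ℝ × ℝ × ℝ) × ℝ =>
        tp F (fun k => ft (chirp p.1.1 (g k)) p.1.2.1) p.2) =
        ((univ : Set (ℝ × ℝ × ℝ)) ×ˢ Ioc (0 : ℝ) 1).indicator (fun p : (ℝ × ℝ × ℝ) × ℝ =>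
          ∑ k ∈ F, ft (chirp p.1.1 (g k)) p.1.2.1 * ee (k * p.2)) := by
      ext p
      unfold tp
      by_cases h : p.2 ∈ Ioc (0 : ℝ) 1
      · rw [indicator_of_mem h, indicator_of_mem (by exact ⟨mem_univ _, h⟩)]
      · rw [indicator_of_notMem h, indicator_of_notMem (by rintro ⟨_, h1⟩; exact h h1)]
    rw [e1]
    refine Measurable.indicator ?_ (MeasurableSet.univ.prod measurableSet_Ioc)
    refine Finset.measurable_fun_sum _ fun k hk => ?_
    have e2 : Measurable fun p : (ℝ × ℝ × ℝ) × ℝ => ft (chirp p.1.1 (g k)) p.1.2.1 := by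
      exact Measurable.comp (g := fun p : ℝ × ℝ => ft (chirp p.1 (g k)) p.2)
        (f := fun p : (ℝ × ℝ × ℝ) × ℝ => (p.1.1, p.1.2.1)) (ftchirp_meas (g k) (hg k hk))
        (by fun_prop)
    have e4 : Measurable fun p : (ℝ × ℝ × ℝ) × ℝ => ee (k * p.2) := ee_meas.comp (by fun_prop)
    exact e2.mul e4
  have h2 : StronglyMeasurable (Function.uncurry fun (p : ℝ × ℝ × ℝ) (s : ℝ) =>
      ee (s * p.2.2) * (ee (s ^ 2 * (l * p.1)) *
        tp F (fun k => ft (chirp p.1 (g k)) p.2.1) s)) := by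
    refine Measurable.stronglyMeasurable ?_
    exact (ee_meas.comp (by fun_prop)).mul ((ee_meas.comp (by fun_prop)).mul h1)
  exact h2.integral_prod_right.measurable

theorem U_sum {ι : Type*} (J : Finset ι) (F : Finset ℤ) (l : ℝ) (g : ι → ℤ → ℝ → ℂ)
    (hg : ∀ j ∈ J, ∀ k ∈ F, Integrable (g j k)) (p : ℝ × ℝ × ℝ) :
    U F l (fun k s => ∑ j ∈ J, g j k s) p = ∑ j ∈ J, U F l (g j) p := by
  unfold U
  have h1 : ∀ k ∈ F, ft (chirp p.1 (fun s => ∑ j ∈ J, g j k s)) p.2.1 =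
      ∑ j ∈ J, ft (chirp p.1 (g j k)) p.2.1 := by
    intro k hk
    rw [← ft_sum J (fun j => chirp p.1 (g j k)) (fun j hj => chirp_int _ _ (hg j hj k hk))]
    congr 1
    ext s
    unfold chirp
    rw [Finset.mul_sum]
  rw [← ft_sum J (fun j => chirp (l * p.1) (tp F (fun k => ft (chirp p.1 (g j k)) p.2.1)))
    (fun j _ => chirp_int _ _ (tp_int F _))]
  congr 1
  ext s
  unfold chirp
  rw [← Finset.mul_sum]
  congr 1
  unfold tp
  by_cases hs : s ∈ Ioc (0 : ℝ) 1
  · simp only [indicator_of_mem hs]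
    rw [Finset.sum_comm]
    refine Finset.sum_congr rfl fun k hk => ?_
    have := h1 k hk
    unfold chirp at this
    rw [this, Finset.sum_mul]
  · simp only [indicator_of_notMem hs]
    simp

theorem U_smul (F : Finset ℤ) (l : ℝ) (g : ℤ → ℝ → ℂ) (a : ℂ) (p : ℝ × ℝ × ℝ) :
    U F l (fun k s => a * g k s) p = a * U F l g p := by
  unfold U
  have h1 : ∀ k, ft (chirp p.1 (fun s => a * g k s)) p.2.1 = a * ft (chirp p.1 (g k)) p.2.1 := by
    intro k
    unfold ft chirp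
    rw [← integral_const_mul]
    congr 1
    ext s
    ring
  simp_rw [h1]
  have h2 : ∀ c : ℤ → ℂ, ∀ s, tp F (fun k => a * c k) s = a * tp F c s := by
    intro c s
    unfold tp
    by_cases hs : s ∈ Ioc (0 : ℝ) 1
    · rw [indicator_of_mem hs, indicator_of_mem hs, Finset.mul_sum]
      refine Finset.sum_congr rfl fun k _ => ?_
      ring
    · rw [indicator_of_notMem hs, indicator_of_notMem hs, mul_zero]
  unfold ft chirp
  rw [← integral_const_mul]
  congr 1
  ext s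
  rw [h2]
  ring

/-- the estimate for admissible families, as an `L^q` norm over `ℝ³` -/
theorem b1 (κ M q l : ℝ) (hκ : 0 ≤ κ) (hM : 0 < M) (hκ1 : κ < 1) (hq : 2 < (2 - κ) * (q - 2))
    (hq4 : q < 4) (hl : l ≠ 0) :
    ∃ (C : ℝ≥0∞) (η : ℝ), C ≠ ∞ ∧ 0 < η ∧ ∀ (F : Finset ℤ), RB F κ M →
      ∀ (g : ℤ → ℝ → ℂ) (A : Set ℝ), Adm F g A →
      eLpNorm (U F l g) (ENNReal.ofReal q) volume ≤ C * volume A ^ (1 / q + η) := by
  have hq2 : 2 < q := by nlinarith
  have hq0 : 0 < q := by linarith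
  obtain ⟨C, η, hC, hη, h⟩ := b0 κ M q l hκ hM hκ1 hq hq4 hl
  refine ⟨C ^ (1 / q), η, (ENNReal.rpow_lt_top_of_nonneg (by positivity) hC).ne, hη, ?_⟩
  intro F hF g A hA
  have hm := U_meas F l g hA.meas
  rw [eLpNorm_eq_lintegral_rpow_enorm_toReal (by simp [hq0]) ENNReal.ofReal_ne_top,
    ENNReal.toReal_ofReal hq0.le]
  have h1 : ∫⁻ p, ‖U F l g p‖ₑ ^ q ≤ C * volume A ^ (1 + q * η) := by
    rw [Measure.volume_eq_prod, lintegral_prod _ (hm.enorm.pow_const q).aemeasurable]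
    refine le_trans (le_of_eq ?_) (h F hF g A hA)
    refine lintegral_congr fun t => ?_
    have hmt : Measurable fun z : ℝ × ℝ => U F l g (t, z) :=
      Measurable.comp (g := U F l g) (f := fun z : ℝ × ℝ => (t, z)) hm (by fun_prop)
    rw [Measure.volume_eq_prod, lintegral_prod _ (hmt.enorm.pow_const q).aemeasurable]
    rfl
  calc (∫⁻ p, ‖U F l g p‖ₑ ^ q) ^ (1 / q) ≤ (C * volume A ^ (1 + q * η)) ^ (1 / q) := by
        gcongr
    _ = _ := by
        rw [ENNReal.mul_rpow_of_nonneg _ _ (by positivity), ← ENNReal.rpow_mul]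
        congr 2
        field_simp

end Pool.Agent.J4.H85.TS
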