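import Pool.Agent.J4.H85.TS10
set_option autoImplicit false

/-! Decomposition into level sets: the extension estimate for finite families of unbounded
coefficient functions. -/

namespace Pool.Agent.J4.H85.TS

open MeasureTheory Complex Set Filter Topology
open scoped ENNReal NNReal RealInnerProductSpace ComplexConjugate
open Pool.Agent.R412.RT (E ee ee_norm ee_add ee_conj ee_meas ee_cont planch)

/-- the sublevel sets -/
def TT (N : ℝ → ℝ) (Y : ℝ) (j : ℕ) : Set ℝ := {x | x ∈ Icc (-1 : ℝ) 1 ∧ N x ≤ (2 ^ j * Y) ^ 2}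

/-- the level sets -/
def SS (N : ℝ → ℝ) (Y : ℝ) : ℕ → Set ℝ
  | 0 => TT N Y 0
  | (j + 1) => TT N Y (j + 1) \ TT N Y j

theorem TT_mono (N : ℝ → ℝ) (Y : ℝ) (hY : 0 < Y) (j : ℕ) : TT N Y j ⊆ TT N Y (j + 1) := by
  intro x hx
  refine ⟨hx.1, hx.2.trans ?_⟩
  have : (2 : ℝ) ^ j ≤ 2 ^ (j + 1) := pow_le_pow_right₀ (by norm_num) (by omega)
  gcongr

theorem TT_sum (N : ℝ → ℝ) (Y : ℝ) (hY : 0 < Y) (u : ℝ → ℂ) (n : ℕ) (x : ℝ) :
    (TT N Y n).indicator u x = ∑ j ∈ Finset.range (n + 1), (SS N Y j).indicator u x := by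
  induction n with
  | zero => simp [SS]
  | succ n ih =>
    rw [Finset.sum_range_succ, ← ih]
    have h1 : SS N Y (n + 1) = TT N Y (n + 1) \ TT N Y n := rfl
    rw [h1]
    by_cases h : x ∈ TT N Y n
    · rw [indicator_of_mem h, indicator_of_mem (TT_mono N Y hY n h),
        indicator_of_notMem (fun h2 => h2.2 h), add_zero]
    · rw [indicator_of_notMem h, zero_add]
      by_cases h2 : x ∈ TT N Y (n + 1)
      · rw [indicator_of_mem h2, indicator_of_mem (by exact ⟨h2, h⟩)]
      · rw [indicator_of_notMem h2, indicator_of_notMem (fun h3 => h2 h3.1)]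

theorem TT_meas (N : ℝ → ℝ) (hN : Measurable N) (Y : ℝ) (j : ℕ) : MeasurableSet (TT N Y j) :=
  measurableSet_Icc.inter (measurableSet_le hN measurable_const)

theorem SS_meas (N : ℝ → ℝ) (hN : Measurable N) (Y : ℝ) (j : ℕ) : MeasurableSet (SS N Y j) := by
  cases j with
  | zero => exact TT_meas N hN Y 0
  | succ j => exact (TT_meas N hN Y _).diff (TT_meas N hN Y _)

theorem SS_sub (N : ℝ → ℝ) (Y : ℝ) (j : ℕ) : SS N Y j ⊆ TT N Y j := by
  cases j with
  | zero => exact subset_rfl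
  | succ j => exact sdiff_subset

theorem SS_vol (N : ℝ → ℝ) (hN : Measurable N) (Y : ℝ) (hY : 0 < Y) (q : ℝ) (hq : 0 < q)
    (h : ∫⁻ x, ENNReal.ofReal (N x) ^ (q / 2) ≤ ENNReal.ofReal Y ^ q) (j : ℕ) :
    volume (SS N Y (j + 1)) ≤ ENNReal.ofReal ((2 ^ j)⁻¹) ^ q := by
  have h1 : ENNReal.ofReal ((2 ^ j * Y)) ^ q * volume (SS N Y (j + 1)) ≤ ENNReal.ofReal Y ^ q := by
    refine le_trans ?_ h
    calc ENNReal.ofReal ((2 ^ j * Y)) ^ q * volume (SS N Y (j + 1))
        = ∫⁻ x in SS N Y (j + 1), ENNReal.ofReal ((2 ^ j * Y)) ^ q := by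
          rw [setLIntegral_const]
      _ ≤ ∫⁻ x in SS N Y (j + 1), ENNReal.ofReal (N x) ^ (q / 2) := by
          refine setLIntegral_mono' (SS_meas N hN Y _) fun x hx => ?_
          have h2 : (2 ^ j * Y) ^ 2 < N x := by
            by_contra h3
            push Not at h3
            exact hx.2 ⟨hx.1.1, h3⟩
          have h3 : ENNReal.ofReal ((2 ^ j * Y)) ^ q = ENNReal.ofReal ((2 ^ j * Y) ^ 2) ^ (q / 2) := by
            rw [ENNReal.ofReal_pow (by positivity), ← ENNReal.rpow_natCast, ← ENNReal.rpow_mul]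
            congr 1
            push_cast
            ring
          rw [h3]
          gcongr
      _ ≤ ∫⁻ x, ENNReal.ofReal (N x) ^ (q / 2) := setLIntegral_le_lintegral _ _
  have hYq : ENNReal.ofReal Y ^ q ≠ 0 := by
    simp [hY, hq]
  have hYt : ENNReal.ofReal Y ^ q ≠ ∞ := (ENNReal.rpow_lt_top_of_nonneg hq.le (by simp)).ne
  have h4 : (ENNReal.ofReal (2 ^ j) ^ q * volume (SS N Y (j + 1))) * ENNReal.ofReal Y ^ q ≤
      1 * ENNReal.ofReal Y ^ q := by
    rw [one_mul]
    refine le_trans (le_of_eq ?_) h1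
    rw [ENNReal.ofReal_mul (by positivity), ENNReal.mul_rpow_of_nonneg _ _ hq.le]
    ring
  have h5 := (ENNReal.mul_le_mul_iff_left hYq hYt).1 h4
  have h6 : ENNReal.ofReal ((2 ^ j)⁻¹) ^ q = (ENNReal.ofReal (2 ^ j) ^ q)⁻¹ := by
    rw [ENNReal.ofReal_inv_of_pos (by positivity), ENNReal.inv_rpow]
  rw [h6]
  exact ENNReal.le_inv_iff_mul_le.2 (by rw [mul_comm]; exact h5)

theorem b2 (κ M q l : ℝ) (hκ : 0 ≤ κ) (hM : 0 < M) (hκ1 : κ < 1) (hq : 2 < (2 - κ) * (q - 2))
    (hq4 : q < 4) (hl : l ≠ 0) :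
    ∃ (C : ℝ≥0∞), C ≠ ∞ ∧ ∀ (F : Finset ℤ), RB F κ M →
      ∀ (g : ℤ → ℝ → ℂ), (∀ k, Measurable (g k)) → (∀ k x, x ∉ Icc (-1 : ℝ) 1 → g k x = 0) →
      ∀ (Y : ℝ) (n : ℕ), 0 < Y → (∀ x, ∑ k ∈ F, ‖g k x‖ ^ 2 ≤ (2 ^ n * Y) ^ 2) →
      ∫⁻ x, ENNReal.ofReal (∑ k ∈ F, ‖g k x‖ ^ 2) ^ (q / 2) ≤ ENNReal.ofReal Y ^ q →
      eLpNorm (U F l g) (ENNReal.ofReal q) volume ≤ C * ENNReal.ofReal Y := by
  have hq2 : 2 < q := by nlinarith
  have hq0 : 0 < q := by linarith
  obtain ⟨C, η, hC, hη, h⟩ := b1 κ M q l hκ hM hκ1 hq hq4 hl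
  set r : ℝ≥0∞ := ENNReal.ofReal ((2 : ℝ) ^ (-(q * η))) with hr
  have hr1 : r < 1 := by
    rw [hr, ENNReal.ofReal_lt_one]
    exact Real.rpow_lt_one_of_one_lt_of_neg (by norm_num) (by nlinarith)
  refine ⟨C * (2 ^ (1 / q + η) + 2 * (1 - r)⁻¹), ?_, ?_⟩
  · refine ENNReal.mul_ne_top hC (ENNReal.add_ne_top.2 ⟨?_, ENNReal.mul_ne_top (by simp) ?_⟩)
    · exact (ENNReal.rpow_lt_top_of_nonneg (by positivity) (by simp)).ne
    · exact ENNReal.inv_ne_top.2 (tsub_pos_of_lt hr1).ne'
  intro F hF g hgm hgs Y n hY hn hi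
  set N : ℝ → ℝ := fun x => ∑ k ∈ F, ‖g k x‖ ^ 2 with hN
  have hNm : Measurable N := by
    refine Finset.measurable_fun_sum _ fun k _ => ?_
    exact (hgm k).norm.pow_const 2
  set G : ℕ → ℤ → ℝ → ℂ := fun j k x => (SS N Y j).indicator (g k) x with hG
  -- each piece is admissible after scaling
  have hadm : ∀ j, Adm F (fun k s => ((2 ^ j * Y : ℝ) : ℂ)⁻¹ * G j k s) (SS N Y j) := by
    intro j
    have hc : 0 < 2 ^ j * Y := by positivity
    refine ⟨SS_meas N hNm Y j, fun x hx => (SS_sub N Y j hx).1, ?_, ?_, ?_⟩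
    · intro k _
      exact ((hgm k).indicator (SS_meas N hNm Y j)).const_mul _
    · intro k _ s hs
      simp only [hG]
      rw [indicator_of_notMem hs, mul_zero]
    · intro s
      by_cases hs : s ∈ SS N Y j
      · have h1 := (SS_sub N Y j hs).2
        simp only [hG, indicator_of_mem hs, norm_mul, norm_inv, Complex.norm_real,
          Real.norm_of_nonneg hc.le, mul_pow]
        rw [← Finset.mul_sum, inv_pow, inv_mul_le_iff₀ (by positivity), mul_one]
        simpa [hN, mul_pow] using h1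
      · simp only [hG, indicator_of_notMem hs]
        simp
  have hGint : ∀ j, ∀ k ∈ F, Integrable (G j k) := by
    intro j k hk
    have h1 := (hadm j).int k hk
    have hc : ((2 ^ j * Y : ℝ) : ℂ) ≠ 0 := by
      have : 0 < 2 ^ j * Y := by positivity
      exact_mod_cast this.ne'
    have h2 := h1.const_mul ((2 ^ j * Y : ℝ) : ℂ)
    refine h2.congr (Eventually.of_forall fun s => ?_)
    simp only
    rw [← mul_assoc, mul_inv_cancel₀ hc, one_mul]
  -- the sum
  have hsum : U F l g = ∑ j ∈ Finset.range (n + 1), U F l (G j) := by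
    ext p
    rw [Finset.sum_apply, ← U_sum (Finset.range (n + 1)) F l G (fun j _ => hGint j) p]
    congr 1
    ext k x
    simp only [hG]
    rw [← TT_sum N Y hY]
    by_cases hx : x ∈ Icc (-1 : ℝ) 1
    · rw [indicator_of_mem]
      exact ⟨hx, hn x⟩
    · rw [hgs k x hx]
      symm
      by_cases h1 : x ∈ TT N Y n
      · rw [indicator_of_mem h1, hgs k x hx]
      · rw [indicator_of_notMem h1]
  have hpiece : ∀ j, eLpNorm (U F l (G j)) (ENNReal.ofReal q) volume ≤
      ENNReal.ofReal (2 ^ j * Y) * (C * volume (SS N Y j) ^ (1 / q + η)) := by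
    intro j
    have hc : 0 < 2 ^ j * Y := by positivity
    have hcc : ((2 ^ j * Y : ℝ) : ℂ) ≠ 0 := by exact_mod_cast hc.ne'
    have h1 : U F l (G j) = ((2 ^ j * Y : ℝ) : ℂ) •
        U F l (fun k s => ((2 ^ j * Y : ℝ) : ℂ)⁻¹ * G j k s) := by
      ext p
      rw [Pi.smul_apply, smul_eq_mul, U_smul, ← mul_assoc, mul_inv_cancel₀ hcc, one_mul]
    rw [h1, eLpNorm_const_smul]
    have h2 : ‖((2 ^ j * Y : ℝ) : ℂ)‖ₑ = ENNReal.ofReal (2 ^ j * Y) := by
      rw [← ofReal_norm, Complex.norm_real, Real.norm_of_nonneg hc.le]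
    rw [h2]
    gcongr
    exact h F hF _ _ (hadm j)
  have hvol0 : volume (SS N Y 0) ≤ 2 := (hadm 0).vol
  have h1q : (1 : ℝ≥0∞) ≤ ENNReal.ofReal q := by
    rw [ENNReal.one_le_ofReal]
    linarith
  have hexp : 0 < 1 / q + η := by positivity
  calc eLpNorm (U F l g) (ENNReal.ofReal q) volume
      ≤ ∑ j ∈ Finset.range (n + 1), eLpNorm (U F l (G j)) (ENNReal.ofReal q) volume := by
        rw [hsum]
        refine eLpNorm_sum_le (fun j _ => ?_) h1q
        refine (U_meas F l (G j) fun k _ => ?_).aestronglyMeasurable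
        exact (hgm k).indicator (SS_meas N hNm Y j)
    _ ≤ ∑ j ∈ Finset.range (n + 1),
        ENNReal.ofReal (2 ^ j * Y) * (C * volume (SS N Y j) ^ (1 / q + η)) :=
        Finset.sum_le_sum fun j _ => hpiece j
    _ = (∑ j ∈ Finset.range n,
        ENNReal.ofReal (2 ^ (j + 1) * Y) * (C * volume (SS N Y (j + 1)) ^ (1 / q + η))) +
        ENNReal.ofReal (2 ^ 0 * Y) * (C * volume (SS N Y 0) ^ (1 / q + η)) :=
        Finset.sum_range_succ' _ _
    _ ≤ (∑ j ∈ Finset.range n, (ENNReal.ofReal Y * C * 2) * r ^ j) +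
        ENNReal.ofReal Y * (C * 2 ^ (1 / q + η)) := by
        refine add_le_add (Finset.sum_le_sum fun j _ => ?_) ?_
        · have h3 : volume (SS N Y (j + 1)) ^ (1 / q + η) ≤
              ENNReal.ofReal ((2 ^ j)⁻¹) * r ^ j := by
            calc volume (SS N Y (j + 1)) ^ (1 / q + η)
                ≤ (ENNReal.ofReal ((2 ^ j)⁻¹) ^ q) ^ (1 / q + η) := by
                  gcongr
                  exact SS_vol N hNm Y hY q hq0 hi j
              _ = ENNReal.ofReal ((2 ^ j)⁻¹) * r ^ j := by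
                  rw [← ENNReal.rpow_mul, hr, ← ENNReal.ofReal_pow (by positivity),
                    ENNReal.ofReal_rpow_of_pos (by positivity),
                    ← ENNReal.ofReal_mul (by positivity)]
                  congr 1
                  have e1 : q * (1 / q + η) = 1 + q * η := by field_simp
                  rw [e1, Real.rpow_add (by positivity), Real.rpow_one]
                  congr 1
                  rw [← Real.rpow_natCast ((2 : ℝ) ^ (-(q * η))) j, ← Real.rpow_mul (by norm_num),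
                    ← Real.rpow_natCast 2 j, ← Real.rpow_neg (by norm_num),
                    ← Real.rpow_mul (by norm_num)]
                  congr 1
                  ring
          calc ENNReal.ofReal (2 ^ (j + 1) * Y) * (C * volume (SS N Y (j + 1)) ^ (1 / q + η))
              ≤ ENNReal.ofReal (2 ^ (j + 1) * Y) * (C * (ENNReal.ofReal ((2 ^ j)⁻¹) * r ^ j)) := by
                gcongr
            _ = (ENNReal.ofReal (2 ^ (j + 1) * Y) * ENNReal.ofReal ((2 ^ j)⁻¹)) * C * r ^ j := by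
                ring
            _ = _ := by
                rw [← ENNReal.ofReal_mul (by positivity)]
                have e2 : 2 ^ (j + 1) * Y * (2 ^ j)⁻¹ = Y * 2 := by
                  rw [pow_succ]
                  field_simp
                rw [e2, ENNReal.ofReal_mul hY.le]
                have e3 : ENNReal.ofReal 2 = 2 := by norm_num
                rw [e3]
                ring
        · rw [pow_zero, one_mul]
          gcongr
    _ = ENNReal.ofReal Y * C * 2 * (∑ j ∈ Finset.range n, r ^ j) +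
        ENNReal.ofReal Y * (C * 2 ^ (1 / q + η)) := by
        rw [Finset.mul_sum]
    _ ≤ ENNReal.ofReal Y * C * 2 * (1 - r)⁻¹ + ENNReal.ofReal Y * (C * 2 ^ (1 / q + η)) := by
        gcongr
        rw [← ENNReal.tsum_geometric]
        exact ENNReal.sum_le_tsum _
    _ = _ := by ring

end Pool.Agent.J4.H85.TS
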