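import Pool.Agent.J4.H85.TS11
set_option autoImplicit false

/-! Fourier coefficients on `(0,1]` and partial sums of the Fourier series. -/

namespace Pool.Agent.J4.H85.TS

open MeasureTheory Complex Set Filter Topology
open scoped ENNReal NNReal RealInnerProductSpace ComplexConjugate
open Pool.Agent.R412.RT (E ee ee_norm ee_add ee_conj ee_meas ee_cont planch)

/-- Fourier coefficients on `(0,1]` -/
noncomputable def fc (φ : ℝ → ℂ) (k : ℤ) : ℂ := ∫ u in Ioc (0 : ℝ) 1, ee (-(k * u)) * φ u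

theorem fc_eq (φ : ℝ → ℂ) (k : ℤ) : fourierCoeffOn (zero_lt_one (α := ℝ)) φ k = fc φ k := by
  rw [fourierCoeffOn_eq_integral]
  unfold fc
  rw [intervalIntegral.integral_of_le zero_le_one]
  simp only [sub_zero, div_one, one_smul]
  refine setIntegral_congr_fun measurableSet_Ioc fun u _ => ?_
  simp only [smul_eq_mul]
  congr 1
  rw [fourier_coe_apply]
  unfold ee
  congr 1
  push_cast
  ring

theorem parseval (φ : ℝ → ℂ) (hφ : MemLp φ 2 (volume.restrict (Ioc (0 : ℝ) 1))) :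
    HasSum (fun k : ℤ => ‖fc φ k‖ ^ 2) (∫ u in Ioc (0 : ℝ) 1, ‖φ u‖ ^ 2) := by
  have h := hasSum_sq_fourierCoeffOn (zero_lt_one (α := ℝ)) hφ
  simp only [sub_zero, inv_one, one_smul] at h
  rw [intervalIntegral.integral_of_le zero_le_one] at h
  refine h.congr_fun ?_
  intro k
  rw [fc_eq]

/-- the trigonometric polynomial -/
noncomputable def tq (F : Finset ℤ) (c : ℤ → ℂ) (x : ℝ) : ℂ := ∑ k ∈ F, c k * ee (k * x)

theorem tq_cont (F : Finset ℤ) (c : ℤ → ℂ) : Continuous (tq F c) := by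
  unfold tq
  refine continuous_finsetSum _ fun k _ => ?_
  exact continuous_const.mul (ee_cont.comp (by fun_prop))

theorem tq_le (F : Finset ℤ) (c : ℤ → ℂ) (x : ℝ) : ‖tq F c x‖ ≤ ∑ k ∈ F, ‖c k‖ := by
  unfold tq
  refine (norm_sum_le _ _).trans (Finset.sum_le_sum fun k _ => ?_)
  rw [norm_mul, ee_norm, mul_one]

theorem tp_eq (F : Finset ℤ) (c : ℤ → ℂ) (x : ℝ) : tp F c x = (Ioc (0 : ℝ) 1).indicator (tq F c) x :=
  rfl

theorem tq_int (F : Finset ℤ) (c : ℤ → ℂ) : IntegrableOn (fun x => ‖tq F c x‖ ^ 2) (Ioc (0 : ℝ) 1) :=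
  (((tq_cont F c).norm.pow 2).integrableOn_Icc).mono_set Ioc_subset_Icc_self

theorem tq_two (F : Finset ℤ) (c : ℤ → ℂ) :
    ∫ x in Ioc (0 : ℝ) 1, ‖tq F c x‖ ^ 2 = ∑ k ∈ F, ‖c k‖ ^ 2 := by
  have h := tp_two F c
  have h1 : ∫⁻ x, ‖tp F c x‖ₑ ^ 2 = ∫⁻ x in Ioc (0 : ℝ) 1, ENNReal.ofReal (‖tq F c x‖ ^ 2) := by
    rw [← lintegral_indicator measurableSet_Ioc]
    refine lintegral_congr fun x => ?_
    rw [tp_eq]
    by_cases hx : x ∈ Ioc (0 : ℝ) 1
    · rw [indicator_of_mem hx, indicator_of_mem hx, ENNReal.ofReal_pow (norm_nonneg _), ofReal_norm]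
    · rw [indicator_of_notMem hx, indicator_of_notMem hx]
      simp
  rw [h1, ← ofReal_integral_eq_lintegral_ofReal (tq_int F c)
    (Eventually.of_forall fun x => by positivity)] at h
  exact (ENNReal.ofReal_eq_ofReal_iff (integral_nonneg fun x => by positivity)
    (by positivity)).1 h

theorem memLp_tq (F : Finset ℤ) (c : ℤ → ℂ) :
    MemLp (tq F c) 2 (volume.restrict (Ioc (0 : ℝ) 1)) := by
  rw [memLp_two_iff_integrable_sq_norm (tq_cont F c).aestronglyMeasurable]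
  exact tq_int F c

theorem proj (φ : ℝ → ℂ) (hφ : MemLp φ 2 (volume.restrict (Ioc (0 : ℝ) 1))) (F : Finset ℤ) :
    ∫ u in Ioc (0 : ℝ) 1, ‖φ u - tq F (fc φ) u‖ ^ 2 =
      (∫ u in Ioc (0 : ℝ) 1, ‖φ u‖ ^ 2) - ∑ k ∈ F, ‖fc φ k‖ ^ 2 := by
  set μ := (volume : Measure ℝ).restrict (Ioc (0 : ℝ) 1) with hμ
  have hφ1 : Integrable φ μ := hφ.integrable (by norm_num)
  have hφ2 : Integrable (fun u => ‖φ u‖ ^ 2) μ := hφ.integrable_norm_pow (by norm_num)
  have hcross : Integrable (fun u => φ u * conj (tq F (fc φ) u)) μ := by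
    refine hφ1.mul_bdd (c := ∑ k ∈ F, ‖fc φ k‖) ?_ ?_
    · exact (Complex.continuous_conj.comp (tq_cont F _)).aestronglyMeasurable
    · exact Eventually.of_forall fun u => by
        rw [RCLike.norm_conj]
        exact tq_le F _ u
  have h1 : ∀ u, ‖φ u - tq F (fc φ) u‖ ^ 2 = ‖φ u‖ ^ 2 + ‖tq F (fc φ) u‖ ^ 2 -
      2 * (φ u * conj (tq F (fc φ) u)).re := by
    intro u
    rw [← Complex.normSq_eq_norm_sq, ← Complex.normSq_eq_norm_sq, ← Complex.normSq_eq_norm_sq,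
      Complex.normSq_sub]
  simp_rw [h1]
  have hre : Integrable (fun u => 2 * (φ u * conj (tq F (fc φ) u)).re) μ :=
    (hcross.re).const_mul 2
  have hadd : Integrable (fun u => ‖φ u‖ ^ 2 + ‖tq F (fc φ) u‖ ^ 2) μ := hφ2.add (tq_int F _)
  rw [integral_sub hadd hre, integral_add hφ2 (tq_int F _), tq_two, integral_const_mul]
  have h2 : ∫ u, φ u * conj (tq F (fc φ) u) ∂μ = ((∑ k ∈ F, ‖fc φ k‖ ^ 2 : ℝ) : ℂ) := by
    have h3 : ∀ u, φ u * conj (tq F (fc φ) u) =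
        ∑ k ∈ F, conj (fc φ k) * (ee (-(k * u)) * φ u) := by
      intro u
      unfold tq
      rw [map_sum, Finset.mul_sum]
      refine Finset.sum_congr rfl fun k _ => ?_
      rw [map_mul, ee_conj]
      ring
    simp_rw [h3]
    rw [integral_finsetSum]
    · push_cast
      refine Finset.sum_congr rfl fun k _ => ?_
      rw [integral_const_mul]
      have h4 : ∫ u, ee (-(k * u)) * φ u ∂μ = fc φ k := rfl
      rw [h4, mul_comm, Complex.mul_conj, Complex.normSq_eq_norm_sq]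
      push_cast
      rfl
    · intro k _
      refine Integrable.const_mul ?_ _
      refine hφ1.bdd_mul (c := 1) (ee_meas.comp (by fun_prop)).aestronglyMeasurable ?_
      exact Eventually.of_forall fun u => by simp [ee_norm]
  have h5 : ∫ u, (φ u * conj (tq F (fc φ) u)).re ∂μ = ∑ k ∈ F, ‖fc φ k‖ ^ 2 := by
    have h6 := integral_re hcross
    have h7 : (∫ u, φ u * conj (tq F (fc φ) u) ∂μ).re = ∑ k ∈ F, ‖fc φ k‖ ^ 2 := by
      rw [h2, Complex.ofReal_re]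
    rw [← h7]
    exact h6
  rw [h5]
  ring

/-- Bessel -/
theorem bessel (φ : ℝ → ℂ) (hφ : MemLp φ 2 (volume.restrict (Ioc (0 : ℝ) 1))) (F : Finset ℤ) :
    ∑ k ∈ F, ‖fc φ k‖ ^ 2 ≤ ∫ u in Ioc (0 : ℝ) 1, ‖φ u‖ ^ 2 := by
  have h1 : 0 ≤ ∫ u in Ioc (0 : ℝ) 1, ‖φ u - tq F (fc φ) u‖ ^ 2 :=
    integral_nonneg fun u => by positivity
  rw [proj φ hφ F] at h1
  linarith

theorem lint_two (φ : ℝ → ℂ) (hφ : MemLp φ 2 (volume.restrict (Ioc (0 : ℝ) 1))) :
    ∫⁻ u in Ioc (0 : ℝ) 1, ‖φ u‖ₑ ^ 2 = ENNReal.ofReal (∫ u in Ioc (0 : ℝ) 1, ‖φ u‖ ^ 2) := by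
  rw [ofReal_integral_eq_lintegral_ofReal (hφ.integrable_norm_pow (by norm_num))
    (Eventually.of_forall fun x => by positivity)]
  refine lintegral_congr fun u => ?_
  rw [ENNReal.ofReal_pow (norm_nonneg _), ofReal_norm]

theorem one_le_two (f : ℝ → ℝ≥0∞) (hf : AEMeasurable f (volume.restrict (Ioc (0 : ℝ) 1))) :
    ∫⁻ u in Ioc (0 : ℝ) 1, f u ≤ (∫⁻ u in Ioc (0 : ℝ) 1, f u ^ 2) ^ (1 / 2 : ℝ) := by
  have h := ENNReal.lintegral_mul_norm_pow_le (μ := (volume : Measure ℝ).restrict (Ioc (0 : ℝ) 1))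
    (f := fun u => f u ^ 2) (g := fun _ => 1) (hf.pow_const 2) aemeasurable_const
    (p := 1 / 2) (q := 1 / 2) (by norm_num) (by norm_num) (by norm_num)
  have h1 : ∀ u, (f u ^ 2) ^ (1 / 2 : ℝ) * (1 : ℝ≥0∞) ^ (1 / 2 : ℝ) = f u := by
    intro u
    rw [ENNReal.one_rpow, mul_one, ← ENNReal.rpow_natCast, ← ENNReal.rpow_mul]
    norm_num
  simp_rw [h1] at h
  refine h.trans (le_of_eq ?_)
  rw [lintegral_const, Measure.restrict_apply_univ, Real.volume_Ioc]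
  simp

end Pool.Agent.J4.H85.TS
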