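import Pool.Agent.J4.H85.TS12
set_option autoImplicit false

/-! The extension estimate for functions with thin spectrum in the second variable. -/

namespace Pool.Agent.J4.H85.TS

open MeasureTheory Complex Set Filter Topology
open scoped ENNReal NNReal RealInnerProductSpace ComplexConjugate
open Pool.Agent.R412.RT (E ee ee_norm ee_add ee_conj ee_meas ee_cont planch)

/-- the anisotropic extension of a function `h` on `ℝ × ℝ` -/
noncomputable def UG (l : ℝ) (h : ℝ → ℝ → ℂ) (p : ℝ × ℝ × ℝ) : ℂ :=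
  ft (chirp p.1 (fun x => ft (chirp (l * p.1) (h x)) p.2.2)) p.2.1

/-- the basic functions -/
noncomputable def ww (k : ℤ) (u : ℝ) : ℂ := tp {k} (fun _ => 1) u

theorem tp_ww (F : Finset ℤ) (c : ℤ → ℂ) (u : ℝ) : tp F c u = ∑ k ∈ F, c k * ww k u := by
  unfold ww tp
  by_cases hu : u ∈ Ioc (0 : ℝ) 1
  · simp [indicator_of_mem hu]
  · simp [indicator_of_notMem hu]

theorem ft_tp (F : Finset ℤ) (c : ℤ → ℂ) (τ β : ℝ) :
    ft (chirp τ (tp F c)) β = ∑ k ∈ F, c k * ft (chirp τ (ww k)) β := by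
  have h1 : chirp τ (tp F c) = fun u => ∑ k ∈ F, c k * chirp τ (ww k) u := by
    ext u
    unfold chirp
    rw [tp_ww, Finset.mul_sum]
    refine Finset.sum_congr rfl fun k _ => ?_
    ring
  rw [h1, ft_sum F (fun k u => c k * chirp τ (ww k) u)]
  · refine Finset.sum_congr rfl fun k _ => ?_
    unfold ft
    rw [← integral_const_mul]
    congr 1
    ext u
    ring
  · intro k _
    exact (chirp_int τ _ (tp_int _ _)).const_mul _

theorem U_eq (F : Finset ℤ) (l : ℝ) (g : ℤ → ℝ → ℂ) (hg : ∀ k ∈ F, Integrable (g k))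
    (p : ℝ × ℝ × ℝ) : U F l g p = UG l (fun x => tp F (fun k => g k x)) p := by
  unfold U UG
  rw [ft_tp]
  simp_rw [ft_tp]
  have h1 : chirp p.1 (fun x => ∑ k ∈ F, g k x * ft (chirp (l * p.1) (ww k)) p.2.2) =
      fun x => ∑ k ∈ F, chirp p.1 (g k) x * ft (chirp (l * p.1) (ww k)) p.2.2 := by
    ext x
    unfold chirp
    rw [Finset.mul_sum]
    refine Finset.sum_congr rfl fun k _ => ?_
    ring
  rw [h1, ft_sum F (fun k x => chirp p.1 (g k) x * ft (chirp (l * p.1) (ww k)) p.2.2)]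
  · refine Finset.sum_congr rfl fun k _ => ?_
    unfold ft
    rw [← integral_mul_const]
    congr 1
    ext u
    ring
  · intro k hk
    exact (chirp_int p.1 _ (hg k hk)).mul_const _

theorem ft_chirp_le (τ β : ℝ) (ψ : ℝ → ℂ) (hψ : AEMeasurable ψ) (hs : ∀ u, u ∉ Ioc (0 : ℝ) 1 → ψ u = 0) :
    ‖ft (chirp τ ψ) β‖ₑ ≤ (∫⁻ u in Ioc (0 : ℝ) 1, ‖ψ u‖ₑ ^ 2) ^ (1 / 2 : ℝ) := by
  refine (ft_le _ _).trans (le_trans (le_of_eq ?_)
    (one_le_two (fun u => ‖ψ u‖ₑ) hψ.enorm.restrict))
  rw [← lintegral_indicator measurableSet_Ioc]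
  refine lintegral_congr fun u => ?_
  unfold chirp
  rw [enorm_mul, ee_enorm, one_mul]
  by_cases hu : u ∈ Ioc (0 : ℝ) 1
  · rw [indicator_of_mem hu]
  · rw [indicator_of_notMem hu, hs u hu, enorm_zero]

theorem fc_meas (h : ℝ → ℝ → ℂ) (hm : Measurable (Function.uncurry h)) (k : ℤ) :
    Measurable fun x => fc (h x) k := by
  unfold fc
  have h1 : StronglyMeasurable (Function.uncurry fun (x u : ℝ) => ee (-(k * u)) * h x u) := by
    refine Measurable.stronglyMeasurable ?_
    exact (ee_meas.comp (by fun_prop)).mul hm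
  exact h1.integral_prod_right.measurable

theorem tend_Icc : Tendsto (fun n : ℕ => Finset.Icc (-(n : ℤ)) n) atTop atTop := by
  refine tendsto_atTop_finset_of_monotone ?_ ?_
  · intro m n hmn x hx
    rw [Finset.mem_Icc] at hx ⊢
    omega
  · intro x
    refine ⟨x.natAbs, ?_⟩
    rw [Finset.mem_Icc]
    omega

/-- every finite subset has few representations of differences -/
def RBS (Λ : Set ℤ) (κ M : ℝ) : Prop := ∀ F : Finset ℤ, (∀ k ∈ F, k ∈ Λ) → RB F κ M

theorem b3 (κ M q l : ℝ) (hκ : 0 ≤ κ) (hM : 0 < M) (hκ1 : κ < 1) (hq : 2 < (2 - κ) * (q - 2))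
    (hq4 : q < 4) (hl : l ≠ 0) :
    ∃ (C : ℝ≥0∞), C ≠ ∞ ∧ ∀ (Λ : Set ℤ), RBS Λ κ M →
      ∀ (h : ℝ → ℝ → ℂ), Measurable (Function.uncurry h) →
      (∀ x, x ∉ Icc (-1 : ℝ) 1 → ∀ u, h x u = 0) → (∀ x u, u ∉ Ioc (0 : ℝ) 1 → h x u = 0) →
      (∀ᵐ x : ℝ, ∀ k : ℤ, k ∉ Λ → fc (h x) k = 0) →
      ∀ (Y : ℝ), 0 < Y →
      ∫⁻ x, (∫⁻ u in Ioc (0 : ℝ) 1, ‖h x u‖ₑ ^ 2) ^ (q / 2) ≤ ENNReal.ofReal Y ^ q →
      eLpNorm (UG l h) (ENNReal.ofReal q) volume ≤ C * ENNReal.ofReal Y := by
  classical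
  have hq2 : 2 < q := by nlinarith
  have hq0 : 0 < q := by linarith
  obtain ⟨C, hC, hb⟩ := b2 κ M q l hκ hM hκ1 hq hq4 hl
  refine ⟨C, hC, ?_⟩
  intro Λ hΛ h hm hx0 hu0 hsp Y hY hi
  set H2 : ℝ → ℝ≥0∞ := fun x => ∫⁻ u in Ioc (0 : ℝ) 1, ‖h x u‖ₑ ^ 2 with hH2
  have hH2m : Measurable H2 := (hm.enorm.pow_const 2).lintegral_prod_right'
  have hhx : ∀ x, Measurable (h x) := fun x =>
    hm.comp (by fun_prop : Measurable fun u : ℝ => (x, u))
  have hmem : ∀ x, H2 x ≠ ∞ → MemLp (h x) 2 (volume.restrict (Ioc (0 : ℝ) 1)) := by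
    intro x hx
    refine ⟨(hhx x).aestronglyMeasurable, ?_⟩
    rw [eLpNorm_eq_lintegral_rpow_enorm_toReal (by norm_num) (by norm_num)]
    refine ENNReal.rpow_lt_top_of_nonneg (by positivity) ?_
    simpa [hH2] using hx
  have hH2r : ∀ x, H2 x ≠ ∞ → ENNReal.ofReal (∫ u in Ioc (0 : ℝ) 1, ‖h x u‖ ^ 2) = H2 x :=
    fun x hx => (lint_two _ (hmem x hx)).symm
  set Gn : ℕ → Set ℝ := fun n => {x | H2 x ≤ ENNReal.ofReal ((2 ^ n * Y) ^ 2)} ∩ Icc (-1) 1
    with hGn
  have hGnm : ∀ n, MeasurableSet (Gn n) := fun n =>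
    (measurableSet_le hH2m measurable_const).inter measurableSet_Icc
  have hGt : ∀ n, ∀ x ∈ Gn n, H2 x ≠ ∞ := fun n x hx =>
    (lt_of_le_of_lt hx.1 ENNReal.ofReal_lt_top).ne
  set Fn : ℕ → Finset ℤ := fun n => (Finset.Icc (-(n : ℤ)) n).filter (fun k => k ∈ Λ) with hFn
  set g : ℕ → ℤ → ℝ → ℂ := fun n k x => (Gn n).indicator (fun x => fc (h x) k) x with hg
  have hgm : ∀ n k, Measurable (g n k) := fun n k => (fc_meas h hm k).indicator (hGnm n)
  have hgs : ∀ n k x, x ∉ Icc (-1 : ℝ) 1 → g n k x = 0 := by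
    intro n k x hx
    simp only [hg]
    rw [indicator_of_notMem fun h1 => hx h1.2]
  have hsumle : ∀ n x (F : Finset ℤ), ENNReal.ofReal (∑ k ∈ F, ‖g n k x‖ ^ 2) ≤ H2 x := by
    intro n x F
    by_cases hx : x ∈ Gn n
    · simp only [hg, indicator_of_mem hx]
      rw [← hH2r x (hGt n x hx)]
      exact ENNReal.ofReal_le_ofReal (bessel _ (hmem x (hGt n x hx)) F)
    · simp only [hg, indicator_of_notMem hx]
      simp
  have hsumn : ∀ n x (F : Finset ℤ), ∑ k ∈ F, ‖g n k x‖ ^ 2 ≤ (2 ^ n * Y) ^ 2 := by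
    intro n x F
    by_cases hx : x ∈ Gn n
    · have h1 := (hsumle n x F).trans hx.1
      exact (ENNReal.ofReal_le_ofReal_iff (by positivity)).1 h1
    · simp only [hg, indicator_of_notMem hx]
      simp only [norm_zero, ne_eq, OfNat.ofNat_ne_zero, not_false_eq_true, zero_pow,
        Finset.sum_const_zero]
      positivity
  have hgint : ∀ n k, Integrable (g n k) := by
    intro n k
    refine bdd_int (g n k) (hgm n k) (2 ^ n * Y) ?_ (-1) 1 (hgs n k)
    intro x
    have h1 := hsumn n x {k}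
    rw [Finset.sum_singleton] at h1
    exact (sq_le_sq₀ (norm_nonneg _) (by positivity)).1 h1
  -- uniform bound
  have hbound : ∀ n, eLpNorm (U (Fn n) l (g n)) (ENNReal.ofReal q) volume ≤
      C * ENNReal.ofReal Y := by
    intro n
    refine hb (Fn n) (hΛ _ fun k hk => (Finset.mem_filter.1 hk).2) (g n) (hgm n) (hgs n) Y n hY
      (fun x => hsumn n x _) ?_
    refine (lintegral_mono fun x => ?_).trans hi
    have := hsumle n x (Fn n)
    gcongr
  -- pointwise limit
  have hlim : ∀ p, Tendsto (fun n => U (Fn n) l (g n) p) atTop (𝓝 (UG l h p)) := by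
    intro p
    have h1 : ∀ n, U (Fn n) l (g n) p = ∫ x, ee (x * p.2.1) * (ee (x ^ 2 * p.1) *
        ft (chirp (l * p.1) (tp (Fn n) (fun k => g n k x))) p.2.2) := by
      intro n
      rw [U_eq _ _ _ (fun k _ => hgint n k)]
      rfl
    simp_rw [h1]
    have h2 : UG l h p = ∫ x, ee (x * p.2.1) * (ee (x ^ 2 * p.1) *
        ft (chirp (l * p.1) (h x)) p.2.2) := rfl
    rw [h2]
    have hHq : ∫⁻ x, H2 x ^ (q / 2) < ∞ := lt_of_le_of_lt hi
      (ENNReal.rpow_lt_top_of_nonneg hq0.le ENNReal.ofReal_ne_top)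
    have hH2t : ∀ᵐ x, H2 x ^ (q / 2) < ∞ := ae_lt_top (hH2m.pow_const _) hHq.ne
    refine tendsto_integral_of_dominated_convergence (fun x => (H2 x ^ (1 / 2 : ℝ)).toReal)
      ?_ ?_ ?_ ?_
    · intro n
      refine Measurable.aestronglyMeasurable ?_
      refine (ee_meas.comp (by fun_prop)).mul ((ee_meas.comp (by fun_prop)).mul ?_)
      simp_rw [ft_tp]
      refine Finset.measurable_fun_sum _ fun k _ => ?_
      exact (hgm n k).mul_const _
    · refine ⟨(hH2m.pow_const _).ennreal_toReal.aestronglyMeasurable, ?_⟩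
      have h3 : ∀ x, ‖(H2 x ^ (1 / 2 : ℝ)).toReal‖ₑ ≤
          (Icc (-1 : ℝ) 1).indicator (1 : ℝ → ℝ≥0∞) x + H2 x ^ (q / 2) := by
        intro x
        have h4 : ‖(H2 x ^ (1 / 2 : ℝ)).toReal‖ₑ ≤ H2 x ^ (1 / 2 : ℝ) := by
          rw [← ofReal_norm, Real.norm_of_nonneg ENNReal.toReal_nonneg]
          exact ENNReal.ofReal_toReal_le
        refine h4.trans ?_
        by_cases hx : x ∈ Icc (-1 : ℝ) 1
        · rw [indicator_of_mem hx, Pi.one_apply]
          by_cases h5 : H2 x ≤ 1
          · calc H2 x ^ (1 / 2 : ℝ) ≤ 1 := ENNReal.rpow_le_one h5 (by norm_num)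
              _ ≤ _ := le_self_add
          · push Not at h5
            calc H2 x ^ (1 / 2 : ℝ) ≤ H2 x ^ (q / 2) :=
                  ENNReal.rpow_le_rpow_of_exponent_le h5.le (by linarith)
              _ ≤ _ := le_add_self
        · have h6 : H2 x = 0 := by
            simp only [hH2]
            simp [hx0 x hx]
          rw [h6, ENNReal.zero_rpow_of_pos (by norm_num)]
          exact zero_le
      refine lt_of_le_of_lt (lintegral_mono h3) ?_
      rw [lintegral_add_left (measurable_one.indicator measurableSet_Icc),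
        lintegral_indicator_one measurableSet_Icc, Real.volume_Icc]
      exact ENNReal.add_lt_top.2 ⟨ENNReal.ofReal_lt_top, hHq⟩
    · intro n
      filter_upwards [hH2t] with x hx
      rw [norm_mul, norm_mul, ee_norm, ee_norm, one_mul, one_mul]
      have hx' : H2 x ≠ ∞ := by
        intro h3
        rw [h3, ENNReal.top_rpow_of_pos (by linarith)] at hx
        exact lt_irrefl _ hx
      have h3 : ‖ft (chirp (l * p.1) (tp (Fn n) (fun k => g n k x))) p.2.2‖ₑ ≤
          H2 x ^ (1 / 2 : ℝ) := by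
        refine (ft_chirp_le _ _ _ (tp_meas _ _).aemeasurable ?_).trans ?_
        · intro u hu
          rw [tp_eq, indicator_of_notMem hu]
        · gcongr
          refine le_trans ?_ (hsumle n x (Fn n))
          rw [← tp_two]
          exact setLIntegral_le_lintegral _ _
      have h4 : H2 x ^ (1 / 2 : ℝ) ≠ ∞ := (ENNReal.rpow_lt_top_of_nonneg (by norm_num) hx').ne
      rw [← ofReal_norm] at h3
      exact (ENNReal.ofReal_le_iff_le_toReal h4).1 h3
    · filter_upwards [hH2t, hsp] with x hx hs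
      refine Tendsto.const_mul _ (Tendsto.const_mul _ ?_)
      have hx' : H2 x ≠ ∞ := by
        intro h3
        rw [h3, ENNReal.top_rpow_of_pos (by linarith)] at hx
        exact lt_irrefl _ hx
      by_cases hxI : x ∈ Icc (-1 : ℝ) 1
      swap
      · have e1 : ∀ n, ft (chirp (l * p.1) (tp (Fn n) (fun k => g n k x))) p.2.2 = 0 := by
          intro n
          rw [ft_tp]
          refine Finset.sum_eq_zero fun k _ => ?_
          rw [hgs n k x hxI, zero_mul]
        have e2 : ft (chirp (l * p.1) (h x)) p.2.2 = 0 := by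
          unfold ft chirp
          simp [hx0 x hxI]
        simp_rw [e1]
        rw [e2]
        exact tendsto_const_nhds
      -- eventually `x ∈ Gn n`
      have hev : ∀ᶠ n : ℕ in atTop, x ∈ Gn n := by
        have h3 : Tendsto (fun n : ℕ => (2 ^ n * Y) ^ 2) atTop atTop := by
          have h4 : Tendsto (fun n : ℕ => (2 : ℝ) ^ n * Y) atTop atTop :=
            (tendsto_pow_atTop_atTop_of_one_lt (by norm_num)).atTop_mul_const hY
          exact (tendsto_pow_atTop (by norm_num)).comp h4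
        filter_upwards [h3.eventually_ge_atTop (H2 x).toReal] with n hn
        refine ⟨?_, hxI⟩
        exact (ENNReal.le_ofReal_iff_toReal_le hx' (by positivity)).2 hn
      have hmx := hmem x hx'
      -- the error
      have herr : Tendsto (fun n : ℕ => (ENNReal.ofReal ((∫ u in Ioc (0 : ℝ) 1, ‖h x u‖ ^ 2) -
          ∑ k ∈ Fn n, ‖fc (h x) k‖ ^ 2)) ^ (1 / 2 : ℝ)) atTop (𝓝 0) := by
        have h3 : Tendsto (fun n : ℕ => ∑ k ∈ Fn n, ‖fc (h x) k‖ ^ 2) atTop
            (𝓝 (∫ u in Ioc (0 : ℝ) 1, ‖h x u‖ ^ 2)) := by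
          have h4 := (parseval _ hmx).comp tend_Icc
          refine h4.congr fun n => ?_
          simp only [Function.comp]
          symm
          refine Finset.sum_subset (Finset.filter_subset _ _) fun k hk hk' => ?_
          have : k ∉ Λ := fun h5 => hk' (Finset.mem_filter.2 ⟨hk, h5⟩)
          rw [hs k this]
          simp
        have h5 : Tendsto (fun n : ℕ => (∫ u in Ioc (0 : ℝ) 1, ‖h x u‖ ^ 2) -
            ∑ k ∈ Fn n, ‖fc (h x) k‖ ^ 2) atTop (𝓝 0) := by
          have := tendsto_const_nhds (x := ∫ u in Ioc (0 : ℝ) 1, ‖h x u‖ ^ 2) (f := atTop).sub h3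
          simpa using this
        have h6 := (ENNReal.continuous_ofReal.tendsto 0).comp h5
        have h7 := ((ENNReal.continuous_rpow_const (y := (1 / 2 : ℝ))).tendsto
          (ENNReal.ofReal 0)).comp h6
        rw [ENNReal.ofReal_zero, ENNReal.zero_rpow_of_pos (by norm_num)] at h7
        exact h7
      rw [tendsto_iff_edist_tendsto_0]
      refine tendsto_of_tendsto_of_tendsto_of_le_of_le' tendsto_const_nhds herr
        (Eventually.of_forall fun n => zero_le) ?_
      filter_upwards [hev] with n hn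
      rw [edist_eq_enorm_sub]
      have hc : (fun k => g n k x) = fc (h x) := by
        ext k
        simp only [hg, indicator_of_mem hn]
      rw [hc]
      have hhi : Integrable (h x) := by
        have h3 : IntegrableOn (h x) (Ioc (0 : ℝ) 1) := hmx.integrable (by norm_num)
        rw [← integrable_indicator_iff measurableSet_Ioc] at h3
        refine h3.congr (Eventually.of_forall fun u => ?_)
        by_cases hu : u ∈ Ioc (0 : ℝ) 1
        · simp only [indicator_of_mem hu]
        · simp only [indicator_of_notMem hu]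
          rw [hu0 x u hu]
      have h8 : ft (chirp (l * p.1) (tp (Fn n) (fc (h x)))) p.2.2 -
          ft (chirp (l * p.1) (h x)) p.2.2 =
          ft (chirp (l * p.1) (fun u => tp (Fn n) (fc (h x)) u - h x u)) p.2.2 := by
        unfold ft
        rw [← integral_sub]
        · congr 1
          ext u
          unfold chirp
          ring
        · exact ee_mul_int _ (chirp_int _ _ (tp_int _ _)) _ (by fun_prop)
        · exact ee_mul_int _ (chirp_int _ _ hhi) _ (by fun_prop)
      rw [h8]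
      refine (ft_chirp_le _ _ _ ((tp_meas _ _).sub (hhx x)).aemeasurable ?_).trans ?_
      · intro u hu
        rw [Pi.sub_apply, tp_eq, indicator_of_notMem hu, hu0 x u hu, sub_zero]
      · gcongr
        rw [← proj _ hmx]
        have hsub : MemLp (fun u => h x u - tq (Fn n) (fc (h x)) u) 2
            (volume.restrict (Ioc (0 : ℝ) 1)) := hmx.sub (memLp_tq _ _)
        rw [← lint_two _ hsub]
        refine le_of_eq (setLIntegral_congr_fun measurableSet_Ioc fun u hu => ?_)
        rw [Pi.sub_apply, tp_eq, indicator_of_mem hu, ← enorm_neg, neg_sub]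
  -- Fatou
  refine (Lp.eLpNorm_lim_le_liminf_eLpNorm (fun n => (U_meas (Fn n) l (g n)
    (fun k _ => hgm n k)).aestronglyMeasurable) _ (Eventually.of_forall hlim)).trans ?_
  refine Filter.liminf_le_of_frequently_le' (Eventually.of_forall hbound).frequently

end Pool.Agent.J4.H85.TS
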