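import Pool.Agent.J4.H85.TS13
set_option autoImplicit false

/-! Changes of variables: from `ℝ × ℝ × ℝ` to `EuclideanSpace ℝ (Fin 3)`. -/

namespace Pool.Agent.J4.H85.TS

open MeasureTheory Complex Set Filter Topology
open scoped ENNReal NNReal RealInnerProductSpace ComplexConjugate
open Pool.Agent.R412.RT (E ee ee_norm ee_add ee_conj ee_meas ee_cont planch)

theorem lin_cov (G : ℝ × ℝ × ℝ → ℝ≥0∞) (hG : Measurable G) (c d e : ℝ) (hc : c ≠ 0) (hd : d ≠ 0) :
    ∫⁻ p : ℝ × ℝ × ℝ, G (c * p.1, c * p.2.1, d * p.2.2 + e * p.1) =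
      ENNReal.ofReal (|c|⁻¹ * |c|⁻¹ * |d|⁻¹) * ∫⁻ p, G p := by
  have hm1 : Measurable fun p : ℝ × ℝ × ℝ => G (c * p.1, c * p.2.1, d * p.2.2 + e * p.1) :=
    Measurable.comp (g := G) (f := fun p : ℝ × ℝ × ℝ => (c * p.1, c * p.2.1, d * p.2.2 + e * p.1))
      hG (by fun_prop)
  rw [Measure.volume_eq_prod, lintegral_prod _ hm1.aemeasurable, lintegral_prod _ hG.aemeasurable]
  have h1 : ∀ t : ℝ, ∫⁻ z : ℝ × ℝ, G (c * t, c * z.1, d * z.2 + e * t) =
      ENNReal.ofReal (|c|⁻¹ * |d|⁻¹) * ∫⁻ z : ℝ × ℝ, G (c * t, z) := by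
    intro t
    have hm2 : Measurable fun z : ℝ × ℝ => G (c * t, c * z.1, d * z.2 + e * t) :=
      Measurable.comp (g := G) (f := fun z : ℝ × ℝ => (c * t, c * z.1, d * z.2 + e * t))
        hG (by fun_prop)
    have hm3 : Measurable fun z : ℝ × ℝ => G (c * t, z) :=
      Measurable.comp (g := G) (f := fun z : ℝ × ℝ => (c * t, z)) hG (by fun_prop)
    rw [Measure.volume_eq_prod, lintegral_prod _ hm2.aemeasurable,
      lintegral_prod _ hm3.aemeasurable]
    have h2 : ∀ x : ℝ, ∫⁻ y : ℝ, G (c * t, c * x, d * y + e * t) =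
        ENNReal.ofReal |d|⁻¹ * ∫⁻ y : ℝ, G (c * t, c * x, y) := by
      intro x
      have hm4 : Measurable fun y : ℝ => G (c * t, c * x, y + e * t) :=
        Measurable.comp (g := G) (f := fun y : ℝ => (c * t, c * x, y + e * t)) hG (by fun_prop)
      rw [scale d hd (fun y => G (c * t, c * x, y + e * t)) hm4,
        lintegral_add_right_eq_self (fun y => G (c * t, c * x, y))]
    have hm5 : Measurable fun x : ℝ => ∫⁻ y : ℝ, G (c * t, x, y) :=
      hm3.lintegral_prod_right'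
    simp only [h2]
    have hm6 : Measurable fun x : ℝ => ∫⁻ y : ℝ, G (c * t, c * x, y) :=
      hm5.comp (measurable_const_mul c)
    rw [lintegral_const_mul _ hm6, scale c hc (fun x => ∫⁻ y : ℝ, G (c * t, x, y)) hm5,
      ← mul_assoc, ← ENNReal.ofReal_mul (by positivity), mul_comm |d|⁻¹]
  simp only [h1]
  have hm7 : Measurable fun t : ℝ => ∫⁻ z : ℝ × ℝ, G (t, z) := hG.lintegral_prod_right'
  have hm8 : Measurable fun t : ℝ => ∫⁻ z : ℝ × ℝ, G (c * t, z) :=
    hm7.comp (measurable_const_mul c)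
  rw [lintegral_const_mul _ hm8, scale c hc (fun t => ∫⁻ z : ℝ × ℝ, G (t, z)) hm7,
    ← mul_assoc, ← ENNReal.ofReal_mul (by positivity)]
  congr 2
  ring

/-- coordinates on `ℝ³`: `ξ ↦ (ξ_3, ξ_1, ξ_2)` -/
noncomputable def T3 : E 3 ≃ᵐ ℝ × ℝ × ℝ :=
  (MeasurableEquiv.toLp 2 (Fin 3 → ℝ)).symm.trans
    ((MeasurableEquiv.piFinSuccAbove (fun _ => ℝ) (2 : Fin 3)).trans
      (MeasurableEquiv.prodCongr (MeasurableEquiv.refl ℝ) MeasurableEquiv.finTwoArrow))

theorem T3_apply (ξ : E 3) : T3 ξ = (ξ 2, ξ 0, ξ 1) := by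
  rfl

theorem T3_mp : MeasurePreserving T3 volume volume := by
  have h1 := volume_preserving_piFinSuccAbove (fun _ => ℝ) (2 : Fin 3)
  have h2 : MeasurePreserving (MeasurableEquiv.prodCongr (MeasurableEquiv.refl ℝ)
      (MeasurableEquiv.finTwoArrow (α := ℝ))) volume volume :=
    (MeasurePreserving.id (volume : Measure ℝ)).prod (volume_preserving_finTwoArrow ℝ)
  exact (h2.comp h1).comp (PiLp.volume_preserving_ofLp (Fin 3))

/-- coordinates on `ℝ²` -/
noncomputable def T2 : E 2 ≃ᵐ ℝ × ℝ :=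
  (MeasurableEquiv.toLp 2 (Fin 2 → ℝ)).symm.trans MeasurableEquiv.finTwoArrow

theorem T2_apply (x : E 2) : T2 x = (x 0, x 1) := rfl

theorem T2_symm (p : ℝ × ℝ) : T2.symm p = !₂[p.1, p.2] := rfl

theorem T2_mp : MeasurePreserving T2 volume volume :=
  (volume_preserving_finTwoArrow ℝ).comp (PiLp.volume_preserving_ofLp (Fin 2))

end Pool.Agent.J4.H85.TS
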