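import Pool.Agent.J4.H85.TS14
set_option autoImplicit false

/-! The extension operator of the paraboloid over rectangles in coordinates. -/

namespace Pool.Agent.J4.H85.TS

open MeasureTheory Complex Set Filter Topology
open scoped ENNReal NNReal RealInnerProductSpace ComplexConjugate
open Pool.Agent.R412.RT (E ee ee_norm ee_add ee_conj ee_meas ee_cont planch)

/-- the paraboloid -/
noncomputable def Phi (x : E 2) : E 3 := !₂[x 0, x 1, x 0 ^ 2 + x 1 ^ 2]

/-- the Fourier extension operator of the paraboloid over `V` -/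
noncomputable def ext (V : Set (E 2)) (f : E 2 → ℂ) (ξ : E 3) : ℂ :=
  ∫ x in V, Complex.exp (-((⟪Phi x, ξ⟫ : ℝ) : ℂ) * I) * f x

/-- rectangles -/
def rect (A : Set ℝ) (a L : ℝ) : Set (E 2) := {x | x 0 ∈ A ∧ x 1 ∈ Ioc a (a + L)}

theorem rect_meas (A : Set ℝ) (hA : MeasurableSet A) (a L : ℝ) : MeasurableSet (rect A a L) := by
  have h0 : Measurable fun x : E 2 => x 0 := by fun_prop
  have h1 : Measurable fun x : E 2 => x 1 := by fun_prop
  exact (h0 hA).inter (h1 measurableSet_Ioc)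

/-- the rescaled function on `A × (0,1]` -/
noncomputable def pull (A : Set ℝ) (a L : ℝ) (f : E 2 → ℂ) (s y : ℝ) : ℂ :=
  (A ×ˢ Ioc (0 : ℝ) 1).indicator (fun p : ℝ × ℝ => f !₂[p.1, a + L * p.2]) (s, y)

theorem pull_meas (A : Set ℝ) (hA : MeasurableSet A) (a L : ℝ) (f : E 2 → ℂ) (hf : Measurable f) :
    Measurable (Function.uncurry (pull A a L f)) := by
  have h1 : Function.uncurry (pull A a L f) =
      (A ×ˢ Ioc (0 : ℝ) 1).indicator (fun p : ℝ × ℝ => f !₂[p.1, a + L * p.2]) := by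
    ext p
    rfl
  rw [h1]
  refine Measurable.indicator ?_ (hA.prod measurableSet_Ioc)
  have h2 : Measurable fun p : ℝ × ℝ => T2.symm (p.1, a + L * p.2) :=
    T2.symm.measurable.comp (by fun_prop)
  exact hf.comp h2

theorem UG_meas (l : ℝ) (h : ℝ → ℝ → ℂ) (hm : Measurable (Function.uncurry h)) :
    Measurable (UG l h) := by
  unfold UG
  have h1 : Measurable fun q : (ℝ × ℝ × ℝ) × ℝ => ft (chirp (l * q.1.1) (h q.2)) q.1.2.2 := by
    unfold ft chirp
    have h2 : StronglyMeasurable (Function.uncurry fun (q : (ℝ × ℝ × ℝ) × ℝ) (u : ℝ) =>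
        ee (u * q.1.2.2) * (ee (u ^ 2 * (l * q.1.1)) * h q.2 u)) := by
      refine Measurable.stronglyMeasurable ?_
      refine (ee_meas.comp (by fun_prop)).mul ((ee_meas.comp (by fun_prop)).mul ?_)
      exact Measurable.comp (g := Function.uncurry h)
        (f := fun z : ((ℝ × ℝ × ℝ) × ℝ) × ℝ => (z.1.2, z.2)) hm (by fun_prop)
    exact h2.integral_prod_right.measurable
  have h3 : StronglyMeasurable (Function.uncurry fun (p : ℝ × ℝ × ℝ) (s : ℝ) =>
      ee (s * p.2.1) * (ee (s ^ 2 * p.1) * ft (chirp (l * p.1) (h s)) p.2.2)) := by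
    refine Measurable.stronglyMeasurable ?_
    exact (ee_meas.comp (by fun_prop)).mul ((ee_meas.comp (by fun_prop)).mul h1)
  exact h3.integral_prod_right.measurable

theorem inner_Phi (x : E 2) (ξ : E 3) :
    ⟪Phi x, ξ⟫ = x 0 * ξ 0 + x 1 * ξ 1 + (x 0 ^ 2 + x 1 ^ 2) * ξ 2 := by
  unfold Phi
  rw [Pool.Agent.R412.RT.inner_eq, Fin.sum_univ_three]
  simp

/-- the constant `-1/(2π)` -/
noncomputable def cc : ℝ := -(2 * Real.pi)⁻¹

theorem cc_ne : cc ≠ 0 := by
  unfold cc
  have := Real.pi_pos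
  simp [this.ne']

theorem exp_ee (s : ℝ) : Complex.exp (-((s : ℝ) : ℂ) * I) = ee (cc * s) := by
  unfold ee cc
  congr 1
  have : (Real.pi : ℂ) ≠ 0 := by exact_mod_cast Real.pi_ne_zero
  push_cast
  field_simp

theorem cov1 (a L : ℝ) (hL : 0 < L) (φ : ℝ → ℂ) :
    ∫ u, φ u = (L : ℂ) * ∫ y, φ (a + L * y) := by
  have h1 : ∫ y, φ (a + L * y) = |L⁻¹| • ∫ u, φ (a + u) :=
    Measure.integral_comp_mul_left (fun u => φ (a + u)) L
  rw [h1, integral_add_left_eq_self (fun u => φ u) a, abs_of_pos (inv_pos.2 hL), Complex.real_smul,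
    ← mul_assoc]
  have : (L : ℂ) * ((L⁻¹ : ℝ) : ℂ) = 1 := by
    push_cast
    have : (L : ℂ) ≠ 0 := by exact_mod_cast hL.ne'
    field_simp
  rw [this, one_mul]

theorem ext_eq (A : Set ℝ) (hA : MeasurableSet A) (a L : ℝ) (hL : 0 < L) (f : E 2 → ℂ)
    (hf : IntegrableOn f (rect A a L)) (ξ : E 3) :
    ext (rect A a L) f ξ = (L : ℂ) * (ee (a * (cc * ξ 1) + a ^ 2 * (cc * ξ 2)) *
      UG (L ^ 2) (pull A a L f) (cc * ξ 2, cc * ξ 0, (L * cc) * ξ 1 + (2 * a * L * cc) * ξ 2)) := by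
  set α := cc * ξ 0 with hα
  set β := cc * ξ 1 with hβ
  set t := cc * ξ 2 with ht
  set Ψ : ℝ × ℝ → ℂ := fun p => (A ×ˢ Ioc a (a + L)).indicator (fun p : ℝ × ℝ =>
    ee (p.1 * α + p.2 * β + (p.1 ^ 2 + p.2 ^ 2) * t) * f !₂[p.1, p.2]) p with hΨ
  have hmem : ∀ x : E 2, T2 x ∈ A ×ˢ Ioc a (a + L) ↔ x ∈ rect A a L := fun x => Iff.rfl
  have hpt : ∀ x : E 2, (rect A a L).indicator
      (fun x => Complex.exp (-((⟪Phi x, ξ⟫ : ℝ) : ℂ) * I) * f x) x = Ψ (T2 x) := by
    intro x
    simp only [hΨ]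
    by_cases hx : x ∈ rect A a L
    · rw [indicator_of_mem hx, indicator_of_mem ((hmem x).2 hx), exp_ee, inner_Phi]
      congr 1
      · congr 1
        rw [T2_apply]
        simp only [hα, hβ, ht]
        ring
      · congr 1
        rw [T2_apply]
        ext i
        fin_cases i <;> rfl
    · rw [indicator_of_notMem hx, indicator_of_notMem fun h => hx ((hmem x).1 h)]
  have hΨi : Integrable Ψ := by
    rw [← T2_mp.integrable_comp_emb T2.measurableEmbedding]
    have h1 : Ψ ∘ T2 = (rect A a L).indicator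
        (fun x => Complex.exp (-((⟪Phi x, ξ⟫ : ℝ) : ℂ) * I) * f x) := by
      ext x
      exact (hpt x).symm
    rw [h1, integrable_indicator_iff (rect_meas A hA a L)]
    refine hf.bdd_mul (c := 1) ?_ ?_
    · refine Measurable.aestronglyMeasurable ?_
      have : Measurable fun x : E 2 => ⟪Phi x, ξ⟫ := by
        simp_rw [inner_Phi]
        fun_prop
      fun_prop
    · refine Eventually.of_forall fun x => ?_
      rw [exp_ee, ee_norm]
  have h2 : ext (rect A a L) f ξ = ∫ s, ∫ u, Ψ (s, u) := by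
    unfold ext
    rw [← integral_indicator (rect_meas A hA a L)]
    simp_rw [hpt]
    rw [T2_mp.integral_comp T2.measurableEmbedding Ψ, Measure.volume_eq_prod,
      integral_prod _ hΨi]
  rw [h2]
  have h3 : ∀ s, ∫ u, Ψ (s, u) = (L : ℂ) * ∫ y, Ψ (s, a + L * y) := fun s =>
    cov1 a L hL (fun u => Ψ (s, u))
  simp_rw [h3]
  rw [integral_const_mul]
  congr 1
  unfold UG ft
  rw [← integral_const_mul]
  congr 1
  ext s
  unfold chirp
  simp only
  rw [← integral_const_mul, ← integral_const_mul, ← integral_const_mul]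
  congr 1
  ext y
  simp only [hΨ, pull]
  have hmem2 : (s, a + L * y) ∈ A ×ˢ Ioc a (a + L) ↔ (s, y) ∈ A ×ˢ Ioc (0 : ℝ) 1 := by
    rw [mem_prod, mem_prod]
    refine and_congr Iff.rfl ?_
    simp only [mem_Ioc]
    constructor
    · rintro ⟨h4, h5⟩
      constructor
      · by_contra h6
        push Not at h6
        nlinarith
      · by_contra h6
        push Not at h6
        nlinarith
    · rintro ⟨h4, h5⟩
      constructor <;> nlinarith
  by_cases hm : (s, y) ∈ A ×ˢ Ioc (0 : ℝ) 1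
  · rw [indicator_of_mem hm, indicator_of_mem (hmem2.2 hm)]
    have h4 : ee (s * α + (a + L * y) * β + (s ^ 2 + (a + L * y) ^ 2) * t) =
        ee (a * β + a ^ 2 * t) * (ee (s * α) * (ee (s ^ 2 * t) *
          (ee (y * (L * cc * ξ 1 + 2 * a * L * cc * ξ 2)) * ee (y ^ 2 * (L ^ 2 * t))))) := by
      rw [← ee_add, ← ee_add, ← ee_add, ← ee_add]
      congr 1
      simp only [hβ, ht]
      ring
    rw [h4]
    ring
  · rw [indicator_of_notMem hm, indicator_of_notMem fun h => hm (hmem2.1 h)]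
    simp

end Pool.Agent.J4.H85.TS
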