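import Pool.Agent.J4.H85.TS15
set_option autoImplicit false

/-! Norms in coordinates and the thin spectrum estimate for measurable functions. -/

namespace Pool.Agent.J4.H85.TS

open MeasureTheory Complex Set Filter Topology
open scoped ENNReal NNReal RealInnerProductSpace ComplexConjugate
open Pool.Agent.R412.RT (E ee ee_norm ee_add ee_conj ee_meas ee_cont planch)

theorem ext_norm (A : Set ℝ) (hA : MeasurableSet A) (a L : ℝ) (hL : 0 < L) (f : E 2 → ℂ)
    (hfm : Measurable f) (hf : IntegrableOn f (rect A a L)) (q : ℝ) (hq : 0 < q) :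
    eLpNorm (ext (rect A a L) f) (ENNReal.ofReal q) volume =
      ENNReal.ofReal L * (ENNReal.ofReal (|cc|⁻¹ * |cc|⁻¹ * |L * cc|⁻¹) ^ (1 / q) *
        eLpNorm (UG (L ^ 2) (pull A a L f)) (ENNReal.ofReal q) volume) := by
  have hUm := UG_meas (L ^ 2) (pull A a L f) (pull_meas A hA a L f hfm)
  rw [eLpNorm_eq_lintegral_rpow_enorm_toReal (by simp [hq]) ENNReal.ofReal_ne_top,
    eLpNorm_eq_lintegral_rpow_enorm_toReal (by simp [hq]) ENNReal.ofReal_ne_top,
    ENNReal.toReal_ofReal hq.le]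
  set G : ℝ × ℝ × ℝ → ℝ≥0∞ := fun p => ‖UG (L ^ 2) (pull A a L f) p‖ₑ ^ q with hG
  have hGm : Measurable G := hUm.enorm.pow_const q
  have h1 : ∀ ξ : E 3, ‖ext (rect A a L) f ξ‖ₑ ^ q = ENNReal.ofReal L ^ q *
      (fun p : ℝ × ℝ × ℝ => G (cc * p.1, cc * p.2.1, (L * cc) * p.2.2 + (2 * a * L * cc) * p.1))
        (T3 ξ) := by
    intro ξ
    rw [ext_eq A hA a L hL f hf ξ, enorm_mul, enorm_mul, ee_enorm, one_mul,
      ENNReal.mul_rpow_of_nonneg _ _ hq.le]
    congr 2
    rw [← ofReal_norm, Complex.norm_real, Real.norm_of_nonneg hL.le]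
  simp_rw [h1]
  rw [lintegral_const_mul' _ _ (ENNReal.rpow_lt_top_of_nonneg hq.le ENNReal.ofReal_ne_top).ne,
    T3_mp.lintegral_comp_emb T3.measurableEmbedding
      (fun p : ℝ × ℝ × ℝ => G (cc * p.1, cc * p.2.1, (L * cc) * p.2.2 + (2 * a * L * cc) * p.1)),
    lin_cov G hGm cc (L * cc) (2 * a * L * cc) cc_ne (mul_ne_zero hL.ne' cc_ne),
    ENNReal.mul_rpow_of_nonneg _ _ (by positivity), ENNReal.mul_rpow_of_nonneg _ _ (by positivity),
    ← ENNReal.rpow_mul, mul_one_div_cancel hq.ne', ENNReal.rpow_one]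

/-- the `k`-th Fourier coefficient in the second variable, up to a constant -/
noncomputable def coef (a L : ℝ) (f : E 2 → ℂ) (s : ℝ) (k : ℤ) : ℂ :=
  ∫ u in Ioc a (a + L), Complex.exp (-((2 * Real.pi * k * u / L : ℝ) : ℂ) * I) * f !₂[s, u]

/-- the mixed norm -/
noncomputable def mix (q : ℝ) (A : Set ℝ) (a L : ℝ) (f : E 2 → ℂ) : ℝ≥0∞ :=
  (∫⁻ s in A, (∫⁻ u in Ioc a (a + L), ‖f !₂[s, u]‖ₑ ^ 2) ^ (q / 2)) ^ (1 / q)

theorem scale_Ioc (a L : ℝ) (hL : 0 < L) (G : ℝ → ℝ≥0∞) (hG : Measurable G) :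
    ∫⁻ y in Ioc (0 : ℝ) 1, G (a + L * y) = ENNReal.ofReal L⁻¹ * ∫⁻ u in Ioc a (a + L), G u := by
  rw [← lintegral_indicator measurableSet_Ioc, ← lintegral_indicator measurableSet_Ioc]
  have h1 : ∀ y, (Ioc (0 : ℝ) 1).indicator (fun y => G (a + L * y)) y =
      (fun x => (Ioc a (a + L)).indicator G (a + x)) (L * y) := by
    intro y
    simp only
    have h2 : a + L * y ∈ Ioc a (a + L) ↔ y ∈ Ioc (0 : ℝ) 1 := by
      simp only [mem_Ioc]
      constructor
      · rintro ⟨h4, h5⟩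
        constructor
        · by_contra h6
          push Not at h6
          nlinarith
        · by_contra h6
          push Not at h6
          nlinarith
      · rintro ⟨h4, h5⟩
        constructor <;> nlinarith
    by_cases hy : y ∈ Ioc (0 : ℝ) 1
    · rw [indicator_of_mem hy, indicator_of_mem (h2.2 hy)]
    · rw [indicator_of_notMem hy, indicator_of_notMem fun h => hy (h2.1 h)]
  simp_rw [h1]
  have hm : Measurable fun x => (Ioc a (a + L)).indicator G (a + x) :=
    (hG.indicator measurableSet_Ioc).comp (by fun_prop)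
  rw [scale L hL.ne' _ hm, abs_of_pos hL, lintegral_add_left_eq_self]

theorem pull_H2 (A : Set ℝ) (a L : ℝ) (hL : 0 < L) (f : E 2 → ℂ)
    (hfm : Measurable f) (s : ℝ) :
    ∫⁻ y in Ioc (0 : ℝ) 1, ‖pull A a L f s y‖ₑ ^ 2 =
      A.indicator (fun s => ENNReal.ofReal L⁻¹ * ∫⁻ u in Ioc a (a + L), ‖f !₂[s, u]‖ₑ ^ 2) s := by
  by_cases hs : s ∈ A
  · rw [indicator_of_mem hs]
    have hm : Measurable fun u : ℝ => ‖f !₂[s, u]‖ₑ ^ 2 := by
      have h2 : Measurable fun u : ℝ => T2.symm (s, u) := T2.symm.measurable.comp (by fun_prop)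
      exact (hfm.comp h2).enorm.pow_const 2
    rw [← scale_Ioc a L hL _ hm]
    refine setLIntegral_congr_fun measurableSet_Ioc fun y hy => ?_
    simp only [pull]
    rw [indicator_of_mem (by exact ⟨hs, hy⟩)]
  · rw [indicator_of_notMem hs]
    have h1 : ∀ y, pull A a L f s y = 0 := by
      intro y
      simp only [pull]
      rw [indicator_of_notMem]
      rintro ⟨h2, _⟩
      exact hs h2
    simp [h1]

theorem pull_mix (A : Set ℝ) (hA : MeasurableSet A) (a L : ℝ) (hL : 0 < L) (f : E 2 → ℂ)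
    (hfm : Measurable f) (q : ℝ) (hq : 0 < q) :
    (∫⁻ s, (∫⁻ y in Ioc (0 : ℝ) 1, ‖pull A a L f s y‖ₑ ^ 2) ^ (q / 2)) =
      (ENNReal.ofReal L⁻¹ ^ (1 / 2 : ℝ) * mix q A a L f) ^ q := by
  unfold mix
  rw [ENNReal.mul_rpow_of_nonneg _ _ hq.le, ← ENNReal.rpow_mul, ← ENNReal.rpow_mul,
    one_div_mul_cancel hq.ne', ENNReal.rpow_one,
    ← lintegral_const_mul' _ _ (ENNReal.rpow_lt_top_of_nonneg (by positivity)
      ENNReal.ofReal_ne_top).ne, ← lintegral_indicator hA]
  refine lintegral_congr fun s => ?_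
  rw [pull_H2 A a L hL f hfm s]
  by_cases hs : s ∈ A
  · rw [indicator_of_mem hs, indicator_of_mem hs, ENNReal.mul_rpow_of_nonneg _ _ (by positivity)]
    congr 2
    ring
  · rw [indicator_of_notMem hs, indicator_of_notMem hs, ENNReal.zero_rpow_of_pos (by positivity)]

theorem pull_fc (A : Set ℝ) (a L : ℝ) (hL : 0 < L) (f : E 2 → ℂ) (s : ℝ) (k : ℤ)
    (h : s ∈ A → coef a L f s k = 0) : fc (pull A a L f s) k = 0 := by
  unfold fc
  by_cases hs : s ∈ A
  · have h1 := h hs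
    unfold coef at h1
    rw [← integral_indicator measurableSet_Ioc, cov1 a L hL] at h1
    have hLc : (L : ℂ) ≠ 0 := by exact_mod_cast hL.ne'
    have h2 := (mul_eq_zero.1 h1).resolve_left hLc
    rw [← integral_indicator measurableSet_Ioc]
    have h3 : ∀ y, (Ioc (0 : ℝ) 1).indicator (fun u => ee (-(k * u)) * pull A a L f s u) y =
        ee (k * a / L) * (Ioc a (a + L)).indicator (fun u =>
          Complex.exp (-((2 * Real.pi * k * u / L : ℝ) : ℂ) * I) * f !₂[s, u]) (a + L * y) := by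
      intro y
      have hm2 : a + L * y ∈ Ioc a (a + L) ↔ y ∈ Ioc (0 : ℝ) 1 := by
        simp only [mem_Ioc]
        constructor
        · rintro ⟨h4, h5⟩
          constructor
          · by_contra h6
            push Not at h6
            nlinarith
          · by_contra h6
            push Not at h6
            nlinarith
        · rintro ⟨h4, h5⟩
          constructor <;> nlinarith
      by_cases hy : y ∈ Ioc (0 : ℝ) 1
      · rw [indicator_of_mem hy, indicator_of_mem (hm2.2 hy), exp_ee]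
        simp only [pull]
        rw [indicator_of_mem (by exact ⟨hs, hy⟩), ← mul_assoc, ← ee_add]
        congr 2
        unfold cc
        have := Real.pi_ne_zero
        field_simp
        ring
      · rw [indicator_of_notMem hy, indicator_of_notMem fun h => hy (hm2.1 h), mul_zero]
    simp_rw [h3]
    rw [integral_const_mul, h2, mul_zero]
  · have h1 : ∀ y, pull A a L f s y = 0 := by
      intro y
      simp only [pull]
      rw [indicator_of_notMem]
      rintro ⟨h2, _⟩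
      exact hs h2
    simp [h1]

/-- the thin spectrum estimate, `q < 4`, measurable functions -/
theorem thin0 (κ M q L : ℝ) (hκ : 0 ≤ κ) (hM : 0 < M) (hκ1 : κ < 1) (hq : 2 < (2 - κ) * (q - 2))
    (hq4 : q < 4) (hL : 0 < L) :
    ∃ (C : ℝ≥0∞), C ≠ ∞ ∧ C ≠ 0 ∧ ∀ (Λ : Set ℤ), RBS Λ κ M →
      ∀ (A : Set ℝ), MeasurableSet A → A ⊆ Icc (-1) 1 → ∀ (a : ℝ) (f : E 2 → ℂ), Measurable f →
      IntegrableOn f (rect A a L) →
      (∀ᵐ s : ℝ, s ∈ A → ∀ k : ℤ, k ∉ Λ → coef a L f s k = 0) →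
      eLpNorm (ext (rect A a L) f) (ENNReal.ofReal q) volume ≤ C * mix q A a L f := by
  have hq2 : 2 < q := by nlinarith
  have hq0 : 0 < q := by linarith
  obtain ⟨C, hC, h⟩ := b3 κ M q (L ^ 2) hκ hM hκ1 hq hq4 (by positivity)
  set D : ℝ≥0∞ := ENNReal.ofReal L * (ENNReal.ofReal (|cc|⁻¹ * |cc|⁻¹ * |L * cc|⁻¹) ^ (1 / q) * C) *
    ENNReal.ofReal L⁻¹ ^ (1 / 2 : ℝ) with hD
  have hDt : D ≠ ∞ := by
    rw [hD]
    refine ENNReal.mul_ne_top (ENNReal.mul_ne_top ENNReal.ofReal_ne_top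
      (ENNReal.mul_ne_top ?_ hC)) ?_
    · exact (ENNReal.rpow_lt_top_of_nonneg (by positivity) ENNReal.ofReal_ne_top).ne
    · exact (ENNReal.rpow_lt_top_of_nonneg (by positivity) ENNReal.ofReal_ne_top).ne
  refine ⟨D + 1, by simp [hDt], by simp, ?_⟩
  intro Λ hΛ A hA hA1 a f hfm hfi hsp
  rw [ext_norm A hA a L hL f hfm hfi q hq0]
  set m := mix q A a L f with hm
  by_cases hmt : m = ∞
  · rw [hmt, ENNReal.mul_top (by simp)]
    exact le_top
  set m' : ℝ≥0∞ := ENNReal.ofReal L⁻¹ ^ (1 / 2 : ℝ) * m with hm'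
  have hm't : m' ≠ ∞ := ENNReal.mul_ne_top
    (ENNReal.rpow_lt_top_of_nonneg (by positivity) ENNReal.ofReal_ne_top).ne hmt
  have key : ∀ Y : ℝ, 0 < Y → m' ≤ ENNReal.ofReal Y →
      eLpNorm (UG (L ^ 2) (pull A a L f)) (ENNReal.ofReal q) volume ≤ C * ENNReal.ofReal Y := by
    intro Y hY hmY
    refine h Λ hΛ (pull A a L f) (pull_meas A hA a L f hfm) ?_ ?_ ?_ Y hY ?_
    · intro x hx u
      simp only [pull]
      rw [indicator_of_notMem]
      rintro ⟨h2, _⟩
      exact hx (hA1 h2)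
    · intro x u hu
      simp only [pull]
      rw [indicator_of_notMem]
      rintro ⟨_, h2⟩
      exact hu h2
    · filter_upwards [hsp] with s hs k hk
      exact pull_fc A a L hL f s k fun hsA => hs hsA k hk
    · rw [pull_mix A hA a L hL f hfm q hq0]
      gcongr
  have key2 : eLpNorm (UG (L ^ 2) (pull A a L f)) (ENNReal.ofReal q) volume ≤ C * m' := by
    by_cases h0 : m' = 0
    · rw [h0, mul_zero]
      have ht : Tendsto (fun n : ℕ => C * ENNReal.ofReal (1 / ((n : ℝ) + 1))) atTop (𝓝 (C * 0)) := by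
        refine ENNReal.Tendsto.const_mul ?_ (Or.inr hC)
        have := (ENNReal.continuous_ofReal.tendsto 0).comp
          (tendsto_one_div_add_atTop_nhds_zero_nat (𝕜 := ℝ))
        rw [ENNReal.ofReal_zero] at this
        exact this
      rw [mul_zero] at ht
      refine ge_of_tendsto' ht fun n => key _ (by positivity) (by rw [h0]; exact zero_le)
    · have h1 := key m'.toReal (ENNReal.toReal_pos h0 hm't) (by rw [ENNReal.ofReal_toReal hm't])
      rwa [ENNReal.ofReal_toReal hm't] at h1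
  calc _ ≤ ENNReal.ofReal L * (ENNReal.ofReal (|cc|⁻¹ * |cc|⁻¹ * |L * cc|⁻¹) ^ (1 / q) *
        (C * m')) := by gcongr
    _ = D * m := by rw [hD, hm']; ring
    _ ≤ (D + 1) * m := by gcongr; exact le_self_add

end Pool.Agent.J4.H85.TS
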