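import Pool.Agent.J4.H85.TS16
set_option autoImplicit false

/-! The thin spectrum estimate: `L^q` norms, almost everywhere classes, all exponents. -/

namespace Pool.Agent.J4.H85.TS

open MeasureTheory Complex Set Filter Topology
open scoped ENNReal NNReal RealInnerProductSpace ComplexConjugate
open Pool.Agent.R412.RT (E ee ee_norm ee_add ee_conj ee_meas ee_cont planch)

theorem ext_congr (V : Set (E 2)) (f g : E 2 → ℂ) (h : f =ᵐ[volume.restrict V] g) :
    ext V f = ext V g := by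
  ext ξ
  unfold ext
  refine integral_congr_ae ?_
  filter_upwards [h] with x hx
  rw [hx]

theorem ae_slices (A : Set ℝ) (hA : MeasurableSet A) (a L : ℝ) (f g : E 2 → ℂ)
    (h : f =ᵐ[volume.restrict (rect A a L)] g) :
    ∀ᵐ s : ℝ, s ∈ A → ∀ᵐ u : ℝ, u ∈ Ioc a (a + L) → f !₂[s, u] = g !₂[s, u] := by
  have h1 : ∀ᵐ x : E 2, x ∈ rect A a L → f x = g x := (ae_restrict_iff' (rect_meas A hA a L)).1 h
  have h2 : ∀ᵐ p : ℝ × ℝ, T2.symm p ∈ rect A a L → f (T2.symm p) = g (T2.symm p) :=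
    (T2_mp.symm T2).quasiMeasurePreserving.ae h1
  rw [Measure.volume_eq_prod] at h2
  filter_upwards [Measure.ae_ae_of_ae_prod h2] with s hs hsA
  filter_upwards [hs] with u hu hu1
  exact hu ⟨hsA, hu1⟩

theorem coef_congr (A : Set ℝ) (hA : MeasurableSet A) (a L : ℝ) (f g : E 2 → ℂ)
    (h : f =ᵐ[volume.restrict (rect A a L)] g) :
    ∀ᵐ s : ℝ, s ∈ A → ∀ k : ℤ, coef a L f s k = coef a L g s k := by
  filter_upwards [ae_slices A hA a L f g h] with s hs hsA k
  unfold coef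
  refine integral_congr_ae ?_
  rw [Filter.EventuallyEq, ae_restrict_iff' measurableSet_Ioc]
  filter_upwards [hs hsA] with u hu hu1
  rw [hu hu1]

theorem mix_congr (q : ℝ) (A : Set ℝ) (hA : MeasurableSet A) (a L : ℝ) (f g : E 2 → ℂ)
    (h : f =ᵐ[volume.restrict (rect A a L)] g) : mix q A a L f = mix q A a L g := by
  unfold mix
  congr 1
  refine lintegral_congr_ae ?_
  rw [Filter.EventuallyEq, ae_restrict_iff' hA]
  filter_upwards [ae_slices A hA a L f g h] with s hs hsA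
  congr 1
  refine lintegral_congr_ae ?_
  rw [Filter.EventuallyEq, ae_restrict_iff' measurableSet_Ioc]
  filter_upwards [hs hsA] with u hu hu1
  rw [hu hu1]

/-- the thin spectrum estimate, `q < 4` -/
theorem thin1 (κ M q L : ℝ) (hκ : 0 ≤ κ) (hM : 0 < M) (hκ1 : κ < 1) (hq : 2 < (2 - κ) * (q - 2))
    (hq4 : q < 4) (hL : 0 < L) :
    ∃ (C : ℝ≥0∞), C ≠ ∞ ∧ C ≠ 0 ∧ ∀ (Λ : Set ℤ), RBS Λ κ M →
      ∀ (A : Set ℝ), MeasurableSet A → A ⊆ Icc (-1) 1 → ∀ (a : ℝ) (f : E 2 → ℂ),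
      IntegrableOn f (rect A a L) →
      (∀ᵐ s : ℝ, s ∈ A → ∀ k : ℤ, k ∉ Λ → coef a L f s k = 0) →
      eLpNorm (ext (rect A a L) f) (ENNReal.ofReal q) volume ≤ C * mix q A a L f := by
  obtain ⟨C, hC, hC0, h⟩ := thin0 κ M q L hκ hM hκ1 hq hq4 hL
  refine ⟨C, hC, hC0, ?_⟩
  intro Λ hΛ A hA hA1 a f hfi hsp
  have hae := hfi.1.ae_eq_mk
  rw [ext_congr _ _ _ hae, mix_congr q A hA a L _ _ hae]
  refine h Λ hΛ A hA hA1 a _ hfi.1.stronglyMeasurable_mk.measurable (hfi.congr hae) ?_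
  filter_upwards [hsp, coef_congr A hA a L _ _ hae] with s h1 h2 hsA k hk
  rw [← h2 hsA k]
  exact h1 hsA k hk

theorem lint_rect (A : Set ℝ) (hA : MeasurableSet A) (a L : ℝ) (G : E 2 → ℝ≥0∞)
    (hG : Measurable G) :
    ∫⁻ x in rect A a L, G x = ∫⁻ s in A, ∫⁻ u in Ioc a (a + L), G !₂[s, u] := by
  rw [← lintegral_indicator (rect_meas A hA a L)]
  have h1 : ∀ x : E 2, (rect A a L).indicator G x =
      (fun p : ℝ × ℝ => (A ×ˢ Ioc a (a + L)).indicator (fun p : ℝ × ℝ => G (T2.symm p)) p)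
        (T2 x) := by
    intro x
    simp only
    by_cases hx : x ∈ rect A a L
    · rw [indicator_of_mem hx, indicator_of_mem (by exact hx), T2.symm_apply_apply]
    · rw [indicator_of_notMem hx, indicator_of_notMem (by exact hx)]
  simp_rw [h1]
  have hGm : Measurable fun p : ℝ × ℝ => G (T2.symm p) := hG.comp T2.symm.measurable
  rw [T2_mp.lintegral_comp_emb T2.measurableEmbedding
    (fun p : ℝ × ℝ => (A ×ˢ Ioc a (a + L)).indicator (fun p : ℝ × ℝ => G (T2.symm p)) p),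
    lintegral_indicator (hA.prod measurableSet_Ioc), Measure.volume_eq_prod,
    ← Measure.prod_restrict, lintegral_prod _ hGm.aemeasurable]
  rfl

theorem mix_le (q : ℝ) (hq : 2 ≤ q) (A : Set ℝ) (hA : MeasurableSet A) (a L : ℝ)
    (f : E 2 → ℂ) (hf : AEStronglyMeasurable f (volume.restrict (rect A a L))) :
    mix q A a L f ≤ ENNReal.ofReal L ^ ((q / 2 - 1) / q) *
      eLpNorm f (ENNReal.ofReal q) (volume.restrict (rect A a L)) := by
  have hq0 : 0 < q := by linarith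
  have hae := hf.ae_eq_mk
  rw [mix_congr q A hA a L _ _ hae, eLpNorm_congr_ae hae,
    eLpNorm_eq_lintegral_rpow_enorm_toReal (by simp [hq0]) ENNReal.ofReal_ne_top,
    ENNReal.toReal_ofReal hq0.le]
  set g := hf.mk f with hg
  have hgm : Measurable g := hf.stronglyMeasurable_mk.measurable
  rw [lint_rect A hA a L _ (hgm.enorm.pow_const q)]
  unfold mix
  rw [div_eq_mul_one_div (q / 2 - 1) q, ENNReal.rpow_mul,
    ← ENNReal.mul_rpow_of_nonneg _ _ (by positivity)]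
  gcongr
  rw [← lintegral_const_mul' _ _ (ENNReal.rpow_lt_top_of_nonneg (by linarith)
    ENNReal.ofReal_ne_top).ne]
  refine lintegral_mono fun s => ?_
  have h2 : Measurable fun u : ℝ => ‖g !₂[s, u]‖ₑ :=
    (hgm.comp (T2.symm.measurable.comp (by fun_prop : Measurable fun u : ℝ => (s, u)))).enorm
  have h := ENNReal.lintegral_mul_norm_pow_le (μ := (volume : Measure ℝ).restrict (Ioc a (a + L)))
    (f := fun u => ‖g !₂[s, u]‖ₑ ^ q) (g := fun _ => 1) (h2.pow_const q).aemeasurable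
    aemeasurable_const (p := 2 / q) (q := 1 - 2 / q) (by positivity)
    (by rw [sub_nonneg, div_le_one hq0]; exact hq) (by ring)
  have h1 : ∀ u, (‖g !₂[s, u]‖ₑ ^ q) ^ (2 / q) * (1 : ℝ≥0∞) ^ (1 - 2 / q) = ‖g !₂[s, u]‖ₑ ^ 2 := by
    intro u
    rw [ENNReal.one_rpow, mul_one, ← ENNReal.rpow_natCast, ← ENNReal.rpow_mul]
    congr 1
    push_cast
    field_simp
  simp_rw [h1] at h
  rw [lintegral_const, Measure.restrict_apply_univ, Real.volume_Ioc, one_mul,
    add_sub_cancel_left] at h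
  calc (∫⁻ u in Ioc a (a + L), ‖g !₂[s, u]‖ₑ ^ 2) ^ (q / 2)
      ≤ ((∫⁻ u in Ioc a (a + L), ‖g !₂[s, u]‖ₑ ^ q) ^ (2 / q) *
        ENNReal.ofReal L ^ (1 - 2 / q)) ^ (q / 2) := by gcongr
    _ = _ := by
      rw [ENNReal.mul_rpow_of_nonneg _ _ (by positivity), ← ENNReal.rpow_mul, ← ENNReal.rpow_mul,
        mul_comm]
      congr 1
      · congr 1
        field_simp
      · have : 2 / q * (q / 2) = 1 := by field_simp
        rw [this, ENNReal.rpow_one]

theorem ext_sup (V : Set (E 2)) (f : E 2 → ℂ) (ξ : E 3) :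
    ‖ext V f ξ‖ₑ ≤ ∫⁻ x in V, ‖f x‖ₑ := by
  unfold ext
  refine (enorm_integral_le_lintegral_enorm _).trans_eq ?_
  refine lintegral_congr fun x => ?_
  rw [exp_ee, enorm_mul, ee_enorm, one_mul]

theorem rect_vol (A : Set ℝ) (hA : MeasurableSet A) (hA1 : A ⊆ Icc (-1) 1) (a L : ℝ) :
    volume (rect A a L) ≤ 2 * ENNReal.ofReal L := by
  have h1 := lint_rect A hA a L (fun _ => 1) measurable_const
  simp only [lintegral_const, Measure.restrict_apply_univ, one_mul, Real.volume_Ioc,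
    add_sub_cancel_left] at h1
  rw [h1, mul_comm]
  gcongr
  refine (measure_mono hA1).trans_eq ?_
  rw [Real.volume_Icc]
  norm_num

/-- the thin spectrum estimate for all exponents -/
theorem thin2 (κ M q L : ℝ) (hκ : 0 ≤ κ) (hM : 0 < M) (hκ1 : κ < 1) (hq : 2 < (2 - κ) * (q - 2))
    (hL : 0 < L) :
    ∃ (C : ℝ≥0), ∀ (Λ : Set ℤ), RBS Λ κ M →
      ∀ (A : Set ℝ), MeasurableSet A → A ⊆ Icc (-1) 1 → ∀ (a : ℝ) (f : E 2 → ℂ),
      MemLp f (ENNReal.ofReal q) (volume.restrict (rect A a L)) →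
      (∀ᵐ s : ℝ, s ∈ A → ∀ k : ℤ, k ∉ Λ → coef a L f s k = 0) →
      eLpNorm (ext (rect A a L) f) (ENNReal.ofReal q) volume ≤
        C * eLpNorm f (ENNReal.ofReal q) (volume.restrict (rect A a L)) := by
  have hq2 : 2 < q := by nlinarith
  have hq0 : 0 < q := by linarith
  -- an exponent below `4`
  obtain ⟨r, hr, hr4, hrq⟩ : ∃ r, 2 < (2 - κ) * (r - 2) ∧ r < 4 ∧ r ≤ q := by
    by_cases h : q < 4
    · exact ⟨q, hq, h, le_rfl⟩
    · push Not at h
      have h1 : 2 + 2 / (2 - κ) < 4 := by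
        have : 2 / (2 - κ) < 2 := by
          rw [div_lt_iff₀ (by linarith)]
          linarith
        linarith
      obtain ⟨r, hr1, hr2⟩ := exists_between h1
      refine ⟨r, ?_, hr2, by linarith⟩
      have h2 : 2 / (2 - κ) < r - 2 := by linarith
      rw [div_lt_iff₀ (by linarith)] at h2
      linarith
  have hr2 : 2 < r := by nlinarith
  have hr0 : 0 < r := by linarith
  obtain ⟨C, hC, hC0, h⟩ := thin1 κ M r L hκ hM hκ1 hr hr4 hL
  -- constants
  set V : ℝ≥0∞ := 2 * ENNReal.ofReal L with hV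
  have hVt : V ≠ ∞ := ENNReal.mul_ne_top (by simp) ENNReal.ofReal_ne_top
  set B : ℝ≥0∞ := ENNReal.ofReal L ^ ((r / 2 - 1) / r) with hB
  have hBt : B ≠ ∞ := (ENNReal.rpow_lt_top_of_nonneg (div_nonneg (by linarith) hr0.le)
    ENNReal.ofReal_ne_top).ne
  set D1 : ℝ≥0∞ := C * (B * V ^ (1 / r - 1 / q)) with hD1
  have hrq' : 0 ≤ 1 / r - 1 / q := by
    rw [sub_nonneg]
    exact one_div_le_one_div_of_le hr0 hrq
  have h1q' : 0 ≤ 1 - 1 / q := by
    rw [sub_nonneg, div_le_one hq0]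
    linarith
  have hD1t : D1 ≠ ∞ := ENNReal.mul_ne_top hC (ENNReal.mul_ne_top hBt
    (ENNReal.rpow_lt_top_of_nonneg hrq' hVt).ne)
  set D2 : ℝ≥0∞ := V ^ (1 - 1 / q) with hD2
  have hD2t : D2 ≠ ∞ := (ENNReal.rpow_lt_top_of_nonneg h1q' hVt).ne
  set D : ℝ≥0∞ := D2 ^ (1 - r / q) * D1 ^ (r / q) with hD
  have hrq1 : r / q ≤ 1 := (div_le_one hq0).2 hrq
  have hDt : D ≠ ∞ := ENNReal.mul_ne_top
    (ENNReal.rpow_lt_top_of_nonneg (by linarith) hD2t).ne
    (ENNReal.rpow_lt_top_of_nonneg (by positivity) hD1t).ne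
  refine ⟨D.toNNReal, ?_⟩
  intro Λ hΛ A hA hA1 a f hf hsp
  rw [ENNReal.coe_toNNReal hDt]
  set N := eLpNorm f (ENNReal.ofReal q) (volume.restrict (rect A a L)) with hN
  have hvol := rect_vol A hA hA1 a L
  have huniv : (volume.restrict (rect A a L)) univ ≤ V := by
    rw [Measure.restrict_apply_univ]
    exact hvol
  have : IsFiniteMeasure (volume.restrict (rect A a L)) :=
    ⟨lt_of_le_of_lt huniv (lt_top_iff_ne_top.2 hVt)⟩
  have hfi : IntegrableOn f (rect A a L) := hf.integrable (by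
    rw [ENNReal.one_le_ofReal]
    linarith)
  -- the `L^r` norm and the `L^1` norm
  have hNr : eLpNorm f (ENNReal.ofReal r) (volume.restrict (rect A a L)) ≤
      V ^ (1 / r - 1 / q) * N := by
    have h1 := eLpNorm_le_eLpNorm_mul_rpow_measure_univ (μ := volume.restrict (rect A a L))
      (p := ENNReal.ofReal r) (q := ENNReal.ofReal q) (ENNReal.ofReal_le_ofReal hrq) hf.1
    rw [ENNReal.toReal_ofReal hr0.le, ENNReal.toReal_ofReal hq0.le] at h1
    rw [mul_comm]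
    refine h1.trans ?_
    gcongr
  have hN1 : ∫⁻ x in rect A a L, ‖f x‖ₑ ≤ D2 * N := by
    have h1 := eLpNorm_le_eLpNorm_mul_rpow_measure_univ (μ := volume.restrict (rect A a L))
      (p := 1) (q := ENNReal.ofReal q) (by rw [ENNReal.one_le_ofReal]; linarith) hf.1
    rw [ENNReal.toReal_one, ENNReal.toReal_ofReal hq0.le, eLpNorm_one_eq_lintegral_enorm,
      one_div_one] at h1
    rw [mul_comm]
    refine h1.trans ?_
    gcongr
    exact ENNReal.rpow_le_rpow huniv h1q'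
  have hr1 : eLpNorm (ext (rect A a L) f) (ENNReal.ofReal r) volume ≤ D1 * N := by
    refine (h Λ hΛ A hA hA1 a f hfi hsp).trans ?_
    rw [hD1, mul_assoc, mul_assoc]
    gcongr
    refine (mix_le r hr2.le A hA a L f hf.1).trans ?_
    gcongr
  -- interpolation with the sup norm
  have hint : ∫⁻ ξ, ‖ext (rect A a L) f ξ‖ₑ ^ q ≤
      (D2 * N) ^ (q - r) * ∫⁻ ξ, ‖ext (rect A a L) f ξ‖ₑ ^ r := by
    have hfin : (D2 * N) ^ (q - r) ≠ ∞ := (ENNReal.rpow_lt_top_of_nonneg (by linarith)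
      (ENNReal.mul_ne_top hD2t hf.2.ne)).ne
    rw [← lintegral_const_mul' _ _ hfin]
    refine lintegral_mono fun ξ => ?_
    have e1 : ‖ext (rect A a L) f ξ‖ₑ ^ q =
        ‖ext (rect A a L) f ξ‖ₑ ^ (q - r) * ‖ext (rect A a L) f ξ‖ₑ ^ r := by
      rw [← ENNReal.rpow_add_of_nonneg _ _ (by linarith) hr0.le]
      congr 1
      ring
    rw [e1]
    gcongr
    exact (ext_sup _ _ _).trans hN1
  rw [eLpNorm_eq_lintegral_rpow_enorm_toReal (by simp [hr0]) ENNReal.ofReal_ne_top,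
    ENNReal.toReal_ofReal hr0.le] at hr1
  rw [eLpNorm_eq_lintegral_rpow_enorm_toReal (by simp [hq0]) ENNReal.ofReal_ne_top,
    ENNReal.toReal_ofReal hq0.le]
  have hI : ∫⁻ ξ, ‖ext (rect A a L) f ξ‖ₑ ^ r ≤ (D1 * N) ^ r := by
    have h1 := ENNReal.rpow_le_rpow hr1 hr0.le
    rwa [← ENNReal.rpow_mul, one_div_mul_cancel hr0.ne', ENNReal.rpow_one] at h1
  calc (∫⁻ ξ, ‖ext (rect A a L) f ξ‖ₑ ^ q) ^ (1 / q)
      ≤ ((D2 * N) ^ (q - r) * (D1 * N) ^ r) ^ (1 / q) := by
        gcongr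
        refine hint.trans ?_
        gcongr
    _ = (D2 ^ (1 - r / q) * D1 ^ (r / q)) * (N ^ (1 - r / q) * N ^ (r / q)) := by
        rw [ENNReal.mul_rpow_of_nonneg _ _ (by positivity), ← ENNReal.rpow_mul,
          ← ENNReal.rpow_mul]
        have e1 : (q - r) * (1 / q) = 1 - r / q := by field_simp
        have e2 : r * (1 / q) = r / q := by ring
        rw [e1, e2, ENNReal.mul_rpow_of_nonneg _ _ (by linarith),
          ENNReal.mul_rpow_of_nonneg _ _ (by positivity)]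
        ring
    _ = D * N := by
        rw [← ENNReal.rpow_add_of_nonneg _ _ (by linarith) (by positivity), sub_add_cancel,
          ENNReal.rpow_one]

end Pool.Agent.J4.H85.TS
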