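import Pool.Agent.J4.H85.TS1
set_option autoImplicit false

/-! The `L⁴` norms at fixed time of a finite family of solutions of the one dimensional
Schrödinger equation. -/

namespace Pool.Agent.J4.H85.TS

open MeasureTheory Complex Set Filter Topology
open scoped ENNReal NNReal RealInnerProductSpace ComplexConjugate
open Pool.Agent.R412.RT (E ee ee_norm ee_add ee_conj ee_meas ee_cont planch)

variable {ι : Type*}

theorem ft_sum (K : Finset ι) (H : ι → ℝ → ℂ) (hH : ∀ i ∈ K, Integrable (H i)) (α : ℝ) :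
    ft (fun h => ∑ i ∈ K, H i h) α = ∑ i ∈ K, ft (H i) α := by
  unfold ft
  rw [← integral_finsetSum]
  · congr 1
    ext u
    rw [Finset.mul_sum]
  · intro i hi
    exact ee_mul_int (H i) (hH i hi) (fun u => u * α) (by fun_prop)

theorem sum_sq (K : Finset ι) (z : ι → ℂ) :
    ‖∑ i ∈ K, z i * conj (z i)‖ₑ = ∑ i ∈ K, ‖z i‖ₑ ^ 2 := by
  have h1 : ∑ i ∈ K, z i * conj (z i) = ((∑ i ∈ K, ‖z i‖ ^ 2 : ℝ) : ℂ) := by
    push_cast
    refine Finset.sum_congr rfl fun i _ => ?_
    rw [Complex.mul_conj, Complex.normSq_eq_norm_sq]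
    push_cast
    rfl
  rw [h1, ← ofReal_norm, Complex.norm_real, Real.norm_of_nonneg (by positivity),
    ENNReal.ofReal_sum_of_nonneg (fun i _ => by positivity)]
  refine Finset.sum_congr rfl fun i _ => ?_
  rw [ENNReal.ofReal_pow (norm_nonneg _), ofReal_norm]

theorem four (K : Finset ι) (F : ι → ℝ → ℂ) (hF : ∀ i ∈ K, Integrable (F i)) :
    ∫⁻ α, (∑ i ∈ K, ‖ft (F i) α‖ₑ ^ 2) ^ 2 ≤ ∫⁻ h, ‖∑ i ∈ K, aut (F i) h‖ₑ ^ 2 := by
  have h1 : ∀ α, (∑ i ∈ K, ‖ft (F i) α‖ₑ ^ 2) = ‖ft (fun h => ∑ i ∈ K, aut (F i) h) α‖ₑ := by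
    intro α
    rw [ft_sum K (fun i => aut (F i)) (fun i hi => aut_int _ (hF i hi)), ← sum_sq]
    congr 1
    refine Finset.sum_congr rfl fun i hi => ?_
    rw [ft_aut _ (hF i hi)]
  simp_rw [h1]
  exact planch1 _ (integrable_finsetSum _ fun i hi => aut_int _ (hF i hi))

/-- an admissible family: measurable, `∑ ‖g i s‖² ≤ 1`, supported in `A ⊆ [-1,1]` -/
structure Adm (K : Finset ι) (g : ι → ℝ → ℂ) (A : Set ℝ) : Prop where
  mA : MeasurableSet A
  sub : A ⊆ Icc (-1) 1
  meas : ∀ i ∈ K, Measurable (g i)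
  supp : ∀ i ∈ K, ∀ s, s ∉ A → g i s = 0
  le : ∀ s, ∑ i ∈ K, ‖g i s‖ ^ 2 ≤ 1

variable {K : Finset ι} {g : ι → ℝ → ℂ} {A : Set ℝ}

theorem Adm.vol (h : Adm K g A) : volume A ≤ 2 := by
  refine (measure_mono h.sub).trans_eq ?_
  rw [Real.volume_Icc]
  norm_num

theorem Adm.one (h : Adm K g A) (i : ι) (hi : i ∈ K) (s : ℝ) : ‖g i s‖ ≤ 1 := by
  have h1 : ‖g i s‖ ^ 2 ≤ 1 :=
    (Finset.single_le_sum (f := fun j => ‖g j s‖ ^ 2) (fun j _ => by positivity) hi).trans (h.le s)
  nlinarith [norm_nonneg (g i s)]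

theorem bdd_int (u : ℝ → ℂ) (hu : Measurable u) (C : ℝ) (hC : ∀ s, ‖u s‖ ≤ C) (a b : ℝ)
    (hs : ∀ s, s ∉ Icc a b → u s = 0) : Integrable u := by
  have h1 : u = (Icc a b).indicator u := by
    ext s
    by_cases h : s ∈ Icc a b
    · rw [indicator_of_mem h]
    · rw [indicator_of_notMem h, hs s h]
  rw [h1, integrable_indicator_iff measurableSet_Icc]
  exact Measure.integrableOn_of_bounded (by rw [Real.volume_Icc]; exact ENNReal.ofReal_ne_top)
    hu.aestronglyMeasurable (Eventually.of_forall hC)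

theorem Adm.int (h : Adm K g A) (i : ι) (hi : i ∈ K) : Integrable (g i) :=
  bdd_int (g i) (h.meas i hi) 1 (h.one i hi) (-1) 1 fun s hs => h.supp i hi s fun h1 => hs (h.sub h1)

/-- the correlation at lag `h` -/
noncomputable def cor (K : Finset ι) (g : ι → ℝ → ℂ) (h y : ℝ) : ℂ :=
  ∑ i ∈ K, g i (h + y) * conj (g i y)

/-- the chirped functions -/
noncomputable def chirp (t : ℝ) (u : ℝ → ℂ) (s : ℝ) : ℂ := ee (s ^ 2 * t) * u s

theorem chirp_int (t : ℝ) (u : ℝ → ℂ) (hu : Integrable u) : Integrable (chirp t u) :=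
  ee_mul_int u hu _ (by fun_prop)

theorem Adm.chirp_aut (h : Adm K g A) (t l : ℝ) :
    ∑ i ∈ K, aut (chirp t (g i)) l = ee (l ^ 2 * t) * ft (cor K g l) (2 * l * t) := by
  unfold aut ft cor
  rw [← integral_finsetSum, ← integral_const_mul]
  · congr 1
    ext y
    rw [Finset.mul_sum, Finset.mul_sum]
    refine Finset.sum_congr rfl fun i _ => ?_
    unfold chirp
    rw [map_mul, ee_conj]
    have h1 : ee ((l + y) ^ 2 * t) * ee (-(y ^ 2 * t)) = ee (l ^ 2 * t) * ee (y * (2 * l * t)) := by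
      rw [← ee_add, ← ee_add]
      congr 1
      ring
    linear_combination (g i (l + y) * conj (g i y)) * h1
  · intro i hi
    refine bdd_int _ ?_ 1 ?_ (-1) 1 ?_
    · unfold chirp
      have hm := h.meas i hi
      have h1 : Measurable fun y : ℝ => g i (l + y) := hm.comp (by fun_prop)
      refine Measurable.mul ?_ ?_
      · exact (ee_meas.comp (by fun_prop)).mul h1
      · exact (Complex.continuous_conj.measurable).comp ((ee_meas.comp (by fun_prop)).mul hm)
    · intro s
      unfold chirp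
      rw [norm_mul, RCLike.norm_conj, norm_mul, norm_mul, ee_norm, ee_norm, one_mul, one_mul]
      exact mul_le_one₀ (h.one i hi _) (norm_nonneg _) (h.one i hi _)
    · intro s hs
      unfold chirp
      rw [h.supp i hi s fun h1 => hs (h.sub h1)]
      simp

theorem Adm.cor_le (h : Adm K g A) (l y : ℝ) :
    ‖cor K g l y‖ₑ ≤ A.indicator 1 (l + y) * A.indicator (1 : ℝ → ℝ≥0∞) y := by
  by_cases h1 : l + y ∈ A
  · by_cases h2 : y ∈ A
    · rw [indicator_of_mem h1, indicator_of_mem h2]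
      simp only [Pi.one_apply, mul_one]
      have h3 : ‖cor K g l y‖ ≤ 1 := by
        unfold cor
        calc ‖∑ i ∈ K, g i (l + y) * conj (g i y)‖
            ≤ ∑ i ∈ K, ‖g i (l + y) * conj (g i y)‖ := norm_sum_le _ _
          _ ≤ ∑ i ∈ K, (‖g i (l + y)‖ ^ 2 + ‖g i y‖ ^ 2) / 2 := by
              refine Finset.sum_le_sum fun i _ => ?_
              rw [norm_mul, RCLike.norm_conj]
              nlinarith [sq_nonneg (‖g i (l + y)‖ - ‖g i y‖)]
          _ ≤ 1 := by
              rw [← Finset.sum_div, Finset.sum_add_distrib]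
              linarith [h.le (l + y), h.le y]
      rw [← ofReal_norm]
      exact ENNReal.ofReal_le_one.2 h3
    · have : cor K g l y = 0 := by
        unfold cor
        refine Finset.sum_eq_zero fun i hi => ?_
        rw [h.supp i hi y h2]
        simp
      rw [this]
      simp
  · have : cor K g l y = 0 := by
      unfold cor
      refine Finset.sum_eq_zero fun i hi => ?_
      rw [h.supp i hi _ h1]
      simp
    rw [this]
    simp

theorem Adm.cor_meas (h : Adm K g A) : Measurable fun p : ℝ × ℝ => cor K g p.1 p.2 := by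
  unfold cor
  refine Finset.measurable_fun_sum _ fun i hi => ?_
  have hm := h.meas i hi
  refine Measurable.mul (hm.comp (by fun_prop)) ?_
  exact (Complex.continuous_conj.measurable).comp (hm.comp (by fun_prop))

end Pool.Agent.J4.H85.TS
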