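import Pool.Agent.J4.H85.TS2
set_option autoImplicit false

/-! The vector valued mixed norm estimate for the one dimensional Schrödinger equation. -/

namespace Pool.Agent.J4.H85.TS

open MeasureTheory Complex Set Filter Topology
open scoped ENNReal NNReal RealInnerProductSpace ComplexConjugate
open Pool.Agent.R412.RT (E ee ee_norm ee_add ee_conj ee_meas ee_cont planch)

theorem wint_half (x : ℝ) (hx : -1 < x) (R : ℝ) (hR : 0 ≤ R) :
    ∫⁻ h in Icc 0 R, ENNReal.ofReal |h| ^ x < ∞ := by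
  have h1 : IntervalIntegrable (fun h : ℝ => h ^ x) volume 0 R :=
    intervalIntegral.intervalIntegrable_rpow' hx
  have h2 : IntegrableOn (fun h : ℝ => h ^ x) (Ioc 0 R) volume :=
    (intervalIntegrable_iff_integrableOn_Ioc_of_le hR).1 h1
  rw [← restrict_Ioc_eq_restrict_Icc]
  refine lt_of_le_of_lt (lintegral_mono_ae ?_) h2.2
  filter_upwards [ae_restrict_mem measurableSet_Ioc] with h hh
  have h0 : 0 < h := hh.1
  rw [abs_of_pos h0, ENNReal.ofReal_rpow_of_pos h0, ← ofReal_norm,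
    Real.norm_of_nonneg (by positivity)]

theorem wint (x : ℝ) (hx : -1 < x) (R : ℝ) (hR : 0 ≤ R) :
    ∫⁻ h in Icc (-R) R, ENNReal.ofReal |h| ^ x < ∞ := by
  have h1 : Icc (-R) R = Icc (-R) 0 ∪ Icc 0 R := (Icc_union_Icc_eq_Icc (by linarith) hR).symm
  rw [h1]
  refine (lintegral_union_le _ _ _).trans_lt (ENNReal.add_lt_top.2 ⟨?_, wint_half x hx R hR⟩)
  have h2 : ∫⁻ h in Icc (-R) 0, ENNReal.ofReal |h| ^ x = ∫⁻ h in Icc 0 R, ENNReal.ofReal |h| ^ x := by
    rw [← lintegral_indicator measurableSet_Icc, ← lintegral_indicator measurableSet_Icc]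
    rw [← lintegral_neg_eq_self]
    refine lintegral_congr fun h => ?_
    by_cases hh : h ∈ Icc 0 R
    · rw [indicator_of_mem hh, indicator_of_mem (by constructor <;> linarith [hh.1, hh.2]), abs_neg]
    · rw [indicator_of_notMem hh, indicator_of_notMem]
      intro h3
      exact hh (by constructor <;> linarith [h3.1, h3.2])
  rw [h2]
  exact wint_half x hx R hR

/-- change of variables -/
theorem scale (a : ℝ) (ha : a ≠ 0) (G : ℝ → ℝ≥0∞) (hG : Measurable G) :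
    ∫⁻ t, G (a * t) = ENNReal.ofReal |a|⁻¹ * ∫⁻ t, G t := by
  have h1 : ∫⁻ t, G t ∂(Measure.map (a * ·) volume) = ∫⁻ t, G (a * t) :=
    lintegral_map hG (measurable_const_mul a)
  rw [← h1, Real.map_volume_mul_left ha, lintegral_smul_measure, smul_eq_mul, abs_inv]

variable {ι : Type*} {K : Finset ι} {g : ι → ℝ → ℂ} {A : Set ℝ}

theorem Adm.ftcor_meas (h : Adm K g A) :
    Measurable fun p : ℝ × ℝ => ft (cor K g p.1) p.2 := by
  unfold ft
  have h1 : StronglyMeasurable (Function.uncurry fun (p : ℝ × ℝ) (u : ℝ) =>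
      ee (u * p.2) * cor K g p.1 u) := by
    refine Measurable.stronglyMeasurable ?_
    refine (ee_meas.comp (by fun_prop)).mul ?_
    exact h.cor_meas.comp (by fun_prop : Measurable fun q : (ℝ × ℝ) × ℝ => (q.1.1, q.2))
  exact h1.integral_prod_right.measurable

/-- overlap -/
noncomputable def ov (A : Set ℝ) (h : ℝ) : ℝ≥0∞ :=
  ∫⁻ y, A.indicator 1 (h + y) * A.indicator (1 : ℝ → ℝ≥0∞) y

theorem Adm.ov_le (h : Adm K g A) (l : ℝ) : ov A l ≤ volume A := by
  unfold ov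
  calc ∫⁻ y, A.indicator 1 (l + y) * A.indicator (1 : ℝ → ℝ≥0∞) y
      ≤ ∫⁻ y, A.indicator (1 : ℝ → ℝ≥0∞) y := by
        refine lintegral_mono fun y => ?_
        refine mul_le_of_le_one_left zero_le ?_
        exact indicator_le_self' (by simp) _
    _ = volume A := by
        rw [lintegral_indicator_one h.mA]

theorem Adm.cor_one (h : Adm K g A) (l : ℝ) : ∫⁻ y, ‖cor K g l y‖ₑ ≤ ov A l :=
  lintegral_mono fun y => h.cor_le l y

theorem Adm.cor_int (h : Adm K g A) (l : ℝ) : Integrable (cor K g l) := by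
  refine ⟨(h.cor_meas.comp (by fun_prop : Measurable fun y : ℝ => (l, y))).aestronglyMeasurable, ?_⟩
  exact lt_of_le_of_lt (h.cor_one l) (lt_of_le_of_lt (h.ov_le l) (lt_of_le_of_lt h.vol (by simp)))

theorem Adm.cor_two (h : Adm K g A) (l : ℝ) : ∫⁻ y, ‖cor K g l y‖ₑ ^ 2 ≤ ov A l := by
  refine lintegral_mono fun y => ?_
  have h1 := h.cor_le l y
  have h2 : A.indicator 1 (l + y) * A.indicator (1 : ℝ → ℝ≥0∞) y ≤ 1 :=
    mul_le_one' (indicator_le_self' (by simp) _) (indicator_le_self' (by simp) _)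
  calc ‖cor K g l y‖ₑ ^ 2 = ‖cor K g l y‖ₑ * ‖cor K g l y‖ₑ := sq _
    _ ≤ (A.indicator 1 (l + y) * A.indicator (1 : ℝ → ℝ≥0∞) y) * 1 := by
        gcongr
        exact h1.trans h2
    _ = _ := mul_one _

/-- the `L^{2s}` norm of the transform of the correlation -/
theorem Adm.ft_pow (h : Adm K g A) (s : ℝ) (hs : 1 < s) (l : ℝ) :
    ∫⁻ τ, ‖ft (cor K g l) τ‖ₑ ^ (2 * s) ≤ ov A l ^ (2 * s - 1) := by
  have h1 : ∀ τ, ‖ft (cor K g l) τ‖ₑ ^ (2 * s) ≤
      ov A l ^ (2 * s - 2) * ‖ft (cor K g l) τ‖ₑ ^ 2 := by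
    intro τ
    have h2 : ‖ft (cor K g l) τ‖ₑ ≤ ov A l := (ft_le _ _).trans (h.cor_one l)
    have h3 : ‖ft (cor K g l) τ‖ₑ ^ (2 * s) =
        ‖ft (cor K g l) τ‖ₑ ^ (2 * s - 2) * ‖ft (cor K g l) τ‖ₑ ^ 2 := by
      rw [← ENNReal.rpow_natCast, ← ENNReal.rpow_add_of_nonneg _ _ (by linarith) (by norm_num)]
      congr 1
      push_cast
      ring
    rw [h3]
    gcongr
    linarith
  calc ∫⁻ τ, ‖ft (cor K g l) τ‖ₑ ^ (2 * s)
      ≤ ∫⁻ τ, ov A l ^ (2 * s - 2) * ‖ft (cor K g l) τ‖ₑ ^ 2 := lintegral_mono h1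
    _ = ov A l ^ (2 * s - 2) * ∫⁻ τ, ‖ft (cor K g l) τ‖ₑ ^ 2 := by
        rw [lintegral_const_mul']
        refine (ENNReal.rpow_lt_top_of_nonneg (by linarith) ?_).ne
        exact (lt_of_le_of_lt (h.ov_le l) (lt_of_le_of_lt h.vol (by simp))).ne
    _ ≤ ov A l ^ (2 * s - 2) * ov A l := by
        gcongr
        exact (planch1 _ (h.cor_int l)).trans (h.cor_two l)
    _ = ov A l ^ (2 * s - 2 + 1) := by
        rw [ENNReal.rpow_add_of_nonneg _ _ (by linarith) (by norm_num), ENNReal.rpow_one]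
    _ = _ := by
        congr 1
        ring

theorem Adm.cor_zero (h : Adm K g A) (l : ℝ) (hl : l ∉ Icc (-2 : ℝ) 2) (τ : ℝ) :
    ft (cor K g l) τ = 0 := by
  unfold ft
  have h1 : ∀ u, ee (u * τ) * cor K g l u = 0 := by
    intro u
    have : cor K g l u = 0 := by
      have h2 := h.cor_le l u
      by_cases hu : u ∈ A
      · have h3 : l + u ∉ A := by
          intro h4
          have h5 := h.sub h4
          have h6 := h.sub hu
          refine hl ⟨?_, ?_⟩ <;> linarith [h5.1, h5.2, h6.1, h6.2]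
        rw [indicator_of_notMem h3, zero_mul] at h2
        exact enorm_eq_zero.1 (le_antisymm h2 zero_le)
      · rw [indicator_of_notMem hu, mul_zero] at h2
        exact enorm_eq_zero.1 (le_antisymm h2 zero_le)
    rw [this, mul_zero]
  simp_rw [h1]
  simp

/-- the fourth power of the `L⁴` norm at time `t` -/
noncomputable def AA (K : Finset ι) (g : ι → ℝ → ℂ) (t : ℝ) : ℝ≥0∞ :=
  ∫⁻ α, (∑ i ∈ K, ‖ft (chirp t (g i)) α‖ₑ ^ 2) ^ 2

theorem Adm.AA_le (h : Adm K g A) (t : ℝ) :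
    AA K g t ≤ ∫⁻ l in Icc (-2 : ℝ) 2, ‖ft (cor K g l) (2 * l * t)‖ₑ ^ 2 := by
  unfold AA
  refine (four K (fun i => chirp t (g i)) (fun i hi => chirp_int t _ (h.int i hi))).trans_eq ?_
  rw [← lintegral_indicator measurableSet_Icc]
  refine lintegral_congr fun l => ?_
  rw [h.chirp_aut, enorm_mul, ee_enorm, one_mul]
  by_cases hl : l ∈ Icc (-2 : ℝ) 2
  · rw [indicator_of_mem hl]
  · rw [indicator_of_notMem hl, h.cor_zero l hl]
    simp

/-- Hölder in the lag -/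
theorem Adm.AA_pow (h : Adm K g A) (s : ℝ) (hs : 1 < s) (t : ℝ) :
    AA K g t ^ s ≤ (∫⁻ l in Icc (-2 : ℝ) 2, ENNReal.ofReal |l| ^ (-(1 / 2) : ℝ)) ^ (s - 1) *
      ∫⁻ l in Icc (-2 : ℝ) 2, ‖ft (cor K g l) (2 * l * t)‖ₑ ^ (2 * s) *
        ENNReal.ofReal |l| ^ ((s - 1) / 2) := by
  set μ := (volume : Measure ℝ).restrict (Icc (-2) 2) with hμ
  set a : ℝ := (s - 1) / (2 * s) with ha
  have hs0 : 0 < s := by linarith
  have hc : s.HolderConjugate (s / (s - 1)) := by
    rw [Real.holderConjugate_iff]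
    refine ⟨hs, ?_⟩
    have : s - 1 ≠ 0 := by linarith
    field_simp
    ring
  have hme : Measurable fun l : ℝ => ‖ft (cor K g l) (2 * l * t)‖ₑ :=
    (h.ftcor_meas.comp (by fun_prop : Measurable fun l : ℝ => (l, 2 * l * t))).enorm
  have hmw : ∀ x : ℝ, Measurable fun l : ℝ => ENNReal.ofReal |l| ^ x := by
    intro x
    exact (ENNReal.measurable_ofReal.comp (by fun_prop)).pow_const x
  have hH := ENNReal.lintegral_mul_le_Lp_mul_Lq μ hc
    (f := fun l => ‖ft (cor K g l) (2 * l * t)‖ₑ ^ 2 * ENNReal.ofReal |l| ^ a)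
    (g := fun l => ENNReal.ofReal |l| ^ (-a))
    (((hme.pow_const 2).mul (hmw a)).aemeasurable) (hmw _).aemeasurable
  have h0 : ∀ᵐ l ∂μ, l ≠ 0 := by
    refine ae_restrict_of_ae ?_
    rw [ae_iff]
    simp
  have h1 : ∫⁻ l, ‖ft (cor K g l) (2 * l * t)‖ₑ ^ 2 ∂μ =
      ∫⁻ l, ((fun l => ‖ft (cor K g l) (2 * l * t)‖ₑ ^ 2 * ENNReal.ofReal |l| ^ a) *
        (fun l => ENNReal.ofReal |l| ^ (-a))) l ∂μ := by
    refine lintegral_congr_ae ?_
    filter_upwards [h0] with l hl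
    simp only [Pi.mul_apply]
    have h3 : ENNReal.ofReal |l| ^ a * ENNReal.ofReal |l| ^ (-a) = 1 := by
      rw [← ENNReal.rpow_add _ _ (by simpa using hl) ENNReal.ofReal_ne_top,
        add_neg_cancel, ENNReal.rpow_zero]
    rw [mul_assoc (‖ft (cor K g l) (2 * l * t)‖ₑ ^ 2), h3, mul_one]
  have h2 : AA K g t ≤ (∫⁻ l, (‖ft (cor K g l) (2 * l * t)‖ₑ ^ 2 * ENNReal.ofReal |l| ^ a) ^ s ∂μ)
      ^ (1 / s) * (∫⁻ l, (ENNReal.ofReal |l| ^ (-a)) ^ (s / (s - 1)) ∂μ) ^ (1 / (s / (s - 1))) := by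
    refine (h.AA_le t).trans ?_
    rw [h1]
    exact hH
  calc AA K g t ^ s ≤ _ := ENNReal.rpow_le_rpow h2 hs0.le
    _ = _ := by
      rw [ENNReal.mul_rpow_of_nonneg _ _ hs0.le, ← ENNReal.rpow_mul, ← ENNReal.rpow_mul,
        one_div_mul_cancel hs0.ne', ENNReal.rpow_one, mul_comm]
      congr 1
      · have e1 : 1 / (s / (s - 1)) * s = s - 1 := by
          have : s - 1 ≠ 0 := by linarith
          field_simp
        rw [e1]
        congr 1
        refine lintegral_congr fun l => ?_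
        rw [← ENNReal.rpow_mul]
        congr 1
        rw [ha]
        have : s - 1 ≠ 0 := by linarith
        field_simp
      · refine lintegral_congr fun l => ?_
        rw [ENNReal.mul_rpow_of_nonneg _ _ hs0.le, ← ENNReal.rpow_mul, ← ENNReal.rpow_natCast,
          ← ENNReal.rpow_mul]
        congr 2
        rw [ha]
        field_simp

end Pool.Agent.J4.H85.TS
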