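import Pool.Agent.J4.H85.TS3
set_option autoImplicit false

/-! The vector valued mixed norm estimate for the one dimensional Schrödinger equation: the bound
`∫ A(t)^s dt ≤ C |A|^(2s-1)`. -/

namespace Pool.Agent.J4.H85.TS

open MeasureTheory Complex Set Filter Topology
open scoped ENNReal NNReal RealInnerProductSpace ComplexConjugate
open Pool.Agent.R412.RT (E ee ee_norm ee_add ee_conj ee_meas ee_cont planch)

variable {ι : Type*} {K : Finset ι} {g : ι → ℝ → ℂ} {A : Set ℝ}

theorem Adm.ov_int (h : Adm K g A) (x : ℝ) :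
    ∫⁻ l in Icc (-2 : ℝ) 2, ENNReal.ofReal |l| ^ x * ov A l ≤
      (∫⁻ l in Icc (-2 : ℝ) 2, ENNReal.ofReal |l| ^ x) * volume A := by
  have hmw : Measurable fun l : ℝ => ENNReal.ofReal |l| ^ x :=
    (ENNReal.measurable_ofReal.comp (by fun_prop)).pow_const x
  have hmA : Measurable (A.indicator (1 : ℝ → ℝ≥0∞)) := measurable_one.indicator h.mA
  have h1 : ∀ l, ENNReal.ofReal |l| ^ x * ov A l =
      ∫⁻ y, ENNReal.ofReal |l| ^ x * (A.indicator 1 (l + y) * A.indicator (1 : ℝ → ℝ≥0∞) y) := by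
    intro l
    unfold ov
    rw [lintegral_const_mul]
    exact (hmA.comp (by fun_prop)).mul hmA
  simp_rw [h1]
  rw [lintegral_lintegral_swap]
  · calc ∫⁻ y, ∫⁻ l in Icc (-2 : ℝ) 2, ENNReal.ofReal |l| ^ x *
          (A.indicator 1 (l + y) * A.indicator (1 : ℝ → ℝ≥0∞) y)
        ≤ ∫⁻ y, (∫⁻ l in Icc (-2 : ℝ) 2, ENNReal.ofReal |l| ^ x) *
          A.indicator (1 : ℝ → ℝ≥0∞) y := by
          refine lintegral_mono fun y => ?_
          by_cases hy : y ∈ A
          · rw [indicator_of_mem hy]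
            simp only [Pi.one_apply, mul_one]
            refine lintegral_mono fun l => ?_
            refine mul_le_of_le_one_right zero_le ?_
            exact indicator_le_self' (by simp) _
          · rw [indicator_of_notMem hy]
            simp
      _ = _ := by
          rw [lintegral_const_mul _ hmA, lintegral_indicator_one h.mA]
  · have hA2 : Measurable fun p : ℝ × ℝ => A.indicator (1 : ℝ → ℝ≥0∞) (p.1 + p.2) :=
      hmA.comp (by fun_prop)
    have hA3 : Measurable fun p : ℝ × ℝ => A.indicator (1 : ℝ → ℝ≥0∞) p.2 :=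
      hmA.comp (by fun_prop)
    have hA4 : Measurable fun p : ℝ × ℝ => ENNReal.ofReal |p.1| ^ x :=
      hmw.comp (by fun_prop)
    exact (hA4.mul (hA2.mul hA3)).aemeasurable

/-- **Main one dimensional estimate** -/
theorem main1 (s : ℝ) (hs : 1 < s) : ∃ C : ℝ≥0∞, C ≠ ∞ ∧ ∀ {ι : Type} (K : Finset ι)
    (g : ι → ℝ → ℂ) (A : Set ℝ), Adm K g A →
    ∫⁻ t, AA K g t ^ s ≤ C * volume A ^ (2 * s - 1) := by
  set c1 := (∫⁻ l in Icc (-2 : ℝ) 2, ENNReal.ofReal |l| ^ (-(1 / 2) : ℝ)) ^ (s - 1) with hc1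
  set c2 := ∫⁻ l in Icc (-2 : ℝ) 2, ENNReal.ofReal |l| ^ ((s - 1) / 2 - 1) with hc2
  have f1 : c1 ≠ ∞ := (ENNReal.rpow_lt_top_of_nonneg (by linarith)
    (wint _ (by norm_num) 2 (by norm_num)).ne).ne
  have f2 : c2 ≠ ∞ := (wint _ (by linarith) 2 (by norm_num)).ne
  refine ⟨c1 * c2, ENNReal.mul_ne_top f1 f2, fun {ι} K g A h => ?_⟩
  set x : ℝ := (s - 1) / 2 with hx
  have hmw : ∀ x : ℝ, Measurable fun l : ℝ => ENNReal.ofReal |l| ^ x := by
    intro x
    exact (ENNReal.measurable_ofReal.comp (by fun_prop)).pow_const x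
  have hvt : volume A ≠ ∞ := (lt_of_le_of_lt h.vol (by simp)).ne
  calc ∫⁻ t, AA K g t ^ s
      ≤ ∫⁻ t, c1 * ∫⁻ l in Icc (-2 : ℝ) 2, ‖ft (cor K g l) (2 * l * t)‖ₑ ^ (2 * s) *
        ENNReal.ofReal |l| ^ x := lintegral_mono fun t => h.AA_pow s hs t
    _ = c1 * ∫⁻ t, ∫⁻ l in Icc (-2 : ℝ) 2, ‖ft (cor K g l) (2 * l * t)‖ₑ ^ (2 * s) *
        ENNReal.ofReal |l| ^ x := by rw [lintegral_const_mul' _ _ f1]
    _ = c1 * ∫⁻ l in Icc (-2 : ℝ) 2, ∫⁻ t, ‖ft (cor K g l) (2 * l * t)‖ₑ ^ (2 * s) *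
        ENNReal.ofReal |l| ^ x := by
        rw [lintegral_lintegral_swap]
        refine Measurable.aemeasurable ?_
        have e1 : Measurable fun p : ℝ × ℝ => ‖ft (cor K g p.2) (2 * p.2 * p.1)‖ₑ ^ (2 * s) :=
          (h.ftcor_meas.comp (by fun_prop : Measurable fun p : ℝ × ℝ =>
            (p.2, 2 * p.2 * p.1))).enorm.pow_const _
        have e2 : Measurable fun p : ℝ × ℝ => ENNReal.ofReal |p.2| ^ x :=
          (hmw x).comp (by fun_prop)
        exact e1.mul e2
    _ ≤ c1 * ∫⁻ l in Icc (-2 : ℝ) 2, volume A ^ (2 * s - 2) *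
        (ENNReal.ofReal |l| ^ (x - 1) * ov A l) := by
        gcongr c1 * ?_
        refine lintegral_mono_ae ?_
        have h0 : ∀ᵐ l ∂((volume : Measure ℝ).restrict (Icc (-2 : ℝ) 2)), l ≠ 0 := by
          refine ae_restrict_of_ae ?_
          rw [ae_iff]
          simp
        filter_upwards [h0] with l hl
        rw [lintegral_mul_const' _ _
          (ENNReal.rpow_lt_top_of_nonneg (by rw [hx]; linarith) ENNReal.ofReal_ne_top).ne]
        have e1 : ∫⁻ t, ‖ft (cor K g l) (2 * l * t)‖ₑ ^ (2 * s) =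
            ENNReal.ofReal |2 * l|⁻¹ * ∫⁻ t, ‖ft (cor K g l) t‖ₑ ^ (2 * s) := by
          refine scale (2 * l) (by simpa using hl) (fun t => ‖ft (cor K g l) t‖ₑ ^ (2 * s)) ?_
          exact (h.ftcor_meas.comp (by fun_prop : Measurable fun t : ℝ => (l, t))).enorm.pow_const _
        rw [e1]
        have e2 : ENNReal.ofReal |2 * l|⁻¹ ≤ ENNReal.ofReal |l| ^ (-1 : ℝ) := by
          rw [ENNReal.rpow_neg_one, ← ENNReal.ofReal_inv_of_pos (by simpa using hl)]
          refine ENNReal.ofReal_le_ofReal ?_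
          rw [abs_mul, abs_two]
          have : 0 < |l| := abs_pos.2 hl
          gcongr
          linarith
        have e3 : ov A l ^ (2 * s - 1) ≤ volume A ^ (2 * s - 2) * ov A l := by
          have : 2 * s - 1 = (2 * s - 2) + 1 := by ring
          rw [this, ENNReal.rpow_add_of_nonneg _ _ (by linarith) (by norm_num), ENNReal.rpow_one]
          gcongr
          · linarith
          · exact h.ov_le l
        calc ENNReal.ofReal |2 * l|⁻¹ * (∫⁻ t, ‖ft (cor K g l) t‖ₑ ^ (2 * s)) *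
              ENNReal.ofReal |l| ^ x
            ≤ ENNReal.ofReal |l| ^ (-1 : ℝ) * (volume A ^ (2 * s - 2) * ov A l) *
              ENNReal.ofReal |l| ^ x := by
              gcongr
              exact (h.ft_pow s hs l).trans e3
          _ = volume A ^ (2 * s - 2) * ((ENNReal.ofReal |l| ^ x * ENNReal.ofReal |l| ^ (-1 : ℝ)) *
              ov A l) := by ring
          _ = _ := by
              rw [← ENNReal.rpow_add _ _ (by simpa using hl) ENNReal.ofReal_ne_top,
                show x + -1 = x - 1 by ring]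
    _ = c1 * (volume A ^ (2 * s - 2) * ∫⁻ l in Icc (-2 : ℝ) 2,
        ENNReal.ofReal |l| ^ (x - 1) * ov A l) := by
        rw [lintegral_const_mul' _ _ (ENNReal.rpow_lt_top_of_nonneg (by linarith) hvt).ne]
    _ ≤ c1 * (volume A ^ (2 * s - 2) * (c2 * volume A)) := by
        gcongr
        exact h.ov_int _
    _ = (c1 * c2) * (volume A ^ (2 * s - 2) * volume A) := by ring
    _ = _ := by
        congr 1
        have : 2 * s - 1 = (2 * s - 2) + 1 := by ring
        rw [this, ENNReal.rpow_add_of_nonneg _ _ (by linarith) (by norm_num), ENNReal.rpow_one]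

/-- the `L²` bound at fixed time -/
theorem Adm.two (h : Adm K g A) (t : ℝ) :
    ∫⁻ α, ∑ i ∈ K, ‖ft (chirp t (g i)) α‖ₑ ^ 2 ≤ volume A := by
  have hm : ∀ i ∈ K, Measurable fun α => ‖ft (chirp t (g i)) α‖ₑ ^ 2 := by
    intro i hi
    have h1 : StronglyMeasurable (Function.uncurry fun (α : ℝ) (u : ℝ) =>
        ee (u * α) * chirp t (g i) u) := by
      refine Measurable.stronglyMeasurable ?_
      refine (ee_meas.comp (by fun_prop)).mul ?_
      unfold chirp
      refine (ee_meas.comp (by fun_prop)).mul ((h.meas i hi).comp measurable_snd)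
    exact (h1.integral_prod_right.measurable.enorm.pow_const 2)
  rw [lintegral_finsetSum' _ fun i hi => (hm i hi).aemeasurable]
  calc ∑ i ∈ K, ∫⁻ α, ‖ft (chirp t (g i)) α‖ₑ ^ 2
      ≤ ∑ i ∈ K, ∫⁻ u, ‖g i u‖ₑ ^ 2 := by
        refine Finset.sum_le_sum fun i hi => ?_
        refine (planch1 _ (chirp_int t _ (h.int i hi))).trans_eq ?_
        refine lintegral_congr fun u => ?_
        unfold chirp
        rw [enorm_mul, ee_enorm, one_mul]
    _ = ∫⁻ u, ∑ i ∈ K, ‖g i u‖ₑ ^ 2 := by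
        rw [lintegral_finsetSum' _ fun i hi => ((h.meas i hi).enorm.pow_const 2).aemeasurable]
    _ ≤ ∫⁻ u, A.indicator (1 : ℝ → ℝ≥0∞) u := by
        refine lintegral_mono fun u => ?_
        by_cases hu : u ∈ A
        · rw [indicator_of_mem hu, Pi.one_apply]
          have h1 : ∑ i ∈ K, ‖g i u‖ₑ ^ 2 = ENNReal.ofReal (∑ i ∈ K, ‖g i u‖ ^ 2) := by
            rw [ENNReal.ofReal_sum_of_nonneg (fun i _ => by positivity)]
            refine Finset.sum_congr rfl fun i _ => ?_
            rw [ENNReal.ofReal_pow (norm_nonneg _), ofReal_norm]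
          rw [h1]
          exact ENNReal.ofReal_le_one.2 (h.le u)
        · rw [indicator_of_notMem hu]
          refine le_of_eq (Finset.sum_eq_zero fun i hi => ?_)
          rw [h.supp i hi u hu]
          simp
    _ = volume A := lintegral_indicator_one h.mA

end Pool.Agent.J4.H85.TS
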