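import Pool.Agent.J4.H85.TS4
set_option autoImplicit false

/-! Elementary estimates: sums and integrals of powers of `1 + |m + 2 h t|`. -/

namespace Pool.Agent.J4.H85.TS

open MeasureTheory Complex Set Filter Topology
open scoped ENNReal NNReal RealInnerProductSpace ComplexConjugate

theorem sum1 (δ : ℝ) (hδ : 0 < δ) : ∃ C : ℝ, 0 < C ∧ ∀ (θ : ℝ) (M : Finset ℤ),
    ∑ m ∈ M, (1 + |(m : ℝ) + θ|) ^ (-1 - δ) ≤ C := by
  have hsum : Summable fun n : ℤ => 1 / |(n : ℝ) + 1 / 2| ^ (1 + δ) :=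
    (Real.summable_one_div_int_add_rpow (1 / 2) (1 + δ)).2 (by linarith)
  have hpos : ∀ n : ℤ, 0 < |(n : ℝ) + 1 / 2| := by
    intro n
    rw [abs_pos]
    intro h
    have h1 : (2 * n + 1 : ℝ) = 0 := by linarith
    have h2 : (2 * n + 1 : ℤ) = 0 := by exact_mod_cast h1
    omega
  have hn : ∀ n : ℤ, 0 ≤ 1 / |(n : ℝ) + 1 / 2| ^ (1 + δ) := fun n => by positivity
  set c := ∑' n : ℤ, 1 / |(n : ℝ) + 1 / 2| ^ (1 + δ) with hc
  have hc0 : 0 ≤ c := tsum_nonneg hn
  refine ⟨2 ^ (1 + δ) * c + 1, by positivity, fun θ M => ?_⟩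
  set n0 : ℤ := round (-θ) with hn0
  have hr : |(-θ) - n0| ≤ 1 / 2 := abs_sub_round (-θ)
  have h1 : ∀ m : ℤ, (1 + |(m : ℝ) + θ|) ^ (-1 - δ) ≤
      2 ^ (1 + δ) * (1 / |((m - n0 : ℤ) : ℝ) + 1 / 2| ^ (1 + δ)) := by
    intro m
    have h2 : |((m - n0 : ℤ) : ℝ) + 1 / 2| ≤ 2 * (1 + |(m : ℝ) + θ|) := by
      push_cast
      have h3 : ((m : ℝ) - n0) + 1 / 2 = (m + θ) + ((-θ) - n0) + 1 / 2 := by ring
      rw [h3]
      have h4 := abs_add_three ((m : ℝ) + θ) ((-θ) - n0) (1 / 2)
      rw [abs_of_pos (by norm_num : (0:ℝ) < 1 / 2)] at h4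
      linarith [abs_nonneg ((m : ℝ) + θ)]
    have h5 := hpos (m - n0)
    have h6 : (0 : ℝ) < 1 + |(m : ℝ) + θ| := by positivity
    rw [show (-1 - δ) = -(1 + δ) by ring, Real.rpow_neg h6.le, one_div, ← div_eq_mul_inv,
      le_div_iff₀ (by positivity), ← div_eq_inv_mul, div_le_iff₀ (by positivity),
      ← Real.mul_rpow (by norm_num) h6.le]
    exact Real.rpow_le_rpow h5.le h2 (by linarith)
  calc ∑ m ∈ M, (1 + |(m : ℝ) + θ|) ^ (-1 - δ)
      ≤ ∑ m ∈ M, 2 ^ (1 + δ) * (1 / |((m - n0 : ℤ) : ℝ) + 1 / 2| ^ (1 + δ)) :=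
        Finset.sum_le_sum fun m _ => h1 m
    _ = 2 ^ (1 + δ) * ∑ m ∈ M, (1 / |((m - n0 : ℤ) : ℝ) + 1 / 2| ^ (1 + δ)) := by
        rw [Finset.mul_sum]
    _ = 2 ^ (1 + δ) * ∑ n ∈ M.map ⟨fun m => m - n0, fun a b h => by simpa using h⟩,
        (1 / |(n : ℝ) + 1 / 2| ^ (1 + δ)) := by
        rw [Finset.sum_map]
        rfl
    _ ≤ 2 ^ (1 + δ) * c := by
        gcongr
        exact hsum.sum_le_tsum _ fun i _ => hn i
    _ ≤ _ := by linarith

theorem wpow (δ : ℝ) (R : ℝ) (hR : 0 < R) :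
    ∫⁻ y in Icc (-R) R, ENNReal.ofReal |y| ^ (δ - 1) =
      ENNReal.ofReal (R ^ δ) * ∫⁻ y in Icc (-1 : ℝ) 1, ENNReal.ofReal |y| ^ (δ - 1) := by
  set G : ℝ → ℝ≥0∞ := (Icc (-R) R).indicator fun y => ENNReal.ofReal |y| ^ (δ - 1) with hG
  have hmw : Measurable fun l : ℝ => ENNReal.ofReal |l| ^ (δ - 1) :=
    (ENNReal.measurable_ofReal.comp (by fun_prop)).pow_const _
  have h1 := scale R hR.ne' G (hmw.indicator measurableSet_Icc)
  have h2 : ∀ y, G (R * y) = ENNReal.ofReal (R ^ (δ - 1)) *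
      (Icc (-1 : ℝ) 1).indicator (fun y => ENNReal.ofReal |y| ^ (δ - 1)) y := by
    intro y
    have h3 : R * y ∈ Icc (-R) R ↔ y ∈ Icc (-1 : ℝ) 1 := by
      constructor
      · intro h
        constructor
        · have := h.1
          nlinarith
        · have := h.2
          nlinarith
      · intro h
        constructor
        · have := h.1
          nlinarith
        · have := h.2
          nlinarith
    rw [hG]
    by_cases hy : y ∈ Icc (-1 : ℝ) 1
    · rw [indicator_of_mem hy, indicator_of_mem (h3.2 hy), abs_mul, abs_of_pos hR,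
        ENNReal.ofReal_mul hR.le, ENNReal.mul_rpow_of_ne_top ENNReal.ofReal_ne_top
        ENNReal.ofReal_ne_top, ENNReal.ofReal_rpow_of_pos hR]
    · rw [indicator_of_notMem hy, indicator_of_notMem fun h => hy (h3.1 h), mul_zero]
  simp_rw [h2] at h1
  rw [lintegral_const_mul _ (hmw.indicator measurableSet_Icc),
    lintegral_indicator measurableSet_Icc, hG, lintegral_indicator measurableSet_Icc,
    abs_of_pos hR] at h1
  have h4 : ENNReal.ofReal R * ENNReal.ofReal R⁻¹ = 1 := by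
    rw [← ENNReal.ofReal_mul hR.le, mul_inv_cancel₀ hR.ne', ENNReal.ofReal_one]
  calc ∫⁻ y in Icc (-R) R, ENNReal.ofReal |y| ^ (δ - 1)
      = (ENNReal.ofReal R * ENNReal.ofReal R⁻¹) *
        ∫⁻ y in Icc (-R) R, ENNReal.ofReal |y| ^ (δ - 1) := by rw [h4, one_mul]
    _ = ENNReal.ofReal R * (ENNReal.ofReal R⁻¹ *
        ∫⁻ y in Icc (-R) R, ENNReal.ofReal |y| ^ (δ - 1)) := by rw [mul_assoc]
    _ = ENNReal.ofReal R * (ENNReal.ofReal (R ^ (δ - 1)) *
        ∫⁻ y in Icc (-1 : ℝ) 1, ENNReal.ofReal |y| ^ (δ - 1)) := by rw [h1]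
    _ = _ := by
        rw [← mul_assoc, ← ENNReal.ofReal_mul hR.le]
        congr 2
        rw [show δ = 1 + (δ - 1) by ring, Real.rpow_add hR, Real.rpow_one]
        ring_nf

/-- the integral in the lag -/
theorem int1 (δ : ℝ) (hδ : 0 < δ) (hδ1 : δ < 1) : ∃ C : ℝ, 0 < C ∧ ∀ t m : ℝ,
    ∫⁻ h in Icc (-1 : ℝ) 1, ENNReal.ofReal ((1 + |m + 2 * h * t|) ^ (-1 + δ)) ≤
      ENNReal.ofReal (C * (1 + |t| + |m|) ^ (-1 + δ)) := by
  set c := ∫⁻ y in Icc (-1 : ℝ) 1, ENNReal.ofReal |y| ^ (δ - 1) with hc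
  have hct : c ≠ ∞ := (wint _ (by linarith) 1 (by norm_num)).ne
  refine ⟨12 + 6 * c.toReal, by positivity, fun t m => ?_⟩
  have hc0 : 0 ≤ c.toReal := ENNReal.toReal_nonneg
  have hvol : volume (Icc (-1 : ℝ) 1) = 2 := by rw [Real.volume_Icc]; norm_num
  have hcst : ∀ B : ℝ, 0 ≤ B → (∀ h ∈ Icc (-1 : ℝ) 1, (1 + |m + 2 * h * t|) ^ (-1 + δ) ≤ B) →
      ∫⁻ h in Icc (-1 : ℝ) 1, ENNReal.ofReal ((1 + |m + 2 * h * t|) ^ (-1 + δ)) ≤
        ENNReal.ofReal (2 * B) := by
    intro B hB0 hB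
    calc ∫⁻ h in Icc (-1 : ℝ) 1, ENNReal.ofReal ((1 + |m + 2 * h * t|) ^ (-1 + δ))
        ≤ ∫⁻ h in Icc (-1 : ℝ) 1, ENNReal.ofReal B := by
          refine setLIntegral_mono' measurableSet_Icc fun h hh => ?_
          exact ENNReal.ofReal_le_ofReal (hB h hh)
      _ = ENNReal.ofReal (2 * B) := by
          rw [setLIntegral_const, hvol, mul_comm, ENNReal.ofReal_mul (by norm_num)]
          norm_num
  have hX : 0 < 1 + |t| + |m| := by positivity
  by_cases h1 : 4 * |t| ≤ |m|
  · refine (hcst ((5 / 2) * (1 + |t| + |m|) ^ (-1 + δ)) (by positivity) ?_).trans ?_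
    · intro h hh
      have h2 : |2 * h * t| ≤ 2 * |t| := by
        rw [abs_mul, abs_mul, abs_two]
        have : |h| ≤ 1 := abs_le.2 ⟨hh.1, hh.2⟩
        nlinarith [abs_nonneg t]
      have h3 : |m| - 2 * |t| ≤ |m + 2 * h * t| := by
        have := abs_sub_abs_le_abs_sub m (-(2 * h * t))
        rw [abs_neg, sub_neg_eq_add] at this
        linarith
      have h4 : (2 / 5) * (1 + |t| + |m|) ≤ 1 + |m + 2 * h * t| := by
        linarith [abs_nonneg t]
      calc (1 + |m + 2 * h * t|) ^ (-1 + δ) ≤ ((2 / 5) * (1 + |t| + |m|)) ^ (-1 + δ) :=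
            Real.rpow_le_rpow_of_nonpos (by positivity) h4 (by linarith)
        _ = (2 / 5) ^ (-1 + δ) * (1 + |t| + |m|) ^ (-1 + δ) :=
            Real.mul_rpow (by norm_num) hX.le
        _ ≤ (5 / 2) * (1 + |t| + |m|) ^ (-1 + δ) := by
            gcongr
            calc (2 / 5 : ℝ) ^ (-1 + δ) ≤ (2 / 5 : ℝ) ^ (-1 : ℝ) :=
                  Real.rpow_le_rpow_of_exponent_ge (by norm_num) (by norm_num) (by linarith)
              _ = 5 / 2 := by rw [Real.rpow_neg_one]; norm_num
    · refine ENNReal.ofReal_le_ofReal ?_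
      have : 0 ≤ (1 + |t| + |m|) ^ (-1 + δ) := by positivity
      nlinarith
  · push Not at h1
    by_cases h2 : |t| ≤ 1
    · have hX6 : 1 + |t| + |m| ≤ 6 := by linarith
      have h3 : 1 ≤ 6 * (1 + |t| + |m|) ^ (-1 + δ) := by
        calc (1 : ℝ) = 6 * 6⁻¹ := by norm_num
          _ = 6 * (6 : ℝ) ^ (-1 : ℝ) := by rw [Real.rpow_neg_one]
          _ ≤ 6 * (6 : ℝ) ^ (-1 + δ) := by
              gcongr
              · norm_num
              · linarith
          _ ≤ 6 * (1 + |t| + |m|) ^ (-1 + δ) := by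
              gcongr 6 * ?_
              exact Real.rpow_le_rpow_of_nonpos hX hX6 (by linarith)
      refine (hcst 1 (by norm_num) ?_).trans ?_
      · intro h hh
        exact Real.rpow_le_one_of_one_le_of_nonpos (by linarith [abs_nonneg (m + 2 * h * t)])
          (by linarith)
      · refine ENNReal.ofReal_le_ofReal ?_
        have : 0 ≤ (1 + |t| + |m|) ^ (-1 + δ) := by positivity
        nlinarith
    · push Not at h2
      have ht0 : t ≠ 0 := by
        intro h
        rw [h, abs_zero] at h2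
        linarith
      have htp : 0 < |t| := abs_pos.2 ht0
      have hR : 0 < 6 * |t| := by positivity
      set G : ℝ → ℝ≥0∞ := (Icc (-(2 * |t|)) (2 * |t|)).indicator
        (fun x => ENNReal.ofReal |m + x| ^ (δ - 1)) with hG
      have hGm : Measurable G := by
        refine Measurable.indicator ?_ measurableSet_Icc
        exact (ENNReal.measurable_ofReal.comp (by fun_prop)).pow_const _
      have h3 : ∫⁻ h in Icc (-1 : ℝ) 1, ENNReal.ofReal ((1 + |m + 2 * h * t|) ^ (-1 + δ)) ≤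
          ∫⁻ h, G ((2 * t) * h) := by
        rw [← lintegral_indicator measurableSet_Icc]
        refine lintegral_mono fun h => ?_
        by_cases hh : h ∈ Icc (-1 : ℝ) 1
        · rw [indicator_of_mem hh, hG]
          have h4 : |2 * t * h| ≤ 2 * |t| := by
            rw [abs_mul, abs_mul, abs_two]
            have : |h| ≤ 1 := abs_le.2 ⟨hh.1, hh.2⟩
            nlinarith [abs_nonneg t]
          have h4' : 2 * t * h ∈ Icc (-(2 * |t|)) (2 * |t|) := abs_le.1 h4
          rw [indicator_of_mem h4']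
          rw [show m + 2 * h * t = m + 2 * t * h by ring]
          set z := m + 2 * t * h
          by_cases hz : z = 0
          · rw [hz, abs_zero, ENNReal.ofReal_zero, ENNReal.zero_rpow_of_neg (by linarith)]
            exact le_top
          · rw [ENNReal.ofReal_rpow_of_pos (abs_pos.2 hz)]
            refine ENNReal.ofReal_le_ofReal ?_
            rw [show -1 + δ = δ - 1 by ring]
            exact Real.rpow_le_rpow_of_nonpos (abs_pos.2 hz) (by linarith [abs_nonneg z])
              (by linarith)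
        · rw [indicator_of_notMem hh]
          exact zero_le
      have h5 : ∫⁻ x, G x ≤ ∫⁻ y in Icc (-(6 * |t|)) (6 * |t|), ENNReal.ofReal |y| ^ (δ - 1) := by
        rw [← lintegral_indicator measurableSet_Icc]
        rw [← lintegral_add_left_eq_self (μ := volume)
          ((Icc (-(6 * |t|)) (6 * |t|)).indicator fun y => ENNReal.ofReal |y| ^ (δ - 1)) m]
        refine lintegral_mono fun x => ?_
        rw [hG]
        by_cases hx : x ∈ Icc (-(2 * |t|)) (2 * |t|)
        · rw [indicator_of_mem hx, indicator_of_mem]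
          have h6 := abs_le.1 h1.le
          constructor
          · linarith [hx.1, h6.1]
          · linarith [hx.2, h6.2]
        · rw [indicator_of_notMem hx]
          exact zero_le
      calc ∫⁻ h in Icc (-1 : ℝ) 1, ENNReal.ofReal ((1 + |m + 2 * h * t|) ^ (-1 + δ))
          ≤ ∫⁻ h, G ((2 * t) * h) := h3
        _ = ENNReal.ofReal |2 * t|⁻¹ * ∫⁻ x, G x := scale (2 * t) (by simpa using ht0) G hGm
        _ ≤ ENNReal.ofReal |2 * t|⁻¹ * (ENNReal.ofReal ((6 * |t|) ^ δ) * c) := by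
            gcongr
            refine h5.trans_eq ?_
            rw [wpow δ (6 * |t|) hR]
        _ = ENNReal.ofReal (|2 * t|⁻¹ * ((6 * |t|) ^ δ * c.toReal)) := by
            rw [ENNReal.ofReal_mul (by positivity), ENNReal.ofReal_mul (by positivity),
              ENNReal.ofReal_toReal hct]
        _ ≤ _ := by
            refine ENNReal.ofReal_le_ofReal ?_
            have h7 : (6 * |t|) ^ δ = (6 * |t|) * (6 * |t|) ^ (-1 + δ) := by
              nth_rewrite 2 [← Real.rpow_one (6 * |t|)]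
              rw [← Real.rpow_add hR]
              congr 1
              ring
            have h8 : (6 * |t|) ^ (-1 + δ) ≤ (1 + |t| + |m|) ^ (-1 + δ) :=
              Real.rpow_le_rpow_of_nonpos hX (by linarith) (by linarith)
            have h9 : 0 ≤ (6 * |t|) ^ (-1 + δ) := by positivity
            have h10 : 0 ≤ (1 + |t| + |m|) ^ (-1 + δ) := by positivity
            calc |2 * t|⁻¹ * ((6 * |t|) ^ δ * c.toReal)
                = 3 * c.toReal * (6 * |t|) ^ (-1 + δ) := by
                  rw [h7, abs_mul, abs_two]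
                  field_simp
                  ring
              _ ≤ 3 * c.toReal * (1 + |t| + |m|) ^ (-1 + δ) := by gcongr
              _ ≤ _ := by nlinarith [mul_nonneg hc0 h10]

end Pool.Agent.J4.H85.TS
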