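import Pool.Agent.J4.H85.TS5
set_option autoImplicit false

/-! Autocorrelations of chirped trigonometric polynomials on `(0, 1]`. -/

namespace Pool.Agent.J4.H85.TS

open MeasureTheory Complex Set Filter Topology
open scoped ENNReal NNReal RealInnerProductSpace ComplexConjugate
open Pool.Agent.R412.RT (E ee ee_norm ee_add ee_conj ee_meas ee_cont planch)

/-- trigonometric polynomial on `(0,1]` -/
noncomputable def tp (F : Finset ℤ) (c : ℤ → ℂ) (x : ℝ) : ℂ :=
  (Ioc (0 : ℝ) 1).indicator (fun x => ∑ k ∈ F, c k * ee (k * x)) x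

theorem tp_meas (F : Finset ℤ) (c : ℤ → ℂ) : Measurable (tp F c) := by
  unfold tp
  refine Measurable.indicator ?_ measurableSet_Ioc
  refine Finset.measurable_fun_sum _ fun k _ => ?_
  exact (ee_meas.comp (by fun_prop)).const_mul _

theorem tp_le (F : Finset ℤ) (c : ℤ → ℂ) (x : ℝ) : ‖tp F c x‖ ≤ ∑ k ∈ F, ‖c k‖ := by
  unfold tp
  by_cases hx : x ∈ Ioc (0 : ℝ) 1
  · rw [indicator_of_mem hx]
    refine (norm_sum_le _ _).trans (Finset.sum_le_sum fun k _ => ?_)
    rw [norm_mul, ee_norm, mul_one]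
  · rw [indicator_of_notMem hx, norm_zero]
    positivity

theorem tp_supp (F : Finset ℤ) (c : ℤ → ℂ) (x : ℝ) (hx : x ∉ Icc (0 : ℝ) 1) : tp F c x = 0 := by
  unfold tp
  rw [indicator_of_notMem]
  intro h
  exact hx ⟨h.1.le, h.2⟩

theorem tp_int (F : Finset ℤ) (c : ℤ → ℂ) : Integrable (tp F c) :=
  bdd_int _ (tp_meas F c) _ (tp_le F c) 0 1 (tp_supp F c)

theorem aut1 (P : ℝ → ℂ) (t l : ℝ) :
    aut (chirp t P) l = ee (l ^ 2 * t) * ft (fun y => P (l + y) * conj (P y)) (2 * l * t) := by
  unfold aut ft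
  rw [← integral_const_mul]
  congr 1
  ext y
  unfold chirp
  rw [map_mul, ee_conj]
  have h1 : ee ((l + y) ^ 2 * t) * ee (-(y ^ 2 * t)) = ee (l ^ 2 * t) * ee (y * (2 * l * t)) := by
    rw [← ee_add, ← ee_add]
    congr 1
    ring
  linear_combination (P (l + y) * conj (P y)) * h1

theorem ker_le (a b η : ℝ) (hb : b ≤ a + 1) :
    ‖∫ y in Ioc a b, ee (η * y)‖ ≤ 2 / (1 + |η|) := by
  by_cases hab : b < a
  · rw [Ioc_eq_empty (by linarith)]
    simp
    positivity
  push Not at hab
  have h1 : ‖∫ y in Ioc a b, ee (η * y)‖ ≤ 1 := by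
    refine (norm_setIntegral_le_of_norm_le_const (C := 1) (by rw [Real.volume_Ioc]; simp) ?_).trans ?_
    · intro y _
      rw [ee_norm]
    · rw [one_mul, Measure.real, Real.volume_Ioc, ENNReal.toReal_ofReal (by linarith)]
      linarith
  by_cases hη : |η| ≤ 1
  · refine h1.trans ?_
    rw [le_div_iff₀ (by positivity)]
    linarith
  push Not at hη
  have hη0 : η ≠ 0 := by
    intro h
    rw [h, abs_zero] at hη
    linarith
  have hc : (2 * Real.pi * η * I : ℂ) ≠ 0 := by
    have := Real.pi_ne_zero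
    simp [hη0, this]
  have h2 : ∫ y in Ioc a b, ee (η * y) =
      (cexp (2 * Real.pi * η * I * b) - cexp (2 * Real.pi * η * I * a)) / (2 * Real.pi * η * I) := by
    rw [← intervalIntegral.integral_of_le hab, ← integral_exp_mul_complex hc]
    congr 1
    ext y
    unfold ee
    congr 1
    push_cast
    ring
  rw [h2, norm_div]
  have h3 : ‖cexp (2 * Real.pi * η * I * b) - cexp (2 * Real.pi * η * I * a)‖ ≤ 2 := by
    refine (norm_sub_le _ _).trans ?_
    have h4 : ∀ x : ℝ, ‖cexp (2 * Real.pi * η * I * x)‖ = 1 := by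
      intro x
      have := ee_norm (η * x)
      unfold ee at this
      rw [← this]
      congr 2
      push_cast
      ring
    rw [h4, h4]
    norm_num
  have h5 : ‖(2 * Real.pi * η * I : ℂ)‖ = 2 * Real.pi * |η| := by
    rw [norm_mul, norm_mul, norm_mul, Complex.norm_I, Complex.norm_real, Complex.norm_real,
      Real.norm_of_nonneg Real.pi_pos.le, Real.norm_eq_abs]
    simp
  rw [h5]
  have hpi := Real.pi_gt_three
  calc _ ≤ 2 / (2 * Real.pi * |η|) := by gcongr
    _ ≤ 2 / (1 + |η|) := by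
        gcongr
        nlinarith

theorem aut_tp (F : Finset ℤ) (c : ℤ → ℂ) (t l : ℝ) :
    ‖aut (chirp t (tp F c)) l‖ ≤
      ∑ p ∈ F ×ˢ F, ‖c p.1‖ * ‖c p.2‖ * (2 / (1 + |((p.1 - p.2 : ℤ) : ℝ) + 2 * l * t|)) := by
  rw [aut1, norm_mul, ee_norm, one_mul]
  set τ := 2 * l * t with hτ
  unfold ft
  set a : ℝ := max 0 (-l) with ha
  set b : ℝ := min 1 (1 - l) with hb
  have hab : b ≤ a + 1 := (min_le_left _ _).trans (by linarith [le_max_left 0 (-l)])
  have h1 : ∀ y, ee (y * τ) * (tp F c (l + y) * conj (tp F c y)) =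
      (Ioc a b).indicator (fun y => ∑ p ∈ F ×ˢ F, (c p.1 * conj (c p.2) * ee (p.1 * l)) *
        ee ((((p.1 - p.2 : ℤ) : ℝ) + τ) * y)) y := by
    intro y
    unfold tp
    by_cases hy : y ∈ Ioc a b
    · rw [indicator_of_mem hy]
      have hy1 : y ∈ Ioc (0 : ℝ) 1 :=
        ⟨lt_of_le_of_lt (le_max_left _ _) hy.1, hy.2.trans (min_le_left _ _)⟩
      have hy2 : l + y ∈ Ioc (0 : ℝ) 1 := by
        have h2 := lt_of_le_of_lt (le_max_right 0 (-l)) hy.1
        have h3 := hy.2.trans (min_le_right 1 (1 - l))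
        constructor <;> linarith
      rw [indicator_of_mem hy1, indicator_of_mem hy2, map_sum, Finset.sum_mul_sum,
        ← Finset.sum_product', Finset.mul_sum]
      refine Finset.sum_congr rfl fun p _ => ?_
      rw [map_mul, ee_conj]
      have h4 : ee (y * τ) * ee (p.1 * (l + y)) * ee (-(p.2 * y)) =
          ee (p.1 * l) * ee ((((p.1 - p.2 : ℤ) : ℝ) + τ) * y) := by
        rw [← ee_add, ← ee_add, ← ee_add]
        congr 1
        push_cast
        ring
      linear_combination (c p.1 * conj (c p.2)) * h4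
    · rw [indicator_of_notMem hy]
      by_cases hy1 : y ∈ Ioc (0 : ℝ) 1
      · have hy2 : l + y ∉ Ioc (0 : ℝ) 1 := by
          intro h2
          refine hy ⟨max_lt hy1.1 (by linarith [h2.1]), le_min hy1.2 (by linarith [h2.2])⟩
        rw [indicator_of_notMem hy2]
        simp
      · rw [indicator_of_notMem hy1]
        simp
  simp_rw [h1]
  rw [integral_indicator measurableSet_Ioc, integral_finsetSum]
  · refine (norm_sum_le _ _).trans (Finset.sum_le_sum fun p _ => ?_)
    rw [integral_const_mul, norm_mul, norm_mul, norm_mul, ee_norm, mul_one, RCLike.norm_conj]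
    gcongr
    exact ker_le a b _ hab
  · intro p _
    refine Integrable.const_mul ?_ _
    refine Measure.integrableOn_of_bounded (M := 1) (by rw [Real.volume_Ioc]; simp) ?_ ?_
    · exact (ee_meas.comp (by fun_prop)).aestronglyMeasurable
    · exact Eventually.of_forall fun y => by rw [ee_norm]

theorem aut_tp_zero (F : Finset ℤ) (c : ℤ → ℂ) (t l : ℝ) (hl : l ∉ Icc (-1 : ℝ) 1) :
    aut (chirp t (tp F c)) l = 0 := by
  unfold aut
  have h1 : ∀ y, chirp t (tp F c) (l + y) * conj (chirp t (tp F c) y) = 0 := by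
    intro y
    unfold chirp
    by_cases hy : y ∈ Icc (0 : ℝ) 1
    · have h2 : l + y ∉ Icc (0 : ℝ) 1 := by
        intro h3
        refine hl ⟨?_, ?_⟩ <;> linarith [h3.1, h3.2, hy.1, hy.2]
      rw [tp_supp F c _ h2]
      simp
    · rw [tp_supp F c _ hy]
      simp
  simp_rw [h1]
  simp

end Pool.Agent.J4.H85.TS
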