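import Pool.Agent.J4.H85.TS6
set_option autoImplicit false

/-! The `L⁴` dispersive estimate for trigonometric polynomials whose frequencies have few
representations of differences. -/

namespace Pool.Agent.J4.H85.TS

open MeasureTheory Complex Set Filter Topology
open scoped ENNReal NNReal RealInnerProductSpace ComplexConjugate
open Pool.Agent.R412.RT (E ee ee_norm ee_add ee_conj ee_meas ee_cont planch)

/-- few representations of differences -/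
def RB (F : Finset ℤ) (κ M : ℝ) : Prop :=
  ∀ m : ℤ, m ≠ 0 → ((F.filter fun l => l + m ∈ F).card : ℝ) ≤ M * |(m : ℝ)| ^ κ

theorem offsum (F : Finset ℤ) (κ M : ℝ) (hF : RB F κ M) (Y : ℤ → ℝ) (hY : ∀ m, 0 ≤ Y m) :
    ∑ p ∈ F.offDiag, Y (p.1 - p.2) ≤
      ∑ m ∈ F.offDiag.image (fun p : ℤ × ℤ => p.1 - p.2), M * |(m : ℝ)| ^ κ * Y m := by
  rw [Finset.sum_comp Y (fun p : ℤ × ℤ => p.1 - p.2)]
  refine Finset.sum_le_sum fun m hm => ?_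
  rw [nsmul_eq_mul]
  refine mul_le_mul_of_nonneg_right ?_ (hY m)
  obtain ⟨p, hp, rfl⟩ := Finset.mem_image.1 hm
  have hp' := Finset.mem_offDiag.1 hp
  refine le_trans ?_ (hF (p.1 - p.2) (sub_ne_zero.2 hp'.2.2))
  norm_cast
  refine Finset.card_le_card_of_injOn (fun q => q.2) ?_ ?_
  · intro q hq
    rw [Finset.mem_coe, Finset.mem_filter, Finset.mem_offDiag] at hq
    simp only [Finset.coe_filter, mem_ofPred_eq]
    refine ⟨hq.1.2.1, ?_⟩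
    rw [← hq.2]
    simpa using hq.1.1
  · intro q hq r hr hqr
    rw [Finset.mem_coe, Finset.mem_filter, Finset.mem_offDiag] at hq hr
    have h1 : q.1 - q.2 = r.1 - r.2 := hq.2.trans hr.2.symm
    simp only at hqr
    ext
    · rw [hqr] at h1
      linarith
    · exact hqr

theorem off_cs (F : Finset ℤ) (κ M δ C1 : ℝ) (hM : 0 < M) (hF : RB F κ M)
    (hC1 : ∀ (θ : ℝ) (M : Finset ℤ), ∑ m ∈ M, (1 + |(m : ℝ) + θ|) ^ (-1 - δ) ≤ C1)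
    (c : ℤ → ℂ) (θ : ℝ) :
    (∑ p ∈ F.offDiag, ‖c p.1‖ * ‖c p.2‖ * (2 / (1 + |((p.1 - p.2 : ℤ) : ℝ) + θ|))) ^ 2 ≤
      4 * C1 * ∑ p ∈ F.offDiag, ‖c p.1‖ ^ 2 * ‖c p.2‖ ^ 2 * (M * |((p.1 - p.2 : ℤ) : ℝ)| ^ κ *
        (1 + |((p.1 - p.2 : ℤ) : ℝ) + θ|) ^ (-1 + δ)) := by
  set z : ℤ → ℝ := fun m => 1 + |(m : ℝ) + θ| with hz
  have hz0 : ∀ m, 0 < z m := fun m => by simp only [hz]; positivity
  set w : ℤ → ℝ := fun m => M * |(m : ℝ)| ^ κ with hw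
  have hw0 : ∀ m, m ≠ 0 → 0 < w m := fun m hm => by
    have : (m : ℝ) ≠ 0 := by exact_mod_cast hm
    simp only [hw]
    positivity
  have h1 := Finset.sum_mul_sq_le_sq_mul_sq F.offDiag
    (fun p => ‖c p.1‖ * ‖c p.2‖ * (Real.sqrt (w (p.1 - p.2) * z (p.1 - p.2) ^ (-1 + δ))))
    (fun p => 2 * Real.sqrt ((w (p.1 - p.2))⁻¹ * z (p.1 - p.2) ^ (-1 - δ)))
  have h2 : ∀ p ∈ F.offDiag, ‖c p.1‖ * ‖c p.2‖ * (2 / z (p.1 - p.2)) =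
      (‖c p.1‖ * ‖c p.2‖ * (Real.sqrt (w (p.1 - p.2) * z (p.1 - p.2) ^ (-1 + δ)))) *
      (2 * Real.sqrt ((w (p.1 - p.2))⁻¹ * z (p.1 - p.2) ^ (-1 - δ))) := by
    intro p hp
    have hp' := Finset.mem_offDiag.1 hp
    have a1 := hw0 (p.1 - p.2) (sub_ne_zero.2 hp'.2.2)
    have a2 := hz0 (p.1 - p.2)
    have a3 : Real.sqrt (w (p.1 - p.2) * z (p.1 - p.2) ^ (-1 + δ)) *
        Real.sqrt ((w (p.1 - p.2))⁻¹ * z (p.1 - p.2) ^ (-1 - δ)) = (z (p.1 - p.2))⁻¹ := by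
      rw [← Real.sqrt_mul (by positivity)]
      have a4 : w (p.1 - p.2) * z (p.1 - p.2) ^ (-1 + δ) *
          ((w (p.1 - p.2))⁻¹ * z (p.1 - p.2) ^ (-1 - δ)) = ((z (p.1 - p.2))⁻¹) ^ 2 := by
        have a5 : z (p.1 - p.2) ^ (-1 + δ) * z (p.1 - p.2) ^ (-1 - δ) =
            ((z (p.1 - p.2))⁻¹) ^ 2 := by
          rw [← Real.rpow_add a2, ← Real.rpow_natCast, Real.inv_rpow a2.le, ← Real.rpow_neg a2.le]
          congr 1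
          push_cast
          ring
        rw [← a5]
        field_simp
      rw [a4, Real.sqrt_sq (by positivity)]
    rw [div_eq_mul_inv, ← a3]
    ring
  have e0 : (∑ p ∈ F.offDiag, ‖c p.1‖ * ‖c p.2‖ * (2 / (1 + |((p.1 - p.2 : ℤ) : ℝ) + θ|))) =
      ∑ p ∈ F.offDiag, ‖c p.1‖ * ‖c p.2‖ * (2 / z (p.1 - p.2)) := rfl
  rw [e0, Finset.sum_congr rfl h2]
  refine h1.trans ?_
  have h3 : ∑ p ∈ F.offDiag, (‖c p.1‖ * ‖c p.2‖ *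
      (Real.sqrt (w (p.1 - p.2) * z (p.1 - p.2) ^ (-1 + δ)))) ^ 2 =
      ∑ p ∈ F.offDiag, ‖c p.1‖ ^ 2 * ‖c p.2‖ ^ 2 * (M * |((p.1 - p.2 : ℤ) : ℝ)| ^ κ *
        (1 + |((p.1 - p.2 : ℤ) : ℝ) + θ|) ^ (-1 + δ)) := by
    refine Finset.sum_congr rfl fun p hp => ?_
    have hp' := Finset.mem_offDiag.1 hp
    have a1 := hw0 (p.1 - p.2) (sub_ne_zero.2 hp'.2.2)
    have a2 := hz0 (p.1 - p.2)
    rw [mul_pow, mul_pow, Real.sq_sqrt (by positivity)]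
  have h4 : ∑ p ∈ F.offDiag, (2 * Real.sqrt ((w (p.1 - p.2))⁻¹ * z (p.1 - p.2) ^ (-1 - δ))) ^ 2
      ≤ 4 * C1 := by
    have h5 : ∀ p ∈ F.offDiag,
        (2 * Real.sqrt ((w (p.1 - p.2))⁻¹ * z (p.1 - p.2) ^ (-1 - δ))) ^ 2 =
        (fun m => 4 * ((w m)⁻¹ * z m ^ (-1 - δ))) (p.1 - p.2) := by
      intro p hp
      have hp' := Finset.mem_offDiag.1 hp
      have a1 := hw0 (p.1 - p.2) (sub_ne_zero.2 hp'.2.2)
      have a2 := hz0 (p.1 - p.2)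
      rw [mul_pow, Real.sq_sqrt (by positivity)]
      norm_num
    rw [Finset.sum_congr rfl h5]
    refine (offsum F κ M hF (fun m : ℤ => 4 * ((w m)⁻¹ * z m ^ (-1 - δ))) ?_).trans ?_
    · intro m
      have a2 := hz0 m
      simp only [hw]
      positivity
    · calc ∑ m ∈ F.offDiag.image (fun p : ℤ × ℤ => p.1 - p.2),
            M * |(m : ℝ)| ^ κ * (4 * ((w m)⁻¹ * z m ^ (-1 - δ)))
          = 4 * ∑ m ∈ F.offDiag.image (fun p : ℤ × ℤ => p.1 - p.2), (1 + |(m : ℝ) + θ|) ^ (-1 - δ) := by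
            rw [Finset.mul_sum]
            refine Finset.sum_congr rfl fun m hm => ?_
            obtain ⟨p, hp, rfl⟩ := Finset.mem_image.1 hm
            have hp' := Finset.mem_offDiag.1 hp
            have a1 := hw0 (p.1 - p.2) (sub_ne_zero.2 hp'.2.2)
            have a6 : M * |((p.1 - p.2 : ℤ) : ℝ)| ^ κ = w (p.1 - p.2) := rfl
            rw [a6]
            field_simp
            rfl
        _ ≤ 4 * C1 := by
            gcongr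
            exact hC1 θ _
  rw [h3]
  have h6 : 0 ≤ ∑ p ∈ F.offDiag, ‖c p.1‖ ^ 2 * ‖c p.2‖ ^ 2 * (M * |((p.1 - p.2 : ℤ) : ℝ)| ^ κ *
        (1 + |((p.1 - p.2 : ℤ) : ℝ) + θ|) ^ (-1 + δ)) := by positivity
  nlinarith

/-- pointwise bound for the square of the autocorrelation -/
theorem aut_sq (F : Finset ℤ) (κ M δ C1 : ℝ) (hδ : 0 < δ) (hM : 0 < M) (hF : RB F κ M)
    (hC1 : ∀ (θ : ℝ) (M : Finset ℤ), ∑ m ∈ M, (1 + |(m : ℝ) + θ|) ^ (-1 - δ) ≤ C1)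
    (c : ℤ → ℂ) (t l : ℝ) :
    ‖aut (chirp t (tp F c)) l‖ ^ 2 ≤
      8 * (∑ k ∈ F, ‖c k‖ ^ 2) ^ 2 * (1 + |0 + 2 * l * t|) ^ (-1 + δ) +
      ∑ p ∈ F.offDiag, (8 * C1 * (‖c p.1‖ ^ 2 * ‖c p.2‖ ^ 2) * (M * |((p.1 - p.2 : ℤ) : ℝ)| ^ κ)) *
        (1 + |((p.1 - p.2 : ℤ) : ℝ) + 2 * l * t|) ^ (-1 + δ) := by
  set θ := 2 * l * t with hθ
  have h1 := aut_tp F c t l
  rw [← hθ] at h1
  have h2 : ∑ p ∈ F ×ˢ F, ‖c p.1‖ * ‖c p.2‖ * (2 / (1 + |((p.1 - p.2 : ℤ) : ℝ) + θ|)) =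
      (∑ k ∈ F, ‖c k‖ ^ 2) * (2 / (1 + |θ|)) +
      ∑ p ∈ F.offDiag, ‖c p.1‖ * ‖c p.2‖ * (2 / (1 + |((p.1 - p.2 : ℤ) : ℝ) + θ|)) := by
    rw [← Finset.diag_union_offDiag, Finset.sum_union (Finset.disjoint_diag_offDiag F)]
    congr 1
    rw [Finset.sum_diag, Finset.sum_mul]
    refine Finset.sum_congr rfl fun k _ => ?_
    simp only [sub_self, Int.cast_zero, zero_add]
    ring
  rw [h2] at h1
  set X := ∑ k ∈ F, ‖c k‖ ^ 2 with hX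
  have hX0 : 0 ≤ X := by positivity
  set S := ∑ p ∈ F.offDiag, ‖c p.1‖ * ‖c p.2‖ * (2 / (1 + |((p.1 - p.2 : ℤ) : ℝ) + θ|)) with hS
  have hS0 : 0 ≤ S := by positivity
  have h3 := off_cs F κ M δ C1 hM hF hC1 c θ
  rw [← hS] at h3
  have h4 : (2 / (1 + |θ|)) ^ 2 ≤ 4 * (1 + |0 + θ|) ^ (-1 + δ) := by
    rw [zero_add, div_pow]
    have a1 : (1 : ℝ) ≤ 1 + |θ| := by linarith [abs_nonneg θ]
    have a2 : 0 < 1 + |θ| := by linarith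
    have a3 : (1 + |θ|) ^ (-(2:ℕ) : ℝ) ≤ (1 + |θ|) ^ (-1 + δ) :=
      Real.rpow_le_rpow_of_exponent_le a1 (by push_cast; linarith)
    rw [Real.rpow_neg a2.le, Real.rpow_natCast] at a3
    calc (2 : ℝ) ^ 2 / (1 + |θ|) ^ 2 = 4 * ((1 + |θ|) ^ 2)⁻¹ := by
          rw [div_eq_mul_inv]; norm_num
      _ ≤ _ := by gcongr
  have h5 : ‖aut (chirp t (tp F c)) l‖ ^ 2 ≤ 2 * (X ^ 2 * (2 / (1 + |θ|)) ^ 2) + 2 * S ^ 2 := by
    have a1 : ‖aut (chirp t (tp F c)) l‖ ^ 2 ≤ (X * (2 / (1 + |θ|)) + S) ^ 2 := by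
      gcongr
    have a2 : (X * (2 / (1 + |θ|)) + S) ^ 2 ≤ 2 * (X * (2 / (1 + |θ|))) ^ 2 + 2 * S ^ 2 := by
      nlinarith [sq_nonneg (X * (2 / (1 + |θ|)) - S)]
    rw [mul_pow] at a2
    exact a1.trans a2
  have h6 : X ^ 2 * (2 / (1 + |θ|)) ^ 2 ≤ X ^ 2 * (4 * (1 + |0 + θ|) ^ (-1 + δ)) := by gcongr
  have h7 : ∑ p ∈ F.offDiag, (8 * C1 * (‖c p.1‖ ^ 2 * ‖c p.2‖ ^ 2) *
      (M * |((p.1 - p.2 : ℤ) : ℝ)| ^ κ)) * (1 + |((p.1 - p.2 : ℤ) : ℝ) + θ|) ^ (-1 + δ) =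
      2 * (4 * C1 * ∑ p ∈ F.offDiag, ‖c p.1‖ ^ 2 * ‖c p.2‖ ^ 2 *
        (M * |((p.1 - p.2 : ℤ) : ℝ)| ^ κ * (1 + |((p.1 - p.2 : ℤ) : ℝ) + θ|) ^ (-1 + δ))) := by
    rw [Finset.mul_sum, Finset.mul_sum]
    refine Finset.sum_congr rfl fun p _ => ?_
    ring
  rw [h7]
  linarith

end Pool.Agent.J4.H85.TS
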