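import Pool.Agent.J4.H85.TS7
set_option autoImplicit false

/-! The dispersive estimate in `L²`, `L⁴` and `L^q` for trigonometric polynomials whose frequencies
have few representations of differences. -/

namespace Pool.Agent.J4.H85.TS

open MeasureTheory Complex Set Filter Topology
open scoped ENNReal NNReal RealInnerProductSpace ComplexConjugate
open Pool.Agent.R412.RT (E ee ee_norm ee_add ee_conj ee_meas ee_cont planch)

/-- interpolation between the exponents `2` and `4` -/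
theorem interp {X : Type*} [MeasurableSpace X] (μ : Measure X) (f : X → ℝ≥0∞) (hf : Measurable f)
    (q : ℝ) (hq : 2 ≤ q) (hq4 : q ≤ 4) :
    ∫⁻ x, f x ^ q ∂μ ≤ (∫⁻ x, f x ^ 2 ∂μ) ^ ((4 - q) / 2) * (∫⁻ x, f x ^ 4 ∂μ) ^ ((q - 2) / 2) := by
  have h := ENNReal.lintegral_mul_norm_pow_le (μ := μ) (hf.pow_const 2).aemeasurable
    (hf.pow_const 4).aemeasurable (p := (4 - q) / 2) (q := (q - 2) / 2) (by linarith) (by linarith)
    (by ring)
  refine le_trans (le_of_eq ?_) h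
  refine lintegral_congr fun x => ?_
  rw [← ENNReal.rpow_natCast, ← ENNReal.rpow_natCast, ← ENNReal.rpow_mul, ← ENNReal.rpow_mul,
    ← ENNReal.rpow_add_of_nonneg _ _ (by push_cast; linarith) (by push_cast; linarith)]
  congr 1
  push_cast
  ring

theorem ft_meas (H : ℝ → ℂ) (hH : Measurable H) : Measurable (ft H) := by
  have h1 : StronglyMeasurable (Function.uncurry fun (α : ℝ) (u : ℝ) => ee (u * α) * H u) :=
    ((ee_meas.comp (by fun_prop)).mul (hH.comp measurable_snd)).stronglyMeasurable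
  exact h1.integral_prod_right.measurable

theorem chirp_meas (t : ℝ) (H : ℝ → ℂ) (hH : Measurable H) : Measurable (chirp t H) :=
  (ee_meas.comp (by fun_prop)).mul hH

theorem ee_int_zero (m : ℤ) (hm : m ≠ 0) : ∫ y in Ioc (0 : ℝ) 1, ee (m * y) = 0 := by
  have hm' : (m : ℂ) ≠ 0 := by exact_mod_cast hm
  have hc : (2 * Real.pi * m * I : ℂ) ≠ 0 := by
    have := Real.pi_ne_zero
    simp [hm, this]
  rw [← intervalIntegral.integral_of_le zero_le_one]
  have h2 := integral_exp_mul_complex (a := 0) (b := 1) hc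
  have h3 : ∀ y : ℝ, ee (m * y) = cexp (2 * Real.pi * m * I * y) := by
    intro y
    unfold ee
    congr 1
    push_cast
    ring
  simp_rw [h3]
  rw [h2]
  have h4 : cexp (2 * Real.pi * m * I * (1 : ℝ)) = 1 := by
    rw [Complex.exp_eq_one_iff]
    exact ⟨m, by push_cast; ring⟩
  rw [h4]
  simp

theorem tp_two (F : Finset ℤ) (c : ℤ → ℂ) :
    ∫⁻ x, ‖tp F c x‖ₑ ^ 2 = ENNReal.ofReal (∑ k ∈ F, ‖c k‖ ^ 2) := by
  have h1 : ∀ x, ‖tp F c x‖ₑ ^ 2 = ENNReal.ofReal (‖tp F c x‖ ^ 2) := by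
    intro x
    rw [ENNReal.ofReal_pow (norm_nonneg _), ofReal_norm]
  simp_rw [h1]
  have hint : Integrable fun x => ‖tp F c x‖ ^ 2 := by
    have h2 : Integrable fun x => ((‖tp F c x‖ ^ 2 : ℝ) : ℂ) := by
      refine bdd_int _ ?_ ((∑ k ∈ F, ‖c k‖) ^ 2) ?_ 0 1 ?_
      · exact Complex.measurable_ofReal.comp ((tp_meas F c).norm.pow_const 2)
      · intro s
        rw [Complex.norm_real, Real.norm_of_nonneg (by positivity)]
        have := tp_le F c s
        gcongr
      · intro s hs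
        rw [tp_supp F c s hs]
        simp
    have h3 := h2.re
    exact h3.congr (Eventually.of_forall fun x => Complex.ofReal_re _)
  rw [← ofReal_integral_eq_lintegral_ofReal hint (Eventually.of_forall fun x => by positivity)]
  congr 1
  have h4 : ((∫ x, ‖tp F c x‖ ^ 2 : ℝ) : ℂ) = ((∑ k ∈ F, ‖c k‖ ^ 2 : ℝ) : ℂ) := by
    rw [← integral_complex_ofReal]
    have h5 : ∀ x, ((‖tp F c x‖ ^ 2 : ℝ) : ℂ) = (Ioc (0 : ℝ) 1).indicator (fun y =>
        ∑ p ∈ F ×ˢ F, (c p.1 * conj (c p.2)) * ee (((p.1 - p.2 : ℤ) : ℝ) * y)) x := by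
      intro x
      have h6 : ((‖tp F c x‖ ^ 2 : ℝ) : ℂ) = tp F c x * conj (tp F c x) := by
        rw [Complex.mul_conj, Complex.normSq_eq_norm_sq]
      rw [h6]
      unfold tp
      by_cases hx : x ∈ Ioc (0 : ℝ) 1
      · rw [indicator_of_mem hx, indicator_of_mem hx, map_sum, Finset.sum_mul_sum,
          ← Finset.sum_product']
        refine Finset.sum_congr rfl fun p _ => ?_
        rw [map_mul, ee_conj]
        have h4 : ee (p.1 * x) * ee (-(p.2 * x)) = ee (((p.1 - p.2 : ℤ) : ℝ) * x) := by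
          rw [← ee_add]
          congr 1
          push_cast
          ring
        linear_combination (c p.1 * conj (c p.2)) * h4
      · rw [indicator_of_notMem hx, indicator_of_notMem hx, zero_mul]
    have h7 : (∫ x, ((‖tp F c x‖ ^ 2 : ℝ) : ℂ)) = ∫ x, (Ioc (0 : ℝ) 1).indicator (fun y =>
        ∑ p ∈ F ×ˢ F, (c p.1 * conj (c p.2)) * ee (((p.1 - p.2 : ℤ) : ℝ) * y)) x := by
      congr 1
      ext x
      exact h5 x
    have h8 : (∫ x, ((‖tp F c x‖ ^ 2 : ℝ) : ℂ)) = ((∑ k ∈ F, ‖c k‖ ^ 2 : ℝ) : ℂ) := by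
      rw [h7, integral_indicator measurableSet_Ioc, integral_finsetSum]
      · simp_rw [integral_const_mul]
        rw [← Finset.diag_union_offDiag, Finset.sum_union (Finset.disjoint_diag_offDiag F),
          Finset.sum_diag]
        have h9 : ∑ p ∈ F.offDiag, c p.1 * conj (c p.2) *
            ∫ y in Ioc (0 : ℝ) 1, ee (((p.1 - p.2 : ℤ) : ℝ) * y) = 0 := by
          refine Finset.sum_eq_zero fun p hp => ?_
          have hp' := Finset.mem_offDiag.1 hp
          rw [ee_int_zero _ (sub_ne_zero.2 hp'.2.2), mul_zero]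
        rw [h9, add_zero]
        push_cast
        refine Finset.sum_congr rfl fun k _ => ?_
        rw [Complex.mul_conj, Complex.normSq_eq_norm_sq]
        simp [ee_zero]
      · intro p _
        refine Integrable.const_mul ?_ _
        refine Measure.integrableOn_of_bounded (M := 1) (by rw [Real.volume_Ioc]; simp) ?_ ?_
        · exact (ee_meas.comp (by fun_prop)).aestronglyMeasurable
        · exact Eventually.of_forall fun y => by rw [ee_norm]
    exact h8
  exact_mod_cast h4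

theorem v2 (F : Finset ℤ) (c : ℤ → ℂ) (t : ℝ) :
    ∫⁻ ξ, ‖ft (chirp t (tp F c)) ξ‖ₑ ^ 2 ≤ ENNReal.ofReal (∑ k ∈ F, ‖c k‖ ^ 2) := by
  refine (planch1 _ (chirp_int t _ (tp_int F c))).trans_eq ?_
  rw [← tp_two]
  refine lintegral_congr fun x => ?_
  unfold chirp
  rw [enorm_mul, ee_enorm, one_mul]

theorem v4 (κ M δ : ℝ) (hκ : 0 ≤ κ) (hδ : 0 < δ) (h1 : δ + κ < 1) (hM : 0 < M) :
    ∃ C : ℝ, 0 < C ∧ ∀ (F : Finset ℤ), RB F κ M → ∀ (c : ℤ → ℂ) (t : ℝ),
    ∫⁻ ξ, ‖ft (chirp t (tp F c)) ξ‖ₑ ^ 4 ≤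
      ENNReal.ofReal (C * (∑ k ∈ F, ‖c k‖ ^ 2) ^ 2 * (1 + |t|) ^ (-1 + δ + κ)) := by
  obtain ⟨C1, hC1, hs⟩ := sum1 δ hδ
  obtain ⟨C2, hC2, hi⟩ := int1 δ hδ (by linarith)
  refine ⟨8 * C2 + 8 * C1 * M * C2, by positivity, fun F hF c t => ?_⟩
  set X := ∑ k ∈ F, ‖c k‖ ^ 2 with hX
  have hX0 : 0 ≤ X := by positivity
  have hT : 0 < 1 + |t| := by positivity
  have h4 := four ({()} : Finset Unit) (fun _ => chirp t (tp F c))
    (fun _ _ => chirp_int t _ (tp_int F c))
  simp only [Finset.sum_singleton] at h4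
  have e4 : ∀ ξ, (‖ft (chirp t (tp F c)) ξ‖ₑ ^ 2) ^ 2 = ‖ft (chirp t (tp F c)) ξ‖ₑ ^ 4 := by
    intro ξ
    rw [← pow_mul]
  simp_rw [e4] at h4
  refine h4.trans ?_
  have h5 : ∫⁻ l, ‖aut (chirp t (tp F c)) l‖ₑ ^ 2 =
      ∫⁻ l in Icc (-1 : ℝ) 1, ‖aut (chirp t (tp F c)) l‖ₑ ^ 2 := by
    rw [← lintegral_indicator measurableSet_Icc]
    refine lintegral_congr fun l => ?_
    by_cases hl : l ∈ Icc (-1 : ℝ) 1
    · rw [indicator_of_mem hl]
    · rw [indicator_of_notMem hl, aut_tp_zero F c t l hl]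
      simp
  rw [h5]
  have hmw : ∀ m : ℝ, Measurable fun l : ℝ => ENNReal.ofReal ((1 + |m + 2 * l * t|) ^ (-1 + δ)) := by
    intro m
    exact ENNReal.measurable_ofReal.comp (Measurable.pow_const (by fun_prop) _)
  calc ∫⁻ l in Icc (-1 : ℝ) 1, ‖aut (chirp t (tp F c)) l‖ₑ ^ 2
      ≤ ∫⁻ l in Icc (-1 : ℝ) 1, (ENNReal.ofReal (8 * X ^ 2) *
          ENNReal.ofReal ((1 + |0 + 2 * l * t|) ^ (-1 + δ)) +
        ∑ p ∈ F.offDiag, ENNReal.ofReal (8 * C1 * (‖c p.1‖ ^ 2 * ‖c p.2‖ ^ 2) *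
          (M * |((p.1 - p.2 : ℤ) : ℝ)| ^ κ)) *
          ENNReal.ofReal ((1 + |((p.1 - p.2 : ℤ) : ℝ) + 2 * l * t|) ^ (-1 + δ))) := by
        refine lintegral_mono fun l => ?_
        have h6 := aut_sq F κ M δ C1 hδ hM hF hs c t l
        rw [← hX] at h6
        rw [← ofReal_norm, ← ENNReal.ofReal_pow (norm_nonneg _)]
        refine (ENNReal.ofReal_le_ofReal h6).trans ?_
        rw [ENNReal.ofReal_add (by positivity) (by positivity),
          ENNReal.ofReal_mul (by positivity),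
          ENNReal.ofReal_sum_of_nonneg (fun p _ => by positivity)]
        refine add_le_add le_rfl (Finset.sum_le_sum fun p _ => ?_)
        rw [ENNReal.ofReal_mul (by positivity)]
    _ = ENNReal.ofReal (8 * X ^ 2) *
          (∫⁻ l in Icc (-1 : ℝ) 1, ENNReal.ofReal ((1 + |0 + 2 * l * t|) ^ (-1 + δ))) +
        ∑ p ∈ F.offDiag, ENNReal.ofReal (8 * C1 * (‖c p.1‖ ^ 2 * ‖c p.2‖ ^ 2) *
          (M * |((p.1 - p.2 : ℤ) : ℝ)| ^ κ)) *
          ∫⁻ l in Icc (-1 : ℝ) 1,
            ENNReal.ofReal ((1 + |((p.1 - p.2 : ℤ) : ℝ) + 2 * l * t|) ^ (-1 + δ)) := by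
        rw [lintegral_add_left ((hmw 0).const_mul _), lintegral_const_mul _ (hmw 0),
          lintegral_finsetSum _ fun p _ => (hmw _).const_mul _]
        congr 1
        refine Finset.sum_congr rfl fun p _ => ?_
        rw [lintegral_const_mul _ (hmw _)]
    _ ≤ ENNReal.ofReal (8 * X ^ 2) * ENNReal.ofReal (C2 * (1 + |t|) ^ (-1 + δ + κ)) +
        ∑ p ∈ F.offDiag, ENNReal.ofReal (8 * C1 * M * (C2 * (1 + |t|) ^ (-1 + δ + κ)) *
          (‖c p.1‖ ^ 2 * ‖c p.2‖ ^ 2)) := by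
        refine add_le_add ?_ (Finset.sum_le_sum fun p _ => ?_)
        · gcongr
          refine (hi t 0).trans ?_
          refine ENNReal.ofReal_le_ofReal ?_
          rw [abs_zero, add_zero]
          gcongr C2 * ?_
          exact Real.rpow_le_rpow_of_exponent_le (by linarith [abs_nonneg t]) (by linarith)
        · refine (mul_le_mul_right (hi t _) _).trans ?_
          rw [← ENNReal.ofReal_mul (by positivity)]
          refine ENNReal.ofReal_le_ofReal ?_
          set m : ℝ := ((p.1 - p.2 : ℤ) : ℝ)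
          have h7 : |m| ^ κ * (1 + |t| + |m|) ^ (-1 + δ) ≤ (1 + |t|) ^ (-1 + δ + κ) := by
            have hY : 0 < 1 + |t| + |m| := by positivity
            calc |m| ^ κ * (1 + |t| + |m|) ^ (-1 + δ)
                ≤ (1 + |t| + |m|) ^ κ * (1 + |t| + |m|) ^ (-1 + δ) := by
                  gcongr
                  linarith
              _ = (1 + |t| + |m|) ^ (-1 + δ + κ) := by
                  rw [← Real.rpow_add hY]
                  congr 1
                  ring
              _ ≤ (1 + |t|) ^ (-1 + δ + κ) :=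
                  Real.rpow_le_rpow_of_nonpos hT (by linarith [abs_nonneg m]) (by linarith)
          calc 8 * C1 * (‖c p.1‖ ^ 2 * ‖c p.2‖ ^ 2) * (M * |m| ^ κ) *
                (C2 * (1 + |t| + |m|) ^ (-1 + δ))
              = 8 * C1 * M * C2 * (‖c p.1‖ ^ 2 * ‖c p.2‖ ^ 2) *
                (|m| ^ κ * (1 + |t| + |m|) ^ (-1 + δ)) := by ring
            _ ≤ 8 * C1 * M * C2 * (‖c p.1‖ ^ 2 * ‖c p.2‖ ^ 2) * ((1 + |t|) ^ (-1 + δ + κ)) := by
                gcongr
            _ = _ := by ring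
    _ ≤ _ := by
        rw [← ENNReal.ofReal_mul (by positivity),
          ← ENNReal.ofReal_sum_of_nonneg (fun p _ => by positivity),
          ← ENNReal.ofReal_add (by positivity) (by positivity)]
        refine ENNReal.ofReal_le_ofReal ?_
        have h8 : ∑ p ∈ F.offDiag, (‖c p.1‖ ^ 2 * ‖c p.2‖ ^ 2) ≤ X ^ 2 := by
          calc ∑ p ∈ F.offDiag, (‖c p.1‖ ^ 2 * ‖c p.2‖ ^ 2)
              ≤ ∑ p ∈ F ×ˢ F, (‖c p.1‖ ^ 2 * ‖c p.2‖ ^ 2) := by
                refine Finset.sum_le_sum_of_subset_of_nonneg ?_ fun _ _ _ => by positivity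
                exact fun p hp => Finset.mem_product.2
                  ⟨(Finset.mem_offDiag.1 hp).1, (Finset.mem_offDiag.1 hp).2.1⟩
            _ = X ^ 2 := by
                rw [sq, hX, Finset.sum_mul_sum, ← Finset.sum_product']
        rw [← Finset.mul_sum]
        have h9 : 8 * C1 * M * (C2 * (1 + |t|) ^ (-1 + δ + κ)) *
            ∑ p ∈ F.offDiag, (‖c p.1‖ ^ 2 * ‖c p.2‖ ^ 2) ≤
            8 * C1 * M * (C2 * (1 + |t|) ^ (-1 + δ + κ)) * X ^ 2 := by gcongr
        linarith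

end Pool.Agent.J4.H85.TS
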