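import Pool.Agent.J4.H85.TS8
set_option autoImplicit false

/-! The extension estimate for a bounded family of coefficient functions. -/

namespace Pool.Agent.J4.H85.TS

open MeasureTheory Complex Set Filter Topology
open scoped ENNReal NNReal RealInnerProductSpace ComplexConjugate
open Pool.Agent.R412.RT (E ee ee_norm ee_add ee_conj ee_meas ee_cont planch)

theorem sum_enorm (F : Finset ℤ) (c : ℤ → ℂ) :
    ENNReal.ofReal (∑ k ∈ F, ‖c k‖ ^ 2) = ∑ k ∈ F, ‖c k‖ₑ ^ 2 := by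
  rw [ENNReal.ofReal_sum_of_nonneg (fun i _ => by positivity)]
  refine Finset.sum_congr rfl fun i _ => ?_
  rw [ENNReal.ofReal_pow (norm_nonneg _), ofReal_norm]

theorem vq (κ M δ q : ℝ) (hκ : 0 ≤ κ) (hδ : 0 < δ) (h1 : δ + κ < 1) (hM : 0 < M) (hq : 2 ≤ q)
    (hq4 : q ≤ 4) :
    ∃ C : ℝ, 0 < C ∧ ∀ (F : Finset ℤ), RB F κ M → ∀ (c : ℤ → ℂ) (t : ℝ),
    ∫⁻ ξ, ‖ft (chirp t (tp F c)) ξ‖ₑ ^ q ≤
      ENNReal.ofReal (C * (1 + |t|) ^ (-((1 - δ - κ) * ((q - 2) / 2)))) *
        (∑ k ∈ F, ‖c k‖ₑ ^ 2) ^ (q / 2) := by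
  obtain ⟨C, hC, h⟩ := v4 κ M δ hκ hδ h1 hM
  refine ⟨C ^ ((q - 2) / 2), by positivity, fun F hF c t => ?_⟩
  have hT : 0 < 1 + |t| := by positivity
  set X := ∑ k ∈ F, ‖c k‖ ^ 2 with hX
  have hX0 : 0 ≤ X := by positivity
  refine (interp volume _ (ft_meas _ (chirp_meas t _ (tp_meas F c))).enorm q hq hq4).trans ?_
  have a1 : 0 ≤ (4 - q) / 2 := by linarith
  have a2 : 0 ≤ (q - 2) / 2 := by linarith
  calc _ ≤ ENNReal.ofReal X ^ ((4 - q) / 2) *
        ENNReal.ofReal (C * X ^ 2 * (1 + |t|) ^ (-1 + δ + κ)) ^ ((q - 2) / 2) := by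
        gcongr
        · exact v2 F c t
        · exact h F hF c t
    _ = _ := by
        rw [← sum_enorm, ← hX, ENNReal.ofReal_rpow_of_nonneg hX0 a1,
          ENNReal.ofReal_rpow_of_nonneg (by positivity) a2,
          ENNReal.ofReal_rpow_of_nonneg hX0 (by linarith), ← ENNReal.ofReal_mul (by positivity),
          ← ENNReal.ofReal_mul (by positivity)]
        congr 1
        rw [Real.mul_rpow (by positivity) (by positivity), Real.mul_rpow (by positivity)
          (by positivity), ← Real.rpow_natCast X 2, ← Real.rpow_mul hX0, ← Real.rpow_mul hT.le]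
        have e1 : X ^ ((4 - q) / 2) * (X ^ ((2 : ℕ) * ((q - 2) / 2) : ℝ)) = X ^ (q / 2) := by
          rw [← Real.rpow_add_of_nonneg hX0 a1 (by positivity)]
          congr 1
          push_cast
          ring
        have e2 : (-1 + δ + κ) * ((q - 2) / 2) = -((1 - δ - κ) * ((q - 2) / 2)) := by ring
        rw [e2, ← e1]
        ring

/-- integrability of the time weight -/
theorem wt_int (l r : ℝ) (hl : l ≠ 0) (hr : 1 < r) :
    ∫⁻ t : ℝ, ENNReal.ofReal ((1 + |l * t|) ^ (-r)) < ∞ := by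
  have h1 : Integrable (fun x : ℝ => (1 + ‖x‖) ^ (-r)) :=
    integrable_one_add_norm (by simpa using hr)
  have hm : Measurable fun x : ℝ => ENNReal.ofReal ((1 + |x|) ^ (-r)) :=
    ENNReal.measurable_ofReal.comp (Measurable.pow_const (by fun_prop) _)
  rw [scale l hl (fun x => ENNReal.ofReal ((1 + |x|) ^ (-r))) hm]
  refine ENNReal.mul_lt_top ENNReal.ofReal_lt_top ?_
  refine lt_of_le_of_lt (le_of_eq ?_) h1.2
  refine lintegral_congr fun x => ?_
  rw [← ofReal_norm, Real.norm_of_nonneg (by positivity)]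
  simp only [Real.norm_eq_abs]

theorem b0 (κ M q l : ℝ) (hκ : 0 ≤ κ) (hM : 0 < M) (hκ1 : κ < 1) (hq : 2 < (2 - κ) * (q - 2))
    (hq4 : q < 4) (hl : l ≠ 0) :
    ∃ (C : ℝ≥0∞) (η : ℝ), C ≠ ∞ ∧ 0 < η ∧ ∀ (F : Finset ℤ), RB F κ M →
      ∀ (g : ℤ → ℝ → ℂ) (A : Set ℝ), Adm F g A →
      ∫⁻ t, ∫⁻ α, ∫⁻ β, ‖ft (chirp (l * t) (tp F (fun k => ft (chirp t (g k)) α))) β‖ₑ ^ q ≤
        C * volume A ^ (1 + q * η) := by
  have hq2 : 2 < q := by nlinarith
  set a : ℝ := (q - 2) / 2 with ha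
  have ha0 : 0 < a := by rw [ha]; linarith
  have ha1 : a < 1 := by rw [ha]; linarith
  -- the gap
  set e : ℝ := (1 - κ) * a - (1 - a) with he
  have he0 : 0 < e := by rw [he, ha]; nlinarith
  set δ : ℝ := min (e / 4) ((1 - κ) / 2) with hδ
  have hδ0 : 0 < δ := lt_min (by linarith) (by linarith)
  have hδe : δ ≤ e / 4 := min_le_left _ _
  have hδκ : δ + κ < 1 := by
    have : δ ≤ (1 - κ) / 2 := min_le_right _ _
    linarith
  set s : ℝ := 1 + e / 4 with hs
  have hs1 : 1 < s := by rw [hs]; linarith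
  have hs0 : 0 < s := by linarith
  -- exponents
  set γ : ℝ := (1 - δ - κ) * a with hγ
  set b : ℝ := 1 - a / s with hb
  have has : a / s < 1 := by rw [div_lt_one hs0]; linarith
  have hb0 : 0 < b := by rw [hb]; linarith
  have hγb : b < γ := by
    have e1 : a / s ≥ a * (1 - e / 4) := by
      rw [ge_iff_le, le_div_iff₀ hs0, hs]
      nlinarith [sq_nonneg e]
    rw [hb, hγ]
    nlinarith
  obtain ⟨C1, hC1, hv⟩ := vq κ M δ q hκ hδ0 hδκ hM hq2.le hq4.le
  obtain ⟨C2, hC2, hm⟩ := main1 s hs1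
  set W := ∫⁻ t : ℝ, ENNReal.ofReal ((1 + |l * t|) ^ (-(γ / b))) with hW
  have hWt : W ≠ ∞ := (wt_int l (γ / b) hl (by rw [one_lt_div hb0]; exact hγb)).ne
  have hx : (4 - q) / 2 + (2 * s - 1) * (a / s) = 1 + q * (a * (s - 1) / (s * q)) := by
    have : q ≠ 0 := by linarith
    rw [show (4 - q) / 2 = 1 - a by rw [ha]; ring]
    field_simp
    ring
  refine ⟨ENNReal.ofReal C1 * (C2 ^ (a / s) * W ^ b), a * (s - 1) / (s * q), ?_, ?_, ?_⟩
  · refine ENNReal.mul_ne_top ENNReal.ofReal_ne_top (ENNReal.mul_ne_top ?_ ?_)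
    · exact (ENNReal.rpow_lt_top_of_nonneg (by positivity) hC2).ne
    · exact (ENNReal.rpow_lt_top_of_nonneg hb0.le hWt).ne
  · have : 0 < s - 1 := by linarith
    positivity
  intro F hF g A hA
  have hvt : volume A ≠ ∞ := (lt_of_le_of_lt hA.vol (by simp)).ne
  -- the inner integrals
  have h1 : ∀ t, ∫⁻ α, ∫⁻ β, ‖ft (chirp (l * t) (tp F (fun k => ft (chirp t (g k)) α))) β‖ₑ ^ q ≤
      ENNReal.ofReal C1 * (ENNReal.ofReal ((1 + |l * t|) ^ (-γ)) *
        (volume A ^ ((4 - q) / 2) * AA F g t ^ a)) := by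
    intro t
    calc ∫⁻ α, ∫⁻ β, ‖ft (chirp (l * t) (tp F (fun k => ft (chirp t (g k)) α))) β‖ₑ ^ q
        ≤ ∫⁻ α, ENNReal.ofReal (C1 * (1 + |l * t|) ^ (-γ)) *
          (∑ k ∈ F, ‖ft (chirp t (g k)) α‖ₑ ^ 2) ^ (q / 2) :=
          lintegral_mono fun α => hv F hF _ (l * t)
      _ = ENNReal.ofReal (C1 * (1 + |l * t|) ^ (-γ)) *
          ∫⁻ α, (∑ k ∈ F, ‖ft (chirp t (g k)) α‖ₑ ^ 2) ^ (q / 2) := by
          rw [lintegral_const_mul' _ _ ENNReal.ofReal_ne_top]
      _ ≤ ENNReal.ofReal (C1 * (1 + |l * t|) ^ (-γ)) *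
          (volume A ^ ((4 - q) / 2) * AA F g t ^ a) := by
          gcongr
          have hmf : Measurable fun α => (∑ k ∈ F, ‖ft (chirp t (g k)) α‖ₑ ^ 2) ^ (1 / 2 : ℝ) := by
            refine Measurable.pow_const ?_ _
            refine Finset.measurable_fun_sum _ fun k hk => ?_
            exact (ft_meas _ (chirp_meas t _ (hA.meas k hk))).enorm.pow_const 2
          have h2 := interp volume _ hmf q hq2.le hq4.le
          have e1 : ∀ α, ((∑ k ∈ F, ‖ft (chirp t (g k)) α‖ₑ ^ 2) ^ (1 / 2 : ℝ)) ^ q =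
              (∑ k ∈ F, ‖ft (chirp t (g k)) α‖ₑ ^ 2) ^ (q / 2) := by
            intro α
            rw [← ENNReal.rpow_mul]
            congr 1
            ring
          have e2 : ∀ α, ((∑ k ∈ F, ‖ft (chirp t (g k)) α‖ₑ ^ 2) ^ (1 / 2 : ℝ)) ^ 2 =
              (∑ k ∈ F, ‖ft (chirp t (g k)) α‖ₑ ^ 2) := by
            intro α
            rw [← ENNReal.rpow_natCast, ← ENNReal.rpow_mul]
            norm_num
          have e3 : ∀ α, ((∑ k ∈ F, ‖ft (chirp t (g k)) α‖ₑ ^ 2) ^ (1 / 2 : ℝ)) ^ 4 =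
              (∑ k ∈ F, ‖ft (chirp t (g k)) α‖ₑ ^ 2) ^ 2 := by
            intro α
            rw [← ENNReal.rpow_natCast, ← ENNReal.rpow_mul, ← ENNReal.rpow_natCast]
            norm_num
          simp_rw [e1, e2, e3] at h2
          refine h2.trans ?_
          unfold AA
          gcongr
          exact hA.two t
      _ = _ := by
          rw [ENNReal.ofReal_mul hC1.le, mul_assoc]
  have hAAm : Measurable (AA F g) := by
    unfold AA
    refine Measurable.lintegral_prod_right' (f := fun p : ℝ × ℝ =>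
      (∑ i ∈ F, ‖ft (chirp p.1 (g i)) p.2‖ₑ ^ 2) ^ 2) ?_
    refine Measurable.pow_const ?_ 2
    refine Finset.measurable_fun_sum _ fun k hk => ?_
    refine Measurable.pow_const ?_ 2
    refine Measurable.enorm ?_
    unfold ft chirp
    have h2 : StronglyMeasurable (Function.uncurry fun (p : ℝ × ℝ) (u : ℝ) =>
        ee (u * p.2) * (ee (u ^ 2 * p.1) * g k u)) := by
      refine Measurable.stronglyMeasurable ?_
      refine (ee_meas.comp (by fun_prop)).mul ((ee_meas.comp (by fun_prop)).mul ?_)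
      exact (hA.meas k hk).comp measurable_snd
    exact h2.integral_prod_right.measurable
  have hWm : ∀ r : ℝ, Measurable fun t : ℝ => ENNReal.ofReal ((1 + |l * t|) ^ r) := by
    intro r
    exact ENNReal.measurable_ofReal.comp (Measurable.pow_const (by fun_prop) _)
  -- Hölder in time
  have h3 : ∫⁻ t, ENNReal.ofReal ((1 + |l * t|) ^ (-γ)) * AA F g t ^ a ≤
      (∫⁻ t, AA F g t ^ s) ^ (a / s) * W ^ b := by
    have h4 := ENNReal.lintegral_mul_norm_pow_le (μ := (volume : Measure ℝ))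
      (f := fun t => AA F g t ^ s)
      (g := fun t => ENNReal.ofReal ((1 + |l * t|) ^ (-(γ / b))))
      (hAAm.pow_const s).aemeasurable (hWm _).aemeasurable
      (p := a / s) (q := b) (by positivity) hb0.le (by rw [hb]; ring)
    refine le_trans (le_of_eq ?_) h4
    refine lintegral_congr fun t => ?_
    have hT : 0 < 1 + |l * t| := by positivity
    rw [← ENNReal.rpow_mul, mul_comm, ENNReal.ofReal_rpow_of_nonneg (by positivity) hb0.le,
      ← Real.rpow_mul hT.le]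
    congr 2
    · field_simp
    · congr 1
      field_simp
  calc ∫⁻ t, ∫⁻ α, ∫⁻ β, ‖ft (chirp (l * t) (tp F (fun k => ft (chirp t (g k)) α))) β‖ₑ ^ q
      ≤ ∫⁻ t, ENNReal.ofReal C1 * (ENNReal.ofReal ((1 + |l * t|) ^ (-γ)) *
        (volume A ^ ((4 - q) / 2) * AA F g t ^ a)) := lintegral_mono h1
    _ = ENNReal.ofReal C1 * (volume A ^ ((4 - q) / 2) *
        ∫⁻ t, ENNReal.ofReal ((1 + |l * t|) ^ (-γ)) * AA F g t ^ a) := by
        rw [lintegral_const_mul' _ _ ENNReal.ofReal_ne_top,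
          ← lintegral_const_mul' _ _ (ENNReal.rpow_lt_top_of_nonneg (by linarith) hvt).ne]
        congr 1
        refine lintegral_congr fun t => ?_
        ring
    _ ≤ ENNReal.ofReal C1 * (volume A ^ ((4 - q) / 2) *
        ((C2 * volume A ^ (2 * s - 1)) ^ (a / s) * W ^ b)) := by
        gcongr
        refine h3.trans ?_
        gcongr
        exact hm F g A hA
    _ = ENNReal.ofReal C1 * (C2 ^ (a / s) * W ^ b) *
        (volume A ^ ((4 - q) / 2) * volume A ^ ((2 * s - 1) * (a / s))) := by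
        rw [ENNReal.mul_rpow_of_nonneg _ _ (by positivity), ← ENNReal.rpow_mul]
        ring
    _ = _ := by
        rw [← ENNReal.rpow_add_of_nonneg _ _ (by linarith)
          (mul_nonneg (by linarith) (by positivity)), hx]

end Pool.Agent.J4.H85.TS
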