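import Mathlib
import Pool.Agent.J4.H85.NC3

/-! Non-autonomous noisy orbits, the sets of the points which stay bounded for `q` steps, expansion
of the noise and contraction. -/

set_option autoImplicit false

open Filter Topology Set Metric Polynomial

namespace Pool.Agent.J4.H85.UC

/-- The orbit of the point `z` at time `k`. -/
noncomputable def orb (T : ℕ → ℂ[X]) (τ : ℕ → ℂ) (k : ℕ) : ℕ → ℂ → ℂ
  | 0, z => z
  | n + 1, z => (T (k + n)).eval (orb T τ k n z) + τ (k + n)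

theorem orb_zero (T : ℕ → ℂ[X]) (τ : ℕ → ℂ) (k : ℕ) (z : ℂ) : orb T τ k 0 z = z := rfl

theorem orb_succ (T : ℕ → ℂ[X]) (τ : ℕ → ℂ) (k n : ℕ) (z : ℂ) :
    orb T τ k (n + 1) z = (T (k + n)).eval (orb T τ k n z) + τ (k + n) := rfl

theorem orb_add (T : ℕ → ℂ[X]) (τ : ℕ → ℂ) (k a b : ℕ) (z : ℂ) :
    orb T τ k (a + b) z = orb T τ (k + a) b (orb T τ k a z) := by
  induction b with
  | zero => rfl
  | succ b ih => rw [← Nat.add_assoc, orb_succ, ih, orb_succ, Nat.add_assoc]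

theorem orb_one (T : ℕ → ℂ[X]) (τ : ℕ → ℂ) (k : ℕ) (z : ℂ) :
    orb T τ k 1 z = (T k).eval z + τ k := rfl

theorem orb_cons (T : ℕ → ℂ[X]) (τ : ℕ → ℂ) (k n : ℕ) (z : ℂ) :
    orb T τ k (n + 1) z = orb T τ (k + 1) n ((T k).eval z + τ k) := by
  rw [Nat.add_comm n 1, orb_add, orb_one]

theorem orb_congr (T : ℕ → ℂ[X]) {τ τ' : ℕ → ℂ} {k n : ℕ}
    (h : ∀ i < n, τ (k + i) = τ' (k + i)) (z : ℂ) :
    orb T τ k n z = orb T τ' k n z := by
  induction n with
  | zero => rfl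
  | succ n ih => rw [orb_succ, orb_succ, ih fun i hi => h i (by omega), h n (by omega)]

theorem orb_diff (T : ℕ → ℂ[X]) (τ : ℕ → ℂ) (k n : ℕ) : Differentiable ℂ (orb T τ k n) := by
  induction n with
  | zero => exact differentiable_id
  | succ n ih =>
    have : orb T τ k (n + 1) = fun z => (T (k + n)).eval (orb T τ k n z) + τ (k + n) := rfl
    rw [this]
    exact ((T (k + n)).differentiable.comp ih).add_const _

/-- The hypotheses on the sequence of polynomials. -/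
structure Fam (T : ℕ → ℂ[X]) (ε R Λ : ℝ) : Prop where
  eps : 0 < ε
  one_le : 1 ≤ R
  two_le : 2 ≤ Λ
  esc : ∀ i, ∀ z : ℂ, R < ‖z‖ → ∀ s : ℂ, ‖s‖ < ε → 2 * ‖z‖ ≤ ‖(T i).eval z + s‖
  lip : ∀ i, ∀ u v : ℂ, ‖u‖ ≤ R + 3 → ‖v‖ ≤ R + 3 → ‖(T i).eval u - (T i).eval v‖ ≤ Λ * ‖u - v‖

variable {T : ℕ → ℂ[X]} {ε R Λ : ℝ}

/-- Large points grow. -/
theorem norm_orb_ge (hT : Fam T ε R Λ) {τ : ℕ → ℂ} (hτ : ∀ i, ‖τ i‖ < ε) (k : ℕ) {z : ℂ}
    (hz : R < ‖z‖) (n : ℕ) : R < ‖orb T τ k n z‖ ∧ 2 ^ n * ‖z‖ ≤ ‖orb T τ k n z‖ := by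
  induction n with
  | zero => simpa [orb_zero] using hz
  | succ n ih =>
    have h1 := hT.esc (k + n) _ ih.1 (τ (k + n)) (hτ _)
    have h0 := hT.one_le
    rw [orb_succ]
    refine ⟨by linarith [ih.1], ?_⟩
    rw [pow_succ]
    linarith [ih.2]

/-- Points beyond a larger radius stay beyond this radius. -/
theorem norm_orb_ge' (hT : Fam T ε R Λ) {τ : ℕ → ℂ} (hτ : ∀ i, ‖τ i‖ < ε) (k : ℕ) {z : ℂ} {r : ℝ}
    (hr : R ≤ r) (hz : r < ‖z‖) (n : ℕ) : r < ‖orb T τ k n z‖ := by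
  have h1 := (norm_orb_ge hT hτ k (lt_of_le_of_lt hr hz) n).2
  have h2 : (1 : ℝ) ≤ 2 ^ n := one_le_pow₀ (by norm_num)
  nlinarith [norm_nonneg z]

/-- If the orbit is bounded at time `n` then it is bounded before. -/
theorem norm_orb_le (hT : Fam T ε R Λ) {τ : ℕ → ℂ} (hτ : ∀ i, ‖τ i‖ < ε) {k n m : ℕ} (hmn : m ≤ n)
    {z : ℂ} {r : ℝ} (hr : R ≤ r) (h : ‖orb T τ k n z‖ ≤ r) : ‖orb T τ k m z‖ ≤ r := by
  by_contra hcon
  push Not at hcon
  have h1 := norm_orb_ge' hT hτ (k + m) hr hcon (n - m)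
  rw [← orb_add] at h1
  have e : m + (n - m) = n := by omega
  rw [e] at h1
  linarith

/-- The Lipschitz bound along bounded orbits. -/
theorem lip_orb (hT : Fam T ε R Λ) {τ : ℕ → ℂ} {k n : ℕ} {z : ℂ} {δ : ℝ} (hδ : Λ ^ n * δ ≤ 1)
    (hδ0 : 0 < δ)
    (h : ∀ i < n, ‖orb T τ k i z‖ ≤ R + 2) {u v : ℂ} (hu : u ∈ ball z δ) (hv : v ∈ ball z δ) :
    ‖orb T τ k n u - orb T τ k n v‖ ≤ Λ ^ n * ‖u - v‖ := by
  have hΛ : 1 ≤ Λ := by linarith [hT.two_le]
  have hΛ0 : 0 ≤ Λ := by linarith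
  have key : ∀ m ≤ n, ∀ u v : ℂ, u ∈ ball z δ → v ∈ ball z δ →
      ‖orb T τ k m u - orb T τ k m v‖ ≤ Λ ^ m * ‖u - v‖ := by
    intro m
    induction m with
    | zero => intro _ u v _ _; simp [orb_zero]
    | succ m ih =>
      intro hm u v hu hv
      have hb : ∀ w ∈ ball z δ, ‖orb T τ k m w‖ ≤ R + 3 := by
        intro w hw
        have h1 := ih (by omega) w z hw (mem_ball_self hδ0)
        have h2 := h m (by omega)
        have h3 : ‖w - z‖ < δ := by rw [← dist_eq_norm]; exact hw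
        have h4 : Λ ^ m * ‖w - z‖ ≤ 1 := by
          have h5 : Λ ^ m ≤ Λ ^ n := pow_le_pow_right₀ hΛ (by omega)
          calc Λ ^ m * ‖w - z‖ ≤ Λ ^ n * δ :=
                mul_le_mul h5 h3.le (norm_nonneg _) (by positivity)
            _ ≤ 1 := hδ
        have h5 : ‖orb T τ k m w‖ ≤ ‖orb T τ k m w - orb T τ k m z‖ + ‖orb T τ k m z‖ := by
          have := norm_add_le (orb T τ k m w - orb T τ k m z) (orb T τ k m z)
          rwa [sub_add_cancel] at this
        linarith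
      rw [orb_succ, orb_succ, add_sub_add_right_eq_sub]
      refine (hT.lip _ _ _ (hb u hu) (hb v hv)).trans ?_
      rw [pow_succ']
      have := ih (by omega) u v hu hv
      calc Λ * ‖orb T τ k m u - orb T τ k m v‖ ≤ Λ * (Λ ^ m * ‖u - v‖) := by gcongr
        _ = Λ * Λ ^ m * ‖u - v‖ := by ring
  exact key n le_rfl u v hu hv

/-- The points which stay bounded for `q` steps, whatever the noise. -/
def W (T : ℕ → ℂ[X]) (ε R : ℝ) (k q : ℕ) : Set ℂ :=
  {z | ∀ τ : ℕ → ℂ, (∀ i, ‖τ i‖ < ε) → ∀ n ≤ q, ‖orb T τ k n z‖ ≤ R + 2}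

theorem W_closed (k q : ℕ) : IsClosed (W T ε R k q) := by
  have : W T ε R k q = ⋂ τ : ℕ → ℂ, ⋂ _ : ∀ i, ‖τ i‖ < ε, ⋂ n : ℕ, ⋂ _ : n ≤ q,
      {z | ‖orb T τ k n z‖ ≤ R + 2} := by
    ext z
    simp only [W, mem_ofPred_eq, mem_iInter]
  rw [this]
  exact isClosed_iInter fun τ => isClosed_iInter fun _ => isClosed_iInter fun n =>
    isClosed_iInter fun _ =>
      isClosed_le (continuous_norm.comp (orb_diff T τ k n).continuous) continuous_const

theorem W_step {k q : ℕ} {z : ℂ} (hz : z ∈ W T ε R k (q + 1)) {s : ℂ} (hs : ‖s‖ < ε) :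
    (T k).eval z + s ∈ W T ε R (k + 1) q := by
  intro τ hτ n hn
  have h1 := hz (fun i => if i = k then s else τ i) (by
    intro i
    split_ifs
    · exact hs
    · exact hτ _) (n + 1) (by omega)
  rw [orb_cons] at h1
  simp only [if_true] at h1
  rwa [orb_congr T (τ' := τ) (by
    intro i _
    rw [if_neg (by omega)])] at h1

theorem W_ball {k q : ℕ} {z : ℂ} (hz : z ∈ W T ε R k (q + 1)) :
    ball ((T k).eval z) ε ⊆ W T ε R (k + 1) q := by
  intro w hw
  rw [mem_ball, dist_eq_norm] at hw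
  have := W_step hz hw
  rwa [add_sub_cancel] at this

theorem W_orb {k q n : ℕ} (hn : n ≤ q) {z : ℂ} (hz : z ∈ W T ε R k q) {τ : ℕ → ℂ}
    (hτ : ∀ i, ‖τ i‖ < ε) : orb T τ k n z ∈ W T ε R (k + n) (q - n) := by
  induction n with
  | zero => exact hz
  | succ n ih =>
    have h1 := ih (by omega)
    have e : q - n = (q - (n + 1)) + 1 := by omega
    rw [e] at h1
    exact W_step h1 (hτ _)

/-- The expanded maps. -/
noncomputable def Phi (T : ℕ → ℂ[X]) (τ : ℕ → ℂ) (κ : ℕ → ℝ) (k : ℕ) (y : ℂ) : ℕ → ℂ → ℂ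
  | 0, u => u
  | i + 1, u => (T (k + i)).eval (Phi T τ κ k y i u) + (τ (k + i) + ((κ (k + i) - 1 : ℝ) : ℂ) *
      ((T (k + i)).eval (Phi T τ κ k y i u) - (T (k + i)).eval (orb T τ k i y)))

theorem Phi_self (τ : ℕ → ℂ) (κ : ℕ → ℝ) (k : ℕ) (y : ℂ) (i : ℕ) :
    Phi T τ κ k y i y = orb T τ k i y := by
  induction i with
  | zero => rfl
  | succ i ih => rw [Phi, ih, sub_self, mul_zero, add_zero, orb_succ]

theorem Phi_diff (τ : ℕ → ℂ) (κ : ℕ → ℝ) (k : ℕ) (y : ℂ) (i : ℕ) :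
    Differentiable ℂ (Phi T τ κ k y i) := by
  induction i with
  | zero => exact differentiable_id
  | succ i ih =>
    have e : Phi T τ κ k y (i + 1) = fun u => (T (k + i)).eval (Phi T τ κ k y i u) +
      (τ (k + i) + ((κ (k + i) - 1 : ℝ) : ℂ) *
      ((T (k + i)).eval (Phi T τ κ k y i u) - (T (k + i)).eval (orb T τ k i y))) := rfl
    rw [e]
    have h := (T (k + i)).differentiable.comp ih
    exact h.add (((h.sub_const _).const_mul _).const_add _)

theorem Phi_deriv (τ : ℕ → ℂ) (κ : ℕ → ℝ) (k : ℕ) (y : ℂ) (i : ℕ) :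
    deriv (Phi T τ κ k y i) y = ((∏ j ∈ Finset.range i, κ (k + j) : ℝ) : ℂ) *
      deriv (orb T τ k i) y := by
  induction i with
  | zero =>
    have h1 : Phi T τ κ k y 0 = id := rfl
    have h2 : orb T τ k 0 = id := rfl
    rw [h1, h2]
    simp
  | succ i ih =>
    have e : Phi T τ κ k y (i + 1) = fun u => (T (k + i)).eval (Phi T τ κ k y i u) +
      (τ (k + i) + ((κ (k + i) - 1 : ℝ) : ℂ) *
      ((T (k + i)).eval (Phi T τ κ k y i u) - (T (k + i)).eval (orb T τ k i y))) := rfl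
    have e' : orb T τ k (i + 1) = fun u => (T (k + i)).eval (orb T τ k i u) + τ (k + i) := rfl
    have h1 : HasDerivAt (Phi T τ κ k y i)
        (((∏ j ∈ Finset.range i, κ (k + j) : ℝ) : ℂ) * deriv (orb T τ k i) y) y := by
      rw [← ih]; exact ((Phi_diff τ κ k y i) y).hasDerivAt
    have h2 : HasDerivAt (fun w : ℂ => (T (k + i)).eval w)
        ((derivative (T (k + i))).eval (orb T τ k i y)) (Phi T τ κ k y i y) := by
      rw [Phi_self]; exact (T (k + i)).hasDerivAt _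
    have h2' : HasDerivAt (fun w : ℂ => (T (k + i)).eval w)
        ((derivative (T (k + i))).eval (orb T τ k i y)) (orb T τ k i y) :=
      (T (k + i)).hasDerivAt _
    have h3 := h2.comp y h1
    have h4 := h2'.comp y ((orb_diff T τ k i) y).hasDerivAt
    have h5 : HasDerivAt (Phi T τ κ k y (i + 1))
        ((derivative (T (k + i))).eval (orb T τ k i y) *
          (((∏ j ∈ Finset.range i, κ (k + j) : ℝ) : ℂ) * deriv (orb T τ k i) y) +
        ((κ (k + i) - 1 : ℝ) : ℂ) * ((derivative (T (k + i))).eval (orb T τ k i y) *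
          (((∏ j ∈ Finset.range i, κ (k + j) : ℝ) : ℂ) * deriv (orb T τ k i) y))) y := by
      rw [e]
      exact h3.add (((h3.sub_const _).const_mul ((κ (k + i) - 1 : ℝ) : ℂ)).const_add _)
    have h6 : HasDerivAt (orb T τ k (i + 1))
        ((derivative (T (k + i))).eval (orb T τ k i y) * deriv (orb T τ k i) y) y := by
      rw [e']
      exact h4.add_const _
    rw [h5.deriv, h6.deriv, Finset.prod_range_succ]
    push_cast
    ring

/-- The expanded orbits are orbits with admissible noise. -/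
theorem Phi_bdd (hT : Fam T ε R Λ) {τ : ℕ → ℂ} (hτ : ∀ i, ‖τ i‖ < ε) {κ : ℕ → ℝ}
    (hκ1 : ∀ i, 1 ≤ κ i) (hκ2 : ∀ i, ‖τ i‖ + (κ i - 1) * (2 * Λ * (R + 2)) < ε)
    {k q : ℕ} {y u : ℂ} (hy : y ∈ W T ε R k q) (hu : u ∈ W T ε R k q) {i : ℕ} (hi : i ≤ q) :
    ‖Phi T τ κ k y i u‖ ≤ R + 2 := by
  have hε := hT.eps
  -- the noise
  set s : ℕ → ℂ := fun j => if k ≤ j then τ j + ((κ j - 1 : ℝ) : ℂ) *
      ((T j).eval (Phi T τ κ k y (j - k) u) - (T j).eval (orb T τ k (j - k) y)) else 0 with hs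
  have horb : ∀ i, Phi T τ κ k y i u = orb T s k i u := by
    intro i
    induction i with
    | zero => rfl
    | succ i ih =>
      rw [orb_succ, ← ih, Phi]
      have : s (k + i) = τ (k + i) + ((κ (k + i) - 1 : ℝ) : ℂ) *
          ((T (k + i)).eval (Phi T τ κ k y i u) - (T (k + i)).eval (orb T τ k i y)) := by
        rw [hs]
        simp only [le_add_iff_nonneg_right, zero_le, if_true, Nat.add_sub_cancel_left]
      rw [this]
  have key : ∀ i ≤ q, ‖Phi T τ κ k y i u‖ ≤ R + 2 := by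
    intro i
    induction i using Nat.strong_induction_on with
    | _ i ih =>
      intro hi
      rw [horb]
      have h1 := hu (fun j => if j < k + i then s j else 0) (by
        intro j
        split_ifs with hj
        · rw [hs]
          simp only
          split_ifs with hkj
          · obtain ⟨m, rfl⟩ := Nat.exists_eq_add_of_le hkj
            rw [Nat.add_sub_cancel_left]
            have h2 := ih m (by omega) (by omega)
            have h3 := hy τ hτ m (by omega)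
            have h4 := hT.lip (k + m) _ _ (h2.trans (by linarith)) (h3.trans (by linarith))
            have h5 : ‖Phi T τ κ k y m u - orb T τ k m y‖ ≤ 2 * (R + 2) :=
              (norm_sub_le _ _).trans (by linarith)
            have h6 : ‖(T (k + m)).eval (Phi T τ κ k y m u) - (T (k + m)).eval (orb T τ k m y)‖ ≤
                2 * Λ * (R + 2) := by
              refine h4.trans ?_
              have := hT.two_le
              calc Λ * ‖Phi T τ κ k y m u - orb T τ k m y‖ ≤ Λ * (2 * (R + 2)) := by gcongr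
                _ = 2 * Λ * (R + 2) := by ring
            have h7 : 0 ≤ κ (k + m) - 1 := by linarith [hκ1 (k + m)]
            refine lt_of_le_of_lt (norm_add_le _ _) ?_
            rw [norm_mul, Complex.norm_real, Real.norm_of_nonneg h7]
            have h8 := mul_le_mul_of_nonneg_left h6 h7
            linarith [hκ2 (k + m)]
          · simpa using hε
        · simpa using hε) i hi
      rwa [orb_congr T (τ' := s) (by
        intro j hj
        rw [if_pos (by omega)])] at h1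
  exact key i hi

/-- The derivative bound. -/
theorem deriv_bound (hT : Fam T ε R Λ) {τ : ℕ → ℂ} (hτ : ∀ i, ‖τ i‖ < ε) {κ : ℕ → ℝ}
    (hκ1 : ∀ i, 1 ≤ κ i) (hκ2 : ∀ i, ‖τ i‖ + (κ i - 1) * (2 * Λ * (R + 2)) < ε)
    {k q : ℕ} {y : ℂ} {ρ : ℝ} (hρ : 0 < ρ) (hy : ball y ρ ⊆ W T ε R k q) :
    ‖deriv (orb T τ k q) y‖ ≤ (R + 2) / (ρ / 2) / ∏ j ∈ Finset.range q, κ (k + j) := by
  have hp : 0 < ∏ j ∈ Finset.range q, κ (k + j) :=
    Finset.prod_pos fun j _ => by linarith [hκ1 (k + j)]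
  have h1 := Complex.norm_deriv_le_of_forall_mem_sphere_norm_le (c := y) (R := ρ / 2) (C := R + 2)
    (f := Phi T τ κ k y q) (by linarith)
    (Phi_diff _ _ _ _ _).diffContOnCl (by
      intro u hu
      have hu' : u ∈ W T ε R k q := by
        apply hy
        rw [mem_ball]
        rw [mem_sphere] at hu
        rw [hu]
        linarith
      exact Phi_bdd hT hτ hκ1 hκ2 (hy (mem_ball_self hρ)) hu' le_rfl)
  rw [Phi_deriv, norm_mul, Complex.norm_real, Real.norm_of_nonneg hp.le] at h1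
  rw [le_div_iff₀ hp, mul_comm]
  exact h1

end Pool.Agent.J4.H85.UC
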