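import Mathlib
import Pool.Agent.J4.H85.UC1

/-! Blocks with good noise contract the neighbourhoods of the points which stay bounded. -/

set_option autoImplicit false

open Filter Topology Set Metric Polynomial

namespace Pool.Agent.J4.H85.UC

/-- Each of the `m₁ + 1` pieces of length `h₀` contains a small noise. -/
def GoodNoise (ε : ℝ) (h₀ m₁ : ℕ) (τ : ℕ → ℂ) (k : ℕ) : Prop :=
  ∀ a ≤ m₁, ∃ i < h₀, ‖τ (k + (a * h₀ + i))‖ ≤ ε / 2

variable {T : ℕ → ℂ[X]} {ε R Λ : ℝ}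

/-- the expansion factor -/
noncomputable def kap (ε R Λ : ℝ) : ℝ := 1 + ε / (8 * Λ * (R + 2))

theorem one_lt_kap (hT : Fam T ε R Λ) : 1 < kap ε R Λ := by
  have h1 := hT.eps
  have h2 := hT.one_le
  have h3 := hT.two_le
  have : 0 < ε / (8 * Λ * (R + 2)) := by positivity
  unfold kap
  linarith

theorem kap_sub (hT : Fam T ε R Λ) : (kap ε R Λ - 1) * (2 * Λ * (R + 2)) = ε / 4 := by
  have h2 := hT.one_le
  have h3 := hT.two_le
  have h4 : R + 2 ≠ 0 := by linarith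
  have h5 : Λ ≠ 0 := by linarith
  unfold kap
  field_simp
  ring

theorem quiet_card {h₀ m₁ : ℕ} {τ : ℕ → ℂ} {k n₀ : ℕ} (hn₀ : n₀ ≤ h₀)
    (h : GoodNoise ε h₀ m₁ τ k) :
    m₁ ≤ ((Finset.range ((m₁ + 1) * h₀ - n₀)).filter
      (fun j => ‖τ (k + n₀ + j)‖ ≤ ε / 2)).card := by
  classical
  have h1 : ∀ a : ℕ, ∃ i, a < m₁ → (i < h₀ ∧ ‖τ (k + ((a + 1) * h₀ + i))‖ ≤ ε / 2) := by
    intro a
    by_cases ha : a < m₁
    · obtain ⟨i, hi, hi'⟩ := h (a + 1) (by omega)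
      exact ⟨i, fun _ => ⟨hi, hi'⟩⟩
    · exact ⟨0, fun h => absurd h ha⟩
  choose f hf using h1
  have h2 := Finset.card_le_card_of_injOn (s := Finset.range m₁)
    (t := (Finset.range ((m₁ + 1) * h₀ - n₀)).filter (fun j => ‖τ (k + n₀ + j)‖ ≤ ε / 2))
    (fun a => (a + 1) * h₀ + f a - n₀) ?_ ?_
  · rwa [Finset.card_range] at h2
  · intro a ha
    have ha' : a < m₁ := Finset.mem_range.1 (Finset.mem_coe.1 ha)
    obtain ⟨hi, hq⟩ := hf a ha'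
    have h3 : (a + 1) * h₀ + h₀ ≤ (m₁ + 1) * h₀ := by
      have : (a + 2) * h₀ ≤ (m₁ + 1) * h₀ := Nat.mul_le_mul_right _ (by omega)
      linarith
    have h4 : h₀ ≤ (a + 1) * h₀ := Nat.le_mul_of_pos_left _ (by omega)
    simp only [Finset.coe_filter, Finset.mem_range, mem_ofPred_eq]
    refine ⟨by omega, ?_⟩
    have e : k + n₀ + ((a + 1) * h₀ + f a - n₀) = k + ((a + 1) * h₀ + f a) := by omega
    rw [e]
    exact hq
  · intro a ha a' ha' haa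
    have hm : a < m₁ := Finset.mem_range.1 (Finset.mem_coe.1 ha)
    have hm' : a' < m₁ := Finset.mem_range.1 (Finset.mem_coe.1 ha')
    obtain ⟨hi, -⟩ := hf a hm
    obtain ⟨hi', -⟩ := hf a' hm'
    simp only at haa
    have h4 : h₀ ≤ (a + 1) * h₀ := Nat.le_mul_of_pos_left _ (by omega)
    have h4' : h₀ ≤ (a' + 1) * h₀ := Nat.le_mul_of_pos_left _ (by omega)
    have h5 : (a + 1) * h₀ + f a = (a' + 1) * h₀ + f a' := by omega
    have h6 : ((a + 1) * h₀ + f a) / h₀ = a + 1 := by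
      rw [Nat.add_comm, Nat.add_mul_div_right _ _ (by omega), Nat.div_eq_of_lt hi, Nat.zero_add]
    have h7 : ((a' + 1) * h₀ + f a') / h₀ = a' + 1 := by
      rw [Nat.add_comm, Nat.add_mul_div_right _ _ (by omega), Nat.div_eq_of_lt hi', Nat.zero_add]
    rw [h5, h7] at h6
    omega

/-- Contraction. -/
theorem contract (hT : Fam T ε R Λ) {τ : ℕ → ℂ} (hτ : ∀ i, ‖τ i‖ < ε) {h₀ m₁ : ℕ} {k : ℕ} {z : ℂ}
    (hz : z ∈ W T ε R k ((m₁ + 1) * h₀)) (hg : GoodNoise ε h₀ m₁ τ k) {δ : ℝ} (hδ0 : 0 < δ)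
    (hδ : Λ ^ ((m₁ + 1) * h₀) * δ ≤ 1) (hδ2 : Λ ^ ((m₁ + 1) * h₀) * δ ≤ ε / 4)
    (hm : Λ ^ h₀ * (8 * (R + 2) / ε) * 4 ≤ kap ε R Λ ^ m₁) {u v : ℂ} (hu : u ∈ ball z δ)
    (hv : v ∈ ball z δ) :
    ‖orb T τ k ((m₁ + 1) * h₀) u - orb T τ k ((m₁ + 1) * h₀) v‖ ≤ 1 / 4 * ‖u - v‖ := by
  classical
  have hε := hT.eps
  have hR := hT.one_le
  have hΛ : 1 ≤ Λ := by linarith [hT.two_le]
  obtain ⟨i₀, hi₀, hq⟩ := hg 0 (by omega)
  rw [Nat.zero_mul, Nat.zero_add] at hq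
  set ℓ := (m₁ + 1) * h₀ with hℓ
  have hℓh : h₀ ≤ ℓ := Nat.le_mul_of_pos_left _ (by omega)
  set n₀ := i₀ + 1 with hn₀
  set y₁ := orb T τ k n₀ z with hy₁
  have hW : ball y₁ (ε / 2) ⊆ W T ε R (k + n₀) (ℓ - n₀) := by
    have h1 := W_orb (n := i₀) (by omega) hz hτ
    have e : ℓ - i₀ = (ℓ - n₀) + 1 := by omega
    rw [e] at h1
    have h2 : ball ((T (k + i₀)).eval (orb T τ k i₀ z)) ε ⊆ W T ε R (k + n₀) (ℓ - n₀) := W_ball h1
    refine Subset.trans ?_ h2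
    apply ball_subset_ball'
    have h3 : y₁ = (T (k + i₀)).eval (orb T τ k i₀ z) + τ (k + i₀) := rfl
    rw [h3, dist_eq_norm, add_sub_cancel_left]
    linarith
  -- the bound of the derivative of the second part
  set κ : ℕ → ℝ := fun i => if ‖τ i‖ ≤ ε / 2 then kap ε R Λ else 1 with hκ
  have hk1 := one_lt_kap hT
  have hκ1 : ∀ i, 1 ≤ κ i := by
    intro i
    rw [hκ]
    simp only
    split_ifs
    · exact hk1.le
    · exact le_rfl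
  have hκ2 : ∀ i, ‖τ i‖ + (κ i - 1) * (2 * Λ * (R + 2)) < ε := by
    intro i
    rw [hκ]
    simp only
    split_ifs with h
    · rw [kap_sub hT]
      linarith
    · rw [sub_self, zero_mul, add_zero]
      exact hτ i
  have hprod : kap ε R Λ ^ m₁ ≤ ∏ j ∈ Finset.range (ℓ - n₀), κ (k + n₀ + j) := by
    rw [hκ, Finset.prod_ite, Finset.prod_const, Finset.prod_const_one, mul_one]
    exact pow_le_pow_right₀ hk1.le (quiet_card (by omega) hg)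
  have hkp : 0 < kap ε R Λ ^ m₁ := by positivity
  have hder : ∀ w ∈ ball y₁ (ε / 4), ‖deriv (orb T τ (k + n₀) (ℓ - n₀)) w‖ ≤
      8 * (R + 2) / ε / kap ε R Λ ^ m₁ := by
    intro w hw
    have h1 : ball w (ε / 4) ⊆ W T ε R (k + n₀) (ℓ - n₀) := by
      refine Subset.trans ?_ hW
      apply ball_subset_ball'
      rw [mem_ball] at hw
      linarith
    refine (deriv_bound hT hτ hκ1 hκ2 (by linarith : 0 < ε / 4) h1).trans ?_
    have e : (R + 2) / (ε / 4 / 2) = 8 * (R + 2) / ε := by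
      field_simp
      ring
    rw [e]
    apply div_le_div_of_nonneg_left (by positivity) hkp hprod
  have hlip2 : ∀ a ∈ ball y₁ (ε / 4), ∀ b ∈ ball y₁ (ε / 4),
      ‖orb T τ (k + n₀) (ℓ - n₀) b - orb T τ (k + n₀) (ℓ - n₀) a‖ ≤
      8 * (R + 2) / ε / kap ε R Λ ^ m₁ * ‖b - a‖ := by
    intro a ha b hb
    exact (convex_ball y₁ (ε / 4)).norm_image_sub_le_of_norm_deriv_le
      (fun z _ => (orb_diff T τ _ _) z) hder ha hb
  -- the first part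
  have hbd : ∀ i < n₀, ‖orb T τ k i z‖ ≤ R + 2 := fun i hi => hz τ hτ i (by omega)
  have hpow : Λ ^ n₀ ≤ Λ ^ ℓ := pow_le_pow_right₀ hΛ (by omega)
  have hδ1 : Λ ^ n₀ * δ ≤ 1 := (mul_le_mul_of_nonneg_right hpow hδ0.le).trans hδ
  have hδ3 : Λ ^ n₀ * δ ≤ ε / 4 := (mul_le_mul_of_nonneg_right hpow hδ0.le).trans hδ2
  have hlip1 : ∀ u v : ℂ, u ∈ ball z δ → v ∈ ball z δ →
      ‖orb T τ k n₀ u - orb T τ k n₀ v‖ ≤ Λ ^ n₀ * ‖u - v‖ := fun u v hu hv =>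
    lip_orb hT hδ1 hδ0 hbd hu hv
  have hmem : ∀ u ∈ ball z δ, orb T τ k n₀ u ∈ ball y₁ (ε / 4) := by
    intro u hu
    rw [mem_ball, dist_eq_norm]
    have h1 := hlip1 u z hu (mem_ball_self hδ0)
    have h2 : ‖u - z‖ < δ := by rw [← dist_eq_norm]; exact hu
    have h3 : Λ ^ n₀ * ‖u - z‖ < Λ ^ n₀ * δ := by gcongr
    linarith
  have e : ℓ = n₀ + (ℓ - n₀) := by omega
  have e1 : ∀ w, orb T τ k ℓ w = orb T τ (k + n₀) (ℓ - n₀) (orb T τ k n₀ w) := by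
    intro w
    rw [← orb_add, ← e]
  rw [e1, e1]
  refine (hlip2 _ (hmem v hv) _ (hmem u hu)).trans ?_
  have h1 := hlip1 u v hu hv
  have h2 : Λ ^ n₀ ≤ Λ ^ h₀ := pow_le_pow_right₀ hΛ (by omega)
  have h3 : 8 * (R + 2) / ε / kap ε R Λ ^ m₁ * ‖orb T τ k n₀ u - orb T τ k n₀ v‖ ≤
      8 * (R + 2) / ε / kap ε R Λ ^ m₁ * (Λ ^ h₀ * ‖u - v‖) := by
    apply mul_le_mul_of_nonneg_left _ (by positivity)
    exact h1.trans (mul_le_mul_of_nonneg_right h2 (norm_nonneg _))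
  refine h3.trans ?_
  have h4 : 8 * (R + 2) / ε / kap ε R Λ ^ m₁ * Λ ^ h₀ ≤ 1 / 4 := by
    rw [div_mul_eq_mul_div, div_le_iff₀ hkp]
    linarith
  calc 8 * (R + 2) / ε / kap ε R Λ ^ m₁ * (Λ ^ h₀ * ‖u - v‖)
      = 8 * (R + 2) / ε / kap ε R Λ ^ m₁ * Λ ^ h₀ * ‖u - v‖ := by ring
    _ ≤ 1 / 4 * ‖u - v‖ := by gcongr

/-- The Lipschitz bound for blocks which end in the bounded region. -/
theorem lip_block (hT : Fam T ε R Λ) {τ : ℕ → ℂ} (hτ : ∀ i, ‖τ i‖ < ε) {k ℓ : ℕ} {z : ℂ}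
    (hz : ‖orb T τ k ℓ z‖ ≤ R + 1) {δ : ℝ} (hδ0 : 0 < δ) (hδ : Λ ^ ℓ * δ ≤ 1) {u v : ℂ}
    (hu : u ∈ ball z δ) (hv : v ∈ ball z δ) :
    ‖orb T τ k ℓ u - orb T τ k ℓ v‖ ≤ Λ ^ ℓ * ‖u - v‖ := by
  refine lip_orb hT hδ hδ0 (fun i hi => ?_) hu hv
  have := norm_orb_le hT hτ (le_of_lt hi) (by linarith : R ≤ R + 1) hz
  linarith

end Pool.Agent.J4.H85.UC
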