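import Mathlib
import Pool.Agent.J4.H85.UC2

/-! Shadowing by orbits which start in a finite net at hyperbolic times. -/

set_option autoImplicit false

open Filter Topology Set Metric Polynomial

namespace Pool.Agent.J4.H85.UC

open Pool.Agent.J4.H85.NC (Att)

/-- `n` blocks of length `ℓ` starting at time `k`. -/
noncomputable def G (T : ℕ → ℂ[X]) (τ : ℕ → ℂ) (ℓ k n : ℕ) (z : ℂ) : ℂ := orb T τ k (n * ℓ) z

open Classical in
/-- The number of bad blocks. -/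
noncomputable def cnt (T : ℕ → ℂ[X]) (τ : ℕ → ℂ) (ℓ : ℕ) (B : ℕ → ℂ → Prop) (k : ℕ) (z : ℂ) : ℕ → ℕ
  | 0 => 0
  | n + 1 => cnt T τ ℓ B k z n + if B (k + n * ℓ) (G T τ ℓ k n z) then 1 else 0

variable {T : ℕ → ℂ[X]} {τ : ℕ → ℂ} {ℓ : ℕ} {B : ℕ → ℂ → Prop}

theorem G_zero (k : ℕ) (z : ℂ) : G T τ ℓ k 0 z = z := by
  simp [G, orb_zero]

theorem G_add (k m n : ℕ) (z : ℂ) :
    G T τ ℓ k (m + n) z = G T τ ℓ (k + m * ℓ) n (G T τ ℓ k m z) := by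
  unfold G
  rw [Nat.add_mul, orb_add]

theorem G_succ (k n : ℕ) (z : ℂ) :
    G T τ ℓ k (n + 1) z = orb T τ (k + n * ℓ) ℓ (G T τ ℓ k n z) := by
  rw [G_add]
  unfold G
  rw [Nat.one_mul]

theorem cnt_succ (k : ℕ) (z : ℂ) (n : ℕ) [Decidable (B (k + n * ℓ) (G T τ ℓ k n z))] :
    cnt T τ ℓ B k z (n + 1) =
      cnt T τ ℓ B k z n + if B (k + n * ℓ) (G T τ ℓ k n z) then 1 else 0 := by
  rw [cnt]
  congr

theorem cnt_mono (k : ℕ) (z : ℂ) : Monotone (cnt T τ ℓ B k z) :=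
  monotone_nat_of_le_succ fun n => by rw [cnt]; omega

theorem cnt_add (k : ℕ) (z : ℂ) (m n : ℕ) :
    cnt T τ ℓ B k z (m + n) =
      cnt T τ ℓ B k z m + cnt T τ ℓ B (k + m * ℓ) (G T τ ℓ k m z) n := by
  induction n with
  | zero => rfl
  | succ n ih =>
    rw [← Nat.add_assoc, cnt, ih, cnt, ← G_add, Nat.add_assoc]
    have e : k + (m + n) * ℓ = k + m * ℓ + n * ℓ := by ring
    rw [e]

/-- The lemma of Pliss. -/
theorem pliss {c : ℕ → ℕ} (hc : Monotone c) {b K n h : ℕ} (hn : c n ≤ K) (hh : h ≤ n) :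
    ∃ s, h ≤ s ∧ s ≤ h + b * K ∧ s ≤ n ∧ ∀ m, s + m ≤ n → b * c (s + m) ≤ b * c s + m := by
  obtain ⟨s, hs, hmin⟩ := Finset.exists_min_image (Finset.Icc h n)
    (fun m : ℕ => (m : ℤ) - b * c m) ⟨h, Finset.mem_Icc.2 ⟨le_rfl, hh⟩⟩
  rw [Finset.mem_Icc] at hs
  refine ⟨s, hs.1, ?_, hs.2, ?_⟩
  · have h1 := hmin h (Finset.mem_Icc.2 ⟨le_rfl, hh⟩)
    have h2 : c s ≤ K := (hc hs.2).trans hn
    have h3 : b * c s ≤ b * K := Nat.mul_le_mul_left _ h2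
    have h4 : ((b * c s : ℕ) : ℤ) ≤ ((b * K : ℕ) : ℤ) := by exact_mod_cast h3
    have h5 : (0 : ℤ) ≤ ((b * c h : ℕ) : ℤ) := Int.natCast_nonneg _
    push_cast at h4 h5
    have h6 : (s : ℤ) ≤ h + b * K := by linarith
    exact_mod_cast h6
  · intro m hm
    have h1 := hmin (s + m) (Finset.mem_Icc.2 ⟨by omega, hm⟩)
    push_cast at h1
    have h6 : (b : ℤ) * c (s + m) ≤ b * c s + m := by linarith
    exact_mod_cast h6

variable {b : ℕ} {δ R : ℝ}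

/-- The Lipschitz properties of the blocks. -/
structure Blocks (T : ℕ → ℂ[X]) (τ : ℕ → ℂ) (ℓ : ℕ) (B : ℕ → ℂ → Prop) (b : ℕ) (δ R : ℝ) :
    Prop where
  δpos : 0 < δ
  δle : δ ≤ 1
  good : ∀ k z, ¬ B k z → ∀ u ∈ ball z δ, ∀ v ∈ ball z δ,
    ‖orb T τ k ℓ u - orb T τ k ℓ v‖ ≤ 1 / 4 * ‖u - v‖
  all : ∀ k z, ‖orb T τ k ℓ z‖ ≤ R + 1 → ∀ u ∈ ball z δ, ∀ v ∈ ball z δ,
    ‖orb T τ k ℓ u - orb T τ k ℓ v‖ ≤ 2 ^ b * ‖u - v‖

/-- Contraction at hyperbolic times. -/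
theorem hyp_time (hB : Blocks T τ ℓ B b δ R) {k n : ℕ} {z : ℂ}
    (h1 : ∀ m ≤ n, (b + 2) * cnt T τ ℓ B k z m ≤ m)
    (h2 : ∀ m ≤ n, ‖G T τ ℓ k m z‖ ≤ R + 1) :
    ∀ m ≤ n, ∀ u ∈ ball z δ, ∀ v ∈ ball z δ,
      ‖G T τ ℓ k m u - G T τ ℓ k m v‖ ≤ (1 / 2) ^ m * ‖u - v‖ := by
  classical
  have hδ := hB.δpos
  have hconv : ∀ m ≤ n, (2 : ℝ) ^ ((b + 2) * cnt T τ ℓ B k z m) / 4 ^ m ≤ (1 / 2) ^ m := by
    intro m hm
    have h3 : (2 : ℝ) ^ ((b + 2) * cnt T τ ℓ B k z m) ≤ 2 ^ m :=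
      pow_le_pow_right₀ (by norm_num) (h1 m hm)
    calc (2 : ℝ) ^ ((b + 2) * cnt T τ ℓ B k z m) / 4 ^ m ≤ 2 ^ m / 4 ^ m := by gcongr
      _ = (1 / 2) ^ m := by rw [← div_pow]; norm_num
  have key : ∀ m ≤ n, ∀ u ∈ ball z δ, ∀ v ∈ ball z δ,
      ‖G T τ ℓ k m u - G T τ ℓ k m v‖ ≤
        2 ^ ((b + 2) * cnt T τ ℓ B k z m) / 4 ^ m * ‖u - v‖ := by
    intro m
    induction m with
    | zero => intro _ u _ v _; simp [G_zero, cnt]
    | succ m ih =>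
      intro hm u hu v hv
      have hmem : ∀ w ∈ ball z δ, G T τ ℓ k m w ∈ ball (G T τ ℓ k m z) δ := by
        intro w hw
        rw [mem_ball, dist_eq_norm]
        have h3 := ih (by omega) w hw z (mem_ball_self hδ)
        have h4 : ‖w - z‖ < δ := by rw [← dist_eq_norm]; exact hw
        have h5 : (2 : ℝ) ^ ((b + 2) * cnt T τ ℓ B k z m) / 4 ^ m ≤ 1 :=
          (hconv m (by omega)).trans (pow_le_one₀ (by norm_num) (by norm_num))
        have h6 := mul_le_mul_of_nonneg_right h5 (norm_nonneg (w - z))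
        linarith
      have hih := ih (by omega) u hu v hv
      rw [G_succ, G_succ, cnt_succ]
      by_cases hbad : B (k + m * ℓ) (G T τ ℓ k m z)
      · rw [if_pos hbad]
        have h3 : ‖orb T τ (k + m * ℓ) ℓ (G T τ ℓ k m z)‖ ≤ R + 1 := by
          rw [← G_succ]
          exact h2 _ hm
        refine (hB.all _ _ h3 _ (hmem u hu) _ (hmem v hv)).trans ?_
        have e : (2 : ℝ) ^ ((b + 2) * (cnt T τ ℓ B k z m + 1)) / 4 ^ (m + 1) =
            2 ^ b * (2 ^ ((b + 2) * cnt T τ ℓ B k z m) / 4 ^ m) := by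
          rw [Nat.mul_add, Nat.mul_one, pow_add, pow_add, pow_succ (4 : ℝ) m]
          field_simp
          ring
        rw [e, mul_assoc]
        gcongr
      · rw [if_neg hbad]
        refine (hB.good _ _ hbad _ (hmem u hu) _ (hmem v hv)).trans ?_
        have e : (2 : ℝ) ^ ((b + 2) * cnt T τ ℓ B k z m) / 4 ^ (m + 1) =
            1 / 4 * (2 ^ ((b + 2) * cnt T τ ℓ B k z m) / 4 ^ m) := by
          rw [pow_succ (4 : ℝ) m]
          field_simp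
        rw [Nat.add_zero (cnt T τ ℓ B k z m), e, mul_assoc]
        gcongr
  intro m hm u hu v hv
  exact (key m hm u hu v hv).trans
    (mul_le_mul_of_nonneg_right (hconv m hm) (norm_nonneg _))

/-- Contraction after a hyperbolic time found with the lemma of Pliss. -/
theorem exists_hyp (hB : Blocks T τ ℓ B b δ R) {k n K : ℕ} {z : ℂ} (hn : 4 ≤ n)
    (h1 : cnt T τ ℓ B k z n ≤ K) (h2 : ∀ m ≤ n, ‖G T τ ℓ k m z‖ ≤ R + 1) :
    ∃ s, 4 ≤ s ∧ s ≤ 4 + (b + 2) * K ∧ s ≤ n ∧ ∀ m, s + m ≤ n →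
      ∀ u ∈ ball (G T τ ℓ k s z) δ, ∀ v ∈ ball (G T τ ℓ k s z) δ,
      ‖G T τ ℓ (k + s * ℓ) m u - G T τ ℓ (k + s * ℓ) m v‖ ≤ (1 / 2) ^ m * ‖u - v‖ := by
  obtain ⟨s, hs1, hs2, hs3, hs4⟩ := pliss (cnt_mono (T := T) (τ := τ) (ℓ := ℓ) (B := B) k z)
    (b := b + 2) h1 hn
  refine ⟨s, hs1, hs2, hs3, fun m hm => ?_⟩
  refine hyp_time hB (n := n - s) ?_ ?_ m (by omega)
  · intro m' hm'
    have h3 := hs4 m' (by omega)
    rw [cnt_add, Nat.mul_add] at h3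
    omega
  · intro m' hm'
    rw [← G_add]
    exact h2 _ (by omega)

/-- The states of the chain. -/
structure Sta (T : ℕ → ℂ[X]) (τ : ℕ → ℂ) (ℓ : ℕ) (δ R : ℝ) (H : ℕ) (E : Set ℂ)
    (k : ℕ) (p u w : ℂ) : Prop where
  hyp : ∀ m ≤ H, ∀ x ∈ ball p δ, ∀ y ∈ ball p δ,
    ‖G T τ ℓ k m x - G T τ ℓ k m y‖ ≤ (1 / 2) ^ m * ‖x - y‖
  near : ‖u - p‖ ≤ δ / 8
  mem : u ∈ E
  real : ‖w - p‖ ≤ δ / 8
  bdd : ∀ n, ‖orb T τ k n w‖ ≤ R

/-- The first state. -/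
theorem first (hB : Blocks T τ ℓ B b δ R) {K N : ℕ} (hN : 2 * (4 + (b + 2) * K) + b ≤ N)
    {E : Set ℂ} (hE : ∀ z : ℂ, ‖z‖ ≤ R + 1 → ∃ u ∈ E, ‖u - z‖ ≤ δ / 8) {k : ℕ} {c : ℂ}
    (hc : ∀ n, ‖orb T τ k n c‖ ≤ R)
    (hq : ∀ n ≤ N, ‖G T τ ℓ k n c‖ ≤ R + 1 → cnt T τ ℓ B k c n ≤ K) :
    ∃ s, ∃ u, Sta T τ ℓ δ R (N - (4 + (b + 2) * K)) E (k + s * ℓ) (G T τ ℓ k s c) u
      (G T τ ℓ k s c) := by
  have hδ := hB.δpos
  have hb : ∀ m, ‖G T τ ℓ k m c‖ ≤ R + 1 := fun m => (hc _).trans (by linarith)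
  obtain ⟨s, hs1, hs2, hs3, hs4⟩ := exists_hyp hB (n := N) (by omega) (hq N le_rfl (hb N))
    (fun m _ => hb m)
  obtain ⟨u, hu, hu'⟩ := hE _ (hb s)
  refine ⟨s, u, ⟨fun m hm => hs4 m (by omega), hu', hu, by rw [sub_self, norm_zero]; positivity, fun n => ?_⟩⟩
  unfold G
  rw [← orb_add]
  exact hc _

/-- The next state. -/
theorem next (hB : Blocks T τ ℓ B b δ R) {K N : ℕ} (hN : 2 * (4 + (b + 2) * K) + b ≤ N)
    {E : Set ℂ} (hE : ∀ z : ℂ, ‖z‖ ≤ R + 1 → ∃ u ∈ E, ‖u - z‖ ≤ δ / 8)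
    (hq : ∀ k, ∀ u ∈ E, ∀ n ≤ N, ‖G T τ ℓ k n u‖ ≤ R + 1 → cnt T τ ℓ B k u n ≤ K)
    {k : ℕ} {p u w : ℂ} (hS : Sta T τ ℓ δ R (N - (4 + (b + 2) * K)) E k p u w) :
    ∃ s, 1 ≤ s ∧ ∃ p' u', Sta T τ ℓ δ R (N - (4 + (b + 2) * K)) E (k + s * ℓ) p' u'
      (G T τ ℓ k s w) ∧
      (∀ x ∈ ball p δ, G T τ ℓ k s x ∈ ball p' (δ / 8)) ∧
      ∀ x ∈ ball p δ, ∀ y ∈ ball p δ,
        ‖G T τ ℓ k s x - G T τ ℓ k s y‖ ≤ 1 / 16 * ‖x - y‖ := by
  have hδ := hB.δpos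
  have hδ1 := hB.δle
  have hup : u ∈ ball p δ := by
    rw [mem_ball, dist_eq_norm]
    linarith [hS.near]
  have hwp : w ∈ ball p δ := by
    rw [mem_ball, dist_eq_norm]
    linarith [hS.real]
  have huw : ‖u - w‖ ≤ δ / 4 := by
    have h1 : ‖u - w‖ ≤ ‖u - p‖ + ‖w - p‖ := by
      have := norm_sub_le (u - p) (w - p)
      rwa [sub_sub_sub_cancel_right] at this
    linarith [hS.near, hS.real]
  have hwb : ∀ n, ‖G T τ ℓ k n w‖ ≤ R := fun n => hS.bdd _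
  -- the net point stays bounded
  have hclose : ∀ n, ‖G T τ ℓ k n u - G T τ ℓ k n w‖ ≤ 1 → ‖G T τ ℓ k n u‖ ≤ R + 1 := by
    intro n hn
    have h1 := norm_add_le (G T τ ℓ k n u - G T τ ℓ k n w) (G T τ ℓ k n w)
    rw [sub_add_cancel] at h1
    linarith [hwb n]
  have hbd : ∀ n ≤ N, ‖G T τ ℓ k n u‖ ≤ R + 1 := by
    intro n
    induction n using Nat.strong_induction_on with
    | _ n ih =>
      intro hn
      by_cases hnH : n ≤ N - (4 + (b + 2) * K)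
      · apply hclose
        refine (hS.hyp n hnH u hup w hwp).trans ?_
        have h1 : ((1 : ℝ) / 2) ^ n ≤ 1 := pow_le_one₀ (by norm_num) (by norm_num)
        have := mul_le_mul_of_nonneg_right h1 (norm_nonneg (u - w))
        linarith
      · obtain ⟨n, rfl⟩ : ∃ n', n = n' + 1 := ⟨n - 1, by omega⟩
        have hcn := hq k u hS.mem n (by omega) (ih n (by omega) (by omega))
        obtain ⟨s, hs1, hs2, hs3, hs4⟩ := exists_hyp hB (n := n) (by omega) hcn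
          (fun m hm => ih m (by omega) (by omega))
        have h1 := hS.hyp s (by omega) u hup w hwp
        have h2 : ‖G T τ ℓ k s u - G T τ ℓ k s w‖ ≤ δ / 4 := by
          refine h1.trans ?_
          have h3 : ((1 : ℝ) / 2) ^ s ≤ 1 := pow_le_one₀ (by norm_num) (by norm_num)
          have := mul_le_mul_of_nonneg_right h3 (norm_nonneg (u - w))
          linarith
        have h3 : G T τ ℓ k s w ∈ ball (G T τ ℓ k s u) δ := by
          rw [mem_ball, dist_comm, dist_eq_norm]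
          linarith
        have h4 := hs4 (n - s) (by omega) _ (mem_ball_self hδ) _ h3
        rw [← G_add, ← G_add] at h4
        have e : s + (n - s) = n := by omega
        rw [e] at h4
        have h5 : ((1 : ℝ) / 2) ^ (n - s) ≤ (1 / 2) ^ b :=
          pow_le_pow_of_le_one (by norm_num) (by norm_num) (by omega)
        have h6 : ‖G T τ ℓ k n u - G T τ ℓ k n w‖ ≤ (1 / 2) ^ b * (δ / 4) :=
          h4.trans (mul_le_mul h5 h2 (norm_nonneg _) (by positivity))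
        have h7 : ((1 : ℝ) / 2) ^ b ≤ 1 := pow_le_one₀ (by norm_num) (by norm_num)
        have h8 : G T τ ℓ k n u ∈ ball (G T τ ℓ k n w) δ := by
          rw [mem_ball, dist_eq_norm]
          have := mul_le_mul_of_nonneg_right h7 (by linarith : 0 ≤ δ / 4)
          linarith
        have h9 : ‖orb T τ (k + n * ℓ) ℓ (G T τ ℓ k n w)‖ ≤ R + 1 := by
          rw [← G_succ]
          linarith [hwb (n + 1)]
        have h10 := hB.all _ _ h9 _ h8 _ (mem_ball_self hδ)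
        rw [← G_succ, ← G_succ] at h10
        apply hclose
        refine h10.trans ?_
        have h11 : (2 : ℝ) ^ b * ‖G T τ ℓ k n u - G T τ ℓ k n w‖ ≤
            2 ^ b * ((1 / 2) ^ b * (δ / 4)) := by gcongr
        have h12 : (2 : ℝ) ^ b * ((1 / 2) ^ b * (δ / 4)) = δ / 4 := by
          rw [← mul_assoc, ← mul_pow]
          norm_num
        linarith
  obtain ⟨s, hs1, hs2, hs3, hs4⟩ := exists_hyp hB (n := N) (by omega)
    (hq k u hS.mem N le_rfl (hbd N le_rfl)) hbd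
  obtain ⟨u', hu', hu''⟩ := hE _ (hbd s hs3)
  have hsH : s ≤ N - (4 + (b + 2) * K) := by omega
  have hlip : ∀ x ∈ ball p δ, ∀ y ∈ ball p δ,
      ‖G T τ ℓ k s x - G T τ ℓ k s y‖ ≤ 1 / 16 * ‖x - y‖ := by
    intro x hx y hy
    refine (hS.hyp s hsH x hx y hy).trans ?_
    have h1 : ((1 : ℝ) / 2) ^ s ≤ (1 / 2) ^ 4 :=
      pow_le_pow_of_le_one (by norm_num) (by norm_num) hs1
    have h2 := mul_le_mul_of_nonneg_right h1 (norm_nonneg (x - y))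
    norm_num at h2 ⊢
    exact h2
  have hmap : ∀ x ∈ ball p δ, G T τ ℓ k s x ∈ ball (G T τ ℓ k s u) (δ / 8) := by
    intro x hx
    rw [mem_ball, dist_eq_norm]
    have h1 := hlip x hx u hup
    have h2 : ‖x - u‖ ≤ ‖x - p‖ + ‖u - p‖ := by
      have := norm_sub_le (x - p) (u - p)
      rwa [sub_sub_sub_cancel_right] at this
    have h3 : ‖x - p‖ < δ := by rw [← dist_eq_norm]; exact hx
    linarith [hS.near]
  refine ⟨s, by omega, G T τ ℓ k s u, u', ⟨fun m hm => hs4 m (by omega), hu'', hu', ?_, ?_⟩,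
    hmap, hlip⟩
  · have := hmap w hwp
    rw [mem_ball, dist_eq_norm] at this
    exact this.le
  · intro n
    unfold G
    rw [← orb_add]
    exact hS.bdd _

end Pool.Agent.J4.H85.UC
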