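import Mathlib
import Pool.Agent.J4.H85.UC3
import Pool.Agent.J4.H85.NC5

/-! The chain of states closes up: attracting periodic points; the deterministic criterion. -/

set_option autoImplicit false

open Filter Topology Set Metric Polynomial

namespace Pool.Agent.J4.H85.UC

open Pool.Agent.J4.H85.NC (Att Hyp)

/-- The fixed point. -/
theorem att_of_contr {Γ : ℂ → ℂ} (hΓ : Differentiable ℂ Γ) {p p' u w : ℂ} {δ : ℝ} (hδ : 0 < δ)
    (h1 : ‖u - p‖ ≤ δ / 8) (h2 : ‖u - p'‖ ≤ δ / 8) (hw : w ∈ ball p δ)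
    (hmap : ∀ x ∈ ball p δ, Γ x ∈ ball p' (δ / 8))
    (hlip : ∀ x ∈ ball p δ, ∀ y ∈ ball p δ, ‖Γ x - Γ y‖ ≤ 1 / 16 * ‖x - y‖) : Att Γ w := by
  have hsub : closedBall u (δ / 2) ⊆ ball p δ := by
    intro x hx
    rw [mem_closedBall, dist_eq_norm] at hx
    rw [mem_ball, dist_eq_norm]
    have := norm_add_le (x - u) (u - p)
    rw [sub_add_sub_cancel] at this
    linarith
  have hin : ∀ x ∈ ball p δ, Γ x ∈ closedBall u (δ / 2) := by
    intro x hx
    have h3 := hmap x hx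
    rw [mem_ball, dist_eq_norm] at h3
    rw [mem_closedBall, dist_eq_norm]
    have := norm_sub_le (Γ x - p') (u - p')
    rw [sub_sub_sub_cancel_right] at this
    linarith
  have hmaps : MapsTo Γ (closedBall u (δ / 2)) (closedBall u (δ / 2)) := fun x hx => hin x (hsub hx)
  have hcon : ContractingWith (1 / 16) (hmaps.restrict Γ _ _) := by
    refine ⟨?_, ?_⟩
    · rw [← NNReal.coe_lt_coe]
      push_cast
      norm_num
    · apply LipschitzWith.of_dist_le_mul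
      rintro ⟨x, hx⟩ ⟨y, hy⟩
      rw [Subtype.dist_eq, Subtype.dist_eq, MapsTo.val_restrict_apply, MapsTo.val_restrict_apply,
        dist_eq_norm, dist_eq_norm]
      have := hlip x (hsub hx) y (hsub hy)
      simpa using this
  obtain ⟨x, hx, hfx, hxt, -⟩ := hcon.exists_fixedPoint' (isClosed_closedBall.isComplete) hmaps
    (hin w hw) (edist_ne_top _ _)
  refine NC.Att.of_image hΓ ⟨1, one_pos, x, hfx, ?_, ?_⟩
  · rw [Function.iterate_one]
    refine lt_of_le_of_lt (norm_deriv_le_of_lip' (C := 1 / 16) (by norm_num) ?_) (by norm_num)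
    filter_upwards [isOpen_ball.mem_nhds (hsub hx)] with y hy
    exact hlip y hy x (hsub hx)
  · refine hxt.congr fun k => ?_
    rw [Nat.one_mul]

theorem Att.of_pow {F : ℂ → ℂ} {r : ℕ} (hr : 0 < r) {w : ℂ} (h : Att (F^[r]) w) : Att F w := by
  obtain ⟨n, hn, x, hx, hd, ht⟩ := h
  refine ⟨r * n, Nat.mul_pos hr hn, x, ?_, ?_, ?_⟩
  · rw [Function.iterate_mul]; exact hx
  · rw [Function.iterate_mul]; exact hd
  · refine ht.congr fun k => ?_
    rw [Nat.mul_assoc, Function.iterate_mul F r (n * k)]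

theorem Att.pow {F : ℂ → ℂ} (hF : Differentiable ℂ F) {r : ℕ} (hr : 0 < r) {w : ℂ} (h : Att F w) :
    Att (F^[r]) w := by
  obtain ⟨n, hn, x, hx, hd, ht⟩ := h
  have e : ∀ m, (F^[r])^[m] = F^[r * m] := fun m => (Function.iterate_mul F r m).symm
  refine ⟨n, hn, x, ?_, ?_, ?_⟩
  · rw [e, Nat.mul_comm, Function.iterate_mul]
    exact Function.iterate_fixed hx r
  · rw [e, Nat.mul_comm, Function.iterate_mul]
    have h1 : HasDerivAt (F^[n]) (deriv (F^[n]) x) x := ((hF.iterate n) x).hasDerivAt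
    have h2 := HasDerivAt.iterate x h1 hx r
    rw [h2.deriv, norm_pow]
    exact pow_lt_one₀ (norm_nonneg _) hd (by omega)
  · have h1 : Tendsto (fun k : ℕ => r * k) atTop atTop :=
      tendsto_id.const_mul_atTop' hr
    refine (ht.comp h1).congr fun k => ?_
    rw [e]
    simp only [Function.comp_apply]
    have e' : n * (r * k) = r * (n * k) := by ring
    rw [e']

/-- Transfer between the compositions `B ∘ A` and `A ∘ B`. -/
theorem Att.transfer {A B : ℂ → ℂ} (hA : Differentiable ℂ A) (hB : Differentiable ℂ B) {z : ℂ}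
    (h : Att (B ∘ A) (B z)) : Att (A ∘ B) z := by
  obtain ⟨n, hn, x, hx, hd, ht⟩ := h
  obtain ⟨n, rfl⟩ : ∃ m, n = m + 1 := ⟨n - 1, by omega⟩
  -- `(B ∘ A)^(n+1) = B ∘ A'` and `(A ∘ B)^(n+1) = A' ∘ B`
  set A' : ℂ → ℂ := A ∘ (B ∘ A)^[n] with hA'
  have hA'd : Differentiable ℂ A' := hA.comp ((hB.comp hA).iterate n)
  have e1 : (B ∘ A)^[n + 1] = B ∘ A' := by
    rw [Function.iterate_succ', hA', Function.comp_assoc]
  have e0 : ∀ m : ℕ, ∀ y, (A ∘ B)^[m] (A y) = A ((B ∘ A)^[m] y) := by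
    intro m
    induction m with
    | zero => intro y; rfl
    | succ m ih =>
      intro y
      rw [Function.iterate_succ_apply, Function.iterate_succ_apply, Function.comp_apply, ih]
      rfl
  have e2 : (A ∘ B)^[n + 1] = A' ∘ B := by
    funext y
    rw [Function.iterate_succ_apply, Function.comp_apply, e0]
    rfl
  rw [e1] at hx hd
  refine ⟨n + 1, hn, A' x, ?_, ?_, ?_⟩
  · rw [e2]
    show A' (B (A' x)) = A' x
    have : B (A' x) = x := hx
    rw [this]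
  · rw [e2]
    have hBx : B (A' x) = x := hx
    rw [deriv_comp _ (hA'd _) (hB _), hBx]
    rw [deriv_comp _ (hB _) (hA'd _)] at hd
    rwa [mul_comm]
  · have h1 : Tendsto (fun k : ℕ => A' ((B ∘ A)^[(n + 1) * k] (B z))) atTop (𝓝 (A' x)) :=
      (hA'd.continuous.tendsto _).comp ht
    rw [← tendsto_add_atTop_iff_nat 1]
    refine h1.congr fun k => ?_
    rw [hA', Function.comp_apply, ← e0, ← e0, ← Function.iterate_add_apply]
    have e3 : A (B z) = (A ∘ B) z := rfl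
    rw [e3, ← Function.iterate_succ_apply]
    have e4 : (n + (n + 1) * k).succ = (n + 1) * (k + 1) := by
      rw [Nat.succ_eq_add_one]; ring
    rw [e4]

section periodic

variable {T : ℕ → ℂ[X]} {τ : ℕ → ℂ} {M : ℕ}

theorem orb_per (hT : ∀ i, T (i + M) = T i) (hτ : ∀ i, τ (i + M) = τ i) (k n : ℕ) (z : ℂ) :
    orb T τ (k + M) n z = orb T τ k n z := by
  induction n with
  | zero => rfl
  | succ n ih =>
    rw [orb_succ, orb_succ, ih]
    have e : k + M + n = k + n + M := by ring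
    rw [e, hT, hτ]

theorem orb_per' (hT : ∀ i, T (i + M) = T i) (hτ : ∀ i, τ (i + M) = τ i) (k n r : ℕ) (z : ℂ) :
    orb T τ (k + r * M) n z = orb T τ k n z := by
  induction r with
  | zero => simp
  | succ r ih =>
    have e : k + (r + 1) * M = k + r * M + M := by ring
    rw [e, orb_per hT hτ, ih]

theorem iter_per (hT : ∀ i, T (i + M) = T i) (hτ : ∀ i, τ (i + M) = τ i) (k r : ℕ) :
    (orb T τ k M)^[r] = orb T τ k (r * M) := by
  induction r with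
  | zero =>
    funext z
    simp [orb_zero]
  | succ r ih =>
    funext z
    rw [Function.iterate_succ_apply', ih, Nat.add_mul, Nat.one_mul, orb_add, orb_per' hT hτ]

/-- Transfer to the phase zero. -/
theorem att_phase (hT : ∀ i, T (i + M) = T i) (hτ : ∀ i, τ (i + M) = τ i) (hM : 0 < M) {k : ℕ}
    {z : ℂ} (h : Att (orb T τ k M) (orb T τ 0 k z)) : Att (orb T τ 0 M) z := by
  have hk : k ≤ (k + 1) * M := by
    have : k * 1 ≤ (k + 1) * M := Nat.mul_le_mul (by omega) hM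
    omega
  have h1 := Att.pow (orb_diff T τ k M) (Nat.succ_pos k) h
  apply Att.of_pow (r := k + 1) (Nat.succ_pos k)
  rw [iter_per hT hτ]
  rw [Nat.succ_eq_add_one, iter_per hT hτ] at h1
  have e1 : orb T τ k ((k + 1) * M) = orb T τ 0 k ∘ orb T τ k ((k + 1) * M - k) := by
    funext y
    rw [Function.comp_apply]
    have e : (k + 1) * M = ((k + 1) * M - k) + k := by omega
    conv_lhs => rw [e, orb_add]
    have e' : k + ((k + 1) * M - k) = 0 + (k + 1) * M := by omega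
    rw [e', orb_per' hT hτ]
  have e2 : orb T τ 0 ((k + 1) * M) = orb T τ k ((k + 1) * M - k) ∘ orb T τ 0 k := by
    funext y
    rw [Function.comp_apply]
    have e : (k + 1) * M = k + ((k + 1) * M - k) := by omega
    conv_lhs => rw [e, orb_add, Nat.zero_add]
  rw [e1] at h1
  rw [e2]
  exact Att.transfer (orb_diff _ _ _ _) (orb_diff _ _ _ _) h1

end periodic

section chain

variable {T : ℕ → ℂ[X]} {τ : ℕ → ℂ} {ℓ M b K N : ℕ} {B : ℕ → ℂ → Prop} {δ R : ℝ} {E : Set ℂ}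

/-- A link between two states. -/
def Link (T : ℕ → ℂ[X]) (τ : ℕ → ℂ) (ℓ : ℕ) (δ : ℝ) (a a' : ℕ × ℂ × ℂ × ℂ) : Prop :=
  ∃ s, 1 ≤ s ∧ a'.1 = a.1 + s * ℓ ∧ a'.2.2.2 = G T τ ℓ a.1 s a.2.2.2 ∧
    (∀ x ∈ ball a.2.1 δ, G T τ ℓ a.1 s x ∈ ball a'.2.1 (δ / 8)) ∧
    ∀ x ∈ ball a.2.1 δ, ∀ y ∈ ball a.2.1 δ,
      ‖G T τ ℓ a.1 s x - G T τ ℓ a.1 s y‖ ≤ 1 / 16 * ‖x - y‖

theorem Link.trans (hδ : 0 < δ) {a b c : ℕ × ℂ × ℂ × ℂ} (h1 : Link T τ ℓ δ a b)
    (h2 : Link T τ ℓ δ b c) : Link T τ ℓ δ a c := by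
  obtain ⟨s, hs, e1, e2, hm, hl⟩ := h1
  obtain ⟨s', hs', e1', e2', hm', hl'⟩ := h2
  have hsub : ∀ x ∈ ball a.2.1 δ, G T τ ℓ a.1 s x ∈ ball b.2.1 δ := fun x hx =>
    ball_subset_ball (by linarith) (hm x hx)
  have e3 : ∀ x, G T τ ℓ a.1 (s + s') x = G T τ ℓ b.1 s' (G T τ ℓ a.1 s x) := by
    intro x
    rw [G_add, e1]
  refine ⟨s + s', by omega, ?_, ?_, ?_, ?_⟩
  · rw [e1', e1]; ring
  · rw [e2', e2, e3]
  · intro x hx
    rw [e3]
    exact hm' _ (hsub x hx)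
  · intro x hx y hy
    rw [e3, e3]
    have h3 := hl' _ (hsub x hx) _ (hsub y hy)
    have h4 := hl x hx y hy
    have h5 := norm_nonneg (x - y)
    linarith

/-- A bounded orbit of a good starting point is attracted. -/
theorem chain (hT : ∀ i, T (i + M) = T i) (hτ : ∀ i, τ (i + M) = τ i) (hM : 0 < M) (hℓ : 0 < ℓ)
    (hB : Blocks T τ ℓ B b δ R) (hN : 2 * (4 + (b + 2) * K) + b ≤ N) (hEf : E.Finite)
    (hE : ∀ z : ℂ, ‖z‖ ≤ R + 1 → ∃ u ∈ E, ‖u - z‖ ≤ δ / 8)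
    (hq : ∀ k, ∀ u ∈ E, ∀ n ≤ N, ‖G T τ ℓ k n u‖ ≤ R + 1 → cnt T τ ℓ B k u n ≤ K)
    {k : ℕ} {c : ℂ} (hc : ∀ n, ‖orb T τ k n c‖ ≤ R)
    (hq' : ∀ n ≤ N, ‖G T τ ℓ k n c‖ ≤ R + 1 → cnt T τ ℓ B k c n ≤ K) :
    ∃ n, Att (orb T τ (k + n) M) (orb T τ k n c) := by
  classical
  have hδ := hB.δpos
  obtain ⟨s₀, u₀, hS₀⟩ := first hB hN hE hc hq'
  set P : ℕ × ℂ × ℂ × ℂ → Prop := fun a =>
    Sta T τ ℓ δ R (N - (4 + (b + 2) * K)) E a.1 a.2.1 a.2.2.1 a.2.2.2 with hP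
  have hnext : ∀ a : {a // P a}, ∃ a' : {a // P a}, Link T τ ℓ δ a.1 a'.1 := by
    rintro ⟨⟨k, p, u, w⟩, ha⟩
    obtain ⟨s, hs, p', u', h1, h2, h3⟩ := next hB hN hE hq ha
    exact ⟨⟨(k + s * ℓ, p', u', G T τ ℓ k s w), h1⟩, s, hs, rfl, rfl, h2, h3⟩
  choose f hf using hnext
  set a₀ : {a // P a} := ⟨(k + s₀ * ℓ, G T τ ℓ k s₀ c, u₀, G T τ ℓ k s₀ c), hS₀⟩ with ha₀
  have hlink : ∀ i d : ℕ, Link T τ ℓ δ (f^[i] a₀).1 (f^[i + (d + 1)] a₀).1 := by
    intro i d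
    induction d with
    | zero =>
      rw [Function.iterate_succ_apply' f i a₀]
      exact hf _
    | succ d ih =>
      refine Link.trans hδ ih ?_
      have e : i + (d + 1 + 1) = i + (d + 1) + 1 := rfl
      rw [e, Function.iterate_succ_apply']
      exact hf _
  -- all states lie on the orbit
  have horb : ∀ i : ℕ, ∃ n, (f^[i] a₀).1.1 = k + n ∧ (f^[i] a₀).1.2.2.2 = orb T τ k n c := by
    intro i
    induction i with
    | zero => exact ⟨s₀ * ℓ, rfl, rfl⟩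
    | succ i ih =>
      obtain ⟨n, h1, h2⟩ := ih
      obtain ⟨s, -, e1, e2, -, -⟩ := hlink i 0
      refine ⟨n + s * ℓ, ?_, ?_⟩
      · have e1' : (f^[i + 1] a₀).1.1 = (f^[i] a₀).1.1 + s * ℓ := e1
        rw [e1', h1]
        ring
      · have e2' : (f^[i + 1] a₀).1.2.2.2 = G T τ ℓ (f^[i] a₀).1.1 s (f^[i] a₀).1.2.2.2 := e2
        rw [e2', h1, h2, orb_add]
        rfl
  -- the pigeonhole principle
  have : Finite E := hEf
  obtain ⟨x, y, hxy, hg⟩ := Finite.exists_ne_map_eq_of_infinite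
    (fun i : ℕ => ((⟨(f^[i] a₀).1.1 % M, Nat.mod_lt _ hM⟩, ⟨(f^[i] a₀).1.2.2.1, (f^[i] a₀).2.mem⟩) :
      Fin M × E))
  have hwlog : ∃ x y : ℕ, x < y ∧ (f^[x] a₀).1.1 % M = (f^[y] a₀).1.1 % M ∧
      (f^[x] a₀).1.2.2.1 = (f^[y] a₀).1.2.2.1 := by
    simp only [Prod.mk.injEq, Fin.mk.injEq, Subtype.mk.injEq] at hg
    rcases lt_or_gt_of_ne hxy with h | h
    · exact ⟨x, y, h, hg.1, hg.2⟩
    · exact ⟨y, x, h, hg.1.symm, hg.2.symm⟩
  obtain ⟨x, y, hxy, hmod, hu⟩ := hwlog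
  obtain ⟨d, rfl⟩ : ∃ d, y = x + (d + 1) := ⟨y - x - 1, by omega⟩
  obtain ⟨s, hs, e1, e2, hm, hl⟩ := hlink x d
  obtain ⟨n, hn1, hn2⟩ := horb x
  have hSx : P (f^[x] a₀).1 := (f^[x] a₀).2
  have hSy : P (f^[x + (d + 1)] a₀).1 := (f^[x + (d + 1)] a₀).2
  have hdvd : M ∣ s * ℓ := by
    have h1 : (f^[x] a₀).1.1 ≤ (f^[x + (d + 1)] a₀).1.1 := by rw [e1]; omega
    have h2 := (Nat.modEq_iff_dvd' h1).1 hmod
    rw [e1, Nat.add_sub_cancel_left] at h2
    exact h2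
  obtain ⟨r, hr⟩ := hdvd
  have hr0 : 0 < r := by
    rcases Nat.eq_zero_or_pos r with h | h
    · rw [h, Nat.mul_zero] at hr
      have : 0 < s * ℓ := Nat.mul_pos hs hℓ
      omega
    · exact h
  have hatt : Att (orb T τ (f^[x] a₀).1.1 (s * ℓ)) (f^[x] a₀).1.2.2.2 := by
    refine att_of_contr (orb_diff _ _ _ _) hδ hSx.near ?_ ?_ hm hl
    · rw [hu]
      exact hSy.near
    · rw [mem_ball, dist_eq_norm]
      linarith [hSx.real]
  refine ⟨n, ?_⟩
  rw [hn1, hn2, hr, Nat.mul_comm M r, ← iter_per hT hτ] at hatt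
  exact Att.of_pow hr0 hatt

end chain

/-- The composition of the maps `T i + τ i`, `i < n`. -/
noncomputable def comps (T : ℕ → ℂ[X]) (τ : ℕ → ℂ) : ℕ → ℂ[X]
  | 0 => X
  | n + 1 => (T n + C (τ n)).comp (comps T τ n)

theorem eval_comps (T : ℕ → ℂ[X]) (τ : ℕ → ℂ) (n : ℕ) (z : ℂ) :
    (comps T τ n).eval z = orb T τ 0 n z := by
  induction n with
  | zero => simp [comps, orb]
  | succ n ih => rw [comps, eval_comp, ih, orb_succ, eval_add, eval_C, Nat.zero_add]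

theorem crit_comps (T : ℕ → ℂ[X]) (τ : ℕ → ℂ) (n : ℕ) {z : ℂ}
    (h : (derivative (comps T τ n)).eval z = 0) :
    ∃ k < n, (derivative (T k)).eval (orb T τ 0 k z) = 0 := by
  induction n with
  | zero => simp [comps] at h
  | succ n ih =>
    rw [comps, derivative_comp, derivative_add, derivative_C, add_zero, eval_mul, eval_comp,
      eval_comps, mul_eq_zero] at h
    rcases h with h | h
    · obtain ⟨k, hk, hk'⟩ := ih h
      exact ⟨k, by omega, hk'⟩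
    · exact ⟨n, by omega, h⟩

/-- The deterministic criterion. -/
theorem criterion {T : ℕ → ℂ[X]} {τ : ℕ → ℂ} {ℓ M b K N : ℕ} {B : ℕ → ℂ → Prop} {δ R ε Λ : ℝ}
    {E : Set ℂ} (hF : Fam T ε R Λ) (hs : ∀ i, ‖τ i‖ < ε)
    (hT : ∀ i, T (i + M) = T i) (hτ : ∀ i, τ (i + M) = τ i) (hM : 0 < M) (hℓ : 0 < ℓ)
    (hB : Blocks T τ ℓ B b δ R) (hN : 2 * (4 + (b + 2) * K) + b ≤ N) (hEf : E.Finite)
    (hE : ∀ z : ℂ, ‖z‖ ≤ R + 1 → ∃ u ∈ E, ‖u - z‖ ≤ δ / 8)
    (hq : ∀ k, ∀ u ∈ E, ∀ n ≤ N, ‖G T τ ℓ k n u‖ ≤ R + 1 → cnt T τ ℓ B k u n ≤ K)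
    (hq' : ∀ k < M, ∀ c : ℂ, (derivative (T k)).eval c = 0 →
      ∀ n ≤ N, ‖G T τ ℓ k n c‖ ≤ R + 1 → cnt T τ ℓ B k c n ≤ K) :
    Hyp (comps T τ M) := by
  intro z hz
  have hfun : (fun w : ℂ => (comps T τ M).eval w) = orb T τ 0 M := by
    funext w
    exact eval_comps T τ M w
  obtain ⟨k, hk, hc⟩ := crit_comps T τ M hz
  by_cases h : ∀ n, ‖orb T τ k n (orb T τ 0 k z)‖ ≤ R
  · right
    obtain ⟨n, hn⟩ := chain hT hτ hM hℓ hB hN hEf hE hq h (hq' k hk _ hc)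
    rw [hfun]
    refine att_phase hT hτ hM (k := k + n) ?_
    rw [orb_add, Nat.zero_add]
    exact hn
  · left
    push Not at h
    obtain ⟨n, hn⟩ := h
    have hR0 : 0 ≤ R := by linarith [hF.one_le]
    refine AD.esc_of (R := R) (k := k + n) hR0 ?_ ?_
    · intro w hw
      rw [eval_comps]
      have h3 := (norm_orb_ge hF hs 0 hw M).2
      have h4 : (2 : ℝ) ^ 1 ≤ 2 ^ M := pow_le_pow_right₀ (by norm_num) hM
      rw [pow_one] at h4
      have h5 : 2 * ‖w‖ ≤ 2 ^ M * ‖w‖ := mul_le_mul_of_nonneg_right h4 (norm_nonneg _)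
      linarith
    · rw [hfun, iter_per hT hτ]
      have e : (k + n) * M = (k + n) + ((k + n) * M - (k + n)) := by
        have : (k + n) * 1 ≤ (k + n) * M := Nat.mul_le_mul_left _ hM
        omega
      rw [e, orb_add, orb_add]
      simp only [Nat.zero_add]
      exact (norm_orb_ge hF hs _ hn _).1

end Pool.Agent.J4.H85.UC
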