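import Mathlib
import Pool.Agent.J4.H85.UC4

/-! Averaging operators along the sequence; the probability to escape from the points which can. -/

set_option autoImplicit false

open Filter Topology Set Metric Polynomial MeasureTheory

namespace Pool.Agent.J4.H85.UC

open Pool.Agent.J4.H85.NC (Law A A_mono measurable_A A_const)

/-- The averaging operators. -/
noncomputable def Aq (T : ℕ → ℂ[X]) (ν : Measure ℂ) (k : ℕ) : ℕ → (ℂ → ENNReal) → ℂ → ENNReal
  | 0, f => f
  | n + 1, f => Aq T ν k n (A (T (k + n)) ν f)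

variable {T : ℕ → ℂ[X]} {ε R Λ : ℝ} {ν : Measure ℂ}

theorem Aq_cons (k n : ℕ) (f : ℂ → ENNReal) :
    Aq T ν k (n + 1) f = A (T k) ν (Aq T ν (k + 1) n f) := by
  induction n generalizing f with
  | zero => rfl
  | succ n ih =>
    rw [Aq, ih, Aq]
    have e : k + (n + 1) = k + 1 + n := by ring
    rw [e]

theorem Aq_add (k m n : ℕ) (f : ℂ → ENNReal) :
    Aq T ν k (m + n) f = Aq T ν k m (Aq T ν (k + m) n f) := by
  induction n generalizing f with
  | zero => rfl
  | succ n ih =>
    rw [← Nat.add_assoc, Aq, ih, Aq, Nat.add_assoc]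

theorem Aq_mono {f g : ℂ → ENNReal} (h : ∀ z, f z ≤ g z) (k n : ℕ) (z : ℂ) :
    Aq T ν k n f z ≤ Aq T ν k n g z := by
  induction n generalizing f g with
  | zero => exact h z
  | succ n ih => exact ih fun z => A_mono h z

theorem measurable_Aq [SFinite ν] {f : ℂ → ENNReal} (hf : Measurable f) (k n : ℕ) :
    Measurable (Aq T ν k n f) := by
  induction n generalizing f with
  | zero => exact hf
  | succ n ih => exact ih (measurable_A hf)

theorem Aq_const [IsProbabilityMeasure ν] (b : ENNReal) (k n : ℕ) :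
    Aq T ν k n (fun _ => b) = fun _ => b := by
  induction n with
  | zero => rfl
  | succ n ih => rw [Aq, A_const, ih]

theorem Aq_addf [SFinite ν] {f g : ℂ → ENNReal} (hf : Measurable f) (k n : ℕ)
    (z : ℂ) : Aq T ν k n (fun z => f z + g z) z = Aq T ν k n f z + Aq T ν k n g z := by
  induction n generalizing f g with
  | zero => rfl
  | succ n ih =>
    have e : A (T (k + n)) ν (fun z => f z + g z) =
        fun z => A (T (k + n)) ν f z + A (T (k + n)) ν g z := by
      funext z
      unfold A
      have hm : Measurable fun s : ℂ => f ((T (k + n)).eval z + s) :=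
        hf.comp (measurable_const.add measurable_id)
      exact lintegral_add_left hm _
    rw [Aq, e, ih (measurable_A hf)]
    rfl

/-- The indicator functions of the outer and of the inner region. -/
noncomputable def far (R : ℝ) : ℂ → ENNReal := {z : ℂ | R + 1 < ‖z‖}.indicator fun _ => 1
noncomputable def near (R : ℝ) : ℂ → ENNReal := {z : ℂ | ‖z‖ ≤ R + 1}.indicator fun _ => 1

theorem measurable_far : Measurable (far R) :=
  measurable_const.indicator (isOpen_lt continuous_const continuous_norm).measurableSet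

theorem measurable_near : Measurable (near R) :=
  measurable_const.indicator (isClosed_le continuous_norm continuous_const).measurableSet

theorem near_add_far (z : ℂ) : near R z + far R z = 1 := by
  unfold near far
  by_cases h : ‖z‖ ≤ R + 1
  · rw [indicator_of_mem (by exact h), indicator_of_notMem (by simpa using h), add_zero]
  · rw [indicator_of_notMem (by exact h), indicator_of_mem (by simpa using h), zero_add]

theorem near_le_one (z : ℂ) : near R z ≤ 1 := by
  rw [← near_add_far (R := R) z]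
  exact le_self_add

theorem far_le_A (hν : Law ε ν) (hT : Fam T ε R Λ) (i : ℕ) (z : ℂ) :
    far R z ≤ A (T i) ν (far R) z := by
  have := hν.prob
  by_cases hz : R + 1 < ‖z‖
  · have h1 : ∀ᵐ s ∂ν, s ∈ ball (0 : ℂ) ε := by
      rw [ae_iff]
      exact hν.supp
    have h2 : A (T i) ν (far R) z = 1 := by
      unfold A
      have h3 : ∀ᵐ s ∂ν, far R ((T i).eval z + s) = 1 := by
        filter_upwards [h1] with s hs
        have h4 := hT.esc i z (by linarith) s (mem_ball_zero_iff.1 hs)
        have h5 : R + 1 < ‖(T i).eval z + s‖ := by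
          have := hT.one_le
          linarith
        unfold far
        rw [indicator_of_mem (by exact h5)]
      rw [lintegral_congr_ae h3]
      simp
    rw [h2]
    unfold far
    rw [indicator_of_mem (by exact hz)]
  · have : far R z = 0 := by
      unfold far
      rw [indicator_of_notMem (by exact hz)]
    rw [this]
    exact zero_le

theorem far_le_Aq (hν : Law ε ν) (hT : Fam T ε R Λ) (k n : ℕ) (z : ℂ) :
    far R z ≤ Aq T ν k n (far R) z := by
  have := hν.prob
  induction n with
  | zero => exact le_rfl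
  | succ n ih =>
    refine ih.trans ?_
    rw [Aq]
    exact Aq_mono (fun z => far_le_A hν hT _ z) k n z

theorem Aq_sum (hν : Law ε ν) (k n : ℕ) (z : ℂ) :
    Aq T ν k n (near R) z + Aq T ν k n (far R) z = 1 := by
  have := hν.prob
  rw [← Aq_addf measurable_near]
  have e : (fun z => near R z + far R z) = fun _ => 1 := funext near_add_far
  rw [e, Aq_const]

theorem Aq_near_far (hν : Law ε ν) (hT : Fam T ε R Λ) (k n : ℕ) {z : ℂ} (hz : R + 1 < ‖z‖) :
    Aq T ν k n (near R) z = 0 := by
  have h1 := Aq_sum (T := T) (R := R) hν k n z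
  have h2 := far_le_Aq hν hT k n z
  have h3 : far R z = 1 := by
    unfold far
    rw [indicator_of_mem (by exact hz)]
  rw [h3] at h2
  have h4 : Aq T ν k n (near R) z + 1 ≤ 1 := by
    calc Aq T ν k n (near R) z + 1 ≤ Aq T ν k n (near R) z + Aq T ν k n (far R) z := by gcongr
      _ = 1 := h1
  have h5 := ENNReal.le_sub_of_add_le_right ENNReal.one_ne_top h4
  simpa using h5

/-- All discs of a fixed radius have uniformly positive measure. -/
theorem exists_c₀ (hε : 0 < ε) (hν : Law ε ν) {r : ℝ} (hr : 0 < r) :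
    ∃ c : ENNReal, c ≠ 0 ∧ ∀ x ∈ closedBall (0 : ℂ) ε, c ≤ ν (ball x r) := by
  refine (isCompact_closedBall (0 : ℂ) ε).induction_on
    (p := fun s => ∃ c : ENNReal, c ≠ 0 ∧ ∀ x ∈ s, c ≤ ν (ball x r)) ?_ ?_ ?_ ?_
  · exact ⟨1, one_ne_zero, fun z hz => absurd hz (notMem_empty z)⟩
  · rintro s t hst ⟨c, hc, h⟩
    exact ⟨c, hc, fun z hz => h z (hst hz)⟩
  · rintro s t ⟨c, hc, h⟩ ⟨c', hc', h'⟩
    refine ⟨min c c', (lt_min (pos_iff_ne_zero.2 hc) (pos_iff_ne_zero.2 hc')).ne', ?_⟩
    rintro z (hz | hz)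
    · exact (min_le_left _ _).trans (h z hz)
    · exact (min_le_right _ _).trans (h' z hz)
  · intro x hx
    rw [← closure_ball (0 : ℂ) hε.ne', Metric.mem_closure_iff] at hx
    obtain ⟨y, hy, hxy⟩ := hx (r / 4) (by linarith)
    refine ⟨ball x (r / 4), mem_nhdsWithin_of_mem_nhds (ball_mem_nhds _ (by linarith)),
      ν (ball y (r / 2)), hν.full y hy _ (by linarith), fun x' hx' => ?_⟩
    apply measure_mono
    apply ball_subset_ball'
    have h1 : dist x' x < r / 4 := hx'
    have h2 := dist_triangle_right y x' x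
    rw [dist_comm] at hxy
    rw [dist_comm] at h1
    have h3 := dist_triangle y x x'
    linarith

/-- The radius for the perturbation of the noise. -/
noncomputable def rad (Λ : ℝ) (ℓ : ℕ) : ℝ := 1 / (2 * (2 * Λ) ^ ℓ)

theorem trial_aux (hT : Fam T ε R Λ) {ℓ : ℕ} {c : ENNReal}
    (hc : ∀ x ∈ closedBall (0 : ℂ) ε, c ≤ ν (ball x (rad Λ ℓ))) {s : ℕ → ℂ} (hs : ∀ i, ‖s i‖ < ε)
    (n : ℕ) (hn : n ≤ ℓ) : ∀ (k : ℕ) (z z' : ℂ),
    (∀ i < n, ‖orb T s k i z‖ ≤ R + 2) → R + 2 < ‖orb T s k n z‖ → ‖z' - z‖ ≤ 1 / (2 * Λ) ^ n →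
    c ^ n ≤ Aq T ν k n (far R) z' := by
  have hΛ := hT.two_le
  induction n with
  | zero =>
    intro k z z' _ h2 h3
    rw [orb_zero] at h2
    rw [pow_zero, div_one] at h3
    have h4 : R + 1 < ‖z'‖ := by
      have := norm_sub_norm_le z z'
      rw [norm_sub_rev] at this
      linarith
    rw [Aq, pow_zero]
    unfold far
    rw [indicator_of_mem (by exact h4)]
  | succ n ih =>
    intro k z z' h1 h2 h3
    rw [Aq_cons]
    unfold A
    have hrad : rad Λ ℓ ≤ 1 / (2 * Λ) ^ n / 2 := by
      unfold rad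
      rw [div_div, mul_comm ((2 * Λ) ^ n) 2]
      apply one_div_le_one_div_of_le (by positivity)
      have : (2 * Λ) ^ n ≤ (2 * Λ) ^ ℓ := pow_le_pow_right₀ (by linarith) (by omega)
      linarith
    have hlow : ∀ s' ∈ ball (s k) (rad Λ ℓ), c ^ n ≤ Aq T ν (k + 1) n (far R) ((T k).eval z' + s') := by
      intro s' hs'
      apply ih (by omega) (k + 1) ((T k).eval z + s k)
      · intro i hi
        rw [← orb_cons]
        exact h1 (i + 1) (by omega)
      · rw [← orb_cons]
        exact h2
      · have hz : ‖z‖ ≤ R + 2 := h1 0 (by omega)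
        have h5 : ‖z'‖ ≤ R + 3 := by
          have h6 := norm_add_le (z' - z) z
          rw [sub_add_cancel] at h6
          have h7 : 1 / (2 * Λ) ^ (n + 1) ≤ 1 := by
            rw [div_le_one (by positivity)]
            exact one_le_pow₀ (by linarith)
          linarith
        have h6 := hT.lip k z' z h5 (by linarith)
        have h7 : Λ * ‖z' - z‖ ≤ 1 / (2 * Λ) ^ n / 2 := by
          calc Λ * ‖z' - z‖ ≤ Λ * (1 / (2 * Λ) ^ (n + 1)) := by gcongr
            _ = 1 / (2 * Λ) ^ n / 2 := by
              rw [pow_succ]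
              field_simp
        rw [mem_ball, dist_eq_norm] at hs'
        have e : (T k).eval z' + s' - ((T k).eval z + s k) =
            ((T k).eval z' - (T k).eval z) + (s' - s k) := by ring
        rw [e]
        refine (norm_add_le _ _).trans ?_
        linarith
    calc c ^ (n + 1) = c ^ n * c := pow_succ c n
      _ ≤ c ^ n * ν (ball (s k) (rad Λ ℓ)) := by
          gcongr
          exact hc _ (mem_closedBall_zero_iff.2 (hs k).le)
      _ = ∫⁻ _s' in ball (s k) (rad Λ ℓ), c ^ n ∂ν := by rw [setLIntegral_const]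
      _ ≤ ∫⁻ s' in ball (s k) (rad Λ ℓ), Aq T ν (k + 1) n (far R) ((T k).eval z' + s') ∂ν :=
          setLIntegral_mono' measurableSet_ball hlow
      _ ≤ _ := setLIntegral_le_lintegral _ _

theorem trial (hT : Fam T ε R Λ) (hν : Law ε ν) {ℓ : ℕ} {c : ENNReal}
    (hc : ∀ x ∈ closedBall (0 : ℂ) ε, c ≤ ν (ball x (rad Λ ℓ))) {k : ℕ} {z : ℂ}
    (hz : z ∉ W T ε R k ℓ) : c ^ ℓ ≤ Aq T ν k ℓ (far R) z := by
  classical
  have hΛ := hT.two_le
  have := hν.prob
  have hc1 : c ≤ 1 := (hc 0 (mem_closedBall_self hT.eps.le)).trans prob_le_one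
  unfold W at hz
  simp only [mem_ofPred_eq] at hz
  push Not at hz
  obtain ⟨s, hs, hex⟩ := hz
  have hex' : ∃ n, n ≤ ℓ ∧ R + 2 < ‖orb T s k n z‖ := hex
  obtain ⟨hn1, hn2⟩ := Nat.find_spec hex'
  set n := Nat.find hex' with hn
  have hmin : ∀ i < n, ‖orb T s k i z‖ ≤ R + 2 := by
    intro i hi
    by_contra hcon
    push Not at hcon
    exact Nat.find_min hex' hi ⟨by omega, hcon⟩
  have h1 := trial_aux (ν := ν) hT hc hs n hn1 k z z hmin hn2 (by
    rw [sub_self, norm_zero]
    positivity)
  have e : ℓ = n + (ℓ - n) := by omega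
  have h2 : Aq T ν k n (far R) z ≤ Aq T ν k ℓ (far R) z := by
    conv_rhs => rw [e, Aq_add]
    exact Aq_mono (fun z => far_le_Aq hν hT _ _ z) k n z
  exact (pow_le_pow_right_of_le_one' hc1 hn1).trans (h1.trans h2)

end Pool.Agent.J4.H85.UC
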