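import Mathlib
import Pool.Agent.J4.H85.UC5

/-! The product measure on the noise vectors: few trials and few bad noises. -/

set_option autoImplicit false

open Filter Topology Set Metric Polynomial MeasureTheory

namespace Pool.Agent.J4.H85.UC

open Pool.Agent.J4.H85.NC (Law A A_mono measurable_A A_const lintegral_update)

/-- The periodic noise with period `M`. -/
def tau {M : ℕ} (hM : 0 < M) (t : Fin M → ℂ) (i : ℕ) : ℂ := t ⟨i % M, Nat.mod_lt _ hM⟩

theorem tau_per {M : ℕ} (hM : 0 < M) (t : Fin M → ℂ) (i : ℕ) : tau hM t (i + M) = tau hM t i := by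
  unfold tau
  simp only [Nat.add_mod_right]

theorem measurable_tau {M : ℕ} (hM : 0 < M) (i : ℕ) : Measurable fun t => tau hM t i :=
  measurable_pi_apply _

theorem mod_ne {M k i j : ℕ} (hij : i < j) (hj : j < i + M) :
    (k + i) % M ≠ (k + j) % M := by
  intro h
  have h1 : i ≡ j [MOD M] := Nat.ModEq.add_left_cancel' k h
  have h2 := (Nat.modEq_iff_dvd' hij.le).1 h1
  have h3 := Nat.le_of_dvd (by omega) h2
  omega

theorem tau_update {M k i j : ℕ} (hM : 0 < M) (hij : i < j) (hj : j < i + M) (t : Fin M → ℂ)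
    (s : ℂ) : tau hM (Function.update t ⟨(k + j) % M, Nat.mod_lt _ hM⟩ s) (k + i) =
      tau hM t (k + i) := by
  unfold tau
  apply Function.update_of_ne
  intro h
  have := congrArg Fin.val h
  exact mod_ne hij hj this

theorem tau_update_self {M j : ℕ} (hM : 0 < M) (t : Fin M → ℂ) (s : ℂ) :
    tau hM (Function.update t ⟨j % M, Nat.mod_lt _ hM⟩ s) j = s := by
  unfold tau
  exact Function.update_self _ _ _

variable {T : ℕ → ℂ[X]} {ε R Λ : ℝ} {ν : Measure ℂ} {M : ℕ} (hM : 0 < M)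

theorem measurable_orb (k : ℕ) (n : ℕ) (z : ℂ) :
    Measurable fun t : Fin M → ℂ => orb T (tau hM t) k n z := by
  induction n with
  | zero => exact measurable_const
  | succ n ih =>
    have : (fun t : Fin M → ℂ => orb T (tau hM t) k (n + 1) z) =
        fun t => (T (k + n)).eval (orb T (tau hM t) k n z) + tau hM t (k + n) := rfl
    rw [this]
    exact ((T (k + n)).continuous.measurable.comp ih).add (measurable_tau hM _)

/-- Fubini along the orbit. -/
theorem peel [IsProbabilityMeasure ν] (k : ℕ) (z : ℂ) (a q : ℕ) (haq : a + q ≤ M)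
    {Ψ : (Fin M → ℂ) → ENNReal} (hΨ : Measurable Ψ)
    (hind : ∀ i, a ≤ i → i < a + q → ∀ t s,
      Ψ (Function.update t ⟨(k + i) % M, Nat.mod_lt _ hM⟩ s) = Ψ t)
    {f : ℂ → ENNReal} (hf : Measurable f) :
    ∫⁻ t, Ψ t * f (orb T (tau hM t) k (a + q) z) ∂(Measure.pi fun _ : Fin M => ν) =
      ∫⁻ t, Ψ t * Aq T ν (k + a) q f (orb T (tau hM t) k a z)
        ∂(Measure.pi fun _ : Fin M => ν) := by
  induction q generalizing f with
  | zero => rfl
  | succ q ih =>
    rw [Aq]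
    rw [← ih (by omega) (fun i hi hi' => hind i hi (by omega)) (measurable_A hf)]
    have hFm : Measurable fun t : Fin M → ℂ => Ψ t * f (orb T (tau hM t) k (a + (q + 1)) z) :=
      hΨ.mul (hf.comp (measurable_orb hM _ _ _))
    rw [lintegral_update ⟨(k + (a + q)) % M, Nat.mod_lt _ hM⟩ hFm]
    apply lintegral_congr
    intro t
    have h1 : ∀ s, Ψ (Function.update t ⟨(k + (a + q)) % M, Nat.mod_lt _ hM⟩ s) *
        f (orb T (tau hM (Function.update t ⟨(k + (a + q)) % M, Nat.mod_lt _ hM⟩ s)) k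
          (a + (q + 1)) z) =
        Ψ t * f ((T (k + (a + q))).eval (orb T (tau hM t) k (a + q) z) + s) := by
      intro s
      rw [hind (a + q) (by omega) (by omega)]
      have e1 : a + (q + 1) = (a + q) + 1 := rfl
      rw [e1, orb_succ]
      have e2 : orb T (tau hM (Function.update t ⟨(k + (a + q)) % M, Nat.mod_lt _ hM⟩ s)) k
          (a + q) z = orb T (tau hM t) k (a + q) z := by
        apply orb_congr
        intro i hi
        exact tau_update hM hi (by omega) t s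
      rw [e2, tau_update_self]
    simp only [h1]
    have hm : Measurable fun s : ℂ =>
        f ((T (k + (a + q))).eval (orb T (tau hM t) k (a + q) z) + s) :=
      hf.comp (measurable_const.add measurable_id)
    rw [lintegral_const_mul _ hm]
    have e3 : k + a + q = k + (a + q) := by ring
    rw [e3]
    rfl

/-- Independence of disjoint groups of noises. -/
theorem peel_noise [IsProbabilityMeasure ν] (k : ℕ) (a q : ℕ) (haq : a + q ≤ M)
    {Ψ : (Fin M → ℂ) → ENNReal} (hΨ : Measurable Ψ)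
    (hind : ∀ i, a ≤ i → i < a + q → ∀ t s,
      Ψ (Function.update t ⟨(k + i) % M, Nat.mod_lt _ hM⟩ s) = Ψ t)
    {φ : ℂ → ENNReal} (hφ : Measurable φ) :
    ∫⁻ t, Ψ t * ∏ i ∈ Finset.range q, φ (tau hM t (k + (a + i)))
        ∂(Measure.pi fun _ : Fin M => ν) =
      (∫⁻ t, Ψ t ∂(Measure.pi fun _ : Fin M => ν)) * (∫⁻ s, φ s ∂ν) ^ q := by
  induction q with
  | zero => simp
  | succ q ih =>
    have hpm : Measurable fun t : Fin M → ℂ =>
        ∏ i ∈ Finset.range (q + 1), φ (tau hM t (k + (a + i))) :=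
      Finset.measurable_fun_prod _ fun i _ => hφ.comp (measurable_tau hM _)
    have hpm' : Measurable fun t : Fin M → ℂ =>
        ∏ i ∈ Finset.range q, φ (tau hM t (k + (a + i))) :=
      Finset.measurable_fun_prod _ fun i _ => hφ.comp (measurable_tau hM _)
    have hFm : Measurable fun t : Fin M → ℂ =>
        Ψ t * ∏ i ∈ Finset.range (q + 1), φ (tau hM t (k + (a + i))) := hΨ.mul hpm
    rw [lintegral_update ⟨(k + (a + q)) % M, Nat.mod_lt _ hM⟩ hFm]
    have h1 : ∀ t s, (Ψ (Function.update t ⟨(k + (a + q)) % M, Nat.mod_lt _ hM⟩ s) *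
        ∏ i ∈ Finset.range (q + 1), φ (tau hM
          (Function.update t ⟨(k + (a + q)) % M, Nat.mod_lt _ hM⟩ s) (k + (a + i)))) =
        (Ψ t * ∏ i ∈ Finset.range q, φ (tau hM t (k + (a + i)))) * φ s := by
      intro t s
      rw [hind (a + q) (by omega) (by omega), Finset.prod_range_succ, tau_update_self, ← mul_assoc]
      congr 2
      apply Finset.prod_congr rfl
      intro i hi
      rw [Finset.mem_range] at hi
      rw [tau_update hM (by omega) (by omega)]
    simp only [h1]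
    have h2 : ∀ t : Fin M → ℂ, ∫⁻ s, (Ψ t * ∏ i ∈ Finset.range q, φ (tau hM t (k + (a + i)))) * φ s ∂ν =
        (Ψ t * ∏ i ∈ Finset.range q, φ (tau hM t (k + (a + i)))) * ∫⁻ s, φ s ∂ν := fun t =>
      lintegral_const_mul _ hφ
    simp only [h2]
    have hFm' : Measurable fun t : Fin M → ℂ =>
        Ψ t * ∏ i ∈ Finset.range q, φ (tau hM t (k + (a + i))) := hΨ.mul hpm'
    rw [lintegral_mul_const _ hFm', ih (by omega) (fun i hi hi' => hind i hi (by omega)),
      pow_succ, mul_assoc]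

section trials

open Classical in
/-- The weight of the trials. -/
noncomputable def omg (T : ℕ → ℂ[X]) (ε R : ℝ) (ℓ : ℕ) (x : ENNReal) (k : ℕ) (z : ℂ) : ENNReal :=
  if z ∈ W T ε R k ℓ then 1 else x

theorem measurable_omg (ℓ : ℕ) (x : ENNReal) (k : ℕ) : Measurable (omg T ε R ℓ x k) := by
  unfold omg
  exact Measurable.ite (W_closed k ℓ).measurableSet measurable_const measurable_const

/-- The trials. -/
def BW (T : ℕ → ℂ[X]) (ε R : ℝ) (ℓ : ℕ) (k : ℕ) (z : ℂ) : Prop := z ∉ W T ε R k ℓ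

theorem pow_cnt_succ (τ : ℕ → ℂ) (ℓ : ℕ) (x : ENNReal) (k : ℕ) (z : ℂ) (n : ℕ) :
    x ^ cnt T τ ℓ (BW T ε R ℓ) k z (n + 1) =
      x ^ cnt T τ ℓ (BW T ε R ℓ) k z n * omg T ε R ℓ x (k + n * ℓ) (G T τ ℓ k n z) := by
  classical
  rw [cnt_succ, pow_add]
  congr 1
  unfold omg BW
  by_cases h : G T τ ℓ k n z ∈ W T ε R (k + n * ℓ) ℓ
  · simp [h]
  · simp [h]

theorem measurable_pow_cnt (ℓ : ℕ) (x : ENNReal) (k : ℕ) (z : ℂ) (n : ℕ) :
    Measurable fun t : Fin M → ℂ => x ^ cnt T (tau hM t) ℓ (BW T ε R ℓ) k z n := by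
  induction n with
  | zero =>
    simp only [cnt]
    exact measurable_const
  | succ n ih =>
    simp only [pow_cnt_succ]
    exact ih.mul ((measurable_omg ℓ x _).comp (measurable_orb hM _ _ _))

theorem cnt_congr {τ τ' : ℕ → ℂ} {ℓ : ℕ} {B : ℕ → ℂ → Prop} {k : ℕ} {z : ℂ} {n : ℕ}
    (h : ∀ i < n * ℓ, τ (k + i) = τ' (k + i)) :
    cnt T τ ℓ B k z n = cnt T τ' ℓ B k z n := by
  classical
  induction n with
  | zero => rfl
  | succ n ih =>
    have h1 : n * ℓ ≤ (n + 1) * ℓ := Nat.mul_le_mul_right _ (by omega)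
    have h2 : G T τ ℓ k n z = G T τ' ℓ k n z := orb_congr T (fun i hi => h i (by omega)) z
    rw [cnt_succ, cnt_succ, ih (fun i hi => h i (by omega)), h2]

theorem cnt_congr' {τ τ' : ℕ → ℂ} {ℓ : ℕ} {B : ℕ → ℂ → Prop} {k : ℕ} {z : ℂ} {n : ℕ}
    (h : ∀ i < n * ℓ, τ (k + i) = τ' (k + i)) :
    cnt T τ ℓ B k z (n + 1) = cnt T τ' ℓ B k z (n + 1) := by
  classical
  have h2 : G T τ ℓ k n z = G T τ' ℓ k n z := orb_congr T h z
  rw [cnt_succ, cnt_succ, cnt_congr h, h2]

/-- One block. -/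
theorem block_le (hT : Fam T ε R Λ) (hν : Law ε ν) {ℓ : ℕ} {θ : ENNReal} (hθ0 : θ ≠ 0)
    (hθt : θ ≠ ⊤)
    (hθ : ∀ k z, z ∉ W T ε R k ℓ → Aq T ν k ℓ (near R) z ≤ θ) (k : ℕ) (z : ℂ) :
    omg T ε R ℓ θ⁻¹ k z * Aq T ν k ℓ (near R) z ≤ near R z := by
  have := hν.prob
  by_cases hz : R + 1 < ‖z‖
  · rw [Aq_near_far hν hT k ℓ hz, mul_zero]
    exact zero_le
  · have h1 : near R z = 1 := by
      unfold near
      rw [indicator_of_mem (by simpa using hz)]
    rw [h1]
    unfold omg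
    by_cases hW : z ∈ W T ε R k ℓ
    · rw [if_pos hW, one_mul]
      have := Aq_mono (T := T) (ν := ν) (fun z => near_le_one (R := R) z) k ℓ z
      rwa [Aq_const] at this
    · rw [if_neg hW]
      calc θ⁻¹ * Aq T ν k ℓ (near R) z ≤ θ⁻¹ * θ := by
            gcongr
            exact hθ k z hW
        _ = 1 := ENNReal.inv_mul_cancel hθ0 hθt

theorem trials_int (hT : Fam T ε R Λ) (hν : Law ε ν) {ℓ : ℕ} {θ : ENNReal} (hθ0 : θ ≠ 0)
    (hθt : θ ≠ ⊤)
    (hθ : ∀ k z, z ∉ W T ε R k ℓ → Aq T ν k ℓ (near R) z ≤ θ) (k : ℕ) (z : ℂ) (n : ℕ)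
    (hn : n * ℓ ≤ M) :
    ∫⁻ t, θ⁻¹ ^ cnt T (tau hM t) ℓ (BW T ε R ℓ) k z n * near R (G T (tau hM t) ℓ k n z)
      ∂(Measure.pi fun _ : Fin M => ν) ≤ 1 := by
  have := hν.prob
  induction n with
  | zero =>
    simp only [cnt, pow_zero, one_mul]
    refine (lintegral_mono fun t => near_le_one _).trans ?_
    simp
  | succ n ih =>
    have h1 : n * ℓ + ℓ = (n + 1) * ℓ := by ring
    have hpeel := peel (T := T) (ν := ν) hM k z (n * ℓ) ℓ (by omega)
      (Ψ := fun t => θ⁻¹ ^ cnt T (tau hM t) ℓ (BW T ε R ℓ) k z (n + 1))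
      (measurable_pow_cnt hM ℓ _ k z (n + 1)) ?_ (measurable_near (R := R))
    · have e1 : ∀ t : Fin M → ℂ, G T (tau hM t) ℓ k (n + 1) z =
          orb T (tau hM t) k (n * ℓ + ℓ) z := by
        intro t
        unfold G
        rw [h1]
      simp only [e1]
      rw [hpeel]
      refine le_trans (lintegral_mono fun t => ?_) (ih (by omega))
      rw [pow_cnt_succ, mul_assoc]
      gcongr
      exact block_le hT hν hθ0 hθt hθ _ _
    · intro i hi hi' t s
      have h2 := cnt_congr' (T := T) (ℓ := ℓ) (B := BW T ε R ℓ) (k := k) (z := z) (n := n)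
        (τ := tau hM (Function.update t ⟨(k + i) % M, Nat.mod_lt _ hM⟩ s)) (τ' := tau hM t)
        (fun j hj => tau_update hM (by omega) (by omega) t s)
      simp only [h2]

end trials

end Pool.Agent.J4.H85.UC
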