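import Mathlib
import Pool.Agent.J4.H85.UC6

/-! Exponential bounds for the number of the trials and for the number of the bad noises. -/

set_option autoImplicit false

open Filter Topology Set Metric Polynomial MeasureTheory

namespace Pool.Agent.J4.H85.UC

open Pool.Agent.J4.H85.NC (Law A A_mono measurable_A A_const lintegral_update)

variable {T : ℕ → ℂ[X]} {ε R Λ : ℝ} {ν : Measure ℂ} {M : ℕ} (hM : 0 < M)

theorem trials_prob (hT : Fam T ε R Λ) (hν : Law ε ν) {ℓ : ℕ} {θ : ENNReal} (hθ0 : θ ≠ 0)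
    (hθ1 : θ ≤ 1)
    (hθ : ∀ k z, z ∉ W T ε R k ℓ → Aq T ν k ℓ (near R) z ≤ θ) (k : ℕ) (z : ℂ) (n : ℕ)
    (hn : n * ℓ ≤ M) (K : ℕ) :
    (Measure.pi fun _ : Fin M => ν) {t | ‖G T (tau hM t) ℓ k n z‖ ≤ R + 1 ∧
      K ≤ cnt T (tau hM t) ℓ (BW T ε R ℓ) k z n} ≤ θ ^ K := by
  have := hν.prob
  have hθt : θ ≠ ⊤ := ne_top_of_le_ne_top ENNReal.one_ne_top hθ1
  have h1 := trials_int hM hT hν hθ0 hθt hθ k z n hn
  have hm : Measurable fun t : Fin M → ℂ =>
      θ⁻¹ ^ cnt T (tau hM t) ℓ (BW T ε R ℓ) k z n * near R (G T (tau hM t) ℓ k n z) :=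
    (measurable_pow_cnt hM ℓ _ k z n).mul (measurable_near.comp (measurable_orb hM _ _ _))
  have h2 := (mul_meas_ge_le_lintegral (μ := Measure.pi fun _ : Fin M => ν) hm (θ⁻¹ ^ K)).trans h1
  rw [mul_comm] at h2
  have h3 := ENNReal.le_inv_iff_mul_le.2 h2
  have e : (θ⁻¹ ^ K)⁻¹ = θ ^ K := by rw [← ENNReal.inv_pow, inv_inv]
  refine (measure_mono ?_).trans (h3.trans_eq e)
  rintro t ⟨ht1, ht2⟩
  show θ⁻¹ ^ K ≤ θ⁻¹ ^ cnt T (tau hM t) ℓ (BW T ε R ℓ) k z n * near R (G T (tau hM t) ℓ k n z)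
  have h4 : near R (G T (tau hM t) ℓ k n z) = 1 := by
    unfold near
    rw [indicator_of_mem (by exact ht1)]
  rw [h4, mul_one]
  exact pow_le_pow_right₀ (ENNReal.one_le_inv.2 hθ1) ht2

/-- No small noise in the piece `A`. -/
def Emp (ε : ℝ) (h₀ : ℕ) (τ : ℕ → ℂ) (k A : ℕ) : Prop := ∀ i < h₀, ε / 2 < ‖τ (k + (A * h₀ + i))‖

open Classical in
/-- The number of the pieces without small noise. -/
noncomputable def cntE (ε : ℝ) (h₀ : ℕ) (τ : ℕ → ℂ) (k : ℕ) : ℕ → ℕ
  | 0 => 0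
  | n + 1 => cntE ε h₀ τ k n + if Emp ε h₀ τ k n then 1 else 0

theorem cntE_mono (h₀ : ℕ) (τ : ℕ → ℂ) (k : ℕ) : Monotone (cntE ε h₀ τ k) :=
  monotone_nat_of_le_succ fun n => by rw [cntE]; omega

theorem Emp_congr {h₀ : ℕ} {τ τ' : ℕ → ℂ} {k A : ℕ}
    (h : ∀ i < (A + 1) * h₀, τ (k + i) = τ' (k + i)) : Emp ε h₀ τ k A ↔ Emp ε h₀ τ' k A := by
  unfold Emp
  refine forall₂_congr fun i hi => ?_
  rw [h]
  have : (A + 1) * h₀ = A * h₀ + h₀ := by ring
  omega

theorem cntE_congr {h₀ : ℕ} {τ τ' : ℕ → ℂ} {k n : ℕ}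
    (h : ∀ i < n * h₀, τ (k + i) = τ' (k + i)) : cntE ε h₀ τ k n = cntE ε h₀ τ' k n := by
  classical
  induction n with
  | zero => rfl
  | succ n ih =>
    have h1 : n * h₀ ≤ (n + 1) * h₀ := Nat.mul_le_mul_right _ (by omega)
    rw [cntE, cntE, ih (fun i hi => h i (by omega))]
    congr 1
    simp only [Emp_congr h]

/-- the indicator function of the large noises -/
noncomputable def phi (ε : ℝ) : ℂ → ENNReal := {s : ℂ | ε / 2 < ‖s‖}.indicator fun _ => 1

theorem measurableSet_large : MeasurableSet {s : ℂ | ε / 2 < ‖s‖} :=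
  (isOpen_lt continuous_const continuous_norm).measurableSet

theorem measurable_phi : Measurable (phi ε) := measurable_const.indicator measurableSet_large

theorem prod_phi {h₀ : ℕ} {τ : ℕ → ℂ} {k A : ℕ} (h : Emp ε h₀ τ k A) :
    ∏ i ∈ Finset.range h₀, phi ε (τ (k + (A * h₀ + i))) = 1 := by
  apply Finset.prod_eq_one
  intro i hi
  rw [Finset.mem_range] at hi
  unfold phi
  rw [indicator_of_mem (by exact h i hi)]

theorem measurable_cntE (h₀ k n : ℕ) :
    Measurable fun t : Fin M → ℂ => (4 : ENNReal) ^ cntE ε h₀ (tau hM t) k n := by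
  classical
  induction n with
  | zero =>
    simp only [cntE]
    exact measurable_const
  | succ n ih =>
    have h1 : (fun t : Fin M → ℂ => (4 : ENNReal) ^ cntE ε h₀ (tau hM t) k (n + 1)) =
        fun t => 4 ^ cntE ε h₀ (tau hM t) k n *
          if (∀ i ∈ Finset.range h₀, ε / 2 < ‖tau hM t (k + (n * h₀ + i))‖) then 4 else 1 := by
      funext t
      rw [cntE, pow_add]
      congr 1
      have : Emp ε h₀ (tau hM t) k n ↔
          ∀ i ∈ Finset.range h₀, ε / 2 < ‖tau hM t (k + (n * h₀ + i))‖ := by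
        simp [Emp, Finset.mem_range]
      by_cases h : Emp ε h₀ (tau hM t) k n
      · rw [if_pos h, if_pos (this.1 h), pow_one]
      · rw [if_neg h, if_neg (fun h' => h (this.2 h')), pow_zero]
    rw [h1]
    refine ih.mul (Measurable.ite ?_ measurable_const measurable_const)
    have e : {t : Fin M → ℂ | ∀ i ∈ Finset.range h₀, ε / 2 < ‖tau hM t (k + (n * h₀ + i))‖} =
        ⋂ i ∈ Finset.range h₀, {t : Fin M → ℂ | ε / 2 < ‖tau hM t (k + (n * h₀ + i))‖} := by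
      ext t
      simp only [mem_ofPred_eq, mem_iInter]
    rw [e]
    refine Finset.measurableSet_biInter _ fun i _ => ?_
    exact (measurable_tau hM _) measurableSet_large

theorem noise_int (hν : Law ε ν) (h₀ k n : ℕ) (hn : n * h₀ ≤ M) :
    ∫⁻ t, (4 : ENNReal) ^ cntE ε h₀ (tau hM t) k n ∂(Measure.pi fun _ : Fin M => ν) ≤
      (1 + 4 * ν {s : ℂ | ε / 2 < ‖s‖} ^ h₀) ^ n := by
  classical
  have := hν.prob
  induction n with
  | zero => simp [cntE]
  | succ n ih =>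
    have h1 : n * h₀ + h₀ = (n + 1) * h₀ := by ring
    have hpt : ∀ t : Fin M → ℂ, (4 : ENNReal) ^ cntE ε h₀ (tau hM t) k (n + 1) ≤
        4 ^ cntE ε h₀ (tau hM t) k n + 4 * (4 ^ cntE ε h₀ (tau hM t) k n *
          ∏ i ∈ Finset.range h₀, phi ε (tau hM t (k + (n * h₀ + i)))) := by
      intro t
      rw [cntE, pow_add]
      by_cases h : Emp ε h₀ (tau hM t) k n
      · rw [if_pos h, prod_phi h, pow_one, mul_one, mul_comm (4 : ENNReal)]
        exact le_add_self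
      · rw [if_neg h, pow_zero, mul_one]
        exact le_self_add
    have hm := measurable_cntE (ε := ε) hM h₀ k n
    have hm2 : Measurable fun t : Fin M → ℂ => (4 : ENNReal) ^ cntE ε h₀ (tau hM t) k n *
          ∏ i ∈ Finset.range h₀, phi ε (tau hM t (k + (n * h₀ + i))) :=
      hm.mul (Finset.measurable_fun_prod _ fun i _ => measurable_phi.comp (measurable_tau hM _))
    refine (lintegral_mono hpt).trans ?_
    rw [lintegral_add_left hm, lintegral_const_mul _ hm2,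
      peel_noise hM k (n * h₀) h₀ (by omega) hm ?_ measurable_phi]
    · have h2 : ∫⁻ s, phi ε s ∂ν = ν {s : ℂ | ε / 2 < ‖s‖} := by
        unfold phi
        rw [lintegral_indicator_const measurableSet_large, one_mul]
      rw [h2, pow_succ]
      have h3 := ih (by omega)
      calc (∫⁻ t, (4 : ENNReal) ^ cntE ε h₀ (tau hM t) k n ∂(Measure.pi fun _ : Fin M => ν)) +
            4 * ((∫⁻ t, (4 : ENNReal) ^ cntE ε h₀ (tau hM t) k n
              ∂(Measure.pi fun _ : Fin M => ν)) * ν {s : ℂ | ε / 2 < ‖s‖} ^ h₀)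
          = (∫⁻ t, (4 : ENNReal) ^ cntE ε h₀ (tau hM t) k n ∂(Measure.pi fun _ : Fin M => ν)) *
            (1 + 4 * ν {s : ℂ | ε / 2 < ‖s‖} ^ h₀) := by ring
        _ ≤ _ := by gcongr
    · intro i hi hi' t s
      have h2 := cntE_congr (ε := ε) (h₀ := h₀) (k := k) (n := n)
        (τ := tau hM (Function.update t ⟨(k + i) % M, Nat.mod_lt _ hM⟩ s)) (τ' := tau hM t)
        (fun j hj => tau_update hM (by omega) (by omega) t s)
      simp only [h2]

theorem noise_prob (hν : Law ε ν) (h₀ k n : ℕ) (hn : n * h₀ ≤ M) (K : ℕ) :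
    (Measure.pi fun _ : Fin M => ν) {t | K ≤ cntE ε h₀ (tau hM t) k n} ≤
      (1 + 4 * ν {s : ℂ | ε / 2 < ‖s‖} ^ h₀) ^ n * (4⁻¹ : ENNReal) ^ K := by
  have h1 := noise_int hM hν h₀ k n hn
  have h2 := (mul_meas_ge_le_lintegral (μ := Measure.pi fun _ : Fin M => ν)
    (measurable_cntE (ε := ε) hM h₀ k n) (4 ^ K)).trans h1
  have h40 : (4 : ENNReal) ^ K ≠ 0 := pow_ne_zero _ (by norm_num)
  have h4t : (4 : ENNReal) ^ K ≠ ⊤ := ENNReal.pow_ne_top (by norm_num)
  have h3 : (Measure.pi fun _ : Fin M => ν)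
      {t | (4 : ENNReal) ^ K ≤ 4 ^ cntE ε h₀ (tau hM t) k n} ≤
      (1 + 4 * ν {s : ℂ | ε / 2 < ‖s‖} ^ h₀) ^ n / 4 ^ K := by
    rw [ENNReal.le_div_iff_mul_le (Or.inl h40) (Or.inl h4t), mul_comm]
    exact h2
  rw [← ENNReal.inv_pow, ← div_eq_mul_inv]
  refine (measure_mono ?_).trans h3
  intro t ht
  have ht' : K ≤ cntE ε h₀ (tau hM t) k n := ht
  show (4 : ENNReal) ^ K ≤ 4 ^ cntE ε h₀ (tau hM t) k n
  exact pow_le_pow_right₀ (by norm_num) ht'

/-- The number of the blocks with bad noise. -/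
theorem cntBN_le {h₀ m₁ : ℕ} {τ : ℕ → ℂ} {k : ℕ} {z : ℂ} (n : ℕ) :
    cnt T τ ((m₁ + 1) * h₀) (fun k _ => ¬ GoodNoise ε h₀ m₁ τ k) k z n ≤
      cntE ε h₀ τ k (n * (m₁ + 1)) := by
  classical
  induction n with
  | zero => simp [cnt]
  | succ n ih =>
    rw [cnt_succ]
    by_cases h : GoodNoise ε h₀ m₁ τ (k + n * ((m₁ + 1) * h₀))
    · rw [if_neg (not_not.2 h), Nat.add_zero]
      refine ih.trans (cntE_mono h₀ τ k ?_)
      exact Nat.mul_le_mul_right _ (by omega)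
    · rw [if_pos h]
      unfold GoodNoise at h
      push Not at h
      obtain ⟨a, ha, hemp⟩ := h
      have h1 : Emp ε h₀ τ k (n * (m₁ + 1) + a) := by
        intro i hi
        have h2 := hemp i hi
        have e : k + ((n * (m₁ + 1) + a) * h₀ + i) =
            k + n * ((m₁ + 1) * h₀) + (a * h₀ + i) := by ring
        rw [e]
        exact h2
      have h2 : cntE ε h₀ τ k (n * (m₁ + 1) + a + 1) = cntE ε h₀ τ k (n * (m₁ + 1) + a) + 1 := by
        rw [cntE, if_pos h1]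
      have h3 : cntE ε h₀ τ k (n * (m₁ + 1)) ≤ cntE ε h₀ τ k (n * (m₁ + 1) + a) :=
        cntE_mono h₀ τ k (by omega)
      have h4 : cntE ε h₀ τ k (n * (m₁ + 1) + a + 1) ≤ cntE ε h₀ τ k ((n + 1) * (m₁ + 1)) := by
        apply cntE_mono h₀ τ k
        have : (n + 1) * (m₁ + 1) = n * (m₁ + 1) + (m₁ + 1) := by ring
        omega
      omega

theorem cnt_or {τ : ℕ → ℂ} {ℓ : ℕ} (B B' : ℕ → ℂ → Prop) (k : ℕ) (z : ℂ) (n : ℕ) :
    cnt T τ ℓ (fun k z => B k z ∨ B' k z) k z n ≤ cnt T τ ℓ B k z n + cnt T τ ℓ B' k z n := by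
  classical
  induction n with
  | zero => simp [cnt]
  | succ n ih =>
    rw [cnt_succ, cnt_succ, cnt_succ]
    by_cases h : B (k + n * ℓ) (G T τ ℓ k n z) <;> by_cases h' : B' (k + n * ℓ) (G T τ ℓ k n z) <;>
      simp only [h, h', if_true, if_false, or_true, or_false] <;> omega

/-- Periodicity. -/
theorem orb_shift (τ : ℕ → ℂ) (hT : ∀ i, T (i + M) = T i) (k n : ℕ) (z : ℂ) :
    orb T τ (k + M) n z = orb T (fun i => τ (i + M)) k n z := by
  induction n with
  | zero => rfl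
  | succ n ih =>
    rw [orb_succ, orb_succ, ih]
    have e : k + M + n = k + n + M := by ring
    rw [e, hT]

theorem W_per (hT : ∀ i, T (i + M) = T i) (k q : ℕ) : W T ε R (k + M) q = W T ε R k q := by
  ext z
  constructor
  · intro hz τ hτ n hn
    have h1 := hz (fun i => τ (i - M)) (fun i => hτ _) n hn
    rw [orb_shift _ hT] at h1
    simpa only [Nat.add_sub_cancel] using h1
  · intro hz τ hτ n hn
    rw [orb_shift _ hT]
    exact hz _ (fun i => hτ _) n hn

theorem cnt_per {τ : ℕ → ℂ} {ℓ : ℕ} {B : ℕ → ℂ → Prop} (hT : ∀ i, T (i + M) = T i)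
    (hτ : ∀ i, τ (i + M) = τ i) (hB : ∀ k z, B (k + M) z ↔ B k z) (k : ℕ) (z : ℂ) (n : ℕ) :
    cnt T τ ℓ B (k + M) z n = cnt T τ ℓ B k z n := by
  classical
  induction n with
  | zero => rfl
  | succ n ih =>
    rw [cnt_succ, cnt_succ, ih]
    have e : k + M + n * ℓ = k + n * ℓ + M := by ring
    have h1 : G T τ ℓ (k + M) n z = G T τ ℓ k n z := orb_per hT hτ _ _ _
    rw [h1, e]
    simp only [hB]

end Pool.Agent.J4.H85.UC
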