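import Mathlib
import Pool.Agent.J4.H85.UC7

/-! Uniform constants for bounded families; choice of the block lengths. -/

set_option autoImplicit false

open Filter Topology Set Metric Polynomial MeasureTheory

namespace Pool.Agent.J4.H85.UC

open Pool.Agent.J4.H85.NC (Law A A_mono measurable_A A_const lintegral_update)

/-- Polynomials of degree between `2` and `D` with coefficients of modulus at most `a` and leading
coefficient of modulus at least `1 / a`. -/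
def Cls (D : ℕ) (a : ℝ) (P : ℂ[X]) : Prop :=
  2 ≤ P.natDegree ∧ P.natDegree ≤ D ∧ (∀ i, ‖P.coeff i‖ ≤ a) ∧ 1 / a ≤ ‖P.leadingCoeff‖

theorem pow_sub_le {u v : ℂ} {ρ : ℝ} (hρ : 1 ≤ ρ) (hu : ‖u‖ ≤ ρ) (hv : ‖v‖ ≤ ρ) (i : ℕ) :
    ‖u ^ i - v ^ i‖ ≤ i * ρ ^ i * ‖u - v‖ := by
  induction i with
  | zero => simp
  | succ i ih =>
    have e : u ^ (i + 1) - v ^ (i + 1) = u * (u ^ i - v ^ i) + (u - v) * v ^ i := by ring
    rw [e]
    refine (norm_add_le _ _).trans ?_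
    rw [norm_mul, norm_mul, norm_pow]
    have h1 : ‖u‖ * ‖u ^ i - v ^ i‖ ≤ ρ * (i * ρ ^ i * ‖u - v‖) :=
      mul_le_mul hu ih (norm_nonneg _) (by linarith)
    have h2 : ‖v‖ ^ i ≤ ρ ^ i := pow_le_pow_left₀ (norm_nonneg _) hv i
    have h3 : ρ ^ i ≤ ρ ^ (i + 1) := pow_le_pow_right₀ hρ (by omega)
    have h4 : ‖u - v‖ * ‖v‖ ^ i ≤ ‖u - v‖ * ρ ^ (i + 1) := by
      gcongr
      exact h2.trans h3
    push_cast
    calc ‖u‖ * ‖u ^ i - v ^ i‖ + ‖u - v‖ * ‖v‖ ^ i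
        ≤ ρ * (i * ρ ^ i * ‖u - v‖) + ‖u - v‖ * ρ ^ (i + 1) := add_le_add h1 h4
      _ = ((i : ℝ) + 1) * ρ ^ (i + 1) * ‖u - v‖ := by ring

theorem lip_cls {D : ℕ} {a : ℝ} (ha : 1 ≤ a) {P : ℂ[X]} (hP : Cls D a P) {ρ : ℝ} (hρ : 1 ≤ ρ)
    {u v : ℂ} (hu : ‖u‖ ≤ ρ) (hv : ‖v‖ ≤ ρ) :
    ‖P.eval u - P.eval v‖ ≤ ((D : ℝ) + 1) * (a * (D * ρ ^ D)) * ‖u - v‖ := by
  obtain ⟨-, h2, h3, -⟩ := hP
  rw [eval_eq_sum_range' (Nat.lt_succ_iff.2 h2), eval_eq_sum_range' (Nat.lt_succ_iff.2 h2),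
    ← Finset.sum_sub_distrib]
  refine (norm_sum_le _ _).trans ?_
  have h4 : ∀ i ∈ Finset.range D.succ, ‖P.coeff i * u ^ i - P.coeff i * v ^ i‖ ≤
      a * (D * ρ ^ D) * ‖u - v‖ := by
    intro i hi
    rw [Finset.mem_range, Nat.lt_succ_iff] at hi
    rw [← mul_sub, norm_mul]
    have h5 := pow_sub_le hρ hu hv i
    have h6 : (i : ℝ) * ρ ^ i ≤ D * ρ ^ D := by
      apply mul_le_mul (by exact_mod_cast hi) (pow_le_pow_right₀ hρ hi) (by positivity)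
        (Nat.cast_nonneg _)
    calc ‖P.coeff i‖ * ‖u ^ i - v ^ i‖ ≤ a * (i * ρ ^ i * ‖u - v‖) :=
          mul_le_mul (h3 i) h5 (norm_nonneg _) (by linarith)
      _ ≤ a * (D * ρ ^ D * ‖u - v‖) := by gcongr
      _ = a * (D * ρ ^ D) * ‖u - v‖ := by ring
  refine (Finset.sum_le_sum h4).trans ?_
  rw [Finset.sum_const, Finset.card_range, nsmul_eq_mul]
  push_cast
  apply le_of_eq
  ring

theorem one_le_rad (D : ℕ) {a ε : ℝ} (ha : 1 ≤ a) (hε : 0 < ε) : 1 ≤ a * (D * a + 2 + ε) := by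
  have hD0 : (0 : ℝ) ≤ D := Nat.cast_nonneg _
  have h1 : 0 ≤ D * a := by positivity
  calc (1 : ℝ) = 1 * 1 := by norm_num
    _ ≤ a * (D * a + 2 + ε) := mul_le_mul ha (by linarith) (by norm_num) (by linarith)

theorem esc_cls {D : ℕ} {a ε : ℝ} (ha : 1 ≤ a) (hε : 0 < ε) {P : ℂ[X]} (hP : Cls D a P) {z : ℂ}
    (hz : a * (D * a + 2 + ε) < ‖z‖) {s : ℂ} (hs : ‖s‖ < ε) : 2 * ‖z‖ ≤ ‖P.eval z + s‖ := by
  obtain ⟨h1, h2, h3, h4⟩ := hP
  have hD0 : (0 : ℝ) ≤ D := Nat.cast_nonneg _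
  have hz1 : 1 ≤ ‖z‖ := (one_le_rad D ha hε).trans hz.le
  obtain ⟨d, hd⟩ : ∃ d, P.natDegree = d + 1 := ⟨P.natDegree - 1, by omega⟩
  have e1 : P.eval z = ∑ i ∈ Finset.range (d + 1), P.coeff i * z ^ i + P.leadingCoeff * z ^ (d + 1) := by
    rw [eval_eq_sum_range, hd, Finset.sum_range_succ, leadingCoeff, hd]
  have h5 : ‖∑ i ∈ Finset.range (d + 1), P.coeff i * z ^ i‖ ≤ D * a * ‖z‖ ^ d := by
    refine (norm_sum_le _ _).trans ?_
    have h6 : ∀ i ∈ Finset.range (d + 1), ‖P.coeff i * z ^ i‖ ≤ a * ‖z‖ ^ d := by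
      intro i hi
      rw [Finset.mem_range, Nat.lt_succ_iff] at hi
      rw [norm_mul, norm_pow]
      exact mul_le_mul (h3 i) (pow_le_pow_right₀ hz1 hi) (by positivity) (by linarith)
    refine (Finset.sum_le_sum h6).trans ?_
    rw [Finset.sum_const, Finset.card_range, nsmul_eq_mul]
    have h7 : ((d + 1 : ℕ) : ℝ) ≤ D := by
      rw [← hd]
      exact_mod_cast h2
    have h8 : 0 ≤ a * ‖z‖ ^ d := by positivity
    calc ((d + 1 : ℕ) : ℝ) * (a * ‖z‖ ^ d) ≤ D * (a * ‖z‖ ^ d) := by gcongr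
      _ = D * a * ‖z‖ ^ d := by ring
  have h6 : ‖z‖ ^ d * (D * a + 2 + ε) ≤ ‖P.leadingCoeff * z ^ (d + 1)‖ := by
    rw [norm_mul, norm_pow, pow_succ]
    have h7 : D * a + 2 + ε ≤ ‖z‖ * (1 / a) := by
      rw [mul_one_div, le_div_iff₀ (by linarith)]
      linarith
    calc ‖z‖ ^ d * (D * a + 2 + ε) ≤ ‖z‖ ^ d * (‖z‖ * (1 / a)) := by gcongr
      _ = 1 / a * (‖z‖ ^ d * ‖z‖) := by ring
      _ ≤ ‖P.leadingCoeff‖ * (‖z‖ ^ d * ‖z‖) := by gcongr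
  have h7 : ‖z‖ ^ d * (2 + ε) ≤ ‖P.eval z‖ := by
    rw [e1]
    have h8 := norm_sub_norm_le (P.leadingCoeff * z ^ (d + 1))
      (-∑ i ∈ Finset.range (d + 1), P.coeff i * z ^ i)
    rw [norm_neg, sub_neg_eq_add, add_comm (P.leadingCoeff * z ^ (d + 1))] at h8
    have h9 : ‖z‖ ^ d * (D * a + 2 + ε) = ‖z‖ ^ d * (2 + ε) + D * a * ‖z‖ ^ d := by ring
    linarith
  have h8 : ‖z‖ ≤ ‖z‖ ^ d := by
    calc ‖z‖ = ‖z‖ ^ 1 := (pow_one _).symm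
      _ ≤ ‖z‖ ^ d := pow_le_pow_right₀ hz1 (by omega)
  have h9 : ‖P.eval z‖ - ‖s‖ ≤ ‖P.eval z + s‖ := by
    have := norm_sub_norm_le (P.eval z) (-s)
    rwa [norm_neg, sub_neg_eq_add] at this
  nlinarith

theorem fam_exists (D : ℕ) {a ε : ℝ} (ha : 1 ≤ a) (hε : 0 < ε) : ∃ (R : ℝ) (lam : ℕ), 1 ≤ R ∧
    ∀ T : ℕ → ℂ[X], (∀ i, Cls D a (T i)) → Fam T ε R (2 ^ lam) := by
  have hD0 : (0 : ℝ) ≤ D := Nat.cast_nonneg _
  set R : ℝ := a * (D * a + 2 + ε) with hR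
  have hR1 : 1 ≤ R := one_le_rad D ha hε
  obtain ⟨lam, hlam⟩ := pow_unbounded_of_one_lt
    (max 2 (((D : ℝ) + 1) * (a * (D * (R + 3) ^ D)))) (one_lt_two : (1 : ℝ) < 2)
  refine ⟨R, lam, hR1, fun T hT => ⟨hε, hR1, (le_max_left _ _).trans hlam.le, ?_, ?_⟩⟩
  · intro i z hz s hs
    exact esc_cls ha hε (hT i) hz hs
  · intro i u v hu hv
    refine (lip_cls ha (hT i) (by linarith : 1 ≤ R + 3) hu hv).trans ?_
    apply mul_le_mul_of_nonneg_right _ (norm_nonneg _)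
    exact (le_max_right _ _).trans hlam.le

/-- A power of a number smaller than one beats a cubic polynomial in the exponent. -/
theorem choose_h {η : ENNReal} (hη : η < 1) (C : ℕ) : ∃ h : ℕ, 0 < h ∧
    (1 + 4 * η ^ h) ^ (C * h ^ 3) ≤ 2 := by
  have hηt : η ≠ ⊤ := (hη.trans ENNReal.one_lt_top).ne
  set y := η.toReal with hy
  have hy0 : 0 ≤ y := ENNReal.toReal_nonneg
  have hy1 : y < 1 := by
    rw [← ENNReal.toReal_one]
    exact (ENNReal.toReal_lt_toReal hηt ENNReal.one_ne_top).2 hη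
  have hlim := tendsto_pow_const_mul_const_pow_of_abs_lt_one 3 (r := y) (by
    rw [abs_of_nonneg hy0]; exact hy1)
  have hpos : (0 : ℝ) < 1 / (8 * (C + 1)) := by positivity
  obtain ⟨h, hh0, hh⟩ := ((eventually_gt_atTop 0).and (hlim.eventually_lt_const hpos)).exists
  refine ⟨h, hh0, ?_⟩
  have e : η = ENNReal.ofReal y := (ENNReal.ofReal_toReal hηt).symm
  have e1 : (1 + 4 * η ^ h) ^ (C * h ^ 3) = ENNReal.ofReal ((1 + 4 * y ^ h) ^ (C * h ^ 3)) := by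
    rw [ENNReal.ofReal_pow (by positivity), ENNReal.ofReal_add (by norm_num) (by positivity),
      ENNReal.ofReal_mul (by norm_num), ENNReal.ofReal_pow hy0, ← e]
    norm_num
  rw [e1]
  have e2 : (2 : ENNReal) = ENNReal.ofReal 2 := by norm_num
  rw [e2]
  apply ENNReal.ofReal_le_ofReal
  have h1 : (1 + 4 * y ^ h) ^ (C * h ^ 3) ≤ Real.exp (((C * h ^ 3 : ℕ) : ℝ) * (4 * y ^ h)) := by
    rw [Real.exp_nat_mul]
    apply pow_le_pow_left₀ (by positivity)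
    have := Real.add_one_le_exp (4 * y ^ h)
    linarith
  refine h1.trans ?_
  have h2 : ((C * h ^ 3 : ℕ) : ℝ) * (4 * y ^ h) ≤ 1 / 2 := by
    push_cast
    have h3 : (C : ℝ) * (h ^ 3 * y ^ h) ≤ (C + 1) * (1 / (8 * (C + 1))) := by
      apply mul_le_mul (by linarith) hh.le (by positivity) (by positivity)
    have h4 : ((C : ℝ) + 1) * (1 / (8 * (C + 1))) = 1 / 8 := by field_simp
    nlinarith
  calc Real.exp (((C * h ^ 3 : ℕ) : ℝ) * (4 * y ^ h)) ≤ Real.exp (1 / 2) := Real.exp_le_exp.2 h2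
    _ ≤ 2 := by
      have h3 := Real.exp_one_lt_d9
      have h4 : Real.exp (1 / 2) * Real.exp (1 / 2) = Real.exp 1 := by
        rw [← Real.exp_add]; norm_num
      nlinarith [Real.exp_pos (1 / 2)]

theorem large_lt_one {ε : ℝ} (hε : 0 < ε) {ν : Measure ℂ} (hν : Law ε ν) :
    ν {s : ℂ | ε / 2 < ‖s‖} < 1 := by
  have := hν.prob
  have h1 := hν.full 0 (mem_ball_self hε) (ε / 2) (by linarith)
  have h2 : ν {s : ℂ | ε / 2 < ‖s‖} ≤ ν (ball (0 : ℂ) (ε / 2))ᶜ := by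
    apply measure_mono
    intro s hs hs'
    rw [mem_ball_zero_iff] at hs'
    have : ε / 2 < ‖s‖ := hs
    linarith
  refine lt_of_le_of_lt h2 ?_
  rw [prob_compl_eq_one_sub measurableSet_ball]
  exact ENNReal.sub_lt_self ENNReal.one_ne_top one_ne_zero h1

/-- The constants of the construction. -/
structure Consts (ε R : ℝ) (lam : ℕ) (ν : Measure ℂ) (h₀ m₁ : ℕ) : Prop where
  pos : 0 < h₀
  exp : ((2 : ℝ) ^ lam) ^ h₀ * (8 * (R + 2) / ε) * 4 ≤ kap ε R (2 ^ lam) ^ m₁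
  noise : (1 + 4 * ν {s : ℂ | ε / 2 < ‖s‖} ^ h₀) ^
    (8 * (m₁ + 1) * (lam * ((m₁ + 1) * h₀) + 2)) ≤ 2

theorem exists_consts {ε R : ℝ} {lam : ℕ} {ν : Measure ℂ} (hε : 0 < ε) (hR : 1 ≤ R)
    (hν : Law ε ν) : ∃ h₀ m₁, Consts ε R lam ν h₀ m₁ := by
  have hk : 1 < kap ε R (2 ^ lam) := by
    have : 0 < ε / (8 * 2 ^ lam * (R + 2)) := by positivity
    unfold kap
    linarith
  obtain ⟨C₂, hC₂⟩ := pow_unbounded_of_one_lt ((2 : ℝ) ^ lam) hk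
  obtain ⟨C₃, hC₃⟩ := pow_unbounded_of_one_lt (8 * (R + 2) / ε * 4) hk
  obtain ⟨C₅, hC₅⟩ : ∃ C₅, C₅ = C₂ + C₃ + 1 := ⟨_, rfl⟩
  obtain ⟨h, hh, hle⟩ := choose_h (large_lt_one hε hν) (8 * C₅ * (lam * C₅ + 2))
  refine ⟨h, C₂ * h + C₃, hh, ?_, ?_⟩
  · rw [pow_add, pow_mul, mul_assoc]
    have h1 : ((2 : ℝ) ^ lam) ^ h ≤ (kap ε R (2 ^ lam) ^ C₂) ^ h :=
      pow_le_pow_left₀ (by positivity) hC₂.le h
    exact mul_le_mul h1 hC₃.le (by positivity) (by positivity)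
  · refine le_trans (pow_le_pow_right₀ (by exact le_self_add) ?_) hle
    have h1 : C₂ * h + C₃ + 1 ≤ C₅ * h := by
      have h2 : C₃ * 1 ≤ C₃ * h := Nat.mul_le_mul_left _ hh
      rw [hC₅]
      have : (C₂ + C₃ + 1) * h = C₂ * h + C₃ * h + h := by ring
      omega
    have h2 : lam * ((C₂ * h + C₃ + 1) * h) + 2 ≤ (lam * C₅ + 2) * h ^ 2 := by
      have h3 : lam * ((C₂ * h + C₃ + 1) * h) ≤ lam * (C₅ * h * h) :=
        Nat.mul_le_mul_left _ (Nat.mul_le_mul_right _ h1)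
      have h4 : 2 * 1 ≤ 2 * h ^ 2 := Nat.mul_le_mul_left _ (Nat.one_le_pow _ _ hh)
      have h5 : (lam * C₅ + 2) * h ^ 2 = lam * (C₅ * h * h) + 2 * h ^ 2 := by ring
      omega
    calc 8 * (C₂ * h + C₃ + 1) * (lam * ((C₂ * h + C₃ + 1) * h) + 2)
        ≤ 8 * (C₅ * h) * ((lam * C₅ + 2) * h ^ 2) :=
          Nat.mul_le_mul (Nat.mul_le_mul_left _ h1) h2
      _ = 8 * C₅ * (lam * C₅ + 2) * h ^ 3 := by ring

end Pool.Agent.J4.H85.UC
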