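import Mathlib
import Pool.Agent.J4.H85.UC8

/-! The main theorem on compositions of arbitrary polynomials with noise. -/

set_option autoImplicit false

open Filter Topology Set Metric Polynomial MeasureTheory

namespace Pool.Agent.J4.H85.UC

open Pool.Agent.J4.H85.NC (Law A A_mono measurable_A A_const lintegral_update Hyp ae_small pow_rate)

/-- The radius. -/
noncomputable def dlt (ε : ℝ) (lam ℓ : ℕ) : ℝ := min 1 (ε / 4) / ((2 : ℝ) ^ lam) ^ ℓ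

theorem dlt_pos {ε : ℝ} (hε : 0 < ε) (lam ℓ : ℕ) : 0 < dlt ε lam ℓ := by
  unfold dlt
  have : 0 < min 1 (ε / 4) := lt_min one_pos (by linarith)
  positivity

theorem mul_dlt {ε : ℝ} (lam ℓ : ℕ) : ((2 : ℝ) ^ lam) ^ ℓ * dlt ε lam ℓ = min 1 (ε / 4) := by
  unfold dlt
  field_simp

theorem dlt_le {ε : ℝ} (hε : 0 < ε) (lam ℓ : ℕ) : dlt ε lam ℓ ≤ 1 := by
  have h1 := mul_dlt (ε := ε) lam ℓ
  have h2 : (1 : ℝ) ≤ ((2 : ℝ) ^ lam) ^ ℓ := one_le_pow₀ (one_le_pow₀ (by norm_num))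
  have h3 := dlt_pos hε lam ℓ
  have h4 : min 1 (ε / 4) ≤ 1 := min_le_left _ _
  nlinarith

/-- The bad blocks. -/
def Bd (T : ℕ → ℂ[X]) (ε R : ℝ) (h₀ m₁ : ℕ) (τ : ℕ → ℂ) (k : ℕ) (z : ℂ) : Prop :=
  BW T ε R ((m₁ + 1) * h₀) k z ∨ ¬ GoodNoise ε h₀ m₁ τ k

variable {T : ℕ → ℂ[X]} {ε R : ℝ} {lam h₀ m₁ : ℕ} {ν : Measure ℂ} {M : ℕ}

theorem blocks (hT : Fam T ε R (2 ^ lam)) (hC : Consts ε R lam ν h₀ m₁) {τ : ℕ → ℂ}
    (hτ : ∀ i, ‖τ i‖ < ε) :
    Blocks T τ ((m₁ + 1) * h₀) (Bd T ε R h₀ m₁ τ) (lam * ((m₁ + 1) * h₀))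
      (dlt ε lam ((m₁ + 1) * h₀)) R := by
  have h1 := mul_dlt (ε := ε) lam ((m₁ + 1) * h₀)
  refine ⟨dlt_pos hT.eps _ _, dlt_le hT.eps _ _, ?_, ?_⟩
  · intro k z hz u hu v hv
    unfold Bd BW at hz
    push Not at hz
    exact contract hT hτ hz.1 hz.2 (dlt_pos hT.eps _ _) (h1.le.trans (min_le_left _ _))
      (h1.le.trans (min_le_right _ _)) hC.exp hu hv
  · intro k z hz u hu v hv
    rw [pow_mul]
    exact lip_block hT hτ hz (dlt_pos hT.eps _ _) (h1.le.trans (min_le_left _ _)) hu hv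

theorem Bd_per (hT : ∀ i, T (i + M) = T i) {τ : ℕ → ℂ} (hτ : ∀ i, τ (i + M) = τ i) (k : ℕ) (z : ℂ) :
    Bd T ε R h₀ m₁ τ (k + M) z ↔ Bd T ε R h₀ m₁ τ k z := by
  unfold Bd BW
  rw [W_per hT]
  have : GoodNoise ε h₀ m₁ τ (k + M) ↔ GoodNoise ε h₀ m₁ τ k := by
    unfold GoodNoise
    have e : ∀ a i, τ (k + M + (a * h₀ + i)) = τ (k + (a * h₀ + i)) := by
      intro a i
      have e' : k + M + (a * h₀ + i) = k + (a * h₀ + i) + M := by ring
      rw [e', hτ]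
    simp only [e]
  rw [this]

theorem det (hM : 0 < M) (hT : Fam T ε R (2 ^ lam)) (hper : ∀ i, T (i + M) = T i)
    (hC : Consts ε R lam ν h₀ m₁) {t : Fin M → ℂ} (ht : ∀ i, ‖t i‖ < ε) {K N : ℕ} {E : Set ℂ}
    (hN : 2 * (4 + (lam * ((m₁ + 1) * h₀) + 2) * (2 * K)) + lam * ((m₁ + 1) * h₀) ≤ N)
    (hEf : E.Finite)
    (hE : ∀ z : ℂ, ‖z‖ ≤ R + 1 → ∃ u ∈ E, ‖u - z‖ ≤ dlt ε lam ((m₁ + 1) * h₀) / 8)
    (n1 : ∀ k < M, cntE ε h₀ (tau hM t) k (N * (m₁ + 1)) ≤ K)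
    (n2 : ∀ k < M, ∀ u ∈ E, ∀ n ≤ N, ‖G T (tau hM t) ((m₁ + 1) * h₀) k n u‖ ≤ R + 1 →
      cnt T (tau hM t) ((m₁ + 1) * h₀) (BW T ε R ((m₁ + 1) * h₀)) k u n ≤ K)
    (n3 : ∀ k < M, ∀ c : ℂ, (derivative (T k)).eval c = 0 → ∀ n ≤ N,
      ‖G T (tau hM t) ((m₁ + 1) * h₀) k n c‖ ≤ R + 1 →
      cnt T (tau hM t) ((m₁ + 1) * h₀) (BW T ε R ((m₁ + 1) * h₀)) k c n ≤ K) :
    Hyp (comps T (tau hM t) M) := by
  have hs : ∀ i, ‖tau hM t i‖ < ε := fun i => ht _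
  have hτ : ∀ i, tau hM t (i + M) = tau hM t i := tau_per hM t
  have hsum : ∀ k < M, ∀ (u : ℂ) (n : ℕ), n ≤ N →
      cnt T (tau hM t) ((m₁ + 1) * h₀) (BW T ε R ((m₁ + 1) * h₀)) k u n ≤ K →
      cnt T (tau hM t) ((m₁ + 1) * h₀) (Bd T ε R h₀ m₁ (tau hM t)) k u n ≤ 2 * K := by
    intro k hk u n hn h
    have h1 := cnt_or (T := T) (τ := tau hM t) (ℓ := (m₁ + 1) * h₀)
      (BW T ε R ((m₁ + 1) * h₀)) (fun k _ => ¬ GoodNoise ε h₀ m₁ (tau hM t) k) k u n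
    have h2 := cntBN_le (T := T) (ε := ε) (h₀ := h₀) (m₁ := m₁) (τ := tau hM t) (k := k) (z := u) n
    have h3 : cntE ε h₀ (tau hM t) k (n * (m₁ + 1)) ≤ cntE ε h₀ (tau hM t) k (N * (m₁ + 1)) :=
      cntE_mono _ _ _ (Nat.mul_le_mul_right _ hn)
    have h4 := n1 k hk
    have h5 : cnt T (tau hM t) ((m₁ + 1) * h₀) (Bd T ε R h₀ m₁ (tau hM t)) k u n ≤
        cnt T (tau hM t) ((m₁ + 1) * h₀) (BW T ε R ((m₁ + 1) * h₀)) k u n +
        cnt T (tau hM t) ((m₁ + 1) * h₀)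
          (fun k _ => ¬ GoodNoise ε h₀ m₁ (tau hM t) k) k u n := h1
    omega
  have hcper : ∀ (r k : ℕ) (u : ℂ) (n : ℕ),
      cnt T (tau hM t) ((m₁ + 1) * h₀) (Bd T ε R h₀ m₁ (tau hM t)) (k + r * M) u n =
      cnt T (tau hM t) ((m₁ + 1) * h₀) (Bd T ε R h₀ m₁ (tau hM t)) k u n := by
    intro r
    induction r with
    | zero => intro k u n; simp
    | succ r ih =>
      intro k u n
      have e : k + (r + 1) * M = k + r * M + M := by ring
      rw [e, cnt_per hper hτ (Bd_per hper hτ), ih]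
  refine criterion hT hs hper hτ hM (Nat.mul_pos (Nat.succ_pos _) hC.pos) (blocks hT hC hs) hN hEf
    hE ?_ ?_
  · intro k u hu n hn hG
    have e : k = k % M + k / M * M := by
      rw [Nat.mul_comm]
      exact (Nat.mod_add_div k M).symm
    rw [e] at hG ⊢
    unfold G at hG
    rw [orb_per' hper hτ] at hG
    rw [hcper]
    exact hsum _ (Nat.mod_lt _ hM) _ _ hn (n2 _ (Nat.mod_lt _ hM) u hu n hn hG)
  · intro k hk c hc n hn hG
    exact hsum _ hk _ _ hn (n3 k hk c hc n hn hG)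

/-- The estimate of the measure. -/
theorem meas (hM : 0 < M) (hT : Fam T ε R (2 ^ lam)) (hper : ∀ i, T (i + M) = T i)
    (hν : Law ε ν) (hC : Consts ε R lam ν h₀ m₁) {D : ℕ}
    (hD : ∀ i, (T i).natDegree ≤ D ∧ 2 ≤ (T i).natDegree) {K N : ℕ}
    {E : Finset ℂ}
    (hN : 2 * (4 + (lam * ((m₁ + 1) * h₀) + 2) * (2 * K)) + lam * ((m₁ + 1) * h₀) ≤ N)
    (hNM : N * ((m₁ + 1) * h₀) ≤ M)
    (hNK : N ≤ 8 * (lam * ((m₁ + 1) * h₀) + 2) * (K + 1))
    (hE : ∀ z : ℂ, ‖z‖ ≤ R + 1 → ∃ u ∈ E, ‖u - z‖ ≤ dlt ε lam ((m₁ + 1) * h₀) / 8)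
    {θ : ENNReal} (hθ2 : 2⁻¹ ≤ θ) (hθ1 : θ ≤ 1)
    (hθ : ∀ k z, z ∉ W T ε R k ((m₁ + 1) * h₀) → Aq T ν k ((m₁ + 1) * h₀) (near R) z ≤ θ) :
    (Measure.pi fun _ : Fin M => ν) {t | ¬ Hyp (comps T (tau hM t) M)} ≤
      M * (1 + (N + 1) * (E.card + D)) * θ ^ (K + 1) := by
  classical
  have := hν.prob
  set μ := Measure.pi fun _ : Fin M => ν with hμ
  have hθ0 : θ ≠ 0 := by
    intro h
    rw [h] at hθ2
    simp at hθ2
  set ℓ := (m₁ + 1) * h₀ with hℓ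
  have hdP : ∀ i, derivative (T i) ≠ 0 := by
    intro i h0
    have := Polynomial.derivative_eq_zero.1 h0
    have := (hD i).2
    omega
  set F : ℕ → Finset ℂ := fun k => E ∪ (derivative (T k)).roots.toFinset with hF
  have hFc : ∀ k, (F k).card ≤ E.card + D := by
    intro k
    refine (Finset.card_union_le _ _).trans ?_
    gcongr
    refine (Multiset.toFinset_card_le _).trans ((card_roots' _).trans ?_)
    rw [natDegree_derivative]
    have := (hD k).1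
    omega
  set S1 : ℕ → Set (Fin M → ℂ) := fun k => {t | K + 1 ≤ cntE ε h₀ (tau hM t) k (N * (m₁ + 1))} with hS1
  set S2 : ℕ → ℕ → ℂ → Set (Fin M → ℂ) := fun k n u => {t | ‖G T (tau hM t) ℓ k n u‖ ≤ R + 1 ∧
      K + 1 ≤ cnt T (tau hM t) ℓ (BW T ε R ℓ) k u n} with hS2
  have hsub : {t : Fin M → ℂ | ¬ Hyp (comps T (tau hM t) M)} ⊆
      {t | ¬ ∀ i, ‖t i‖ < ε} ∪
        ⋃ k ∈ Finset.range M, (S1 k ∪ ⋃ n ∈ Finset.range (N + 1), ⋃ u ∈ F k, S2 k n u) := by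
    intro t ht
    by_cases hs : ∀ i, ‖t i‖ < ε
    · right
      by_contra hcon
      apply ht
      have hcon' : ∀ k < M, t ∉ S1 k ∧ ∀ n ≤ N, ∀ u ∈ F k, t ∉ S2 k n u := by
        intro k hk
        constructor
        · intro h
          apply hcon
          rw [mem_iUnion₂]
          exact ⟨k, Finset.mem_range.2 hk, Or.inl h⟩
        · intro n hn u hu h
          apply hcon
          rw [mem_iUnion₂]
          refine ⟨k, Finset.mem_range.2 hk, Or.inr ?_⟩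
          rw [mem_iUnion₂]
          refine ⟨n, Finset.mem_range.2 (by omega), ?_⟩
          rw [mem_iUnion₂]
          exact ⟨u, hu, h⟩
      refine det hM hT hper hC hs hN (E.finite_toSet) (fun z hz => by
        obtain ⟨u, hu, h⟩ := hE z hz
        exact ⟨u, Finset.mem_coe.2 hu, h⟩) ?_ ?_ ?_
      · intro k hk
        by_contra h
        exact (hcon' k hk).1 (show K + 1 ≤ _ by omega)
      · intro k hk u hu n hn hG
        by_contra h
        exact (hcon' k hk).2 n hn u (Finset.mem_union_left _ (Finset.mem_coe.1 hu))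
          ⟨hG, Nat.succ_le_of_lt (not_le.1 h)⟩
      · intro k hk c hc n hn hG
        by_contra h
        exact (hcon' k hk).2 n hn c (Finset.mem_union_right _
          (Multiset.mem_toFinset.2 ((mem_roots (hdP k)).2 hc))) ⟨hG, Nat.succ_le_of_lt (not_le.1 h)⟩
    · exact Or.inl hs
  have h0 : μ {t | ¬ ∀ i, ‖t i‖ < ε} = 0 := by
    have := ae_small (L := M) hν
    rwa [ae_iff] at this
  have hS1m : ∀ k, μ (S1 k) ≤ θ ^ (K + 1) := by
    intro k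
    have e1 : N * (m₁ + 1) * h₀ = N * ((m₁ + 1) * h₀) := by ring
    refine (noise_prob hM hν h₀ k (N * (m₁ + 1)) (by rw [e1]; exact hNM) (K + 1)).trans ?_
    have h1 : N * (m₁ + 1) ≤ 8 * (m₁ + 1) * (lam * ((m₁ + 1) * h₀) + 2) * (K + 1) := by
      calc N * (m₁ + 1) ≤ 8 * (lam * ((m₁ + 1) * h₀) + 2) * (K + 1) * (m₁ + 1) :=
            Nat.mul_le_mul_right _ hNK
        _ = _ := by ring
    have h2 : (1 + 4 * ν {s : ℂ | ε / 2 < ‖s‖} ^ h₀) ^ (N * (m₁ + 1)) ≤ 2 ^ (K + 1) := by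
      refine (pow_le_pow_right₀ (by exact le_self_add) h1).trans ?_
      rw [pow_mul]
      exact pow_le_pow_left₀ zero_le hC.noise _
    calc (1 + 4 * ν {s : ℂ | ε / 2 < ‖s‖} ^ h₀) ^ (N * (m₁ + 1)) * 4⁻¹ ^ (K + 1)
        ≤ 2 ^ (K + 1) * 4⁻¹ ^ (K + 1) := by gcongr
      _ = (2 * 4⁻¹) ^ (K + 1) := (mul_pow _ _ _).symm
      _ = 2⁻¹ ^ (K + 1) := by
          congr 1
          have e4 : (4 : ENNReal) = 2 * 2 := by norm_num
          rw [e4, ENNReal.mul_inv (by simp) (by simp), ← mul_assoc,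
            ENNReal.mul_inv_cancel (by simp) (by simp), one_mul]
      _ ≤ θ ^ (K + 1) := pow_le_pow_left₀ zero_le hθ2 _
  have hS2m : ∀ k, ∀ n ≤ N, ∀ u, μ (S2 k n u) ≤ θ ^ (K + 1) := by
    intro k n hn u
    exact trials_prob hM hT hν hθ0 hθ1 hθ k u n ((Nat.mul_le_mul_right _ hn).trans hNM) (K + 1)
  refine (measure_mono hsub).trans ((measure_union_le _ _).trans ?_)
  rw [h0, zero_add]
  refine (measure_biUnion_finset_le _ _).trans ?_
  have h1 : ∀ k ∈ Finset.range M, μ (S1 k ∪ ⋃ n ∈ Finset.range (N + 1), ⋃ u ∈ F k, S2 k n u) ≤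
      (1 + (N + 1) * (E.card + D)) * θ ^ (K + 1) := by
    intro k _
    refine (measure_union_le _ _).trans ?_
    rw [add_mul, one_mul]
    gcongr
    · exact hS1m k
    · refine (measure_biUnion_finset_le _ _).trans ?_
      have h2 : ∀ n ∈ Finset.range (N + 1), μ (⋃ u ∈ F k, S2 k n u) ≤
          (E.card + D) * θ ^ (K + 1) := by
        intro n hn
        rw [Finset.mem_range] at hn
        refine (measure_biUnion_finset_le _ _).trans ?_
        refine (Finset.sum_le_sum fun u _ => hS2m k n (by omega) u).trans ?_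
        rw [Finset.sum_const, nsmul_eq_mul]
        gcongr
        exact_mod_cast hFc k
      refine (Finset.sum_le_sum h2).trans ?_
      rw [Finset.sum_const, nsmul_eq_mul, Finset.card_range, mul_assoc]
      push_cast
      exact le_rfl
  refine (Finset.sum_le_sum h1).trans ?_
  rw [Finset.sum_const, nsmul_eq_mul, Finset.card_range, mul_assoc]

end Pool.Agent.J4.H85.UC
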