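import Mathlib
import Pool.Agent.J4.H85.UC9

/-! Exponentially small probability; existence of sparse perturbations. -/

set_option autoImplicit false

open Filter Topology Set Metric Polynomial MeasureTheory

namespace Pool.Agent.J4.H85.UC

open Pool.Agent.J4.H85.NC (Law Hyp ae_small pow_rate law_uniform)

theorem exists_net (r : ℝ) {δ : ℝ} (hδ : 0 < δ) : ∃ E : Finset ℂ, ∀ z : ℂ, ‖z‖ ≤ r →
    ∃ u ∈ E, ‖u - z‖ ≤ δ := by
  obtain ⟨t, ht, hcov⟩ := Metric.totallyBounded_iff.1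
    (isCompact_closedBall (0 : ℂ) r).totallyBounded δ hδ
  refine ⟨ht.toFinset, fun z hz => ?_⟩
  have h1 := hcov (mem_closedBall_zero_iff.2 hz)
  rw [mem_iUnion₂] at h1
  obtain ⟨u, hu, huz⟩ := h1
  refine ⟨u, (Set.Finite.mem_toFinset ht).2 hu, ?_⟩
  rw [mem_ball, dist_eq_norm, norm_sub_rev] at huz
  exact huz.le

theorem nat_aux {M ℓ b : ℕ} (hℓ : 0 < ℓ) (hM : 2 * ℓ * (8 + b) ≤ M) :
    2 * (4 + (b + 2) * (2 * (M / 2 / (4 * (b + 2) * ℓ)))) + b ≤ M / ℓ ∧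
    M / ℓ ≤ 8 * (b + 2) * (M / 2 / (4 * (b + 2) * ℓ) + 1) := by
  set m := 4 * (b + 2) * ℓ with hm
  have hm0 : 0 < m := by positivity
  have e : M / 2 / m = M / (2 * m) := Nat.div_div_eq_div_mul _ _ _
  rw [e]
  set K := M / (2 * m) with hK
  have h1 : K * (2 * m) ≤ M := Nat.div_mul_le_self _ _
  have h2 : M < (K + 1) * (2 * m) := by
    have := Nat.lt_div_mul_add (a := M) (b := 2 * m) (by omega)
    rw [← hK] at this
    linarith
  constructor
  · rw [Nat.le_div_iff_mul_le hℓ]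
    have e1 : (2 * (4 + (b + 2) * (2 * K)) + b) * ℓ = ℓ * (8 + b) + 4 * ((b + 2) * K * ℓ) := by ring
    have e2 : K * (2 * m) = 8 * ((b + 2) * K * ℓ) := by rw [hm]; ring
    have e3 : 2 * ℓ * (8 + b) = 2 * (ℓ * (8 + b)) := by ring
    rw [e1]
    rw [e2] at h1
    rw [e3] at hM
    omega
  · apply Nat.le_of_lt
    rw [Nat.div_lt_iff_lt_mul hℓ]
    have e2 : (K + 1) * (2 * m) = 8 * (b + 2) * (K + 1) * ℓ := by rw [hm]; ring
    rw [← e2]
    exact h2

theorem exp_aux {c : ℝ} (hc : 0 < c) (M : ℕ) :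
    ((M : ℝ) + 1) ^ 2 ≤ (1 + 4 / c) ^ 2 * Real.exp (c / 2 * M) := by
  have hM0 : (0 : ℝ) ≤ M := Nat.cast_nonneg _
  have h2 : (M : ℝ) + 1 ≤ (1 + 4 / c) * Real.exp (c / 4 * M) := by
    have h3 : c / 4 * M + 1 ≤ Real.exp (c / 4 * M) := Real.add_one_le_exp _
    have h4 : 1 ≤ Real.exp (c / 4 * M) := Real.one_le_exp (by positivity)
    have h5 : 4 / c * (c / 4 * M + 1) ≤ 4 / c * Real.exp (c / 4 * M) :=
      mul_le_mul_of_nonneg_left h3 (by positivity)
    have h6 : 4 / c * (c / 4 * M + 1) = M + 4 / c := by field_simp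
    rw [h6] at h5
    have h7 : (0 : ℝ) < 4 / c := by positivity
    linarith
  have h3 : Real.exp (c / 2 * M) = Real.exp (c / 4 * M) ^ 2 := by
    rw [← Real.exp_nat_mul]
    congr 1
    push_cast
    ring
  rw [h3, ← mul_pow]
  exact pow_le_pow_left₀ (by positivity) h2 2

/-- **Main theorem** (periodic form). -/
theorem main (D : ℕ) {a ε : ℝ} (ha : 1 ≤ a) (hε : 0 < ε) {ν : Measure ℂ} (hν : Law ε ν) :
    ∃ C c : ℝ, 1 ≤ C ∧ 0 < c ∧ ∀ (M : ℕ) (hM : 0 < M) (T : ℕ → ℂ[X]), (∀ i, Cls D a (T i)) →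
      (∀ i, T (i + M) = T i) →
      (Measure.pi fun _ : Fin M => ν) {t | ¬ Hyp (comps T (tau hM t) M)} ≤
        ENNReal.ofReal (C * Real.exp (-(c * M))) := by
  classical
  have := hν.prob
  obtain ⟨R, lam, hR, hfam⟩ := fam_exists D ha hε
  obtain ⟨h₀, m₁, hC⟩ := exists_consts (lam := lam) hε hR hν
  obtain ⟨ℓ, hℓ⟩ : ∃ ℓ, ℓ = (m₁ + 1) * h₀ := ⟨_, rfl⟩
  have hℓ0 : 0 < ℓ := by rw [hℓ]; exact Nat.mul_pos (Nat.succ_pos _) hC.pos
  obtain ⟨b, hb⟩ : ∃ b, b = lam * ℓ := ⟨_, rfl⟩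
  obtain ⟨c₀, hc0, hc₀⟩ := exists_c₀ hε hν (r := rad (2 ^ lam) ℓ) (by
    unfold rad
    positivity)
  have hc1 : c₀ ≤ 1 := (hc₀ 0 (mem_closedBall_self hε.le)).trans prob_le_one
  set θ : ENNReal := max (1 - c₀ ^ ℓ) 2⁻¹ with hθ
  have hθ1 : θ < 1 := by
    apply max_lt
    · exact ENNReal.sub_lt_self ENNReal.one_ne_top one_ne_zero (pow_ne_zero _ hc0)
    · exact ENNReal.inv_lt_one.2 (by norm_num)
  have hθ2 : 2⁻¹ ≤ θ := le_max_right _ _
  have hθW : ∀ T : ℕ → ℂ[X], (∀ i, Cls D a (T i)) → ∀ k z, z ∉ W T ε R k ℓ →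
      Aq T ν k ℓ (near R) z ≤ θ := by
    intro T hT k z hz
    have h1 := trial (hfam T hT) hν hc₀ hz
    have h2 := Aq_sum (T := T) (R := R) hν k ℓ z
    refine le_trans ?_ (le_max_left _ _)
    apply ENNReal.le_sub_of_add_le_right
      (ne_top_of_le_ne_top ENNReal.one_ne_top (pow_le_one₀ zero_le hc1))
    rw [← h2]
    gcongr
  obtain ⟨E, hE⟩ := exists_net (R + 1) (δ := dlt ε lam ℓ / 8)
    (by have := dlt_pos hε lam ℓ; positivity)
  have hm0 : 0 < 4 * (b + 2) * ℓ := by positivity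
  obtain ⟨c, hc, hrate⟩ := pow_rate hθ1 hm0
  -- the constants
  obtain ⟨Q, hQ⟩ : ∃ Q : ℝ, Q = ((E.card : ℝ) + D + 1) * (1 + 4 / c) ^ 2 * 2 := ⟨_, rfl⟩
  have hQ0 : 0 ≤ Q := by rw [hQ]; positivity
  refine ⟨max (Real.exp (c / 2 * ((2 * ℓ * (8 + b) : ℕ) : ℝ))) Q, c / 2, ?_, by positivity, ?_⟩
  · exact (Real.one_le_exp (by positivity)).trans (le_max_left _ _)
  intro M hM T hT hper
  by_cases hMs : M ≤ 2 * ℓ * (8 + b)
  · refine prob_le_one.trans ?_
    rw [← ENNReal.ofReal_one]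
    apply ENNReal.ofReal_le_ofReal
    rw [Real.exp_neg, ← div_eq_mul_inv, one_le_div (Real.exp_pos _)]
    refine le_trans ?_ (le_max_left _ _)
    apply Real.exp_le_exp.2
    have : (M : ℝ) ≤ ((2 * ℓ * (8 + b) : ℕ) : ℝ) := by exact_mod_cast hMs
    gcongr
  · obtain ⟨n1, n2⟩ := nat_aux (b := b) hℓ0 (by omega : 2 * ℓ * (8 + b) ≤ M)
    have h1 := meas (D := D) hM (hfam T hT) hper hν hC (fun i => ⟨(hT i).2.1, (hT i).1⟩)
      (K := M / 2 / (4 * (b + 2) * ℓ)) (N := M / ℓ) (E := E)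
      (by rw [← hℓ, ← hb]; exact n1) (by rw [← hℓ]; exact Nat.div_mul_le_self _ _)
      (by rw [← hℓ, ← hb]; exact n2) (by rw [← hℓ]; exact hE) hθ2 hθ1.le
      (by rw [← hℓ]; exact hθW T hT)
    refine h1.trans ?_
    have h2 : θ ^ (M / 2 / (4 * (b + 2) * ℓ) + 1) ≤ ENNReal.ofReal (2 * Real.exp (-(c * M))) := by
      refine le_trans ?_ (hrate M)
      exact pow_le_pow_right_of_le_one' hθ1.le (Nat.le_succ _)
    have h3 : (M : ENNReal) * (1 + (((M / ℓ : ℕ) : ENNReal) + 1) * (E.card + D)) ≤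
        ENNReal.ofReal (((E.card : ℝ) + D + 1) * ((M : ℝ) + 1) ^ 2) := by
      have h4 : M * (1 + (M / ℓ + 1) * (E.card + D)) ≤ (E.card + D + 1) * (M + 1) ^ 2 := by
        have h5 : M / ℓ ≤ M := Nat.div_le_self _ _
        calc M * (1 + (M / ℓ + 1) * (E.card + D)) ≤ (M + 1) * ((M + 1) + (M + 1) * (E.card + D)) := by
              apply Nat.mul_le_mul (by omega)
              apply Nat.add_le_add (by omega)
              exact Nat.mul_le_mul_right _ (by omega)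
          _ = (E.card + D + 1) * (M + 1) ^ 2 := by ring
      have h6 : ((M * (1 + (M / ℓ + 1) * (E.card + D)) : ℕ) : ENNReal) ≤
          (((E.card + D + 1) * (M + 1) ^ 2 : ℕ) : ENNReal) := by exact_mod_cast h4
      have e1 : ENNReal.ofReal (((E.card : ℝ) + D + 1) * ((M : ℝ) + 1) ^ 2) =
          (((E.card + D + 1) * (M + 1) ^ 2 : ℕ) : ENNReal) := by
        rw [← ENNReal.ofReal_natCast]
        congr 1
        push_cast
        ring
      rw [e1]
      refine le_trans (le_of_eq ?_) h6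
      push_cast
      ring
    calc (M : ENNReal) * (1 + (((M / ℓ : ℕ) : ENNReal) + 1) * (E.card + D)) *
          θ ^ (M / 2 / (4 * (b + 2) * ℓ) + 1)
        ≤ ENNReal.ofReal (((E.card : ℝ) + D + 1) * ((M : ℝ) + 1) ^ 2) *
          ENNReal.ofReal (2 * Real.exp (-(c * M))) := mul_le_mul' h3 h2
      _ = ENNReal.ofReal ((((E.card : ℝ) + D + 1) * ((M : ℝ) + 1) ^ 2) *
          (2 * Real.exp (-(c * M)))) := (ENNReal.ofReal_mul (by positivity)).symm
      _ ≤ _ := by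
        apply ENNReal.ofReal_le_ofReal
        have h4 := exp_aux hc M
        have h5 : ((E.card : ℝ) + D + 1) * ((M : ℝ) + 1) ^ 2 * (2 * Real.exp (-(c * M))) ≤
            ((E.card : ℝ) + D + 1) * ((1 + 4 / c) ^ 2 * Real.exp (c / 2 * M)) *
              (2 * Real.exp (-(c * M))) := by gcongr
        refine h5.trans ?_
        have h6 : ((E.card : ℝ) + D + 1) * ((1 + 4 / c) ^ 2 * Real.exp (c / 2 * M)) *
              (2 * Real.exp (-(c * M))) = Q * (Real.exp (c / 2 * M) * Real.exp (-(c * M))) := by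
          rw [hQ]
          ring
        rw [h6, ← Real.exp_add]
        have h7 : c / 2 * (M : ℝ) + -(c * M) = -(c / 2 * M) := by ring
        rw [h7]
        exact mul_le_mul_of_nonneg_right (le_max_right _ _) (Real.exp_pos _).le

end Pool.Agent.J4.H85.UC
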