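import Mathlib
import Pool.Agent.J4.H85.UC10

/-! Sparse perturbations. -/

set_option autoImplicit false

open Filter Topology Set Metric Polynomial MeasureTheory

namespace Pool.Agent.J4.H85.UC

open Pool.Agent.J4.H85.NC (Law Hyp ae_small pow_rate law_uniform)

/-- The uniform distribution on the disc. -/
noncomputable def unif (ε : ℝ) : Measure ℂ :=
  (volume (ball (0 : ℂ) ε))⁻¹ • volume.restrict (ball (0 : ℂ) ε)

/-- The mixture of the Dirac measure at the origin and the uniform distribution on the disc. -/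
noncomputable def mix (ε : ℝ) (p : ENNReal) : Measure ℂ :=
  (1 - p) • Measure.dirac 0 + p • unif ε

theorem law_mix {ε : ℝ} (hε : 0 < ε) {p : ENNReal} (hp0 : p ≠ 0) (hp1 : p ≤ 1) :
    Law ε (mix ε p) := by
  have hu : Law ε (unif ε) := law_uniform hε
  have := hu.prob
  refine ⟨⟨?_⟩, ?_, ?_⟩
  · unfold mix
    simp only [Measure.add_apply, Measure.smul_apply, smul_eq_mul, measure_univ, mul_one]
    exact tsub_add_cancel_of_le hp1
  · unfold mix
    simp only [Measure.add_apply, Measure.smul_apply, smul_eq_mul, hu.supp, mul_zero, add_zero]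
    rw [Measure.dirac_apply' _ measurableSet_ball.compl, indicator_of_notMem (by simpa using hε),
      mul_zero]
  · intro x hx r hr
    unfold mix
    simp only [Measure.add_apply, Measure.smul_apply, smul_eq_mul]
    intro h0
    rw [add_eq_zero] at h0
    exact mul_ne_zero hp0 (hu.full x hx r hr) h0.2

theorem mix_ne_zero {ε : ℝ} (hε : 0 < ε) {p : ENNReal} : mix ε p {s : ℂ | s ≠ 0} ≤ p := by
  have hu : Law ε (unif ε) := law_uniform hε
  have := hu.prob
  have hm : MeasurableSet {s : ℂ | s ≠ 0} := (measurableSet_singleton (0 : ℂ)).compl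
  unfold mix
  simp only [Measure.add_apply, Measure.smul_apply, smul_eq_mul]
  rw [Measure.dirac_apply' _ hm, indicator_of_notMem (by simp), mul_zero, zero_add]
  calc p * unif ε {s : ℂ | s ≠ 0} ≤ p * 1 := by
        gcongr
        exact prob_le_one
    _ = p := mul_one p

theorem sparse (D : ℕ) {a ε : ℝ} (ha : 1 ≤ a) (hε : 0 < ε) {ρ : ℝ} (hρ : 0 < ρ) :
    ∃ M₀ : ℕ, ∀ (M : ℕ) (hM : 0 < M), M₀ ≤ M → ∀ T : ℕ → ℂ[X], (∀ i, Cls D a (T i)) →
      (∀ i, T (i + M) = T i) → ∃ t : Fin M → ℂ, (∀ i, ‖t i‖ < ε) ∧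
        (({i | t i ≠ 0} : Set (Fin M)).ncard : ℝ) ≤ ρ * M ∧ Hyp (comps T (tau hM t) M) := by
  classical
  obtain ⟨q, hq⟩ : ∃ q : ℝ, q = min ρ 1 / 4 := ⟨_, rfl⟩
  have hq0 : 0 < q := by
    have : 0 < min ρ 1 := lt_min hρ one_pos
    rw [hq]; linarith
  have hq1 : q ≤ 1 := by
    have : min ρ 1 ≤ 1 := min_le_right _ _
    rw [hq]; linarith
  have hqρ : q ≤ ρ / 4 := by
    have : min ρ 1 ≤ ρ := min_le_left _ _
    rw [hq]; linarith
  set p : ENNReal := ENNReal.ofReal q with hp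
  have hp0 : p ≠ 0 := by
    rw [hp, Ne, ENNReal.ofReal_eq_zero, not_le]
    exact hq0
  have hp1 : p ≤ 1 := by
    rw [hp, ← ENNReal.ofReal_one]
    exact ENNReal.ofReal_le_ofReal hq1
  have hν := law_mix hε hp0 hp1
  have := hν.prob
  obtain ⟨C, c, hC, hc, hmain⟩ := main D ha hε hν
  -- choose `M₀`
  obtain ⟨M₀, hM₀⟩ := exists_nat_ge (4 * C / c)
  refine ⟨M₀, fun M hM hMM T hT hper => ?_⟩
  have hMr : (0 : ℝ) < M := by exact_mod_cast hM
  have h1 : C * Real.exp (-(c * M)) ≤ 1 / 4 := by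
    have h2 : 4 * C / c ≤ M := hM₀.trans (by exact_mod_cast hMM)
    rw [div_le_iff₀ hc] at h2
    have h3 : 4 * C ≤ Real.exp (c * M) := by
      have := Real.add_one_le_exp (c * (M : ℝ))
      linarith
    rw [Real.exp_neg, ← div_eq_mul_inv, div_le_iff₀ (Real.exp_pos _)]
    linarith
  set μ := Measure.pi fun _ : Fin M => mix ε p with hμ
  set f : (Fin M → ℂ) → ENNReal := fun t => ∑ i : Fin M, ({s : ℂ | s ≠ 0}.indicator 1) (t i) with hf
  have hm : MeasurableSet {s : ℂ | s ≠ 0} := (measurableSet_singleton (0 : ℂ)).compl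
  have hmi : Measurable ({s : ℂ | s ≠ 0}.indicator (1 : ℂ → ENNReal)) :=
    measurable_one.indicator hm
  have hfm : Measurable f := Finset.measurable_fun_sum _ fun i _ => hmi.comp (measurable_pi_apply i)
  have hint : ∫⁻ t, f t ∂μ ≤ M * p := by
    have hs : ∫⁻ t, f t ∂μ = ∑ i : Fin M, ∫⁻ t : Fin M → ℂ,
        ({s : ℂ | s ≠ 0}.indicator (1 : ℂ → ENNReal)) (t i) ∂μ :=
      lintegral_finsetSum _ (fun i _ => hmi.comp (measurable_pi_apply i))
    rw [hs]
    have h2 : ∀ i ∈ (Finset.univ : Finset (Fin M)),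
        ∫⁻ t : Fin M → ℂ, ({s : ℂ | s ≠ 0}.indicator (1 : ℂ → ENNReal)) (t i) ∂μ ≤ p := by
      intro i _
      have h3 := (measurePreserving_eval (fun _ : Fin M => mix ε p) i).lintegral_comp hmi
      rw [hμ, h3, lintegral_indicator_one hm]
      exact mix_ne_zero hε
    refine (Finset.sum_le_sum h2).trans ?_
    simp
  have hmark := (mul_meas_ge_le_lintegral (μ := μ) hfm (ENNReal.ofReal (ρ * M))).trans hint
  have h4 : μ {t | ENNReal.ofReal (ρ * M) ≤ f t} ≤ 1 / 4 := by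
    have h5 : ENNReal.ofReal (ρ * M) ≠ 0 := by
      rw [Ne, ENNReal.ofReal_eq_zero, not_le]
      positivity
    have h6 : (M : ENNReal) * p ≤ 1 / 4 * ENNReal.ofReal (ρ * M) := by
      have e1 : (M : ENNReal) * p = ENNReal.ofReal (M * q) := by
        rw [hp, ENNReal.ofReal_mul (Nat.cast_nonneg _), ENNReal.ofReal_natCast]
      have e2 : (1 / 4 : ENNReal) = ENNReal.ofReal (1 / 4) := by
        rw [ENNReal.ofReal_div_of_pos (by norm_num)]
        norm_num
      rw [e1, e2, ← ENNReal.ofReal_mul (by norm_num)]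
      apply ENNReal.ofReal_le_ofReal
      nlinarith
    have h7 : μ {t | ENNReal.ofReal (ρ * M) ≤ f t} * ENNReal.ofReal (ρ * M) ≤
        1 / 4 * ENNReal.ofReal (ρ * M) := by
      rw [mul_comm]
      exact hmark.trans h6
    exact (ENNReal.mul_le_mul_iff_left h5 ENNReal.ofReal_ne_top).1 h7
  have h5 : μ {t | ¬ Hyp (comps T (tau hM t) M)} ≤ 1 / 4 := by
    refine (hmain M hM T hT hper).trans ?_
    have e2 : (1 / 4 : ENNReal) = ENNReal.ofReal (1 / 4) := by
      rw [ENNReal.ofReal_div_of_pos (by norm_num)]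
      norm_num
    rw [e2]
    exact ENNReal.ofReal_le_ofReal h1
  have h0 : μ {t | ¬ ∀ i, ‖t i‖ < ε} = 0 := by
    have := ae_small (L := M) hν
    rwa [ae_iff] at this
  have hex : ∃ t, t ∉ {t | ¬ Hyp (comps T (tau hM t) M)} ∪
      ({t | ENNReal.ofReal (ρ * M) ≤ f t} ∪ {t | ¬ ∀ i, ‖t i‖ < ε}) := by
    by_contra hcon
    have hcon : ∀ t, t ∈ {t | ¬ Hyp (comps T (tau hM t) M)} ∪
      ({t | ENNReal.ofReal (ρ * M) ≤ f t} ∪ {t | ¬ ∀ i, ‖t i‖ < ε}) := by
      intro t
      by_contra h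
      exact hcon ⟨t, h⟩
    have h6 : (univ : Set (Fin M → ℂ)) ⊆ {t | ¬ Hyp (comps T (tau hM t) M)} ∪
      ({t | ENNReal.ofReal (ρ * M) ≤ f t} ∪ {t | ¬ ∀ i, ‖t i‖ < ε}) := fun t _ => hcon t
    have h7 : μ univ ≤ 1 / 4 + (1 / 4 + 0) := by
      refine (measure_mono h6).trans ((measure_union_le _ _).trans ?_)
      refine add_le_add h5 ((measure_union_le _ _).trans (add_le_add h4 h0.le))
    rw [measure_univ, add_zero] at h7
    have e2 : (1 / 4 : ENNReal) = ENNReal.ofReal (1 / 4) := by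
      rw [ENNReal.ofReal_div_of_pos (by norm_num)]
      norm_num
    rw [e2, ← ENNReal.ofReal_add (by norm_num) (by norm_num), ← ENNReal.ofReal_one,
      ENNReal.ofReal_le_ofReal_iff (by norm_num)] at h7
    norm_num at h7
  obtain ⟨t, ht⟩ := hex
  simp only [mem_union, mem_ofPred_eq, not_or, not_not, not_le] at ht
  obtain ⟨ht1, ht2, ht3⟩ := ht
  refine ⟨t, ht3, ?_, ht1⟩
  have h8 : f t = (({i | t i ≠ 0} : Set (Fin M)).ncard : ENNReal) := by
    rw [hf]
    simp only [indicator_apply, Pi.one_apply, mem_ofPred_eq]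
    rw [Finset.sum_ite, Finset.sum_const_zero, add_zero, Finset.sum_const, nsmul_eq_mul, mul_one]
    congr 1
    rw [← Set.ncard_coe_finset]
    congr 1
    ext i
    simp
  rw [h8, ← ENNReal.ofReal_natCast, ENNReal.ofReal_lt_ofReal_iff (by positivity)] at ht2
  exact ht2.le

end Pool.Agent.J4.H85.UC
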